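import Pool.Agent.P.MP_0cc987_co.Num

/-! Voronoi cells around a maximal separated set of safe points, and the arcs between them. -/

namespace Pool.Agent.P.MP_0cc987_co

open Set

namespace ArcSysAux

variable {V : Type*} {G : SimpleGraph V} {𝓑 : Set (Set V)} {t : ℕ}

theorem out_mono {b : Set V} {v : V} {n m : ℕ} (h : n ≤ m) : Out G b v n ⊆ Out G b v m :=
  fun _ hx => WkLe.le hx h

/-- Two different points of a blob have no common close point outside the blob edges. -/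
theorem sep2 (hF : Fam G 𝓑 t) {b : Set V} (hb : b ∈ 𝓑) {w w' x : V} (hw : w ∈ b) (hw' : w' ∈ b)
    {n n' : ℕ} (h : x ∈ Out G b w n) (h' : x ∈ Out G b w' n') (hn : n + n' ≤ 10 * t) : w = w' :=
  hF.sep b hb w hw w' hw' ((WkLe.trans h (WkLe.symm h')).le hn)

theorem hit (hF : Fam G 𝓑 t) {b Y : Set V} (hb : b ∈ 𝓑) {w z y : V} (hw : w ∈ b) (hwY : w ∉ Y)
    {n n' : ℕ} (hz : z ∈ Out G b w n) (h : WkLe G Y z y n') (hn : n + n' ≤ 10 * t) :
    y ∈ Out G b w (n + n') ∧ y ∉ b := by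
  rcases h.avoid_or_hit b with h1 | ⟨x, hx, h1, h2⟩
  · refine ⟨WkLe.trans hz (h1.to_cut ?_).univ, h1.right.2⟩
    intro a ha
    exact (ha.1.2 ha.2).elim
  · exfalso
    have h3 : WkLe (cut G b) ((Y \ b) ∪ {x}) z x n' := h1.to_cut (by
      rintro a ⟨ha | ha, ha'⟩ a' ⟨hb' | hb', hb''⟩
      · exact (ha.2 ha').elim
      · exact (ha.2 ha').elim
      · exact (hb'.2 hb'').elim
      · exact ha.trans hb'.symm)
    have h4 := hF.sep b hb w hw x hx ((WkLe.trans hz h3.univ).le hn)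
    exact hwY (h4 ▸ h2.left)

/-- A maximal separated subset. -/
theorem exists_net [Fintype V] (G : SimpleGraph V) (A : Set V) (n : ℕ) :
    ∃ C : Finset V, (∀ c ∈ C, c ∈ A) ∧ (∀ c ∈ C, ∀ c' ∈ C, WkLe G univ c c' n → c = c') ∧
      ∀ a ∈ A, ∃ c ∈ C, WkLe G univ c a n := by
  classical
  obtain ⟨C, hC, hmax⟩ := Finset.exists_max_image
    (Finset.univ.filter fun C : Finset V =>
      (∀ c ∈ C, c ∈ A) ∧ ∀ c ∈ C, ∀ c' ∈ C, WkLe G univ c c' n → c = c') Finset.card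
    ⟨∅, by simp⟩
  obtain ⟨h1, h2⟩ := (Finset.mem_filter.1 hC).2
  refine ⟨C, h1, h2, fun a ha => ?_⟩
  by_contra hne
  push Not at hne
  have haC : a ∉ C := fun h => hne a h (WkLe.refl (mem_univ _) _)
  have := hmax (insert a C) (Finset.mem_filter.2 ⟨Finset.mem_univ _, ?_, ?_⟩)
  · rw [Finset.card_insert_of_notMem haC] at this
    omega
  · intro c hc
    rcases Finset.mem_insert.1 hc with rfl | hc
    · exact ha
    · exact h1 c hc
  · intro c hc c' hc' hw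
    rcases Finset.mem_insert.1 hc with h | h <;> rcases Finset.mem_insert.1 hc' with h' | h'
    · exact h.trans h'.symm
    · exact (hne c' h' (h ▸ hw).symm).elim
    · exact (hne c h (h' ▸ hw)).elim
    · exact h2 c h c' h' hw

/-- Voronoi cells of bounded radius. -/
theorem exists_cells (G : SimpleGraph V) (C : Finset V) (r ρ : ℕ) (hr : r ≤ ρ)
    (hsep : ∀ c ∈ C, ∀ c' ∈ C, WkLe G univ c c' (2 * r) → c = c') :
    ∃ (cell : V → Set V) (own : V → V),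
      (∀ c c' w, w ∈ cell c → w ∈ cell c' → c = c') ∧
      (∀ c, ∀ w ∈ cell c, WkLe G (cell c) c w ρ) ∧
      (∀ c ∈ C, ∀ w, WkLe G univ c w r → w ∈ cell c) ∧
      ∀ c ∈ C, ∀ w, WkLe G univ c w ρ → own w ∈ C ∧ w ∈ cell (own w) := by
  obtain ⟨dep, par, own, h1, h2⟩ := bfs G univ (↑C : Set V)
  refine ⟨fun c => {w | (∃ c' ∈ (↑C : Set V), Rch G univ c' w) ∧ own w = c ∧ dep w ≤ ρ}, own,
    fun c c' w hw hw' => hw.2.1.symm.trans hw'.2.1, ?_, ?_, ?_⟩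
  · rintro c w ⟨hw1, rfl, hw3⟩
    refine ((h2 w hw1).2.2.2.2.mono ?_).le hw3
    rintro x ⟨hx1, hx2, hx3⟩
    refine ⟨hx1, hx2, ?_⟩
    rcases hx3 with hx3 | rfl <;> omega
  · rintro c hc w ⟨k, hk, hw⟩
    have hr1 : ∃ c' ∈ (↑C : Set V), Rch G univ c' w := ⟨c, hc, hw.rch⟩
    have hd := h1 c hc w k hw
    obtain ⟨h3, h4, -⟩ := h2 w hr1
    exact ⟨hr1, hsep _ h3 c hc ((h4.trans hw.symm).le (by omega)), by omega⟩
  · rintro c hc w ⟨k, hk, hw⟩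
    have hr1 : ∃ c' ∈ (↑C : Set V), Rch G univ c' w := ⟨c, hc, hw.rch⟩
    have hd := h1 c hc w k hw
    exact ⟨(h2 w hr1).1, hr1, rfl, by omega⟩

theorem core [Fintype V] [DecidableEq V] (G : SimpleGraph V) (𝓑 : Set (Set V)) (S : Set V)
    (𝒰 : Set (Set V × V)) (t T N r0 r ρ q q' : ℕ) (hF : Fam G 𝓑 t) (hU : Stuck G 𝓑 S T 𝒰)
    (n1 : r0 + T ≤ r) (n2 : 2 * r + 2 * T + 2 ≤ ρ) (n3 : 2 * q + T + 2 * r0 ≤ t) (n4 : 2 * ρ ≤ t)
    (hsafe : ∀ b v, (b, v) ∈ 𝒰 → ∃ p, WkLe G univ v p T ∧ Safe G S 𝒰 b p q')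
    (harms : ∀ b c, Safe G S 𝒰 b c q' → ∃ 𝒜, N ≤ 𝒜.card ∧ Arms G 𝓑 S 𝒰 t T c r0 q 𝒜)
    (hesc : ∀ b v, Safe G S 𝒰 b v q →
      ∃ y, WkLe (cut G b) (Near G 𝒰 T) v y q ∧
        ∀ u ∈ b, u ≠ v → ∀ c, u ∈ Out G b c t → ¬ WkLe G univ c y ρ) :
    ∃ (C : Finset V) (E : Finset (V × Set V × V × V)) (cell : V → Set V)
      (tl hd z : V × Set V × V × V → V) (al : V × Set V × V × V → Set V),
      C.Nonempty ∧ ArcSys G C E cell tl hd z al (5 * t) ∧ N * C.card ≤ E.card ∧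
      ∀ e ∈ E, ∀ w, w ∈ cell (tl e) ∨ w ∈ al e ∨ w ∈ cell (hd e) →
        ∃ b v, (b, v) ∈ 𝒰 ∧ Rch G univ v w := by
  classical
  obtain ⟨C, hC1, hC2, hC3⟩ := exists_net G {c | ∃ b, Safe G S 𝒰 b c q'} (2 * r)
  obtain ⟨cell, own, hdisj, hrad, hin, hown⟩ := exists_cells G C r ρ (by omega) hC2
  have hnear : ∀ w ∈ Near G 𝒰 T, own w ∈ C ∧ w ∈ cell (own w) := by
    rintro w ⟨b, v, hbv, hw⟩
    obtain ⟨p, hp1, hp2⟩ := hsafe b v hbv
    obtain ⟨c, hc, hcp⟩ := hC3 p ⟨b, hp2⟩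
    exact hown c hc w (((hcp.trans hp1.symm).trans hw).le (by omega))
  have hdiam : ∀ c, ∀ w ∈ cell c, ∀ w' ∈ cell c, WkLe G (cell c) w w' (ρ + ρ) :=
    fun c w hw w' hw' => (hrad c w hw).symm.trans (hrad c w' hw')
  have hball : ∀ c ∈ C, ∀ (b : Set V) w, w ∈ Out G b c r0 → WkLe (cut G b) (cell c) c w r0 := by
    intro c hc b w hw
    refine (WkLe.self_ball hw).mono fun x hx => hin c hc x ?_
    exact (WkLe.monoG hx (cut_le G b)).le (by omega)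
  have hA : ∀ c, ∃ 𝒜 : Finset (Set V × V × V), c ∈ C →
      N ≤ 𝒜.card ∧ Arms G 𝓑 S 𝒰 t T c r0 q 𝒜 := by
    intro c
    by_cases hc : c ∈ C
    · obtain ⟨b, hb⟩ := hC1 c hc
      obtain ⟨𝒜, h𝒜⟩ := harms b c hb
      exact ⟨𝒜, fun _ => h𝒜⟩
    · exact ⟨∅, fun h => (hc h).elim⟩
  choose 𝒜 h𝒜 using hA
  have huv : ∀ c ∈ C, ∀ a ∈ 𝒜 c, WkLe G (cell c ∩ a.1) a.2.1 a.2.2 T := by
    intro c hc a ha
    obtain ⟨-, -, -, -, -, h6⟩ := (h𝒜 c hc).2.mem a ha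
    have h7 : WkLe (cut G a.1) univ c a.2.1 r0 := (h𝒜 c hc).2.out a ha a ha
    refine h6.self_ball.mono fun x hx => ⟨hin c hc x ?_, WkLe.right hx⟩
    exact ((h7.monoG (cut_le _ _)).trans (WkLe.univ hx)).le n1
  have hZ : ∀ e : V × Set V × V × V, ∃ z, e.1 ∈ C → e.2 ∈ 𝒜 e.1 →
      z ∉ cell e.1 ∧ z ∈ Near G 𝒰 T ∧ WkLe (cut G e.2.1) (cell e.1 ∪ {z}) e.2.2.2 z q := by
    rintro ⟨c, a⟩
    by_cases h : c ∈ C ∧ a ∈ 𝒜 c
    · obtain ⟨hc, ha⟩ := h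
      obtain ⟨-, h2, -, h4, h5, -⟩ := (h𝒜 c hc).2.mem a ha
      obtain ⟨y, hy1, hy2⟩ := hesc _ _ h5
      have hy3 : y ∈ (cell c)ᶜ := fun hy =>
        hy2 _ h2 h4 c (out_mono (by omega) ((h𝒜 c hc).2.out a ha a ha)) (hrad c y hy).univ
      obtain ⟨z, hz, h6, h7⟩ := hy1.first_hit hy3
      refine ⟨z, fun _ _ => ⟨hz, h7.left, h6.mono ?_⟩⟩
      rintro x (hx | hx)
      · exact Or.inl (not_notMem.1 hx.2)
      · exact Or.inr hx
    · exact ⟨c, fun h1 h2 => (h ⟨h1, h2⟩).elim⟩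
  choose z hz using hZ
  let E : Finset (V × Set V × V × V) := (C.sigma 𝒜).map (Equiv.sigmaEquivProd _ _).toEmbedding
  have hE : ∀ e, e ∈ E ↔ e.1 ∈ C ∧ e.2 ∈ 𝒜 e.1 := by
    rintro ⟨c, a⟩
    simp [E]
  have hzo : ∀ e ∈ E, z e ∈ Out G e.2.1 e.2.2.2 q := fun e he =>
    (hz e ((hE e).1 he).1 ((hE e).1 he).2).2.2.univ
  have hne : ∀ e ∈ E, e.1 ≠ own (z e) := by
    intro e he h
    obtain ⟨h1, h2, -⟩ := hz e ((hE e).1 he).1 ((hE e).1 he).2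
    exact h1 (h ▸ (hnear _ h2).2)
  refine ⟨C, E, cell, Prod.fst, fun e => own (z e), z, fun e => e.2.1, ?_,
    ⟨fun c _ c' _ w => hdisj c c' w, fun c _ w hw w' hw' => (hdiam c w hw w' hw').le (by omega),
      fun e he => ?_, fun e he y hy => ?_, fun e he e' he' hee htl => ?_⟩, ?_, ?_⟩
  · obtain ⟨⟨b, v⟩, hbv⟩ := hU.ne
    obtain ⟨p, -, hp2⟩ := hsafe b v hbv
    obtain ⟨c, hc, -⟩ := hC3 p ⟨b, hp2⟩
    exact ⟨c, hc⟩
  · obtain ⟨hc, ha⟩ := (hE e).1 he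
    obtain ⟨h1, h2, h3⟩ := hz e hc ha
    obtain ⟨h4, h5⟩ := hnear _ h2
    obtain ⟨m1, -, m3, -⟩ := (h𝒜 _ hc).2.mem _ ha
    refine ⟨hc, h4, hne e he, h5, fun w hw hw' => ?_⟩
    have hv : e.2.2.2 ∉ cell (own (z e)) := fun h =>
      hne e he (hdisj _ _ _ (huv _ hc _ ha).right.1 h)
    exact (hit hF m1 m3 hv (hzo e he) (hdiam _ _ h5 _ hw') (by omega)).2 hw
  · obtain ⟨hc, ha⟩ := (hE e).1 he
    obtain ⟨-, -, h3⟩ := hz e hc ha
    obtain ⟨m1, -, m3, -⟩ := (h𝒜 _ hc).2.mem _ ha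
    have h4 : WkLe G (cell e.1 ∪ e.2.1 ∪ {z e}) e.2.2.2 (z e) q :=
      (h3.monoG (cut_le _ _)).mono (union_subset_union_left _ subset_union_left)
    have h5 : WkLe G (cell e.1 ∪ e.2.1) y e.2.2.2 (4 * t) := by
      rcases hy with hy | hy
      · exact ((hdiam _ _ hy _ (huv _ hc _ ha).right.1).mono subset_union_left).le (by omega)
      · by_cases hyv : y = e.2.2.2
        · rw [hyv]; exact WkLe.refl (S := cell e.1 ∪ e.2.1) (Or.inr m3) _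
        · obtain ⟨x, x', g1, -, -, g2, -⟩ := hF.gad _ m1 y hy _ m3 hyv
          exact (g2.wkLe (by omega)).mono subset_union_right
    exact ((h5.mono subset_union_left).trans h4).le (by omega)
  · obtain ⟨c, a⟩ := e
    obtain ⟨c', a'⟩ := e'
    simp only at htl
    subst htl
    obtain ⟨hc, ha⟩ := (hE _).1 he
    obtain ⟨-, ha'⟩ := (hE _).1 he'
    simp only at hc ha ha' ⊢
    have haa : a ≠ a' := fun h => hee (by rw [h])
    have hAr := (h𝒜 c hc).2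
    obtain ⟨bs, hbs, w, hw, w', hw', hww, d1, d2, d3, d4, d5, d6⟩ := hAr.div a ha a' ha' haa
    obtain ⟨z1, z2, z3⟩ := hz (c, a) hc ha
    obtain ⟨z1', z2', z3'⟩ := hz (c, a') hc ha'
    simp only at z1 z2 z3 z1' z2' z3'
    obtain ⟨m1', m2', m3', m4', -⟩ := hAr.mem a' ha'
    have hdj : ∀ x ∈ a.1, x ∉ a'.1 := fun x hx hx' =>
      hww (sep2 hF hbs hw hw' (d3 hx) (d4 hx') (by omega))
    refine ⟨fun hh => ?_, hdj, ?_⟩
    · have g1 : z (c, a) ∈ Out G bs w (t + r0) := d5 (out_mono (by omega) (hzo _ he))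
      have g2 : z (c, a') ∈ Out G bs w' (t + r0) := d6 (out_mono (by omega) (hzo _ he'))
      have g3 : w ∉ cell (own (z (c, a))) := fun h =>
        hne _ he (hdisj _ _ _ (hin c hc w (d1.le (by omega))) h)
      have g4 := hdiam _ _ (hnear _ z2).2 _ (hh ▸ (hnear _ z2').2)
      have g5 := (hit hF hbs hw g3 g1 g4 (by omega)).1
      exact hww (sep2 hF hbs hw hw' g5 g2 (by omega))
    · have w1 : WkLe (cut G a'.1) (cell c ∪ {z (c, a)}) a.2.2 (z (c, a)) q := by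
        refine ((z3.self_ball.monoG (cut_le _ _)).to_cut ?_).mono fun x hx => WkLe.right hx
        rintro x ⟨hx, hx'⟩
        exact (hww (sep2 hF hbs hw hw' (d5 (out_mono (by omega) (WkLe.univ hx))) (d4 hx')
          (by omega))).elim
      have w2 : WkLe (cut G a'.1) (cell c ∪ {z (c, a)}) a.2.1 a.2.2 T := by
        refine ((huv c hc a ha).to_cut ?_).mono fun x hx => Or.inl hx.1
        rintro x ⟨hx, hx'⟩
        exact (hdj x hx.2 hx').elim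
      have w3 : WkLe (cut G a'.1) (cell c ∪ {z (c, a)}) c a.2.1 r0 :=
        (hball c hc _ _ (hAr.out a ha a' ha')).mono subset_union_left
      have w4 : WkLe (cut G a'.1) (cell c ∪ {z (c, a)}) c a'.2.1 r0 :=
        (hball c hc _ _ (hAr.out a' ha' a' ha')).mono subset_union_left
      obtain ⟨k1, hk1, p1⟩ := (((w4.symm.trans w3).trans w2).trans w1).self_ball.pth
      obtain ⟨k2, hk2, p2⟩ := z3'.self_ball.pth
      obtain ⟨x, x', g1, g2, g3, g4, g5, g6⟩ := hF.gad _ m1' _ m2' _ m3' m4'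
      have key : ∀ k, Pth G a'.1 a'.2.1 a'.2.2 k →
          Pth G (cell c ∪ a'.1 ∪ {z (c, a), z (c, a')}) (z (c, a)) (z (c, a')) (k1 + k + k2) := by
        intro k hk
        have q1 := (p1.symm.monoG (cut_le _ _)).trans hk (fun y hy hy' =>
          (hF.sep _ m1' _ m2' y hy' ((WkLe.univ hy).le (by omega))).symm)
        have q2 := q1.trans (p2.monoG (cut_le _ _)) (by
          rintro y (hy | hy) hy'
          · exact (m4' (sep2 hF m1' m2' m3' (WkLe.univ hy) (WkLe.univ hy') (by omega))).elim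
          · exact (hF.sep _ m1' _ m3' y hy ((WkLe.univ hy').le (by omega))).symm)
        refine q2.mono ?_
        rintro y ((hy | hy) | hy)
        · rcases WkLe.right hy with h | h
          · exact Or.inl (Or.inl h)
          · exact Or.inr (Or.inl h)
        · exact Or.inl (Or.inr hy)
        · rcases WkLe.right hy with h | h
          · exact Or.inl (Or.inl h)
          · exact Or.inr (Or.inr h)
      refine ⟨k1 + x + k2, k1 + x' + k2, by omega, by omega, ?_, key x g4, ?_, key x' g6⟩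
      · obtain ⟨j, hj⟩ := g3
        exact ⟨j + k1 + k2, by omega⟩
      · have := key (x + 2) g5
        rwa [show k1 + (x + 2) + k2 = k1 + x + k2 + 2 by omega] at this
  · rw [Finset.card_map, Finset.card_sigma, mul_comm, ← smul_eq_mul]
    exact Finset.card_nsmul_le_sum C _ _ fun c hc => (h𝒜 c hc).1
  · intro e he w hw
    obtain ⟨hc, ha⟩ := (hE e).1 he
    have hcell : ∀ c ∈ C, w ∈ cell c → ∃ b v, (b, v) ∈ 𝒰 ∧ Rch G univ v w := by
      intro c hc hw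
      obtain ⟨b, hb⟩ := hC1 c hc
      exact ⟨b, c, hb.1, (hrad c w hw).univ.rch⟩
    rcases hw with hw | hw | hw
    · exact hcell _ hc hw
    · obtain ⟨m1, -, m3, -, m5, -⟩ := (h𝒜 _ hc).2.mem _ ha
      refine ⟨_, _, m5.1, ?_⟩
      by_cases hwv : e.2.2.2 = w
      · rw [hwv]; exact Rch.refl (mem_univ _)
      · obtain ⟨x, x', -, -, -, g2, -⟩ := hF.gad _ m1 _ m3 w hw hwv
        exact g2.univ.rch
    · exact hcell _ (hnear _ (hz e hc ha).2.1).1 hw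

end ArcSysAux

variable {V : Type*} [Fintype V] [DecidableEq V]

theorem arc_sys (G : SimpleGraph V) (𝓑 : Set (Set V)) (S : Set V) (𝒰 : Set (Set V × V))
    (t T θ : ℕ) (hF : Fam G 𝓑 t) (hU : Stuck G 𝓑 S T 𝒰) (hT : T ≤ θ) (hθ : 12 ≤ θ)
    (ht : θ ^ 4 ≤ t)
    (hsafe : ∀ b v, (b, v) ∈ 𝒰 → ∃ p, WkLe G univ v p T ∧ Safe G S 𝒰 b p (5 * θ ^ 3))
    (harms : ∀ b c, Safe G S 𝒰 b c (5 * θ ^ 3) →
      ∃ 𝒜, 2 ^ θ ≤ 𝒜.card ∧ Arms G 𝓑 S 𝒰 t T c ((θ + 1) * (θ + 2)) (4 * θ ^ 3) 𝒜)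
    (hesc : ∀ b v, Safe G S 𝒰 b v (4 * θ ^ 3) →
      ∃ y, WkLe (cut G b) (Near G 𝒰 T) v y (4 * θ ^ 3) ∧
        ∀ u ∈ b, u ≠ v → ∀ c, u ∈ Out G b c t → ¬ WkLe G univ c y (3 * θ ^ 2)) :
    ∃ (C : Finset V) (E : Finset (V × Set V × V × V)) (cell : V → Set V)
      (tl hd z : V × Set V × V × V → V) (al : V × Set V × V × V → Set V),
      C.Nonempty ∧ ArcSys G C E cell tl hd z al (5 * t) ∧ 2 ^ θ * C.card ≤ E.card ∧
      ∀ e ∈ E, ∀ w, w ∈ cell (tl e) ∨ w ∈ al e ∨ w ∈ cell (hd e) →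
        ∃ b v, (b, v) ∈ 𝒰 ∧ Rch G univ v w := by
  have h2 : 12 * θ ≤ θ ^ 2 := by nlinarith
  have h3 : 12 * θ ^ 2 ≤ θ ^ 3 := by nlinarith
  have h4 : 12 * θ ^ 3 ≤ θ ^ 4 := by nlinarith
  have e1 : (θ + 1) * (θ + 2) = θ ^ 2 + 3 * θ + 2 := by ring
  have e2 : (θ + 2) ^ 2 = θ ^ 2 + 4 * θ + 4 := by ring
  exact ArcSysAux.core G 𝓑 S 𝒰 t T (2 ^ θ) _ ((θ + 2) ^ 2) _ _ _ hF hU (by omega) (by omega)
    (by omega) (by omega) hsafe harms hesc

end Pool.Agent.P.MP_0cc987_co
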