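import Pool.Agent.P.MP_0cc987_co.Num

/-! Arms and escapes in a stuck configuration. -/

namespace Pool.Agent.P.MP_0cc987_co

open Set

namespace ArmsAux

variable {V : Type*} {G : SimpleGraph V} {𝓑 : Set (Set V)} {S : Set V} {𝒰 : Set (Set V × V)}
  {t T n n' r : ℕ} {b b' : Set V} {v v' u' p x c : V}

theorem out_mono (h : n ≤ n') : Out G b v n ⊆ Out G b v n' := fun _ hx => WkLe.le hx h

theorem safe_mono (h : Safe G S 𝒰 b v n') (hn : n ≤ n') : Safe G S 𝒰 b v n :=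
  ⟨h.1, fun s hs hx => h.2 s hs (out_mono hn hx)⟩

theorem sep (hF : Fam G 𝓑 t) (hb : b ∈ 𝓑) (hv : v ∈ b) (hv' : v' ∈ b) (h1 : x ∈ Out G b v n)
    (h2 : x ∈ Out G b v' n') (hn : n + n' ≤ 10 * t) : v = v' :=
  hF.sep b hb v hv v' hv' ((WkLe.trans h1 (WkLe.symm h2)).le hn)

theorem sep' (hF : Fam G 𝓑 t) (hb : b ∈ 𝓑) (hv : v ∈ b) (hx : x ∈ b) (h1 : x ∈ Out G b v n)
    (hn : n ≤ 10 * t) : v = x :=
  hF.sep b hb v hv x hx (WkLe.le h1 hn)

theorem cut_cut_le (G : SimpleGraph V) (b b' : Set V) : cut (cut G b') b ≤ cut G b :=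
  cut_mono (cut_le G b') b

/-- A walk all of whose vertices avoid `B` is a walk of the cut graph. -/
theorem to_cut_of_ball {G' : SimpleGraph V} {Z B : Set V} {y : V} (hG : G' ≤ G)
    (h : WkLe G' Z x y n) (hB : ∀ w ∈ B, ¬ WkLe G' Z x w n) : WkLe (cut G B) Z x y n := by
  have h1 := h.self_ball.to_cut (b := B) (fun a ha _ _ => (hB a ha.2 ha.1).elim)
  exact (h1.monoG (cut_mono hG B)).mono fun w hw => WkLe.right hw

/-- One step from `(b, v)` to `(b', p)` through the entry point `u'`. -/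
structure Stp (G : SimpleGraph V) (𝓑 : Set (Set V)) (t T : ℕ) (b : Set V) (v : V) (b' : Set V)
    (u' p : V) : Prop where
  hT : T + 2 ≤ t
  hb : b ∈ 𝓑
  hv : v ∈ b
  hb' : b' ∈ 𝓑
  hu : u' ∈ b'
  hp : p ∈ b'
  ne : b' ≠ b
  pu : p ≠ u'
  link : WkLe (cut G b ⊓ cut G b') univ v u' 2
  inn : WkLe G b' u' p T

namespace Stp

theorem link1 (h : Stp G 𝓑 t T b v b' u' p) : WkLe (cut G b) univ v u' 2 :=
  h.link.monoG inf_le_left

theorem link2 (h : Stp G 𝓑 t T b v b' u' p) : WkLe (cut G b') univ v u' 2 :=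
  h.link.monoG inf_le_right

theorem sub (hF : Fam G 𝓑 t) (h : Stp G 𝓑 t T b v b' u' p) : (b' ∩ b).Subsingleton := by
  intro a ha c hc
  by_contra e
  exact h.ne (hF.lin b' h.hb' b h.hb a c e ha.1 hc.1 ha.2 hc.2)

theorem inn1 (hF : Fam G 𝓑 t) (h : Stp G 𝓑 t T b v b' u' p) : WkLe (cut G b) b' u' p T :=
  h.inn.to_cut (h.sub hF)

theorem p_out (hF : Fam G 𝓑 t) (h : Stp G 𝓑 t T b v b' u' p) : p ∈ Out G b v (T + 2) :=
  (h.link1.trans (h.inn1 hF).univ).le (by omega)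

theorem p_near (h : Stp G 𝓑 t T b v b' u' p) : WkLe G univ v p (T + 2) :=
  ((h.link1.monoG (cut_le G b)).trans h.inn.univ).le (by omega)

theorem b_out (hF : Fam G 𝓑 t) (h : Stp G 𝓑 t T b v b' u' p) : b' ⊆ Out G b v (4 * t + 2) := by
  intro w hw
  by_cases e : u' = w
  · subst e
    exact h.link1.le (by omega)
  · obtain ⟨a, _, h1, _, _, h2, _⟩ := hF.gad b' h.hb' u' h.hu w hw e
    exact (h.link1.trans ((h2.wk.le (le_refl a)).to_cut (h.sub hF)).univ).le (by omega)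

theorem not_mem (hF : Fam G 𝓑 t) (h : Stp G 𝓑 t T b v b' u' p) (hn : n ≤ 5 * t)
    (hx : x ∈ Out G b' p n) : x ∉ b := by
  intro hxb
  have hT := h.hT
  obtain ⟨w, hw, h1, _⟩ := WkLe.first_hit hx hxb
  have h2 : WkLe (cut G b) univ p w n := by
    refine ((h1.to_cut (b := b) ?_).monoG (cut_cut_le G b b')).univ
    rintro a ⟨ha | ha, ha'⟩ c ⟨hc | hc, hc'⟩
    · exact (ha.2 ha').elim
    · exact (ha.2 ha').elim
    · exact (hc.2 hc').elim
    · exact ha.trans hc.symm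
  have h3 : v = w := hF.sep b h.hb v h.hv w hw ((WkLe.trans (h.p_out hF) h2).le (by omega))
  subst h3
  exact h.pu (hF.sep b' h.hb' p h.hp u' h.hu ((h1.univ.trans h.link2).le (by omega)))

theorem wk (hF : Fam G 𝓑 t) (h : Stp G 𝓑 t T b v b' u' p) (hn : n ≤ 5 * t) {Z : Set V}
    (hx : WkLe (cut G b') Z p x n) : WkLe (cut G b) Z p x n :=
  to_cut_of_ball (cut_le G b') hx fun _ hw h1 => h.not_mem hF hn h1.univ hw

theorem out_sub (hF : Fam G 𝓑 t) (h : Stp G 𝓑 t T b v b' u' p) (hn : n ≤ 5 * t)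
    (hn' : n + T + 2 ≤ n') : Out G b' p n ⊆ Out G b v n' := fun _ hx =>
  (WkLe.trans (h.p_out hF) (h.wk hF hn hx)).le (by omega)

end Stp

/-- The step lemma. -/
theorem step (hF : Fam G 𝓑 t) (hU : Stuck G 𝓑 S T 𝒰) (hv : Safe G S 𝒰 b v n) (hn : T + 2 ≤ n)
    (hnt : n ≤ t) : ∃ b' u' p q, (b', u') ∈ 𝒰 ∧ p ≠ q ∧ Stp G 𝓑 t T b v b' u' p ∧
      Stp G 𝓑 t T b v b' u' q ∧ Safe G S 𝒰 b' p (n - (T + 2)) ∧
      Safe G S 𝒰 b' q (n - (T + 2)) := by
  obtain ⟨hb, hvb⟩ := hU.mem b v hv.1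
  rcases hU.link b v hv.1 with ⟨s, hs, ha⟩ | ⟨b', u', h1, h2, h3⟩
  · exact (hv.2 s hs ((WkLe.single (mem_univ _) (mem_univ _) ha).le (by omega))).elim
  obtain ⟨hb', hu⟩ := hU.mem b' u' h1
  obtain ⟨p, hp, q, hq, e1, e2, e3, w1, w2, a1, a2⟩ := hU.tri b' u' h1
  have key : ∀ x ∈ b', x ≠ u' → WkLe G b' u' x T → (x ∈ S ∨ (b', x) ∈ 𝒰) →
      Stp G 𝓑 t T b v b' u' x ∧ Safe G S 𝒰 b' x (n - (T + 2)) := by
    intro x hx e w a
    have hs : Stp G 𝓑 t T b v b' u' x := ⟨by omega, hb, hvb, hb', hu, hx, h2, e, h3, w⟩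
    refine ⟨hs, ?_, fun s hs' h => hv.2 s hs' (hs.out_sub hF (by omega) (by omega) h)⟩
    rcases a with a | a
    · exact (hv.2 x a (out_mono hn (hs.p_out hF))).elim
    · exact a
  exact ⟨b', u', p, q, h1, e1, (key p hp e2 w1 a1).1, (key q hq e3 w2 a2).1, (key p hp e2 w1 a1).2,
    (key q hq e3 w2 a2).2⟩

/-- The arms lie behind `c` as seen from `b`. -/
def Beh (G : SimpleGraph V) (t : ℕ) (b : Set V) (c : V) (r : ℕ) (𝒜 : Finset (Set V × V × V)) :
    Prop :=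
  ∀ e ∈ 𝒜, e.1 ⊆ Out G b c (4 * t + r) ∧ Out G e.1 e.2.2 t ⊆ Out G b c (t + r) ∧
    e.2.1 ∈ Out G b c r

/-- The beginning of a walk from the centre avoids the edges of a blob behind `x`. -/
theorem start (hF : Fam G 𝓑 t) {y : V} {B : Set V} (hx : Stp G 𝓑 t T b c b' u' x)
    (hy : Stp G 𝓑 t T b c b' u' y) (hr : r ≤ t) (hB : B ⊆ Out G b' x (4 * t + r)) :
    WkLe (cut G B) univ c y (T + 2) := by
  have hT := hx.hT
  have h1 : WkLe (cut G B) univ u' c 2 :=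
    to_cut_of_ball (cut_le G b') hx.link2.symm fun w hw h =>
      hx.pu (sep hF hx.hb' hx.hp hx.hu (hB hw) h (by omega))
  have h2 : WkLe (cut G B) b' u' y T := by
    refine hy.inn.to_cut fun a ha d hd => ?_
    exact (sep' hF hx.hb' hx.hp ha.1 (hB ha.2) (by omega)).symm.trans
      (sep' hF hx.hb' hx.hp hd.1 (hB hd.2) (by omega))
  exact (h1.symm.trans h2.univ).le (by omega)

theorem arms_aux (hF : Fam G 𝓑 t) (hU : Stuck G 𝓑 S T 𝒰) (Λ n : ℕ) :
    ∀ (n' r : ℕ) (b : Set V) (c : V), (Λ + 1) * (T + 2) ≤ r → n + r ≤ n' → n' ≤ t →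
      Safe G S 𝒰 b c n' →
      ∃ 𝒜, 2 ^ Λ ≤ 𝒜.card ∧ Arms G 𝓑 S 𝒰 t T c r n 𝒜 ∧ Beh G t b c r 𝒜 := by
  classical
  induction Λ with
  | zero =>
    intro n' r b c hr hn hnt hc
    have hr' : T + 2 ≤ r := by simpa using hr
    obtain ⟨b', u', p, q, _, _, hp, _, sp, _⟩ := step hF hU hc (by omega) hnt
    refine ⟨{(b', u', p)}, by simp, ⟨?_, ?_, ?_⟩, ?_⟩
    · intro e he
      rw [Finset.mem_singleton] at he
      subst he
      exact ⟨hp.hb', hp.hu, hp.hp, hp.pu.symm, safe_mono sp (by omega), hp.inn⟩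
    · intro e he e' he'
      rw [Finset.mem_singleton] at he he'
      subst he he'
      exact hp.link2.le (by omega)
    · intro e he e' he' hne
      rw [Finset.mem_singleton] at he he'
      exact (hne (he.trans he'.symm)).elim
    · intro e he
      rw [Finset.mem_singleton] at he
      subst he
      exact ⟨(hp.b_out hF).trans (out_mono (by omega)), hp.out_sub hF (by omega) (by omega),
        hp.link1.le (by omega)⟩
  | succ Λ ih =>
    intro n' r b c hr hn hnt hc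
    have hr1 : (Λ + 1) * (T + 2) + (T + 2) ≤ r := by
      rwa [show (Λ + 1 + 1) * (T + 2) = (Λ + 1) * (T + 2) + (T + 2) by ring] at hr
    obtain ⟨r', rfl⟩ : ∃ r', r = r' + (T + 2) := ⟨r - (T + 2), by omega⟩
    obtain ⟨b', u', p, q, _, hpq, hp, hq, sp, sq⟩ := step hF hU hc (by omega) hnt
    obtain ⟨P, cP, aP, bP⟩ := ih (n' - (T + 2)) r' b' p (by omega) (by omega) (by omega) sp
    obtain ⟨Q, cQ, aQ, bQ⟩ := ih (n' - (T + 2)) r' b' q (by omega) (by omega) (by omega) sq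
    have hrt : r' ≤ t := by omega
    have hd : Disjoint P Q := by
      rw [Finset.disjoint_left]
      intro e h1 h2
      exact hpq (sep hF hp.hb' hp.hp hq.hp (bP e h1).2.2 (bQ e h2).2.2 (by omega))
    have out1 : ∀ {x : V} {X : Finset (Set V × V × V)}, Stp G 𝓑 t T b c b' u' x →
        Arms G 𝓑 S 𝒰 t T x r' n X → Beh G t b' x r' X → ∀ e ∈ X, ∀ e' ∈ X,
        e.2.1 ∈ Out G e'.1 c (r' + (T + 2)) := by
      intro x X hx aX bX e he e' he'
      exact (WkLe.trans (start hF hx hx hrt (bX e' he').1) (aX.out e he e' he')).le (by omega)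
    have out2 : ∀ {x y : V} {X Y : Finset (Set V × V × V)}, x ≠ y → Stp G 𝓑 t T b c b' u' x →
        Stp G 𝓑 t T b c b' u' y → Beh G t b' x r' X → Beh G t b' y r' Y → ∀ e ∈ Y, ∀ e' ∈ X,
        e.2.1 ∈ Out G e'.1 c (r' + (T + 2)) := by
      intro x y X Y hxy hx hy bX bY e he e' he'
      have h1 : WkLe (cut G e'.1) univ y e.2.1 r' :=
        to_cut_of_ball (cut_le G b') (bY e he).2.2 fun w hw h =>
          hxy (sep hF hx.hb' hx.hp hy.hp ((bX e' he').1 hw) h (by omega))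
      exact (WkLe.trans (start hF hx hy hrt (bX e' he').1) h1).le (by omega)
    have div1 : ∀ {x : V} {X : Finset (Set V × V × V)}, Stp G 𝓑 t T b c b' u' x →
        Arms G 𝓑 S 𝒰 t T x r' n X → ∀ e ∈ X, ∀ e' ∈ X, e ≠ e' →
        ∃ b ∈ 𝓑, ∃ w ∈ b, ∃ w' ∈ b, w ≠ w' ∧
          WkLe G univ c w (r' + (T + 2)) ∧ WkLe G univ c w' (r' + (T + 2)) ∧
          e.1 ⊆ Out G b w (4 * t + (r' + (T + 2))) ∧ e'.1 ⊆ Out G b w' (4 * t + (r' + (T + 2))) ∧
          Out G e.1 e.2.2 t ⊆ Out G b w (t + (r' + (T + 2))) ∧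
          Out G e'.1 e'.2.2 t ⊆ Out G b w' (t + (r' + (T + 2))) := by
      intro x X hx aX e he e' he' hne
      obtain ⟨b0, h0, w, hw, w', hw', h1, h2, h3, h4, h5, h6, h7⟩ := aX.div e he e' he' hne
      exact ⟨b0, h0, w, hw, w', hw', h1, (hx.p_near.trans h2).le (by omega),
        (hx.p_near.trans h3).le (by omega), h4.trans (out_mono (by omega)),
        h5.trans (out_mono (by omega)), h6.trans (out_mono (by omega)),
        h7.trans (out_mono (by omega))⟩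
    have div2 : ∀ {x y : V} {X Y : Finset (Set V × V × V)}, x ≠ y → Stp G 𝓑 t T b c b' u' x →
        Stp G 𝓑 t T b c b' u' y → Beh G t b' x r' X → Beh G t b' y r' Y → ∀ e ∈ X, ∀ e' ∈ Y,
        ∃ b ∈ 𝓑, ∃ w ∈ b, ∃ w' ∈ b, w ≠ w' ∧
          WkLe G univ c w (r' + (T + 2)) ∧ WkLe G univ c w' (r' + (T + 2)) ∧
          e.1 ⊆ Out G b w (4 * t + (r' + (T + 2))) ∧ e'.1 ⊆ Out G b w' (4 * t + (r' + (T + 2))) ∧
          Out G e.1 e.2.2 t ⊆ Out G b w (t + (r' + (T + 2))) ∧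
          Out G e'.1 e'.2.2 t ⊆ Out G b w' (t + (r' + (T + 2))) := by
      intro x y X Y hxy hx hy bX bY e he e' he'
      exact ⟨b', hx.hb', x, hx.hp, y, hy.hp, hxy, hx.p_near.le (by omega),
        hy.p_near.le (by omega), (bX e he).1.trans (out_mono (by omega)),
        (bY e' he').1.trans (out_mono (by omega)), (bX e he).2.1.trans (out_mono (by omega)),
        (bY e' he').2.1.trans (out_mono (by omega))⟩
    have beh : ∀ {x : V} {X : Finset (Set V × V × V)}, Stp G 𝓑 t T b c b' u' x →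
        Beh G t b' x r' X → Beh G t b c (r' + (T + 2)) X := by
      intro x X hx bX e he
      exact ⟨(bX e he).1.trans (hx.out_sub hF (by omega) (by omega)),
        (bX e he).2.1.trans (hx.out_sub hF (by omega) (by omega)),
        hx.out_sub hF (by omega) (by omega) (bX e he).2.2⟩
    refine ⟨P ∪ Q, ?_, ⟨?_, ?_, ?_⟩, ?_⟩
    · rw [Finset.card_union_of_disjoint hd, pow_succ]
      omega
    · intro e he
      rcases Finset.mem_union.1 he with h | h
      · exact aP.mem e h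
      · exact aQ.mem e h
    · intro e he e' he'
      rcases Finset.mem_union.1 he with h | h <;> rcases Finset.mem_union.1 he' with h' | h'
      · exact out1 hp aP bP e h e' h'
      · exact out2 hpq.symm hq hp bQ bP e h e' h'
      · exact out2 hpq hp hq bP bQ e h e' h'
      · exact out1 hq aQ bQ e h e' h'
    · intro e he e' he' hne
      rcases Finset.mem_union.1 he with h | h <;> rcases Finset.mem_union.1 he' with h' | h'
      · exact div1 hp aP e h e' h' hne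
      · exact div2 hpq hp hq bP bQ e h e' h'
      · exact div2 hpq.symm hq hp bQ bP e h e' h'
      · exact div1 hq aQ e h e' h' hne
    · intro e he
      rcases Finset.mem_union.1 he with h | h
      · exact beh hp bP e h
      · exact beh hq bQ e h

theorem escape_aux (hF : Fam G 𝓑 t) (hU : Stuck G 𝓑 S T 𝒰) (k : ℕ) :
    ∀ (n : ℕ) (b : Set V) (v : V), k * (T + 2) ≤ n → n ≤ t → Safe G S 𝒰 b v n →
      ∃ y, WkLe (cut G b) (Near G 𝒰 T) v y n ∧
        ∀ u ∈ b, u ≠ v → ∀ c, u ∈ Out G b c t → ¬ WkLe G univ c y k := by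
  induction k with
  | zero =>
    intro n b v _ hnt hv
    obtain ⟨hb, hvb⟩ := hU.mem b v hv.1
    have h0 : v ∈ Near G 𝒰 T := ⟨b, v, hv.1, WkLe.refl (mem_univ _) _⟩
    refine ⟨v, WkLe.refl h0 _, fun u hu hne c hc h => ?_⟩
    obtain rfl := h.eq_of_zero
    exact hne (sep' hF hb hvb hu hc (by omega)).symm
  | succ k ih =>
    intro n b v hk hnt hv
    have hk1 : k * (T + 2) + (T + 2) ≤ n := by
      rwa [show (k + 1) * (T + 2) = k * (T + 2) + (T + 2) by ring] at hk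
    have hk2 : k ≤ k * (T + 2) := Nat.le_mul_of_pos_right _ (by omega)
    obtain ⟨b', u', p, q, hu', _, hp, _, sp, _⟩ := step hF hU hv (by omega) hnt
    obtain ⟨y, h1, h2⟩ := ih (n - (T + 2)) b' p (by omega) (by omega) sp
    have w1 : WkLe (cut G b) (Near G 𝒰 T) v u' 2 :=
      hp.link1.self_ball.mono fun w hw =>
        ⟨b, v, hv.1, (WkLe.monoG hw (cut_le G b)).le (by omega)⟩
    have w2 : WkLe (cut G b) (Near G 𝒰 T) u' p T :=
      (hp.inn1 hF).self_ball.mono fun w hw =>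
        ⟨b', u', hu', (WkLe.monoG hw (cut_le G b)).univ.le (by omega)⟩
    have w3 : WkLe (cut G b) (Near G 𝒰 T) v y n :=
      ((w1.trans w2).trans (hp.wk hF (by omega) h1)).le (by omega)
    refine ⟨y, w3, fun u hu hne c hc h => ?_⟩
    obtain ⟨l, hl, h⟩ := h
    rcases h.avoid_or_last b with h3 | ⟨w, hw, l1, l2, e, h3, h4⟩
    · have h5 : WkLe (cut G b) univ c y (k + 1) :=
        ((h3.to_cut (b := b) fun a ha _ _ => (ha.1.2 ha.2).elim).le hl).univ
      exact hne (hF.sep b hp.hb u hu v hp.hv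
        ((((WkLe.symm hc).trans h5).trans w3.univ.symm).le (by omega)))
    · have h5 : WkLe (cut G b) univ w y l2 := by
        refine ((h4.to_cut (b := b) ?_).le le_rfl).univ
        rintro a ⟨ha | ha, ha'⟩ d ⟨hd | hd, hd'⟩
        · exact (ha.2 ha').elim
        · exact (ha.2 ha').elim
        · exact (hd.2 hd').elim
        · exact ha.trans hd.symm
      have h6 : w = v := hF.sep b hp.hb w hw v hp.hv ((h5.trans w3.univ.symm).le (by omega))
      subst h6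
      have h7 : l1 ≠ 0 := by
        rintro rfl
        obtain rfl := h3.eq_of_zero
        exact hne (sep' hF hp.hb hp.hv hu hc (by omega)).symm
      exact h2 u' hp.hu hp.pu.symm w (hp.link2.le (by omega)) (h4.univ.le (by omega))

end ArmsAux

variable {V : Type*} [DecidableEq V]

theorem safe_near (G : SimpleGraph V) (𝓑 : Set (Set V)) (S : Set V) (𝒰 : Set (Set V × V))
    (t T T' n : ℕ) (hF : Fam G 𝓑 t) (hU : Stuck G 𝓑 S T 𝒰) (hS : Sparse G S T')
    (hn : 2 * n + 2 * T ≤ T') (hnt : n ≤ t) (b : Set V) (v : V) (hv : (b, v) ∈ 𝒰) :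
    ∃ p, WkLe G univ v p T ∧ Safe G S 𝒰 b p n := by
  by_contra hc
  obtain ⟨hb, hvb⟩ := hU.mem b v hv
  obtain ⟨p, hp, q, hq, e1, e2, e3, w1, w2, a1, a2⟩ := hU.tri b v hv
  have key : ∀ x, WkLe G univ v x T → (x ∈ S ∨ (b, x) ∈ 𝒰) → ∃ s ∈ S, s ∈ Out G b x n := by
    intro x w a
    rcases a with a | a
    · exact ⟨x, a, WkLe.refl (mem_univ _) _⟩
    · by_contra h
      exact hc ⟨x, w, a, fun s hs h' => h ⟨s, hs, h'⟩⟩
  obtain ⟨s1, h1, g1⟩ := key v (WkLe.refl (mem_univ _) _) (Or.inr hv)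
  obtain ⟨s2, h2, g2⟩ := key p w1.univ a1
  obtain ⟨s3, h3, g3⟩ := key q w2.univ a2
  have k1 : WkLe G univ v s1 n := WkLe.monoG g1 (cut_le G b)
  have k2 : WkLe G univ p s2 n := WkLe.monoG g2 (cut_le G b)
  have k3 : WkLe G univ q s3 n := WkLe.monoG g3 (cut_le G b)
  rcases hS s1 h1 s2 h2 s3 h3 (((k1.symm.trans w1.univ).trans k2).le (by omega))
    (((k1.symm.trans w2.univ).trans k3).le (by omega))
    ((((k2.symm.trans w1.univ.symm).trans w2.univ).trans k3).le (by omega)) with e | e | e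
  · subst e
    exact e2 (ArmsAux.sep hF hb hp hvb g2 g1 (by omega))
  · subst e
    exact e3 (ArmsAux.sep hF hb hq hvb g3 g1 (by omega))
  · subst e
    exact e1 (ArmsAux.sep hF hb hp hq g2 g3 (by omega))

theorem arms (G : SimpleGraph V) (𝓑 : Set (Set V)) (S : Set V) (𝒰 : Set (Set V × V))
    (t T : ℕ) (hF : Fam G 𝓑 t) (hU : Stuck G 𝓑 S T 𝒰) (Λ n n' r : ℕ)
    (hr : (Λ + 1) * (T + 2) ≤ r) (hn : n + r ≤ n') (hnt : n' ≤ t) (b : Set V) (c : V)
    (hc : Safe G S 𝒰 b c n') : ∃ 𝒜, 2 ^ Λ ≤ 𝒜.card ∧ Arms G 𝓑 S 𝒰 t T c r n 𝒜 := by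
  obtain ⟨𝒜, h1, h2, _⟩ := ArmsAux.arms_aux hF hU Λ n n' r b c hr hn hnt hc
  exact ⟨𝒜, h1, h2⟩

theorem escape (G : SimpleGraph V) (𝓑 : Set (Set V)) (S : Set V) (𝒰 : Set (Set V × V))
    (t T : ℕ) (hF : Fam G 𝓑 t) (hU : Stuck G 𝓑 S T 𝒰) (k n : ℕ) (hk : k * (T + 2) ≤ n)
    (hnt : n ≤ t) (b : Set V) (v : V) (hv : Safe G S 𝒰 b v n) :
    ∃ y, WkLe (cut G b) (Near G 𝒰 T) v y n ∧
      ∀ u ∈ b, u ≠ v → ∀ c, u ∈ Out G b c t → ¬ WkLe G univ c y k :=
  ArmsAux.escape_aux hF hU k n b v hk hnt hv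

end Pool.Agent.P.MP_0cc987_co
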