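import Pool.Agent.P.MP_0cc987_co.Num

/-! The blobs at a gap of the fan sizes form a family with the properties `Fam`. -/

namespace Pool.Agent.P.MP_0cc987_co

open Set

variable {V : Type*}

namespace Blob

variable [DecidableEq V] {G : SimpleGraph V} {t : ℕ} {C : Finset V}

/-- A short path between two vertices of a blob lies in the blob. -/
theorem pth_in (hW : WProp G t) (hC : TCyc G C) (ho : Odd C.card) (hc : C.card ≤ t) {a a' : V}
    (ha : a ∈ blob G t C) (ha' : a' ∈ blob G t C) {S : Set V} {n : ℕ} (hp : Pth G S a a' n)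
    (hn : n ≤ 10 * t) : Pth G (S ∩ blob G t C) a a' n := by
  obtain ⟨T, h1, h2, h3⟩ := hp.tight
  obtain ⟨U, hU, hUc⟩ := ha
  obtain ⟨U', hU', hUc'⟩ := ha'
  have h3t := hC.three
  refine h3.mono fun z hz => ⟨h1 hz, ?_⟩
  obtain ⟨k, l, S1, S2, -, s1, s2, p1, p2, hd⟩ := h3.split_at h2.le hz
  refine hW C z (T ∪ U ∪ U') hC ho hc (fun x hx => ?_) ?_
  · by_cases hx1 : x ∈ S1
    · have hx2 : x ∉ S2 := fun h => hx (hd x hx1 h)
      obtain ⟨y, hy, hr⟩ := hU' x (fun e => hx2 (e ▸ p2.right))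
      refine ⟨y, hy, (p2.rch.mono ?_).trans (hr.mono ?_)⟩
      · intro w hw
        refine ⟨Or.inl ?_, fun e => hx2 (e ▸ hw)⟩
        simp only [Finset.coe_union, mem_union]
        exact Or.inl (Or.inl (s2 hw))
      · rintro w ⟨hw | hw, hw'⟩
        · refine ⟨Or.inl ?_, hw'⟩
          simp only [Finset.coe_union, mem_union]
          exact Or.inr hw
        · exact ⟨Or.inr hw, hw'⟩
    · obtain ⟨y, hy, hr⟩ := hU x (fun e => hx1 (e ▸ p1.left))
      refine ⟨y, hy, (p1.symm.rch.mono ?_).trans (hr.mono ?_)⟩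
      · intro w hw
        refine ⟨Or.inl ?_, fun e => hx1 (e ▸ hw)⟩
        simp only [Finset.coe_union, mem_union]
        exact Or.inl (Or.inl (s1 hw))
      · rintro w ⟨hw | hw, hw'⟩
        · refine ⟨Or.inl ?_, hw'⟩
          simp only [Finset.coe_union, mem_union]
          exact Or.inl (Or.inr hw)
        · exact ⟨Or.inr hw, hw'⟩
  · have e1 := Finset.card_union_le (T ∪ U) U'
    have e2 := Finset.card_union_le T U
    omega

theorem sep (hW : WProp G t) (hC : TCyc G C) (ho : Odd C.card) (hc : C.card ≤ t) {v w : V}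
    (hv : v ∈ blob G t C) (hw : w ∈ blob G t C)
    (h : WkLe (cut G (blob G t C)) univ v w (10 * t)) : v = w := by
  by_contra hvw
  obtain ⟨k, hk, hp⟩ := h.pth
  obtain ⟨T, -, h2, h3⟩ := hp.tight
  have hT : ∀ z ∈ T, z ∈ blob G t C := by
    intro z hz
    obtain ⟨T', a1, a2, -⟩ := (pth_in hW hC ho hc hv hw (h3.monoG (cut_le _ _)) hk).tight
    have e : T' = T := Finset.eq_of_subset_of_card_le (fun y hy => (a1 hy).1) (by omega)
    exact (a1 (e ▸ hz)).2
  obtain ⟨l, rfl⟩ : ∃ l, k = l + 1 := ⟨k - 1, by have := hp.pos hvw; omega⟩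
  obtain ⟨v1, h4, h5⟩ := h3.uncons
  exact h4.2 ⟨hv, hT v1 h5.left.1⟩

theorem sub (hW : WProp G t) (hC : TCyc G C) (ho : Odd C.card) (hc : C.card ≤ t)
    {C' : Finset V} (hC' : TCyc G C') (hc' : C'.card ≤ t) {v w : V} (hvw : v ≠ w)
    (hv : v ∈ blob G t C) (hw : w ∈ blob G t C) (hv' : v ∈ blob G t C') (hw' : w ∈ blob G t C') :
    blob G t C' ⊆ blob G t C := by
  rintro z ⟨Uz, hz, cz⟩
  obtain ⟨Uv, h1, c1⟩ := hv
  obtain ⟨Uw, h2, c2⟩ := hw
  obtain ⟨Uv', h3, c3⟩ := hv'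
  obtain ⟨Uw', h4, c4⟩ := hw'
  refine hW C z (Uz ∪ C' ∪ (Uv ∪ Uv') ∪ (Uw ∪ Uw')) hC ho hc (fun x hx => ?_) ?_
  · have key : ∀ (a : V) (U U' M : Finset V), Fan G C a U → Fan G C' a U' → x ≠ a → Uz ⊆ M →
        C' ⊆ M → U ⊆ M → U' ⊆ M → ∃ y ∈ C, Rch G ((↑M ∪ ↑C) \ {x}) z y := by
      intro a U U' M f1 f2 hxa m1 m2 m3 m4
      obtain ⟨y1, hy1, r1⟩ := hz x hx
      obtain ⟨y2, hy2, r2⟩ := f2 x hxa
      obtain ⟨y, hy, r3⟩ := f1 x hxa
      have r4 := (hC'.wkLe_diff hy1 hy2 r1.right.2 r2.right.2).rch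
      refine ⟨y, hy, (((r1.mono ?_).trans (r4.mono ?_)).trans (r2.symm.mono ?_)).trans
        (r3.mono ?_)⟩
      · rintro q ⟨hq | hq, hq'⟩
        · exact ⟨Or.inl (m1 hq), hq'⟩
        · exact ⟨Or.inl (m2 hq), hq'⟩
      · rintro q ⟨hq, hq'⟩
        exact ⟨Or.inl (m2 hq), hq'⟩
      · rintro q ⟨hq | hq, hq'⟩
        · exact ⟨Or.inl (m4 hq), hq'⟩
        · exact ⟨Or.inl (m2 hq), hq'⟩
      · rintro q ⟨hq | hq, hq'⟩
        · exact ⟨Or.inl (m3 hq), hq'⟩
        · exact ⟨Or.inr hq, hq'⟩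
    by_cases hxv : x = v
    · refine key w Uw Uw' _ h2 h4 (hxv ▸ hvw) ?_ ?_ ?_ ?_ <;> intro q hq <;> simp [hq]
    · refine key v Uv Uv' _ h1 h3 hxv ?_ ?_ ?_ ?_ <;> intro q hq <;> simp [hq]
  · have e1 := Finset.card_union_le (Uz ∪ C' ∪ (Uv ∪ Uv')) (Uw ∪ Uw')
    have e2 := Finset.card_union_le (Uz ∪ C') (Uv ∪ Uv')
    have e3 := Finset.card_union_le Uz C'
    have e4 := Finset.card_union_le Uv Uv'
    have e5 := Finset.card_union_le Uw Uw'
    omega

/-- Two vertices of a blob are joined by short paths of both parities. -/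
theorem both (hM : MengerSt V) (hC : TCyc G C) (ho : Odd C.card) (hc : C.card ≤ t) {a a' : V}
    (haa : a ≠ a') (ha : a ∈ blob G t C) (ha' : a' ∈ blob G t C) :
    ∃ x x', x ≤ 3 * t ∧ x' ≤ 3 * t ∧ Odd (x + x') ∧ Pth G univ a a' x ∧ Pth G univ a a' x' := by
  obtain ⟨U, hU, hUc⟩ := ha
  obtain ⟨U', hU', hUc'⟩ := ha'
  obtain ⟨P, s, e, n, h1, h2⟩ := hM G (↑(U ∪ U') ∪ ↑C) {a, a'} ↑C 2 (by
    intro X hX
    have : Nonempty V := ⟨a⟩
    obtain ⟨x, hx⟩ := Finset.card_le_one_iff_subset_singleton.1 (show X.card ≤ 1 by omega)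
    have hm : ∀ M : Finset V, M ⊆ U ∪ U' →
        (↑M ∪ ↑C : Set V) \ {x} ⊆ (↑(U ∪ U') ∪ ↑C) \ ↑X := by
      rintro M hM q ⟨hq, hq'⟩
      refine ⟨hq.imp (fun h => hM h) id, fun h => hq' ?_⟩
      simpa using hx h
    by_cases hxa : x = a
    · obtain ⟨y, hy, r⟩ := hU' x (hxa ▸ haa)
      exact ⟨a', by simp, y, hy, r.mono (hm _ Finset.subset_union_right)⟩
    · obtain ⟨y, hy, r⟩ := hU x hxa
      exact ⟨a, by simp, y, hy, r.mono (hm _ Finset.subset_union_left)⟩)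
  have key : ∀ i j : Fin 2, i ≠ j → ∃ x x', x ≤ 3 * t ∧ x' ≤ 3 * t ∧ Odd (x + x') ∧
      Pth G univ (s i) (s j) x ∧ Pth G univ (s i) (s j) x' := by
    intro i j hij
    obtain ⟨a1, -, a3, a4, -, a6⟩ := h1 i
    obtain ⟨b1, -, b3, b4, -, b6⟩ := h1 j
    have hd : ∀ x ∈ P i, x ∉ P j := fun x p q => hij (h2 i j x p q)
    have hne : e i ≠ e j := fun h => hd _ a4.right (h ▸ b4.right)
    obtain ⟨T1, t1, c1, p1⟩ := a4.tight
    obtain ⟨T2, t2, c2, p2⟩ := b4.tight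
    have hlen : n i + n j ≤ 2 * t := by
      have d1 : Disjoint (T1.erase (e i)) (T2.erase (e j)) := by
        rw [Finset.disjoint_left]
        intro x p q
        exact hd x (t1 (Finset.mem_of_mem_erase p)) (t2 (Finset.mem_of_mem_erase q))
      have d2 : T1.erase (e i) ∪ T2.erase (e j) ⊆ U ∪ U' := by
        intro x hx
        rcases Finset.mem_union.1 hx with p | p
        · obtain ⟨q1, q2⟩ := Finset.mem_erase.1 p
          rcases a1 (t1 q2) with h | h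
          · exact h
          · exact (q1 (a6 x (t1 q2) h)).elim
        · obtain ⟨q1, q2⟩ := Finset.mem_erase.1 p
          rcases b1 (t2 q2) with h | h
          · exact h
          · exact (q1 (b6 x (t2 q2) h)).elim
      have d3 := Finset.card_le_card d2
      rw [Finset.card_union_of_disjoint d1, Finset.card_erase_of_mem p1.right,
        Finset.card_erase_of_mem p2.right] at d3
      have d4 := Finset.card_union_le U U'
      omega
    obtain ⟨S1, S2, d, d', s1, s2, hdd, -, -, q1, q2, -⟩ := hC.arcs a3 b3 hne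
    have glue : ∀ (S : Set V) (k : ℕ), S ⊆ ↑C → Pth G S (e i) (e j) k →
        Pth G univ (s i) (s j) (n i + k + n j) := by
      intro S k hS q
      refine ((a4.trans q fun x p p' => a6 x p (hS p')).trans b4.symm ?_).univ
      rintro x (p | p) p'
      · exact (hd x p p').elim
      · exact b6 x p' (hS p)
    refine ⟨_, _, by omega, by omega, ?_, glue S1 d s1 q1, glue S2 d' s2 q2⟩
    obtain ⟨r, hr⟩ := ho
    exact ⟨n i + n j + r, by omega⟩
  have hs : s 0 ≠ s 1 := fun h => by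
    have := h2 0 1 (s 0) (h1 0).2.2.2.1.left (h ▸ (h1 1).2.2.2.1.left)
    exact absurd this (by decide)
  rcases (h1 0).2.1 with e0 | e0 <;> rcases (h1 1).2.1 with e1 | e1
  · exact (hs (e0.trans e1.symm)).elim
  · have := key 0 1 (by decide)
    rwa [e0, e1] at this
  · have := key 1 0 (by decide)
    rwa [e0, e1] at this
  · exact (hs (e0.trans e1.symm)).elim

theorem gad (hM : MengerSt V) {A : ℕ} (hcov : Covered G A 1000) (hδ : DBound G A)
    (hW : WProp G t) (hC : TCyc G C) (ho : Odd C.card) (hc : C.card ≤ t) {v w : V}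
    (hv : v ∈ blob G t C) (hw : w ∈ blob G t C) (hvw : v ≠ w) :
    ∃ x x', x + 2 ≤ 4 * t ∧ x' ≤ 4 * t ∧ Odd (x + x') ∧ Pth G (blob G t C) v w x ∧
      Pth G (blob G t C) v w (x + 2) ∧ Pth G (blob G t C) v w x' := by
  have hin : ∀ n, n ≤ 4 * t → Pth G univ v w n → Pth G (blob G t C) v w n := fun n hn hp =>
    (pth_in hW hC ho hc hv hw hp (by omega)).mono inter_subset_right
  obtain ⟨q, q', hq, hq', hqq, p, p'⟩ := both hM hC ho hc hvw hv hw
  obtain ⟨l, rfl⟩ : ∃ l, q = l + 1 := ⟨q - 1, by have := p.pos hvw; omega⟩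
  obtain ⟨v1, ha, p1⟩ := (hin _ (by omega) p).uncons
  obtain ⟨H, σ, δ, h1, h2, h3, h4, h5⟩ := hcov v v1 ha
  have hd : δ + 2 ≤ t := by
    obtain ⟨r, r', hr, hr', hrr, u1, u2⟩ := both hM hC ho hc ha.ne hv p1.left.1
    have h6 : δ ^ 4 < 6 * t := by
      by_cases hro : Odd r
      · have := hδ H σ δ (by omega) h2 v h3 v1 h4 r' u2
          ⟨fun h => (h5 h).elim, fun h => by
            rw [Nat.odd_iff] at hro h hrr
            omega⟩
        omega
      · have := hδ H σ δ (by omega) h2 v h3 v1 h4 r u1 ⟨fun h => (h5 h).elim, fun h => (hro h).elim⟩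
        omega
    have h7 : 1000 ^ 3 ≤ δ ^ 3 := Nat.pow_le_pow_left h1 3
    have h8 : 1000 ^ 3 * δ ≤ δ ^ 4 := by
      rw [show δ ^ 4 = δ ^ 3 * δ by ring]
      exact Nat.mul_le_mul_right _ h7
    omega
  obtain ⟨y, hy, k, k', S1, S2, hk, -, s2, s3, -, p2, -⟩ := p1.last_hit h4
  have hvy : v ≠ y := fun e => (s2 p2.left).2 e.symm
  obtain ⟨b, hb, h6⟩ := h2.pth h3 hy hvy
  have h7 : ∀ j ≤ 1, Pth G univ v w (b + 2 * j + k') := fun j hj =>
    (((h6 j (hj.trans (Nat.one_le_pow _ _ (by omega)))).monoG (bic_le G σ)).trans p2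
      fun x e e' => s3 x e' e).univ
  have h8 := hin _ (by omega) (h7 0 (by omega))
  have h9 := hin _ (by omega) (h7 1 le_rfl)
  rw [show b + 2 * 0 + k' = b + k' by omega] at h8
  rw [show b + 2 * 1 + k' = b + k' + 2 by omega] at h9
  by_cases hpar : Odd (b + k' + (l + 1))
  · exact ⟨b + k', l + 1, by omega, by omega, hpar, h8, h9, hin _ (by omega) p⟩
  · refine ⟨b + k', q', by omega, by omega, ?_, h8, h9, hin _ (by omega) p'⟩
    rw [Nat.odd_iff] at hpar hqq ⊢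
    omega

end Blob

variable [Fintype V] [DecidableEq V]

theorem blob_fam (hM : MengerSt V) (G : SimpleGraph V) (A t : ℕ) (hA : 1 ≤ A)
    (hcov : Covered G A 1000) (hδ : DBound G A) (hW : WProp G t) :
    Fam G {b | IsBlob G t b} t := by
  refine ⟨?_, ?_, ?_⟩
  · rintro _ ⟨C, h1, h2, h3, rfl⟩ v hv w hw h
    exact Blob.sep hW h1 h2 h3 hv hw h
  · rintro _ ⟨C, h1, h2, h3, rfl⟩ _ ⟨C', h4, h5, h6, rfl⟩ v w hvw a1 a2 a3 a4
    exact Subset.antisymm (Blob.sub hW h4 h5 h6 h1 h3 hvw a3 a4 a1 a2)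
      (Blob.sub hW h1 h2 h3 h4 h6 hvw a1 a2 a3 a4)
  · rintro _ ⟨C, h1, h2, h3, rfl⟩ v hv w hw hvw
    exact Blob.gad hM hcov hδ hW h1 h2 h3 hv hw hvw

end Pool.Agent.P.MP_0cc987_co
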