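import Pool.Agent.P.MP_0cc987_co.Num

/-! A chain of adjusters gives a piece. -/

namespace Pool.Agent.P.MP_0cc987_co

open Set

variable {V : Type*} [Fintype V] [DecidableEq V]

namespace Chain

variable {G : SimpleGraph V} {H R I E1 E2 C F1 F2 X : Finset V} {S : Set V}
  {u u' v v' a1 a2 v1 v2 x : V} {ρ L lam A i b n h r s j0 D : ℕ}

theorem pth_H (hE : Expd G H ρ) (hp : Pth G S u v n) (hu : u ∈ H) : Pth G (S ∩ ↑H) u v n := by
  obtain ⟨f, hf, rfl, rfl, hS⟩ := hp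
  refine ⟨f, hf, rfl, rfl, fun i hi => ⟨hS i hi, ?_⟩⟩
  rcases i with _ | i
  · exact hu
  · exact hE.sup _ _ (hf.adj i (by omega)).symm

theorem rt_H (hE : Expd G H ρ) (hX : Rt G X x r) (hx : x ∈ H) : X ⊆ H := by
  intro y hy
  obtain ⟨k, _, hk⟩ := hX.2 y hy
  exact hk.closed (B := ↑H) hx fun a _ b _ _ hab => hE.sup _ _ hab.symm

theorem left_H (hE : Expd G H ρ) (hp : Pth G S u v n) (hn : 1 ≤ n) : u ∈ H := by
  obtain ⟨f, hf, rfl, rfl, _⟩ := hp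
  exact hE.sup _ _ (hf.adj 0 (by omega))

/-- Numerical facts. -/
structure Nm (L lam A D : ℕ) : Prop where
  L0 : 15000 ≤ L
  r8 : lam ^ 8 ≤ L
  D4 : 4 * D = 2 ^ (lam ^ 2)
  DM : L ^ (9 * A + 7) ≤ D

theorem nm (hP : Par n s j0 ρ L lam) (hA : 9 * A + 10 ≤ lam) : Nm L lam A (2 ^ (lam ^ 2 - 2)) := by
  have h0 := hP.lam0
  have h1 := hP.big
  have h2 : lam ^ 8 ≤ lam ^ 98 := Nat.pow_le_pow_right (by omega) (by omega)
  have h3 : lam ≤ lam ^ 8 := Nat.le_self_pow (by omega) lam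
  have h4 : lam * (9 * A + 7) + 3 * lam ≤ lam ^ 2 := by nlinarith
  refine ⟨by omega, by omega, ?_, ?_⟩
  · rw [show (4 : ℕ) = 2 ^ 2 from rfl, ← pow_add]
    congr 1
    omega
  · calc L ^ (9 * A + 7) ≤ (2 ^ lam) ^ (9 * A + 7) := Nat.pow_le_pow_left hP.Ll _
      _ = 2 ^ (lam * (9 * A + 7)) := by rw [← pow_mul]
      _ ≤ 2 ^ (lam ^ 2 - 2) := Nat.pow_le_pow_right (by omega) (by omega)

theorem Nm.small (hN : Nm L lam A D) : 2 * lam ^ 8 + 400 * L ^ 3 + 2 * L + 6 ≤ L ^ 4 := by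
  have h0 := hN.L0
  have h1 := hN.r8
  have h2 : L ≤ L ^ 3 := Nat.le_self_pow (by omega) L
  have h3 : 15000 * L ^ 3 ≤ L ^ 4 := mul_pow_le_pow h0 (by omega) (by omega)
  omega

theorem Nm.conn (hN : Nm L lam A D) {y : ℕ} (hi : i ≤ 3 * L ^ (9 * A))
    (hy : y ≤ i * L ^ 4 + L ^ 4) : 200 * L ^ 2 * y ≤ D := by
  have h0 := hN.L0
  have h1 : 1 ≤ L ^ (9 * A) := Nat.one_le_pow _ _ (by omega)
  have h2 : y ≤ 4 * L ^ (9 * A) * L ^ 4 := by
    calc y ≤ (i + 1) * L ^ 4 := by rw [Nat.add_mul, one_mul]; exact hy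
      _ ≤ 4 * L ^ (9 * A) * L ^ 4 := Nat.mul_le_mul_right _ (by omega)
  calc 200 * L ^ 2 * y ≤ 200 * L ^ 2 * (4 * L ^ (9 * A) * L ^ 4) := Nat.mul_le_mul_left _ h2
    _ = 800 * L ^ (9 * A + 6) := by ring
    _ ≤ L ^ (9 * A + 7) := mul_pow_le_pow (by omega) (by omega) (by omega)
    _ ≤ D := hN.DM

theorem Nm.Dpos (hN : Nm L lam A D) : 1 ≤ D :=
  (Nat.one_le_pow _ _ (by have := hN.L0; omega)).trans hN.DM

/-- A geodesic meets the neighbourhood of a rooted set in few points. -/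
theorem geo {f : ℕ → V} {l : ℕ} (hf : PathF G f l)
    (hmin : ∀ k, Wk G univ (f 0) (f l) k → l ≤ k) (hX : Rt G X x r) :
    (nb G X ∩ (Finset.range (l + 1)).image f).card ≤ 2 * r + 3 := by
  classical
  have h1 : ∀ y ∈ nb G X, WkLe G univ x y (r + 1) := by
    intro y hy
    obtain ⟨_, z, hz, hzy⟩ := mem_nb.1 hy
    exact (hX.2 z hz).univ.snoc hzy (mem_univ _)
  have h2 : ∀ i j, i ≤ j → j ≤ l → f i ∈ nb G X → f j ∈ nb G X → j ≤ i + (2 * r + 2) := by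
    intro i j hij hj hi' hj'
    obtain ⟨k, hk, hw⟩ := (h1 _ hi').symm.trans (h1 _ hj')
    have p1 := (hf.pth (Nat.zero_le i) (by omega)).wk.univ
    have p2 := (hf.pth hj le_rfl).wk.univ
    have := hmin _ ((p1.trans hw).trans p2)
    omega
  by_cases hne : ∃ i, i ≤ l ∧ f i ∈ nb G X
  · set m := Nat.find hne with hm
    have hm1 := Nat.find_spec hne
    rw [← hm] at hm1
    calc _ ≤ ((Finset.Icc m (m + (2 * r + 2))).image f).card := by
          apply Finset.card_le_card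
          intro y hy
          obtain ⟨hy1, hy2⟩ := Finset.mem_inter.1 hy
          obtain ⟨j, hj, rfl⟩ := Finset.mem_image.1 hy2
          have hj' : j ≤ l := by have := Finset.mem_range.1 hj; omega
          have hmj : m ≤ j := Nat.find_min' hne ⟨hj', hy1⟩
          exact Finset.mem_image.2 ⟨j, Finset.mem_Icc.2 ⟨hmj, h2 m j hmj hj' hm1.2 hy1⟩, rfl⟩
      _ ≤ (Finset.Icc m (m + (2 * r + 2))).card := Finset.card_image_le
      _ = 2 * r + 3 := by rw [Nat.card_Icc]; omega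
  · rw [Finset.card_eq_zero.2]
    · omega
    · rw [Finset.eq_empty_iff_forall_notMem]
      intro y hy
      obtain ⟨hy1, hy2⟩ := Finset.mem_inter.1 hy
      obtain ⟨j, hj, rfl⟩ := Finset.mem_image.1 hy2
      exact hne ⟨j, by have := Finset.mem_range.1 hj; omega, hy1⟩

theorem not_stall (hE : Expd G H ρ) (hP : Par H.card s j0 ρ L lam)
    (hR : ∀ X x r, Rt G X x r → (nb G X ∩ R).card ≤ 2 * r + 3) (hu : u ∈ H) :
    ¬ Stall G R u v j0 lam := by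
  rintro ⟨X, r, q, h1, -, -, -, h5, h6, h7, h8⟩
  have h0 := hP.lam0
  have hX := rt_H hE h1 hu
  have e1 := Finset.card_sdiff_add_card_inter (nb G X) R
  have e2 : q * (nb G X ∩ R).card ≤ q * (2 * r + 3) := Nat.mul_le_mul_left _ (hR X u r h1)
  have e3 : q * (nb G X).card < 3 * X.card := by
    rw [← e1, Nat.mul_add]; omega
  have e4 : 2 * X.card ≤ H.card := by
    have a1 := hP.nbig
    have a2 : 3 * lam ^ 2 + 2 ≤ lam ^ 98 := by
      have b1 : 4 * lam ^ 2 ≤ lam ^ 98 := mul_pow_le_pow (by omega) (by omega) (by omega)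
      have b2 : lam ≤ lam ^ 2 := Nat.le_self_pow (by omega) lam
      omega
    have a3 : 2 ^ (3 * lam ^ 2 + 2) ≤ 2 ^ (lam ^ 98) := Nat.pow_le_pow_right (by omega) a2
    rw [pow_add] at a3
    omega
  rcases h8 with rfl | ⟨j, a1, rfl, -, a4, -⟩
  · have b1 : 1 ≤ 3 * lam ^ 2 := by
      have : 1 ≤ lam ^ 2 := Nat.one_le_pow _ _ (by omega)
      omega
    have b2 := hE.exp X hX _ b1 h7.le e4
    have b3 : 2700 * lam ^ 4 ≤ lam ^ 5 := mul_pow_le_pow (by omega) (by omega) (by omega)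
    have b4 := Nat.mul_le_mul_right (nb G X).card b3
    have b5 : 100 * (3 * lam ^ 2) ^ 2 * (nb G X).card = 900 * (lam ^ 4 * (nb G X).card) := by ring
    have b6 : 2700 * lam ^ 4 * (nb G X).card = 2700 * (lam ^ 4 * (nb G X).card) := by ring
    omega
  · have b0 := hP.j80
    have b2 := hE.exp X hX (10 * j) (by omega) a4.le e4
    have b5 : 100 * (10 * j) ^ 2 * (nb G X).card = 10000 * (j ^ 2 * (nb G X).card) := by ring
    have b6 : 240000 * j ^ 2 * (nb G X).card = 240000 * (j ^ 2 * (nb G X).card) := by ring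
    omega

theorem deg_out (hE : Expd G H ρ) (hP : Par n s j0 ρ L lam)
    (hR : ∀ X x r, Rt G X x r → (nb G X ∩ R).card ≤ 2 * r + 3) (hu : u ∈ H) :
    2 ^ (2 * j0 + 1) + 2 ≤ (nb G {u} \ R).card := by
  have e1 := Finset.card_sdiff_add_card_inter (nb G {u}) R
  have e2 := hR {u} u 0 (Rt.singleton G u 0)
  have e3 : dg G H u ≤ (nb G {u}).card := by
    rw [nb_singleton, card_nbr]
    exact dg_mono (Finset.subset_univ _) u
  have e4 := hE.deg u hu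
  have e5 := hP.rho
  omega

/-- The state of the chain. -/
structure St (G : SimpleGraph V) (H R : Finset V) (u v : V) (L r D : ℕ) (i b : ℕ) (I : Finset V)
    (a1 a2 : V) (E1 E2 : Finset V) : Prop where
  r1 : Rt G E1 a1 r
  r2 : Rt G E2 a2 r
  c1 : E1.card = D
  c2 : E2.card = D
  h1 : E1 ⊆ H
  h2 : E2 ⊆ H
  d12 : ∀ x ∈ E1, x ∉ E2
  d1 : ∀ x ∈ E1, x ∉ I ∧ x ∉ R
  d2 : ∀ x ∈ E2, x ∉ I ∧ x ∉ R
  dI : ∀ x ∈ I, x ∉ R
  cI : I.card ≤ i * L ^ 4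
  ib : i ≤ b
  bi : b ≤ i * L ^ 4
  pth : ∀ (S : Set V) κ, Pth G S a1 a2 κ → (∀ x ∈ S, x ∉ I) → ∀ j ≤ i,
    Pth G (↑I ∪ S) u v (b + 2 * j + κ)

theorem St.symm (h : St G H R u v L r D i b I a1 a2 E1 E2) :
    St G H R u v L r D i b I a2 a1 E2 E1 :=
  ⟨h.r2, h.r1, h.c2, h.c1, h.h2, h.h1, fun x a b => h.d12 x b a, h.d2, h.d1, h.dI, h.cI, h.ib,
    h.bi, fun S κ hp => h.pth S κ hp.symm⟩

/-- A trimmed adjuster avoiding `U`. -/
structure Ad (G : SimpleGraph V) (H U : Finset V) (c r D : ℕ) (C F1 F2 : Finset V) (v1 v2 : V)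
    (h : ℕ) : Prop where
  h1 : 1 ≤ h
  cC : C.card ≤ c
  p0 : Pth G ↑C v1 v2 h
  p2 : Pth G ↑C v1 v2 (h + 2)
  r1 : Rt G F1 v1 r
  r2 : Rt G F2 v2 r
  c1 : F1.card = D
  c2 : F2.card = D
  s1 : F1 ⊆ H
  s2 : F2 ⊆ H
  d12 : ∀ x ∈ F1, x ∉ F2
  d1 : ∀ x ∈ F1, x ∈ C → x = v1
  d2 : ∀ x ∈ F2, x ∈ C → x = v2
  uC : ∀ x ∈ C, x ∉ U
  u1 : ∀ x ∈ F1, x ∉ U
  u2 : ∀ x ∈ F2, x ∉ U

theorem Ad.symm {U : Finset V} {c : ℕ} (a : Ad G H U c r D C F1 F2 v1 v2 h) :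
    Ad G H U c r D C F2 F1 v2 v1 h :=
  ⟨a.h1, a.cC, a.p0.symm, a.p2.symm, a.r2, a.r1, a.c2, a.c1, a.s2, a.s1,
    fun x p q => a.d12 x q p, a.d2, a.d1, a.uC, a.u2, a.u1⟩

theorem exists_ad (hE : Expd G H ρ) {U : Finset V} {c D' : ℕ} (hD : 1 ≤ D) (hD' : D ≤ D')
    (ha : Adjuster G U D' r c) : ∃ C F1 F2 v1 v2 h, Ad G H U c r D C F1 F2 v1 v2 h := by
  obtain ⟨C, F1, F2, v1, v2, h, a1, a2, a3, a4, a5, a6, a7, a8, a9, a10, a11, a12, a13, a14⟩ := ha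
  obtain ⟨F1', b1, b2, b3⟩ := a5.trim hD (hD'.trans a7)
  obtain ⟨F2', c1, c2, c3⟩ := a6.trim hD (hD'.trans a8)
  exact ⟨C, F1', F2', v1, v2, h, a1, a2, a3, a4, b2, c2, b3, c3,
    rt_H hE b2 (left_H hE a3 a1), rt_H hE c2 (left_H hE a3.symm a1),
    fun x p q => Finset.disjoint_left.1 a9 (b1 p) (c1 q), fun x p => a10 x (b1 p),
    fun x p => a11 x (c1 p), fun x p => Finset.disjoint_left.1 a12 p,
    fun x p => Finset.disjoint_left.1 a13 (b1 p), fun x p => Finset.disjoint_left.1 a14 (c1 p)⟩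

theorem step_core (hN : Nm L lam A D) (hs : St G H R u v L (lam ^ 8) D i b I a1 a2 E1 E2)
    {U : Finset V} (hU : ∀ x, x ∉ U → x ∉ I ∧ x ∉ R ∧ x ∉ E1 ∧ x ∉ E2)
    (ha : Ad G H U (2 * L + 4) (lam ^ 8) D C F1 F2 v1 v2 h) {w w' : V} (hw' : w' ∈ E1)
    (hw : w ∈ F1) (hS : WkLe G S w' w (400 * L ^ 3))
    (hM : ∀ x ∈ S, x = w' ∨ x = w ∨ (x ∉ I ∧ x ∉ R ∧ x ∉ E1 ∧ x ∉ E2 ∧ x ∉ F1 ∧ x ∉ F2 ∧
      (x ∈ C → x = v1 ∨ x = v2))) :
    ∃ b' I', b' ≤ b + L ^ 4 ∧ St G H R u v L (lam ^ 8) D (i + 1) b' I' v2 a2 F2 E2 := by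
  have hsm := hN.small
  have hW := ((hs.r1.2 w' hw').trans' hS).trans' (ha.r1.2 w hw).symm
  obtain ⟨p, hp, hpth⟩ := hW.pth
  obtain ⟨P, hP1, hP2, hP3⟩ := hpth.tight
  have k1 : ∀ x ∈ E1, x ∉ I ∧ x ∉ R ∧ x ∉ E2 ∧ x ∉ F2 ∧ (x ∈ C → x = v1) := fun x hx =>
    ⟨(hs.d1 x hx).1, (hs.d1 x hx).2, hs.d12 x hx, fun q => (hU x (ha.u2 x q)).2.2.1 hx,
      fun q => absurd hx (hU x (ha.uC x q)).2.2.1⟩
  have k2 : ∀ x ∈ F1, x ∉ I ∧ x ∉ R ∧ x ∉ E2 ∧ x ∉ F2 ∧ (x ∈ C → x = v1) := fun x hx =>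
    ⟨(hU x (ha.u1 x hx)).1, (hU x (ha.u1 x hx)).2.1, (hU x (ha.u1 x hx)).2.2.2, ha.d12 x hx,
      ha.d1 x hx⟩
  have k3 : ∀ x ∈ P, x ∉ I ∧ x ∉ R ∧ x ∉ E2 ∧ x ∉ F2 ∧ (x ∈ C → x = v1) := by
    intro x hx
    rcases hP1 hx with (q | q) | q
    · exact k1 x q
    · rcases hM x q with e | e | ⟨q1, q2, _, q4, _, q6, q7⟩
      · exact k1 x (e ▸ hw')
      · exact k2 x (e ▸ hw)
      · exact ⟨q1, q2, q4, q6, fun c => (q7 c).resolve_right fun e => q6 (e ▸ ha.r2.1)⟩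
    · exact k2 x q
  have hh : h + 1 ≤ C.card := ha.p0.card_le
  have hc := ha.cC
  have h1 := ha.h1
  have mem : ∀ x, x ∈ I ∪ P ∪ C.erase v2 ↔ x ∈ I ∨ x ∈ P ∨ (x ≠ v2 ∧ x ∈ C) := by
    intro x
    simp only [Finset.mem_union, Finset.mem_erase, or_assoc]
  refine ⟨b + p + h, I ∪ P ∪ C.erase v2, by omega, ha.r2, hs.r2, ha.c2, hs.c2, ha.s2, hs.h2,
    fun x q => (hU x (ha.u2 x q)).2.2.2, fun x q => ⟨?_, (hU x (ha.u2 x q)).2.1⟩,
    fun x q => ⟨?_, (hs.d2 x q).2⟩, fun x q => ?_, ?_, by have := hs.ib; omega,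
    by have := hs.bi; rw [Nat.add_mul, one_mul]; omega, fun T κ hT hTI j hj => ?_⟩
  · rw [mem]
    rintro (c | c | ⟨c, c'⟩)
    · exact (hU x (ha.u2 x q)).1 c
    · exact (k3 x c).2.2.2.1 q
    · exact c (ha.d2 x q c')
  · rw [mem]
    rintro (c | c | ⟨_, c'⟩)
    · exact (hs.d2 x q).1 c
    · exact (k3 x c).2.2.1 q
    · exact (hU x (ha.uC x c')).2.2.2 q
  · rcases (mem x).1 q with c | c | ⟨_, c'⟩
    · exact hs.dI x c
    · exact (k3 x c).2.1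
    · exact (hU x (ha.uC x c')).2.1
  · have e1 := Finset.card_union_le (I ∪ P) (C.erase v2)
    have e2 := Finset.card_union_le I P
    have e3 : (C.erase v2).card ≤ C.card := Finset.card_erase_le
    have e4 := hs.cI
    rw [Nat.add_mul, one_mul]
    omega
  · obtain ⟨h', j', q1, q2, q3⟩ : ∃ h' j', j' ≤ i ∧ h' + 2 * j' = h + 2 * j ∧
        Pth G ↑C v1 v2 h' := by
      by_cases e : j ≤ i
      · exact ⟨h, j, e, rfl, ha.p0⟩
      · exact ⟨h + 2, i, le_rfl, by omega, ha.p2⟩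
    have t1 := hP3.trans q3 fun x c c' => (k3 x c).2.2.2.2 c'
    have t2 := t1.trans hT (by
      rintro x (c | c) c'
      · exact absurd ((mem x).2 (Or.inr (Or.inl c))) (hTI x c')
      · by_contra e
        exact hTI x c' ((mem x).2 (Or.inr (Or.inr ⟨e, c⟩))))
    have t3 := hs.pth _ _ t2 (by
      rintro x ((c | c) | c)
      · exact (k3 x c).1
      · exact (hU x (ha.uC x c)).1
      · exact fun c' => hTI x c ((mem x).2 (Or.inl c'))) j' q1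
    rw [show b + 2 * j' + (p + h' + κ) = b + p + h + 2 * j + κ by omega] at t3
    refine t3.mono ?_
    rintro x (c | (c | c) | c)
    · exact Or.inl ((mem x).2 (Or.inl c))
    · exact Or.inl ((mem x).2 (Or.inr (Or.inl c)))
    · by_cases e : x = v2
      · exact Or.inr (e ▸ hT.left)
      · exact Or.inl ((mem x).2 (Or.inr (Or.inr ⟨e, c⟩)))
    · exact Or.inr c

theorem step (hC : ConnSt V) (hE : Expd G H ρ) (hH : H.card ≤ 2 ^ L) (hN : Nm L lam A D)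
    (hRA : ∀ U : Finset V, U.card ≤ 2 ^ (lam ^ 2) →
      Adjuster G U (2 ^ (lam ^ 2)) (lam ^ 8) (2 * L + 4))
    (hR : R.card ≤ 400 * L ^ 3 + 1) (hi : i ≤ 3 * L ^ (9 * A))
    (hs : St G H R u v L (lam ^ 8) D i b I a1 a2 E1 E2) :
    ∃ b' I' c1 c2 E1' E2', b' ≤ b + L ^ 4 ∧
      St G H R u v L (lam ^ 8) D (i + 1) b' I' c1 c2 E1' E2' := by
  have hsm := hN.small
  have hL := hN.L0
  have hD4 := hN.D4
  have hcI := hs.cI
  have hIR : (I ∪ R).card ≤ i * L ^ 4 + (400 * L ^ 3 + 1) :=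
    (Finset.card_union_le _ _).trans (by omega)
  have hU : (I ∪ R ∪ E1 ∪ E2).card ≤ 2 ^ (lam ^ 2) := by
    have e1 := Finset.card_union_le (I ∪ R ∪ E1) E2
    have e2 := Finset.card_union_le (I ∪ R) E1
    have e3 := hN.conn hi (y := (I ∪ R).card) (by omega)
    have e4 : 1 * (I ∪ R).card ≤ 200 * L ^ 2 * (I ∪ R).card :=
      Nat.mul_le_mul_right _ (by have : 1 ≤ L ^ 2 := Nat.one_le_pow _ _ (by omega); omega)
    have := hs.c1
    have := hs.c2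
    omega
  obtain ⟨C, F1, F2, v1, v2, h, ha⟩ := exists_ad hE hN.Dpos (by omega) (hRA _ hU)
  have hU' : ∀ x, x ∉ I ∪ R ∪ E1 ∪ E2 → x ∉ I ∧ x ∉ R ∧ x ∉ E1 ∧ x ∉ E2 := by
    intro x hx
    simp only [Finset.mem_union, not_or] at hx
    tauto
  have mem : ∀ x, x ∈ I ∪ R ∪ (C.erase v1).erase v2 ↔
      x ∈ I ∨ x ∈ R ∨ (x ≠ v2 ∧ x ≠ v1 ∧ x ∈ C) := by
    intro x
    simp only [Finset.mem_union, Finset.mem_erase, or_assoc]
  have hY : 200 * L ^ 2 * (I ∪ R ∪ (C.erase v1).erase v2).card ≤ D := by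
    refine hN.conn hi ?_
    have e1 := Finset.card_union_le (I ∪ R) ((C.erase v1).erase v2)
    have e2 : ((C.erase v1).erase v2).card ≤ C.card :=
      Finset.card_erase_le.trans Finset.card_erase_le
    have := ha.cC
    omega
  obtain ⟨a, haE, c, hcF, hw⟩ := hC G H E1 F1 (I ∪ R ∪ (C.erase v1).erase v2) ρ L hE (by omega) hH
    hs.h1 ha.s1 ⟨_, hs.r1.1⟩ ⟨_, ha.r1.1⟩
    (Finset.disjoint_left.2 fun x q => by
      rw [mem]
      rintro (c | c | ⟨_, _, c⟩)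
      · exact (hs.d1 x q).1 c
      · exact (hs.d1 x q).2 c
      · exact (hU' x (ha.uC x c)).2.2.1 q)
    (Finset.disjoint_left.2 fun x q => by
      rw [mem]
      rintro (c | c | ⟨_, c', c⟩)
      · exact (hU' x (ha.u1 x q)).1 c
      · exact (hU' x (ha.u1 x q)).2.1 c
      · exact c' (ha.d1 x q c))
    (by rw [hs.c1]; exact hY) (by rw [ha.c1]; exact hY)
  obtain ⟨w, hwF, hw1, -⟩ := hw.first_hit (B := ↑F1 ∪ ↑F2) (Or.inl hcF)
  obtain ⟨w', hwE, -, hw2⟩ := hw1.last_hit (B := ↑E1 ∪ ↑E2) (Or.inl haE)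
  have hM : ∀ x ∈ (((univ \ (↑(I ∪ R ∪ (C.erase v1).erase v2) : Set V)) \ (↑F1 ∪ ↑F2) ∪ {w}) \
      (↑E1 ∪ ↑E2) ∪ {w'}), x = w' ∨ x = w ∨ (x ∉ I ∧ x ∉ R ∧ x ∉ E1 ∧ x ∉ E2 ∧ x ∉ F1 ∧ x ∉ F2 ∧
        (x ∈ C → x = v1 ∨ x = v2)) := by
    rintro x (⟨⟨⟨-, q1⟩, q2⟩ | q, q3⟩ | q)
    · rw [Finset.mem_coe, mem] at q1
      refine Or.inr (Or.inr ⟨fun c => q1 (Or.inl c), fun c => q1 (Or.inr (Or.inl c)),
        fun c => q3 (Or.inl c), fun c => q3 (Or.inr c), fun c => q2 (Or.inl c),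
        fun c => q2 (Or.inr c), fun c => ?_⟩)
      by_contra e
      rw [not_or] at e
      exact q1 (Or.inr (Or.inr ⟨e.2, e.1, c⟩))
    · exact Or.inr (Or.inl q)
    · exact Or.inl q
  rcases hwE with e1 | e1 <;> rcases hwF with e2 | e2
  · obtain ⟨b', I', q1, q2⟩ := step_core hN hs hU' ha e1 e2 hw2 hM
    exact ⟨b', I', _, _, _, _, q1, q2⟩
  · obtain ⟨b', I', q1, q2⟩ := step_core hN hs hU' ha.symm e1 e2 hw2 (fun x q => by
      have := hM x q; tauto)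
    exact ⟨b', I', _, _, _, _, q1, q2⟩
  · obtain ⟨b', I', q1, q2⟩ := step_core hN hs.symm (fun x q => by have := hU' x q; tauto) ha
      e1 e2 hw2 (fun x q => by have := hM x q; tauto)
    exact ⟨b', I', _, _, _, _, q1, q2⟩
  · obtain ⟨b', I', q1, q2⟩ := step_core hN hs.symm (fun x q => by have := hU' x q; tauto) ha.symm
      e1 e2 hw2 (fun x q => by have := hM x q; tauto)
    exact ⟨b', I', _, _, _, _, q1, q2⟩

theorem close (hC : ConnSt V) (hE : Expd G H ρ) (hH : H.card ≤ 2 ^ L) (hN : Nm L lam A D)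
    (hR : R.card ≤ 400 * L ^ 3 + 1) (hi : i ≤ 3 * L ^ (9 * A))
    (hs : St G H R u v L (lam ^ 8) D i b I a1 a2 E1 E2) :
    ∃ (S : Set V) (κ : ℕ), κ ≤ L ^ 4 ∧ Pth G S a1 a2 κ ∧ ∀ x ∈ S, x ∉ I ∧ x ∉ R := by
  have hsm := hN.small
  have hL := hN.L0
  have hcI := hs.cI
  have hY : 200 * L ^ 2 * (I ∪ R).card ≤ D :=
    hN.conn hi ((Finset.card_union_le _ _).trans (by omega))
  obtain ⟨a, haE, c, hcE, hw⟩ := hC G H E1 E2 (I ∪ R) ρ L hE (by omega) hH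
    hs.h1 hs.h2 ⟨_, hs.r1.1⟩ ⟨_, hs.r2.1⟩
    (Finset.disjoint_left.2 fun x q => by
      rw [Finset.mem_union, not_or]; exact hs.d1 x q)
    (Finset.disjoint_left.2 fun x q => by
      rw [Finset.mem_union, not_or]; exact hs.d2 x q)
    (by rw [hs.c1]; exact hY) (by rw [hs.c2]; exact hY)
  obtain ⟨κ, hκ, hp⟩ := (((hs.r1.2 a haE).trans' hw).trans' (hs.r2.2 c hcE).symm).pth
  refine ⟨_, κ, by omega, hp, ?_⟩
  rintro x ((q | q) | q)
  · exact hs.d1 x q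
  · have := q.2
    rwa [Finset.mem_coe, Finset.mem_union, not_or] at this
  · exact hs.d2 x q

/-- Paths of every length in a long range, with the right parity, avoiding `R`. -/
theorem target (hC : ConnSt V) (hE : Expd G H ρ) (hH : H.card ≤ 2 ^ L) (hN : Nm L lam A D)
    (hRA : ∀ U : Finset V, U.card ≤ 2 ^ (lam ^ 2) →
      Adjuster G U (2 ^ (lam ^ 2)) (lam ^ 8) (2 * L + 4))
    (hR : R.card ≤ 400 * L ^ 3 + 1) {σ : V → Bool} (hσ : ∀ a b, G.Adj a b → σ a ≠ σ b)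
    (hs : St G H R u v L (lam ^ 8) D 0 0 ∅ u v E1 E2) {l : ℕ} (hl : L ^ 8 + L ^ 4 ≤ l)
    (hl' : l ≤ 3 * L ^ (9 * A)) (hpar : σ u = σ v ↔ Even l) :
    ∃ S : Set V, Pth G S u v l ∧ ∀ x ∈ S, x ∉ R := by
  classical
  let Q : ℕ → Prop := fun i => ∃ b I c1 c2 E1' E2', b + L ^ 4 ≤ l ∧
    St G H R u v L (lam ^ 8) D i b I c1 c2 E1' E2'
  have h0 : Q 0 := ⟨0, ∅, u, v, E1, E2, by omega, hs⟩
  have hle : ∀ i, Q i → i ≤ l := by
    rintro i ⟨b, I, c1, c2, E1', E2', q1, q2⟩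
    have := q2.ib
    omega
  have hex : ∃ i, ¬ Q (i + 1) := ⟨l, fun q => by have := hle _ q; omega⟩
  have hQ : Q (Nat.find hex) := by
    rcases e : Nat.find hex with _ | m
    · exact h0
    · by_contra q
      have := Nat.find_min' hex q
      omega
  have hn := Nat.find_spec hex
  generalize Nat.find hex = i at hQ hn
  have hi := (hle i hQ).trans hl'
  obtain ⟨b, I, c1, c2, E1', E2', q1, q2⟩ := hQ
  obtain ⟨b', I', d1, d2, E3, E4, q3, q4⟩ := step hC hE hH hN hRA hR hi q2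
  have q5 : l < b + 2 * L ^ 4 := by
    by_contra q
    exact hn ⟨b', I', d1, d2, E3, E4, by omega, q4⟩
  have q6 : L ^ 4 ≤ i := by
    by_contra q
    have e1 : (i + 1) * L ^ 4 ≤ L ^ 4 * L ^ 4 := Nat.mul_le_mul_right _ (by omega)
    have e2 : L ^ 4 * L ^ 4 = L ^ 8 := by ring
    have e3 := q2.bi
    rw [Nat.add_mul, one_mul] at e1
    omega
  obtain ⟨S, κ, q7, q8, q9⟩ := close hC hE hH hN hR hi q2
  have q10 := (q2.pth S κ q8 (fun x q => (q9 x q).1) 0 (Nat.zero_le _)).parity hσ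
  rw [hpar, Nat.even_iff, Nat.even_iff] at q10
  have q11 := q2.pth S κ q8 (fun x q => (q9 x q).1) ((l - b - κ) / 2) (by omega)
  rw [show b + 2 * ((l - b - κ) / 2) + κ = l by omega] at q11
  refine ⟨_, q11, ?_⟩
  rintro x (q | q)
  · exact q2.dI x q
  · exact (q9 x q).2

theorem key (hT : TwoSt V) (hC : ConnSt V) {σ : V → Bool} (hσ : ∀ a b, G.Adj a b → σ a ≠ σ b)
    (hE : Expd G H ρ) (hP : Par H.card s j0 ρ L lam) (hA1 : 1 ≤ A) (hA : 9 * A + 10 ≤ lam)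
    (hRA : ∀ U : Finset V, U.card ≤ 2 ^ (lam ^ 2) →
      Adjuster G U (2 ^ (lam ^ 2)) (lam ^ 8) (2 * L + 4))
    (hu : u ∈ H) (hu' : u' ∈ H) (hv : v ∈ H) (huu : u ≠ u') (hvv : v ≠ v')
    (hne : ¬ (u = v ∧ u' = v')) {l0 : ℕ} (hl0 : l0 ≤ 400 * L ^ 3) (hw : Wk G univ u' v' l0)
    (hmin : ∀ k, Wk G univ u v k ∨ Wk G univ u v' k ∨ Wk G univ u' v k ∨ Wk G univ u' v' k →
      l0 ≤ k) :
    ∃ b ≤ L ^ 9, ∀ j ≤ (L ^ 9) ^ A, TwoP (bic G σ) ↑H u u' v v' (b + 2 * j) := by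
  have hN := nm hP hA
  obtain ⟨k, hk, hp⟩ := hw.pth
  obtain rfl : k = l0 := le_antisymm hk (hmin k (Or.inr (Or.inr (Or.inr hp.wk))))
  obtain ⟨f, hf, rfl, rfl, -⟩ := hp
  set R := (Finset.range (k + 1)).image f with hRdef
  have hRc : R.card ≤ 400 * L ^ 3 + 1 :=
    Finset.card_image_le.trans (by rw [Finset.card_range]; omega)
  have hRp : Pth G ↑R (f 0) (f k) k := ⟨f, hf, rfl, rfl, fun i hi =>
    Finset.mem_coe.2 (Finset.mem_image.2 ⟨i, Finset.mem_range.2 (by omega), rfl⟩)⟩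
  have hR : ∀ X x r, Rt G X x r → (nb G X ∩ R).card ≤ 2 * r + 3 := fun X x r hX =>
    geo hf (fun m hm => hmin m (Or.inr (Or.inr (Or.inr hm)))) hX
  have huR : u ∉ R := by
    intro q
    obtain ⟨j, hj, rfl⟩ := Finset.mem_image.1 q
    have hj' : j ≤ k := by have := Finset.mem_range.1 hj; omega
    have := hmin _ (Or.inr (Or.inl (hf.pth hj' le_rfl).wk.univ))
    exact huu (congrArg f (by omega))
  have hvR : v ∉ R := by
    intro q
    obtain ⟨j, hj, rfl⟩ := Finset.mem_image.1 q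
    have hj' : j ≤ k := by have := Finset.mem_range.1 hj; omega
    have := hmin _ (Or.inr (Or.inr (Or.inl (hf.pth (Nat.zero_le j) hj').wk.univ)))
    exact hvv (congrArg f (by omega))
  have huv : u ≠ v := by
    rintro rfl
    have := hmin 0 (Or.inl (Wk.nil (mem_univ _)))
    exact hne ⟨rfl, congrArg f (by omega)⟩
  obtain ⟨F1, F2, a1, a2, a3, a4, a5, a6, a7⟩ : TwoExp G R u v (lam ^ 8) (2 ^ (lam ^ 2)) := by
    rcases hT G R u v j0 lam huv huR hvR hP.j80 hP.lam0 hP.jl (deg_out hE hP hR hu)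
      (deg_out hE hP hR hv) with q | q | q
    · exact q
    · exact absurd q (not_stall hE hP hR hu)
    · exact absurd q (not_stall hE hP hR hv)
  have hD4 := hN.D4
  obtain ⟨E1, b1, b2, b3⟩ := a1.trim hN.Dpos (by omega)
  obtain ⟨E2, c1, c2, c3⟩ := a2.trim hN.Dpos (by omega)
  have hs : St G H R u v L (lam ^ 8) (2 ^ (lam ^ 2 - 2)) 0 0 ∅ u v E1 E2 :=
    ⟨b2, c2, b3, c3, rt_H hE b2 hu, rt_H hE c2 hv,
      fun x p q => Finset.disjoint_left.1 a3 (b1 p) (c1 q),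
      fun x p => ⟨Finset.notMem_empty x, Finset.disjoint_left.1 a4 (b1 p)⟩,
      fun x p => ⟨Finset.notMem_empty x, Finset.disjoint_left.1 a5 (c1 p)⟩,
      fun x p => absurd p (Finset.notMem_empty x), by simp, le_rfl, by simp,
      fun S κ hp _ j hj => by
        rw [show 0 + 2 * j + κ = κ by omega]
        exact hp.mono subset_union_right⟩
  have hsm := hN.small
  have hL := hN.L0
  have e1 : L ^ 4 ≤ L ^ 8 := Nat.pow_le_pow_right (by omega) (by omega)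
  have e2 : 4 * L ^ 8 ≤ L ^ 9 := mul_pow_le_pow (by omega) (by omega) (by omega)
  have e3 : L ^ 9 ≤ L ^ (9 * A) := Nat.pow_le_pow_right (by omega) (by omega)
  obtain ⟨b0, q1, q2, q3⟩ : ∃ b0, b0 ≤ L ^ 9 ∧ L ^ 9 ≤ b0 + 1 ∧ (σ u = σ v ↔ Even (b0 - k)) := by
    by_cases e : (σ u = σ v ↔ Even (L ^ 9 - k))
    · exact ⟨L ^ 9, le_rfl, by omega, e⟩
    · refine ⟨L ^ 9 - 1, by omega, by omega, ?_⟩
      rw [Nat.even_iff] at e ⊢
      by_cases e' : σ u = σ v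
      · simp only [e', true_iff] at e ⊢; omega
      · simp only [e', false_iff] at e ⊢; omega
  refine ⟨b0, q1, fun j hj => ?_⟩
  rw [← pow_mul] at hj
  obtain ⟨S, q4, q5⟩ := target hC hE hP.nL hN hRA hRc hσ hs (l := b0 + 2 * j - k) (by omega)
    (by omega) (by
      rw [q3, Nat.even_iff, Nat.even_iff]; omega)
  refine ⟨S ∩ ↑H, ↑R ∩ ↑H, b0 + 2 * j - k, k, inter_subset_right, inter_subset_right,
    fun x p q => q5 x p.1 q.1, by omega, Or.inl ⟨?_, ?_⟩⟩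
  · exact (pth_H hE q4 hu).transfer Subset.rfl fun a _ b _ hab => ⟨hab, hσ a b hab⟩
  · exact (pth_H hE hRp hu').transfer Subset.rfl fun a _ b _ hab => ⟨hab, hσ a b hab⟩

end Chain

theorem piece_of_expander (hT : TwoSt V) (hC : ConnSt V) (G : SimpleGraph V) (σ : V → Bool)
    (hσ : ∀ a b, G.Adj a b → σ a ≠ σ b) (H : Finset V) (s j0 ρ L lam A : ℕ) (hE : Expd G H ρ)
    (hP : Par H.card s j0 ρ L lam) (hA1 : 1 ≤ A) (hA : 9 * A + 10 ≤ lam)
    (hRA : ∀ U : Finset V, U.card ≤ 2 ^ (lam ^ 2) →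
      Adjuster G U (2 ^ (lam ^ 2)) (lam ^ 8) (2 * L + 4)) :
    Piece G A ↑H σ (L ^ 9) := by
  classical
  have hL := (Chain.nm hP hA).L0
  constructor
  · have h1 : 2 ^ 3 ≤ 2 ^ L := Nat.pow_le_pow_right (by omega) (by omega)
    have h2 := hP.Ln
    obtain ⟨a, b, c, ha, hb, hc, h3⟩ := Finset.two_lt_card_iff.1 (show 2 < H.card by omega)
    exact ⟨a, ha, b, hb, c, hc, h3⟩
  · intro u hu u' hu' v hv v' hv' huu hvv hne
    obtain ⟨a, ha, c, hc, k0, hk0, hw0⟩ := hC G H {u} {v} ∅ ρ L hE (by omega) hP.nL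
      (Finset.singleton_subset_iff.2 hu) (Finset.singleton_subset_iff.2 hv)
      (Finset.singleton_nonempty _) (Finset.singleton_nonempty _) (Finset.disjoint_empty_right _)
      (Finset.disjoint_empty_right _) (by simp) (by simp)
    rw [Finset.mem_singleton] at ha hc
    subst ha hc
    have hex : ∃ k, Wk G univ a c k ∨ Wk G univ a v' k ∨ Wk G univ u' c k ∨ Wk G univ u' v' k :=
      ⟨k0, Or.inl hw0.univ⟩
    have hmin : ∀ k, Wk G univ a c k ∨ Wk G univ a v' k ∨ Wk G univ u' c k ∨ Wk G univ u' v' k →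
        Nat.find hex ≤ k := fun k hk => Nat.find_min' hex hk
    have hl0 : Nat.find hex ≤ 400 * L ^ 3 := (hmin k0 (Or.inl hw0.univ)).trans hk0
    rcases Nat.find_spec hex with q | q | q | q
    · obtain ⟨b, hb, h1⟩ := Chain.key hT hC hσ hE hP hA1 hA hRA hu' hu hv' huu.symm hvv.symm
        (by tauto) hl0 q (fun k hk => hmin k (by tauto))
      exact ⟨b, hb, fun j hj => (h1 j hj).swap_left.swap_right⟩
    · obtain ⟨b, hb, h1⟩ := Chain.key hT hC hσ hE hP hA1 hA hRA hu' hu hv huu.symm hvv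
        (by tauto) hl0 q (fun k hk => hmin k (by tauto))
      exact ⟨b, hb, fun j hj => (h1 j hj).swap_left⟩
    · obtain ⟨b, hb, h1⟩ := Chain.key hT hC hσ hE hP hA1 hA hRA hu hu' hv' huu hvv.symm
        (by tauto) hl0 q (fun k hk => hmin k (by tauto))
      exact ⟨b, hb, fun j hj => (h1 j hj).swap_right⟩
    · exact Chain.key hT hC hσ hE hP hA1 hA hRA hu hu' hv huu hvv
        (by tauto) hl0 q hmin

end Pool.Agent.P.MP_0cc987_co
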