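import Pool.Agent.P.MP_0cc987_co.Path

/-! Neighbourhoods, degrees, colourings of vertex sets, rooted sets. -/

namespace Pool.Agent.P.MP_0cc987_co

open Set

variable {V : Type*} {G G' : SimpleGraph V} {u v w : V} {n m k q q' : ℕ}

/-- `A` has a proper colouring with the colours `0, …, q - 1`. -/
def Col (G : SimpleGraph V) (A : Set V) (q : ℕ) : Prop :=
  ∃ c : V → ℕ, (∀ v ∈ A, c v < q) ∧ ∀ u ∈ A, ∀ v ∈ A, G.Adj u v → c u ≠ c v

/-- No odd closed walk of length at most `g`. -/
def OddFree (G : SimpleGraph V) (g : ℕ) : Prop := ∀ v n, Odd n → n ≤ g → ¬ Wk G univ v v n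

theorem OddFree.monoG {g : ℕ} (h : OddFree G g) (hG : G' ≤ G) : OddFree G' g :=
  fun v n h1 h2 h3 => h v n h1 h2 (h3.monoG hG)

theorem OddFree.le {g g' : ℕ} (h : OddFree G g) (hg : g' ≤ g) : OddFree G g' :=
  fun v n h1 h2 => h v n h1 (h2.trans hg)

theorem oddFree_of_cyc {g : ℕ} (h : ∀ k ≤ g, Odd k → ¬ Cyc G univ k) : OddFree G g := by
  intro v n h1 h2 h3
  obtain ⟨k, hk, h4, h5⟩ := h3.odd_cyc h1
  exact h k (by omega) h4 h5

namespace Col

variable {A A' : Set V}

theorem mono (h : Col G A q) (hA : A' ⊆ A) : Col G A' q :=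
  let ⟨c, h1, h2⟩ := h; ⟨c, fun v hv => h1 v (hA hv), fun u hu v hv => h2 u (hA hu) v (hA hv)⟩

theorem le (h : Col G A q) (hq : q ≤ q') : Col G A q' :=
  let ⟨c, h1, h2⟩ := h; ⟨c, fun v hv => (h1 v hv).trans_le hq, h2⟩

theorem monoG (h : Col G A q) (hG : G' ≤ G) : Col G' A q :=
  let ⟨c, h1, h2⟩ := h; ⟨c, h1, fun u hu v hv ha => h2 u hu v hv (hG ha)⟩

theorem empty (G : SimpleGraph V) (q : ℕ) : Col G ∅ q := ⟨fun _ => 0, by simp, by simp⟩

theorem of_res {B : Set V} (h : Col (res G B) A q) (hA : A ⊆ B) : Col G A q :=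
  let ⟨c, h1, h2⟩ := h; ⟨c, h1, fun u hu v hv ha => h2 u hu v hv ⟨ha, hA hu, hA hv⟩⟩

theorem res_univ (h : Col G A q) (hq : 1 ≤ q) : Col (res G A) univ q := by
  classical
  obtain ⟨c, h1, h2⟩ := h
  refine ⟨fun v => if v ∈ A then c v else 0, fun v _ => ?_, fun u _ v _ ha => ?_⟩
  · by_cases h : v ∈ A
    · simpa [h] using h1 v h
    · simp only [h, if_false]; omega
  · simpa [ha.2.1, ha.2.2] using h2 u ha.2.1 v ha.2.2 ha.1

/-- Disjoint palettes. -/
theorem union (h : Col G A q) (h' : Col G A' q') : Col G (A ∪ A') (q + q') := by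
  classical
  obtain ⟨c, h1, h2⟩ := h
  obtain ⟨c', h3, h4⟩ := h'
  refine ⟨fun v => if v ∈ A then c v else q + c' v, fun v hv => ?_, fun u hu v hv ha => ?_⟩
  · by_cases h : v ∈ A
    · have := h1 v h
      simp only [h, if_true]; omega
    · have := h3 v (hv.resolve_left h)
      simp only [h, if_false]; omega
  · by_cases h : u ∈ A <;> by_cases h' : v ∈ A <;> simp only [h, h', if_true, if_false]
    · exact h2 u h v h' ha
    · have := h1 u h; omega
    · have := h1 v h'; omega
    · have := h4 u (hu.resolve_left h) v (hv.resolve_left h') ha; omega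

/-- The same palette on two sets without edges between them. -/
theorem union_same (h : Col G A q) (h' : Col G A' q)
    (hn : ∀ a ∈ A, ∀ b ∈ A', b ∉ A → ¬ G.Adj a b) : Col G (A ∪ A') q := by
  classical
  obtain ⟨c, h1, h2⟩ := h
  obtain ⟨c', h3, h4⟩ := h'
  refine ⟨fun v => if v ∈ A then c v else c' v, fun v hv => ?_, fun u hu v hv ha => ?_⟩
  · by_cases h : v ∈ A
    · simpa [h] using h1 v h
    · simpa [h] using h3 v (hv.resolve_left h)
  · by_cases h : u ∈ A <;> by_cases h' : v ∈ A <;> simp only [h, h', if_true, if_false]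
    · exact h2 u h v h' ha
    · exact (hn u h v (hv.resolve_left h') h' ha).elim
    · exact (hn v h' u (hu.resolve_left h) h ha.symm).elim
    · exact h4 u (hu.resolve_left h) v (hv.resolve_left h') ha

/-- The same palette on the classes of a labelling that is constant along edges. -/
theorem glue {ι : Type*} (lab : V → ι) (hq : ∀ i, Col G {v | v ∈ A ∧ lab v = i} q)
    (hl : ∀ u ∈ A, ∀ v ∈ A, G.Adj u v → lab u = lab v) : Col G A q := by
  choose c h1 h2 using hq
  refine ⟨fun v => c (lab v) v, fun v hv => h1 _ v ⟨hv, rfl⟩, fun u hu v hv ha => ?_⟩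
  have := hl u hu v hv ha
  simp only
  rw [← this]
  exact h2 _ u ⟨hu, rfl⟩ v ⟨hv, this.symm⟩ ha

/-- Product colouring. -/
theorem prod {G1 G2 : SimpleGraph V} (h : Col G1 A q) (h' : Col G2 A q')
    (hG : ∀ u ∈ A, ∀ v ∈ A, G.Adj u v → G1.Adj u v ∨ G2.Adj u v) : Col G A (q * q') := by
  obtain ⟨c, h1, h2⟩ := h
  obtain ⟨c', h3, h4⟩ := h'
  refine ⟨fun v => c v * q' + c' v, fun v hv => ?_, fun u hu v hv ha e => ?_⟩
  · have := h1 v hv
    have := h3 v hv
    nlinarith
  · have a1 := h3 u hu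
    have a2 := h3 v hv
    simp only at e
    have e1 : c' u = c' v := by
      have := congrArg (· % q') e
      simpa [Nat.mod_eq_of_lt a1, Nat.mod_eq_of_lt a2] using this
    have e2 : c u = c v := Nat.eq_of_mul_eq_mul_right (m := q') (by omega) (by omega)
    rcases hG u hu v hv ha with h | h
    · exact h2 u hu v hv h e2
    · exact h4 u hu v hv h e1

theorem of_card (G : SimpleGraph V) (T : Finset V) : Col G ↑T T.card := by
  classical
  refine ⟨fun v => if h : v ∈ T then (T.equivFin ⟨v, h⟩ : ℕ) else 0, fun v hv => ?_,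
    fun u hu v hv ha e => ?_⟩
  · have hv' : v ∈ T := hv
    simp [hv']
  · have hu' : u ∈ T := hu
    have hv' : v ∈ T := hv
    simp only [hu', hv', dif_pos] at e
    have := T.equivFin.injective (Fin.ext e)
    exact ha.ne (congrArg Subtype.val this)

/-- A set inside a ball of radius `r` is bipartite if there is no odd closed walk of length
at most `2 r + 1`. -/
theorem of_ball {r : ℕ} (hA : ∀ y ∈ A, WkLe G univ v y r) (ho : OddFree G (2 * r + 1)) :
    Col G A 2 := by
  have : ∀ y, ∃ k, y ∈ A → k ≤ r ∧ Wk G univ v y k := by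
    intro y
    by_cases h : y ∈ A
    · obtain ⟨k, h1, h2⟩ := hA y h
      exact ⟨k, fun _ => ⟨h1, h2⟩⟩
    · exact ⟨0, fun h' => (h h').elim⟩
  choose k hk using this
  refine ⟨fun y => k y % 2, fun y _ => Nat.mod_lt _ (by omega), fun a ha b hb hab e => ?_⟩
  obtain ⟨h1, h2⟩ := hk a ha
  obtain ⟨h3, h4⟩ := hk b hb
  simp only at e
  exact ho v _ (Nat.odd_iff.2 (by omega)) (by omega) ((h2.snoc hab trivial).trans h4.symm)

/-- A graph without odd closed walks is bipartite. -/
theorem of_oddFree (ho : ∀ g, OddFree G g) : Col G univ 2 := by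
  classical
  refine glue (fun v => {y | Rch G univ v y}) (fun i => ?_) ?_
  · by_cases h : ∃ v, {y | Rch G univ v y} = i
    · obtain ⟨v, rfl⟩ := h
      have : ∀ y, ∃ k, Rch G univ v y → Wk G univ v y k := by
        intro y
        by_cases h : Rch G univ v y
        · obtain ⟨k, h⟩ := h
          exact ⟨k, fun _ => h⟩
        · exact ⟨0, fun h' => (h h').elim⟩
      choose k hk using this
      have hr : ∀ y, {z | Rch G univ y z} = {z | Rch G univ v z} → Rch G univ v y := by
        intro y hy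
        have : y ∈ {z | Rch G univ y z} := Rch.refl trivial
        rwa [hy] at this
      refine ⟨fun y => k y % 2, fun y _ => Nat.mod_lt _ (by omega), fun a ha b hb hab e => ?_⟩
      simp only at e
      exact ho _ v _ (Nat.odd_iff.2 (by omega)) le_rfl
        (((hk a (hr a ha.2)).snoc hab trivial).trans (hk b (hr b hb.2)).symm)
    · exact (empty G 2).mono fun v hv => h ⟨v, hv.2⟩
  · intro u _ v _ ha
    ext y
    exact ⟨fun h => Rch.cons trivial ha.symm h, fun h => Rch.cons trivial ha h⟩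

end Col

section Fin

open Classical in
/-- The number of neighbours of `v` in `A`. -/
noncomputable def dg (G : SimpleGraph V) (A : Finset V) (v : V) : ℕ := (A.filter (G.Adj v)).card

open Classical in
/-- The neighbours of `v` in `A`. -/
noncomputable def nbr (G : SimpleGraph V) (A : Finset V) (v : V) : Finset V := A.filter (G.Adj v)

theorem card_nbr (G : SimpleGraph V) (A : Finset V) (v : V) : (nbr G A v).card = dg G A v := rfl

@[simp] theorem mem_nbr {A : Finset V} : w ∈ nbr G A v ↔ w ∈ A ∧ G.Adj v w := by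
  classical
  simp [nbr]

theorem dg_mono {A B : Finset V} (h : A ⊆ B) (v : V) : dg G A v ≤ dg G B v := by
  rw [← card_nbr, ← card_nbr]
  exact Finset.card_le_card fun x hx => mem_nbr.2 ⟨h (mem_nbr.1 hx).1, (mem_nbr.1 hx).2⟩

theorem dg_le_card (A : Finset V) (v : V) : dg G A v ≤ A.card := by
  rw [← card_nbr]
  exact Finset.card_le_card fun x hx => (mem_nbr.1 hx).1

/-- Twice the number of edges inside `A`. -/
noncomputable def ed (G : SimpleGraph V) (A : Finset V) : ℕ := ∑ v ∈ A, dg G A v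

open Classical in
theorem ed_eq_card (G : SimpleGraph V) (A : Finset V) :
    ed G A = ((A ×ˢ A).filter fun p => G.Adj p.1 p.2).card := by
  rw [Finset.card_filter, Finset.sum_product]
  refine Finset.sum_congr rfl fun v _ => ?_
  rw [dg, Finset.card_filter]

/-- Double counting of the edges between two sets. -/
theorem sum_dg_comm (G : SimpleGraph V) (A B : Finset V) :
    ∑ a ∈ A, dg G B a = ∑ b ∈ B, dg G A b := by
  classical
  simp only [dg, Finset.card_filter]
  rw [Finset.sum_comm]
  refine Finset.sum_congr rfl fun b _ => Finset.sum_congr rfl fun a _ => ?_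
  simp only [G.adj_comm a b]

variable [DecidableEq V]

theorem dg_union_le (A B : Finset V) (v : V) : dg G (A ∪ B) v ≤ dg G A v + dg G B v := by
  rw [← card_nbr, ← card_nbr, ← card_nbr]
  refine le_trans (Finset.card_le_card ?_) (Finset.card_union_le _ _)
  intro x hx
  simp only [mem_nbr, Finset.mem_union] at hx ⊢
  tauto

theorem ed_erase {A : Finset V} (hv : v ∈ A) : ed G A = ed G (A.erase v) + 2 * dg G A v := by
  classical
  have h1 : ∀ x, dg G A x = dg G (A.erase v) x + if G.Adj x v then 1 else 0 := by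
    intro x
    simp only [dg, Finset.card_filter]
    rw [← Finset.sum_erase_add A _ hv]
  have h2 : dg G A v = ∑ x ∈ A.erase v, if G.Adj x v then 1 else 0 := by
    rw [h1 v]
    simp only [SimpleGraph.irrefl, if_false, Nat.add_zero, dg, Finset.card_filter]
    exact Finset.sum_congr rfl fun x _ => by simp only [G.adj_comm v x]
  unfold ed
  rw [← Finset.sum_erase_add A _ hv, Finset.sum_congr rfl fun x _ => h1 x, Finset.sum_add_distrib,
    ← h2]
  ring

/-- A set of average degree more than `2 d` contains a nonempty set of minimum degree more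
than `d`. -/
theorem exists_mindeg {A : Finset V} {d : ℕ} (h : 2 * d * A.card < ed G A) :
    ∃ B ⊆ A, B.Nonempty ∧ ∀ v ∈ B, d < dg G B v := by
  induction hn : A.card using Nat.strong_induction_on generalizing A with
  | _ n ih =>
  by_cases h1 : ∀ v ∈ A, d < dg G A v
  · refine ⟨A, Finset.Subset.rfl, ?_, h1⟩
    rw [Finset.nonempty_iff_ne_empty]
    rintro rfl
    simp [ed] at h
  · push Not at h1
    obtain ⟨v, hv, h2⟩ := h1
    have h3 := ed_erase (G := G) hv
    have h4 := Finset.card_erase_add_one hv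
    obtain ⟨B, h5, h6⟩ := ih _ (by omega) (A := A.erase v) (by rw [← h4] at h; nlinarith) rfl
    exact ⟨B, h5.trans (Finset.erase_subset _ _), h6⟩

/-- Greedy colouring of a degenerate set. -/
theorem Col.of_degenerate {A : Finset V} {d : ℕ}
    (h : ∀ B ⊆ A, B.Nonempty → ∃ v ∈ B, dg G B v < d) : Col G ↑A d := by
  induction hn : A.card using Nat.strong_induction_on generalizing A with
  | _ n ih =>
  rcases A.eq_empty_or_nonempty with rfl | hA
  · simpa using Col.empty G d
  obtain ⟨v, hv, h1⟩ := h A Finset.Subset.rfl hA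
  have h4 := Finset.card_erase_add_one hv
  obtain ⟨c, h2, h3⟩ := ih _ (by omega) (A := A.erase v)
    (fun B hB => h B (hB.trans (Finset.erase_subset _ _))) rfl
  obtain ⟨x, hx, hx'⟩ : ∃ x ∈ Finset.range d, x ∉ (nbr G A v).image c := by
    apply Finset.exists_mem_notMem_of_card_lt_card
    rw [Finset.card_range]
    exact lt_of_le_of_lt Finset.card_image_le h1
  have hne : ∀ y ∈ A, G.Adj v y → c y ≠ x := fun y hy ha e =>
    hx' (Finset.mem_image.2 ⟨y, mem_nbr.2 ⟨hy, ha⟩, e⟩)
  have hm : ∀ y, y ∈ (↑A : Set V) → y ≠ v → y ∈ (↑(A.erase v) : Set V) := fun y hy h =>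
    Finset.mem_coe.2 (Finset.mem_erase.2 ⟨h, hy⟩)
  refine ⟨fun y => if y = v then x else c y, fun y hy => ?_, fun a ha b hb hab => ?_⟩
  · by_cases e : y = v
    · simpa [e] using hx
    · simpa [e] using h2 y (hm y hy e)
  · by_cases e : a = v <;> by_cases e' : b = v <;> simp only [e, e', if_true, if_false]
    · exact (hab.ne (e.trans e'.symm)).elim
    · exact (hne b hb (e ▸ hab)).symm
    · exact hne a ha (e' ▸ hab.symm)
    · exact h3 a (hm a ha e) b (hm b hb e') hab

/-- Minimum degree `d` gives a path of length `d` from any vertex. -/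
theorem exists_pth_of_mindeg {B : Finset V} {d : ℕ} (h : ∀ v ∈ B, d ≤ dg G B v) (hu : u ∈ B) :
    ∃ v, Pth G ↑B u v d := by
  have : ∀ k ≤ d, ∃ v, Pth G ↑B u v k := by
    intro k
    induction k with
    | zero => exact fun _ => ⟨u, Pth.refl hu⟩
    | succ k ih =>
      intro hk
      obtain ⟨v, hv⟩ := ih (by omega)
      obtain ⟨T, h1, h2, h3⟩ := hv.tight
      have hvT : v ∈ T := h3.right
      obtain ⟨x, hx, hx'⟩ : ∃ x ∈ nbr G B v, x ∉ T.erase v := by
        apply Finset.exists_mem_notMem_of_card_lt_card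
        have := h v hv.right
        rw [Finset.card_erase_of_mem hvT, card_nbr]
        omega
      rw [mem_nbr] at hx
      have hxT : x ∉ (↑T : Set V) := fun h' => hx' (Finset.mem_erase.2 ⟨hx.2.ne.symm, h'⟩)
      exact ⟨x, (h3.snoc hx.2 hxT).mono (insert_subset hx.1 h1)⟩
  exact this d le_rfl

/-- A set without paths of length `d` is `d`-colourable. -/
theorem Col.of_no_pth {A : Finset V} {d : ℕ} (h : ∀ u v, ¬ Pth G ↑A u v d) : Col G ↑A d := by
  refine Col.of_degenerate fun B hB ⟨u, hu⟩ => ?_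
  by_contra h1
  push Not at h1
  obtain ⟨v, hv⟩ := exists_pth_of_mindeg h1 hu
  exact h u v (hv.mono (by exact_mod_cast hB))

omit [DecidableEq V] in
/-- Of a family of pairwise disjoint sets at most `|U|` meet the finite set `U`. -/
theorem card_meet_le {ι : Type*} (I : Finset ι) (F : ι → Set V) (U : Finset V)
    (hd : ∀ i ∈ I, ∀ j ∈ I, ∀ x, x ∈ F i → x ∈ F j → i = j)
    (hm : ∀ i ∈ I, ∃ x ∈ U, x ∈ F i) : I.card ≤ U.card := by
  classical
  rcases I.eq_empty_or_nonempty with rfl | ⟨i0, hi0⟩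
  · simp
  obtain ⟨x0, _, _⟩ := hm i0 hi0
  have : ∀ i, ∃ x, i ∈ I → x ∈ U ∧ x ∈ F i := by
    intro i
    by_cases h : i ∈ I
    · obtain ⟨x, h1, h2⟩ := hm i h
      exact ⟨x, fun _ => ⟨h1, h2⟩⟩
    · exact ⟨x0, fun h' => (h h').elim⟩
  choose g hg using this
  exact Finset.card_le_card_of_injOn g (fun i hi => (hg i hi).1)
    fun i hi j hj e => hd i hi j hj _ (hg i hi).2 (e ▸ (hg j hj).2)

end Fin

open Classical in
/-- The outer neighbourhood of a set. -/
noncomputable def nb [Fintype V] (G : SimpleGraph V) (X : Finset V) : Finset V :=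
  Finset.univ.filter fun y => y ∉ X ∧ ∃ x ∈ X, G.Adj x y

@[simp] theorem mem_nb [Fintype V] {X : Finset V} :
    w ∈ nb G X ↔ w ∉ X ∧ ∃ x ∈ X, G.Adj x w := by
  classical
  simp [nb]

theorem nb_singleton [Fintype V] (G : SimpleGraph V) (v : V) :
    nb G {v} = nbr G Finset.univ v := by
  ext w
  simp only [mem_nb, mem_nbr, Finset.mem_singleton, Finset.mem_univ, true_and, exists_eq_left]
  exact ⟨fun h => h.2, fun h => ⟨h.ne.symm, h⟩⟩

/-- Vertices of degree at most `d` have at most `d` neighbours each. -/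
theorem card_nb_le [Fintype V] {X : Finset V} {d : ℕ} (h : ∀ x ∈ X, dg G Finset.univ x ≤ d) :
    (nb G X).card ≤ X.card * d := by
  classical
  have : nb G X ⊆ X.biUnion fun x => nbr G Finset.univ x := by
    intro y hy
    obtain ⟨_, x, hx, ha⟩ := mem_nb.1 hy
    exact Finset.mem_biUnion.2 ⟨x, hx, mem_nbr.2 ⟨Finset.mem_univ _, ha⟩⟩
  exact (Finset.card_le_card this).trans (Finset.card_biUnion_le_card_mul _ _ _ h)

/-- `X` is a set rooted at `v` of radius at most `r`. -/
def Rt (G : SimpleGraph V) (X : Finset V) (v : V) (r : ℕ) : Prop :=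
  v ∈ X ∧ ∀ y ∈ X, WkLe G ↑X v y r

theorem Rt.le {X : Finset V} {r r' : ℕ} (h : Rt G X v r) (hr : r ≤ r') : Rt G X v r' :=
  ⟨h.1, fun y hy => (h.2 y hy).le hr⟩

theorem Rt.singleton (G : SimpleGraph V) (v : V) (r : ℕ) : Rt G {v} v r :=
  ⟨by simp, fun y hy => by
    rw [Finset.mem_singleton] at hy
    subst hy
    exact WkLe.refl (by simp) _⟩

/-- A rooted set contains rooted subsets of every smaller positive size. -/
theorem Rt.trim {X : Finset V} {r D : ℕ} (h : Rt G X v r) (h1 : 1 ≤ D) (hD : D ≤ X.card) :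
    ∃ X' ⊆ X, Rt G X' v r ∧ X'.card = D := by
  classical
  induction hn : X.card using Nat.strong_induction_on generalizing X with
  | _ n ih =>
  rcases hD.eq_or_lt with e | hlt
  · exact ⟨X, Finset.Subset.rfl, h, e.symm⟩
  obtain ⟨dep, par, own, b1, b2⟩ := bfs G (↑X) {v}
  have hr : ∀ y ∈ X, ∃ c ∈ ({v} : Set V), Rch G ↑X c y := fun y hy => ⟨v, rfl, (h.2 y hy).rch⟩
  obtain ⟨y, hy, hmax⟩ := Finset.exists_max_image (X.erase v) dep (by
    rw [← Finset.card_pos, Finset.card_erase_of_mem h.1]; omega)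
  rw [Finset.mem_erase] at hy
  have h4 := Finset.card_erase_add_one hy.2
  have hv0 : dep v = 0 := by
    have := b1 v rfl v 0 (Wk.nil h.1)
    omega
  have : Rt G (X.erase y) v r := by
    refine ⟨Finset.mem_erase.2 ⟨hy.1.symm, h.1⟩, fun z hz => ?_⟩
    rw [Finset.mem_erase] at hz
    obtain ⟨c1, _, _, _, c5⟩ := b2 z (hr z hz.2)
    obtain ⟨k, hk, hw⟩ := h.2 z hz.2
    have c6 := b1 v rfl z k hw
    rw [mem_singleton_iff] at c1
    rw [c1] at c5
    refine (c5.mono ?_).le (by omega)
    rintro x ⟨⟨c, _, hx⟩, _, h5⟩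
    refine Finset.mem_coe.2 (Finset.mem_erase.2 ⟨?_, hx.right⟩)
    rintro rfl
    rcases h5 with h5 | h5
    · by_cases e : z = v
      · rw [e] at h5; omega
      · have := hmax z (Finset.mem_erase.2 ⟨e, hz.2⟩)
        omega
    · exact hz.1 h5.symm
  obtain ⟨X', h5, h6⟩ := ih _ (by omega) this (by omega) rfl
  exact ⟨X', h5.trans (Finset.erase_subset _ _), h6⟩

end Pool.Agent.P.MP_0cc987_co
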