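import Pool.Agent.P.MP_0cc987_co.Dec1

/-! Colouring by decomposition along a tangle star. -/

namespace Pool.Agent.P.MP_0cc987_co

open Set

variable {V : Type*}

namespace Dec

variable {G : SimpleGraph V}

/-- The two values are far apart modulo six. -/
def Far (a b : ℤ) : Prop := (a - b) % 6 = 2 ∨ (a - b) % 6 = 3 ∨ (a - b) % 6 = 4

theorem Far.symm {a b : ℤ} (h : Far a b) : Far b a := by
  unfold Far at h ⊢
  omega

/-- The value `v` at `y` is represented by the colouring `φ` on `W`. -/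
def Rep (G : SimpleGraph V) (W : Finset V) (φ : V → ℤ) (y : V) (v : ℤ) : Prop :=
  (y ∈ W ∧ v = φ y) ∨ ∃ x ∈ W, G.Adj x y ∧ v = φ x + 3

theorem Rep.ext {W W' : Finset V} {φ φ' : V → ℤ} {y : V} {v : ℤ} (h : Rep G W φ y v)
    (hW : W ⊆ W') (hφ : ∀ x ∈ W, φ' x = φ x) : Rep G W' φ' y v := by
  rcases h with ⟨h1, h2⟩ | ⟨x, h1, h2, h3⟩
  · exact Or.inl ⟨hW h1, by rw [hφ y h1, h2]⟩
  · exact Or.inr ⟨x, hW h1, h2, by rw [hφ x h1, h3]⟩

/-- The boundary values are represented by a good colouring. -/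
def Adm (G : SimpleGraph V) (Gd : Finset V → (V → ℤ) → Prop) (B : Finset V) (ψ : V → ℤ) : Prop :=
  ∃ W φ, Gd W φ ∧ ∀ y ∈ B, y ∈ W ∧ Rep G W φ y (ψ y)

/-- A solution of the colouring problem on `A` with boundary values `ψ` on `B`. -/
structure Res (G : SimpleGraph V) (q : ℕ) (A B : Finset V) (ψ : V → ℤ) (sk : V → Prop)
    (val : V → ℤ) (col : V → ℕ) : Prop where
  lt : ∀ a ∈ A, ¬ sk a → col a < q
  far : ∀ a ∈ A, ∀ a' ∈ A, G.Adj a a' → sk a → sk a' → Far (val a) (val a')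
  ne : ∀ a ∈ A, ∀ a' ∈ A, G.Adj a a' → ¬ sk a → ¬ sk a' → col a ≠ col a'
  bdy : ∀ a ∈ A, ∀ y ∈ B, G.Adj a y → sk a ∧ Far (val a) (ψ y)

variable [DecidableEq V] {Gd : Finset V → (V → ℤ) → Prop} {n0 Θ q : ℕ}

theorem ext_many (hG : GoodSys G n0 Gd) {W : Finset V} {φ : V → ℤ} (hW : Gd W φ) (Y : Finset V)
    (hY : (W ∪ Y).card ≤ n0) : ∃ φ', Gd (W ∪ Y) φ' ∧ ∀ x ∈ W, φ' x = φ x := by
  induction Y using Finset.induction_on with
  | empty => exact ⟨φ, by simpa using hW, fun _ _ => rfl⟩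
  | insert y Y _ ih =>
    rw [Finset.union_insert] at hY ⊢
    obtain ⟨φ1, h1, h2⟩ := ih ((Finset.card_le_card (Finset.subset_insert _ _)).trans hY)
    by_cases hy : y ∈ W ∪ Y
    · exact ⟨φ1, by rwa [Finset.insert_eq_of_mem hy], h2⟩
    · rw [Finset.card_insert_of_notMem hy] at hY
      obtain ⟨φ2, h3, h4⟩ := hG.ext _ _ y h1 (by omega)
      exact ⟨φ2, h3, fun x hx => (h4 x (Finset.mem_union_left _ hx)).trans (h2 x hx)⟩

theorem Adm.small (hG : GoodSys G n0 Gd) {B : Finset V} {ψ : V → ℤ} (h : Adm G Gd B ψ) :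
    ∃ W φ, Gd W φ ∧ W.card ≤ 2 * B.card ∧ ∀ y ∈ B, y ∈ W ∧ Rep G W φ y (ψ y) := by
  obtain ⟨W, φ, h1, h2⟩ := h
  have : ∀ y, ∃ x, y ∈ B → x ∈ W ∧ (ψ y = φ y ∨ (G.Adj x y ∧ ψ y = φ x + 3)) := by
    intro y
    by_cases hy : y ∈ B
    · rcases (h2 y hy).2 with ⟨h3, h4⟩ | ⟨x, h3, h4⟩
      · exact ⟨y, fun _ => ⟨h3, Or.inl h4⟩⟩
      · exact ⟨x, fun _ => ⟨h3, Or.inr h4⟩⟩
    · exact ⟨y, fun h => (hy h).elim⟩
  choose f hf using this
  refine ⟨B ∪ B.image f, φ, hG.mono W _ φ φ h1 (fun x hx => ?_) fun _ _ => rfl, ?_,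
    fun y hy => ⟨Finset.mem_union_left _ hy, ?_⟩⟩
  · rcases Finset.mem_union.1 hx with hx | hx
    · exact (h2 x hx).1
    · obtain ⟨y, hy, rfl⟩ := Finset.mem_image.1 hx
      exact (hf y hy).1
  · have := Finset.card_union_le B (B.image f)
    have := Finset.card_image_le (s := B) (f := f)
    omega
  · rcases (hf y hy).2 with h3 | h3
    · exact Or.inl ⟨Finset.mem_union_left _ hy, h3⟩
    · exact Or.inr ⟨f y, Finset.mem_union_right _ (Finset.mem_image_of_mem f hy), h3⟩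

theorem far_rep (hG : GoodSys G n0 Gd) {W : Finset V} {φ : V → ℤ} (hW : Gd W φ) {a y : V}
    {u v : ℤ} (ha : Rep G W φ a u) (hy : Rep G W φ y v) (h : G.Adj a y) : Far u v := by
  unfold Far
  rcases ha with ⟨a1, rfl⟩ | ⟨x, a1, a2, rfl⟩ <;> rcases hy with ⟨b1, rfl⟩ | ⟨z, b1, b2, rfl⟩
  · exact hG.odd W φ a y 1 hW a1 b1 (Wk.single trivial trivial h) (Or.inl rfl)
  · have := hG.even W φ a z hW a1 b1 (Wk.cons trivial h (Wk.single trivial trivial b2.symm))
    omega
  · have := hG.even W φ x y hW a1 b1 (Wk.cons trivial a2 (Wk.single trivial trivial h))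
    omega
  · have := hG.odd W φ x z 3 hW a1 b1
      (Wk.cons trivial a2 (Wk.cons trivial h (Wk.single trivial trivial b2.symm))) (Or.inr rfl)
    omega

/-- The colouring problem on `A` with boundary `B` is solvable. -/
def Solv (G : SimpleGraph V) (Gd : Finset V → (V → ℤ) → Prop) (Θ q : ℕ) (A B : Finset V) : Prop :=
  ∀ ψ, Disjoint A B → (∀ a ∈ A, ∀ y, G.Adj a y → y ∈ A ∪ B) → B.card ≤ 4 * Θ → Adm G Gd B ψ →
    ∃ sk val col, Res G q A B ψ sk val col

/-- Glue a solution on a core `R` with solutions on the parts of the complement. -/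
theorem step (hG : GoodSys G n0 Gd) {A B R W : Finset V} {ψ φ : V → ℤ}
    (hAB : Disjoint A B) (hW : Gd W φ) (hrep : ∀ y ∈ B, y ∈ W ∧ Rep G W φ y (ψ y))
    {sk0 : V → Prop} {val0 : V → ℤ} {col0 : V → ℕ} (h0 : Res G q (A ∩ R) B ψ sk0 val0 col0)
    (hrep0 : ∀ a ∈ A ∩ R, sk0 a → Rep G W φ a (val0 a)) (C : V → Finset V)
    (hC : ∀ a ∈ A, a ∉ R → a ∈ C a ∧ (∀ x ∈ C a, x ∉ R ∧ x ∈ A ∪ B) ∧
      (∀ x ∈ C a, x ∈ A → C x = C a) ∧ ∃ Y ⊆ R, (∀ x ∈ C a, x ∈ A → ∀ y, G.Adj x y →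
        y ∈ C a ∨ y ∈ Y) ∧ (W ∪ Y).card ≤ n0 ∧ (B ∩ C a ∪ Y).card ≤ 4 * Θ ∧
        Solv G Gd Θ q (A ∩ C a) (B ∩ C a ∪ Y)) :
    ∃ sk val col, Res G q A B ψ sk val col := by
  classical
  rw [Finset.disjoint_left] at hAB
  have key : ∀ D : Finset V, ∃ (sk : V → Prop) (val : V → ℤ) (col : V → ℕ),
      (∃ a ∈ A, a ∉ R ∧ C a = D) → Res G q (A ∩ D) B ψ sk val col ∧
        ∀ x ∈ A ∩ D, ∀ y ∈ A ∩ R, G.Adj x y → sk x ∧ (sk0 y → Far (val x) (val0 y)) := by
    intro D
    by_cases hD : ∃ a ∈ A, a ∉ R ∧ C a = D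
    swap
    · exact ⟨sk0, val0, col0, fun h => (hD h).elim⟩
    obtain ⟨a, ha, haR, rfl⟩ := hD
    obtain ⟨c1, c2, c3, Y, c4, c5, c6, c7, c8⟩ := hC a ha haR
    obtain ⟨φ', d1, d2⟩ := ext_many hG hW Y c6
    obtain ⟨sk, val, col, hr⟩ := c8
      (fun y => if y ∈ B then ψ y else if y ∈ A ∩ R ∧ sk0 y then val0 y else φ' y) (by
        rw [Finset.disjoint_left]
        intro x hx hx'
        rw [Finset.mem_inter] at hx
        rcases Finset.mem_union.1 hx' with h | h
        · exact hAB hx.1 (Finset.mem_inter.1 h).1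
        · exact (c2 x hx.2).1 (c4 h)) (by
        intro x hx y hxy
        rw [Finset.mem_inter] at hx
        simp only [Finset.mem_union, Finset.mem_inter]
        rcases c5 x hx.2 hx.1 y hxy with h | h
        · have := Finset.mem_union.1 (c2 y h).2
          tauto
        · tauto) c7 ⟨W ∪ Y, φ', d1, fun y hy => by
        have hyW : y ∈ W ∪ Y := by
          rcases Finset.mem_union.1 hy with h | h
          · exact Finset.mem_union_left _ (hrep y (Finset.mem_inter.1 h).1).1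
          · exact Finset.mem_union_right _ h
        refine ⟨hyW, ?_⟩
        by_cases h1 : y ∈ B
        · simp only [h1, if_true]
          exact (hrep y h1).2.ext Finset.subset_union_left d2
        · by_cases h2 : y ∈ A ∩ R ∧ sk0 y
          · simp only [h1, h2, if_false, and_self, if_true]
            exact (hrep0 y h2.1 h2.2).ext Finset.subset_union_left d2
          · simp only [h1, h2, if_false]
            exact Or.inl ⟨hyW, rfl⟩⟩
    refine ⟨sk, val, col, fun _ => ⟨⟨hr.lt, hr.far, hr.ne, fun x hx y hy hxy => ?_⟩,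
      fun x hx y hy hxy => ?_⟩⟩
    · have hx' := Finset.mem_inter.1 hx
      have := hr.bdy x hx y (by
        rcases c5 x hx'.2 hx'.1 y hxy with h | h
        · exact Finset.mem_union_left _ (Finset.mem_inter.2 ⟨hy, h⟩)
        · exact Finset.mem_union_right _ h) hxy
      simpa only [hy, if_true] using this
    · have hx' := Finset.mem_inter.1 hx
      have hy' := Finset.mem_inter.1 hy
      have := hr.bdy x hx y (by
        rcases c5 x hx'.2 hx'.1 y hxy with h | h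
        · exact ((c2 y h).1 hy'.2).elim
        · exact Finset.mem_union_right _ h) hxy
      refine ⟨this.1, fun h => ?_⟩
      simpa only [hAB hy'.1, hy, h, if_false, and_self, if_true] using this.2
  choose sk val col hk using key
  have hk' := fun a (ha : a ∈ A) (haR : a ∉ R) => hk (C a) ⟨a, ha, haR, rfl⟩
  have hm : ∀ a ∈ A, a ∉ R → a ∈ A ∩ C a := fun a ha haR =>
    Finset.mem_inter.2 ⟨ha, (hC a ha haR).1⟩
  have hsame : ∀ a ∈ A, a ∉ R → ∀ a' ∈ A, a' ∉ R → G.Adj a a' → C a' = C a ∧ a' ∈ A ∩ C a := by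
    intro a ha haR a' ha' haR' hadj
    obtain ⟨c1, c2, c3, Y, c4, c5, _⟩ := hC a ha haR
    have := (c5 a c1 ha a' hadj).resolve_right fun h => haR' (c4 h)
    exact ⟨c3 a' this ha', Finset.mem_inter.2 ⟨ha', this⟩⟩
  refine ⟨fun a => if a ∈ R then sk0 a else sk (C a) a,
    fun a => if a ∈ R then val0 a else val (C a) a,
    fun a => if a ∈ R then col0 a else col (C a) a, fun a ha => ?_, fun a ha a' ha' hadj => ?_,
    fun a ha a' ha' hadj => ?_, fun a ha y hy hadj => ?_⟩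
  · by_cases h : a ∈ R <;> simp only [h, if_true, if_false]
    · exact h0.lt a (Finset.mem_inter.2 ⟨ha, h⟩)
    · exact (hk' a ha h).1.lt a (hm a ha h)
  · by_cases h : a ∈ R <;> by_cases h' : a' ∈ R <;> simp only [h, h', if_true, if_false]
    · exact h0.far a (Finset.mem_inter.2 ⟨ha, h⟩) a' (Finset.mem_inter.2 ⟨ha', h'⟩) hadj
    · exact fun s _ => (((hk' a' ha' h').2 a' (hm a' ha' h') a (Finset.mem_inter.2 ⟨ha, h⟩)
        hadj.symm).2 s).symm
    · exact fun _ s => ((hk' a ha h).2 a (hm a ha h) a' (Finset.mem_inter.2 ⟨ha', h'⟩) hadj).2 s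
    · obtain ⟨e, e'⟩ := hsame a ha h a' ha' h' hadj
      rw [e]
      exact (hk' a ha h).1.far a (hm a ha h) a' e' hadj
  · by_cases h : a ∈ R <;> by_cases h' : a' ∈ R <;> simp only [h, h', if_true, if_false]
    · exact h0.ne a (Finset.mem_inter.2 ⟨ha, h⟩) a' (Finset.mem_inter.2 ⟨ha', h'⟩) hadj
    · exact fun _ s => (s ((hk' a' ha' h').2 a' (hm a' ha' h') a (Finset.mem_inter.2 ⟨ha, h⟩)
        hadj.symm).1).elim
    · exact fun s _ => (s ((hk' a ha h).2 a (hm a ha h) a' (Finset.mem_inter.2 ⟨ha', h'⟩)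
        hadj).1).elim
    · obtain ⟨e, e'⟩ := hsame a ha h a' ha' h' hadj
      rw [e]
      exact (hk' a ha h).1.ne a (hm a ha h) a' e' hadj
  · by_cases h : a ∈ R <;> simp only [h, if_true, if_false]
    · exact h0.bdy a (Finset.mem_inter.2 ⟨ha, h⟩) y hy hadj
    · exact (hk' a ha h).1.bdy a (hm a ha h) y hy hadj

/-- The case of a small core coloured by the extended good colouring. -/
theorem step_small (hG : GoodSys G n0 Gd) {A B X W : Finset V} {ψ φ : V → ℤ}
    (hAB : Disjoint A B) (hW : Gd W φ) (hrep : ∀ y ∈ B, y ∈ W ∧ Rep G W φ y (ψ y))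
    (hX : (W ∪ X).card ≤ n0) (C : V → Finset V)
    (hC : ∀ a ∈ A, a ∉ X → a ∈ C a ∧ (∀ x ∈ C a, x ∉ X ∧ x ∈ A ∪ B) ∧
      (∀ x ∈ C a, x ∈ A → C x = C a) ∧ (∀ x ∈ C a, x ∈ A → ∀ y, G.Adj x y →
        y ∈ C a ∨ y ∈ X) ∧ (B ∩ C a ∪ X).card ≤ 4 * Θ ∧
        Solv G Gd Θ q (A ∩ C a) (B ∩ C a ∪ X)) :
    ∃ sk val col, Res G q A B ψ sk val col := by
  obtain ⟨φ', d1, d2⟩ := ext_many hG hW X hX
  have hrep' : ∀ y ∈ B, y ∈ W ∪ X ∧ Rep G (W ∪ X) φ' y (ψ y) := fun y hy =>
    ⟨Finset.mem_union_left _ (hrep y hy).1, (hrep y hy).2.ext Finset.subset_union_left d2⟩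
  have hr : ∀ a ∈ A ∩ X, Rep G (W ∪ X) φ' a (φ' a) := fun a ha =>
    Or.inl ⟨Finset.mem_union_right _ (Finset.mem_inter.1 ha).2, rfl⟩
  refine step hG (R := X) (Θ := Θ) hAB d1 hrep' (sk0 := fun _ => True) (val0 := φ')
    (col0 := fun _ => 0)
    ⟨fun _ _ h => (h trivial).elim, fun a ha a' ha' h _ _ => far_rep hG d1 (hr a ha) (hr a' ha') h,
      fun _ _ _ _ _ h => (h trivial).elim,
      fun a ha y hy h => ⟨trivial, far_rep hG d1 (hr a ha) (hrep' y hy).2 h⟩⟩
    (fun a ha _ => hr a ha) C fun a ha haX => ?_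
  obtain ⟨c1, c2, c3, c4, c5, c6⟩ := hC a ha haX
  exact ⟨c1, c2, c3, X, Finset.Subset.rfl, c4, by rwa [Finset.union_assoc, Finset.union_self],
    c5, c6⟩

theorem solv [Fintype V] (hΘ : 1 ≤ Θ) (hG : GoodSys G (9 * Θ + 1) Gd)
    (h : ∀ R, Linked G Θ R → Col G R q) (A B : Finset V) : Solv G Gd Θ q A B := by
  classical
  induction hn : A.card + (A ∪ B).card using Nat.strong_induction_on generalizing A B with
  | _ n ih =>
  have IH : ∀ A' B' : Finset V, A'.card + (A' ∪ B').card < A.card + (A ∪ B).card →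
      Solv G Gd Θ q A' B' := fun A' B' hlt => ih _ (hn ▸ hlt) A' B' rfl
  intro ψ hAB hN hB hadm
  obtain ⟨W, φ, hW, hWc, hrep⟩ := hadm.small hG
  have hWX : ∀ X : Finset V, X.card ≤ Θ → (W ∪ X).card ≤ 9 * Θ + 1 := fun X hX =>
    (Finset.card_union_le _ _).trans (by omega)
  have IH' : ∀ C X : Finset V, C ⊆ A ∪ B → X ⊆ A ∪ B → (∃ z ∈ A ∪ B, z ∉ C ∧ z ∉ X) →
      Solv G Gd Θ q (A ∩ C) (B ∩ C ∪ X) := by
    rintro C X h1 h2 ⟨z, h3, h4, h5⟩
    refine IH _ _ (Nat.add_lt_add_of_le_of_lt (Finset.card_le_card Finset.inter_subset_left)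
      (Finset.card_lt_card ⟨?_, fun hs => ?_⟩))
    · exact Finset.union_subset (Finset.inter_subset_right.trans h1)
        (Finset.union_subset (Finset.inter_subset_right.trans h1) h2)
    · have := hs h3
      simp only [Finset.mem_union, Finset.mem_inter] at this
      tauto
  rcases A.eq_empty_or_nonempty with rfl | ⟨y, hy⟩
  · exact ⟨fun _ => True, ψ, fun _ => 0, by simp, by simp, by simp, by simp⟩
  rcases hB.eq_or_lt with hB' | hB'
  swap
  · refine step_small hG (X := {y}) (Θ := Θ) hAB hW hrep (hWX _ (by simpa using hΘ))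
      (fun _ => (A ∪ B).erase y) fun a ha haX => ?_
    rw [Finset.mem_singleton] at haX
    refine ⟨Finset.mem_erase.2 ⟨haX, Finset.mem_union_left _ ha⟩,
      fun x hx => by simpa using hx, fun _ _ _ => rfl, fun x _ hx z hz => ?_, ?_, IH _ _ ?_⟩
    · have := hN x hx z hz
      simp only [Finset.mem_erase, Finset.mem_singleton]
      tauto
    · have h1 := Finset.card_union_le (B ∩ (A ∪ B).erase y) {y}
      have h2 : (B ∩ (A ∪ B).erase y).card ≤ B.card := Finset.card_le_card Finset.inter_subset_left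
      rw [Finset.card_singleton] at h1
      omega
    · refine Nat.add_lt_add_of_lt_of_le (Finset.card_lt_card ⟨Finset.inter_subset_left,
        fun hs => ?_⟩) (Finset.card_le_card fun x hx => ?_)
      · simpa using hs hy
      · simp only [Finset.mem_union, Finset.mem_inter, Finset.mem_singleton] at hx ⊢
        rcases hx with hx | hx | rfl <;> tauto
  by_cases hsep : ∃ F ⊆ A ∪ B, (bd G (A ∪ B) F).card ≤ Θ ∧ Θ ≤ (B ∩ F).card ∧
      (B ∩ F).card ≤ 2 * Θ
  · obtain ⟨F, f1, f2, f3, f4⟩ := hsep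
    set X := bd G (A ∪ B) F with hX
    have hXs : X ⊆ A ∪ B := fun x hx => (mem_bd.1 hx).1
    refine step_small hG (X := X) (Θ := Θ) hAB hW hrep (hWX _ f2)
      (fun a => if a ∈ F then F else (A ∪ B) \ (F ∪ X)) fun a ha haX => ?_
    by_cases haF : a ∈ F <;> simp only [haF, if_true, if_false]
    · refine ⟨trivial, fun x hx => ⟨fun h => (mem_bd.1 h).2.1 hx, f1 hx⟩,
        fun x hx _ => if_pos hx, fun x hx hxA z hz => ?_,
        (Finset.card_union_le _ _).trans (by omega), IH' _ _ f1 hXs ?_⟩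
      · by_cases hzF : z ∈ F
        · exact Or.inl hzF
        · exact Or.inr (mem_bd.2 ⟨hN x hxA z hz, hzF, x, hx, hz⟩)
      · obtain ⟨z, z1, z2⟩ : ∃ z ∈ B, z ∉ B ∩ F ∪ X :=
          Finset.exists_mem_notMem_of_card_lt_card
            (lt_of_le_of_lt (Finset.card_union_le _ _) (by omega))
        simp only [Finset.mem_union, Finset.mem_inter] at z2
        exact ⟨z, Finset.mem_union_right _ z1, by tauto, by tauto⟩
    · refine ⟨?_, fun x hx => ?_, fun x hx _ => if_neg fun h => ?_, fun x hx hxA z hz => ?_,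
        (Finset.card_union_le _ _).trans ?_, IH' _ _ Finset.sdiff_subset hXs ?_⟩
      · simp only [Finset.mem_sdiff, Finset.mem_union]
        tauto
      · simp only [Finset.mem_sdiff, Finset.mem_union] at hx ⊢
        tauto
      · exact (Finset.mem_sdiff.1 hx).2 (Finset.mem_union_left _ h)
      · have h1 := hN x hxA z hz
        rw [Finset.mem_sdiff] at hx
        have h2 : z ∉ F := fun hzF => hx.2 (Finset.mem_union_right _ (mem_bd.2
          ⟨hx.1, fun h => hx.2 (Finset.mem_union_left _ h), z, hzF, hz.symm⟩))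
        rw [Finset.mem_sdiff, Finset.mem_union (s := F)]
        tauto
      · have h1 := Finset.card_sdiff_add_card_inter B F
        have h2 : (B ∩ ((A ∪ B) \ (F ∪ X))).card ≤ (B \ F).card :=
          Finset.card_le_card fun x hx => by
            simp only [Finset.mem_sdiff, Finset.mem_union, Finset.mem_inter] at hx ⊢
            tauto
        omega
      · obtain ⟨z, hz⟩ : (B ∩ F).Nonempty := by rw [← Finset.card_pos]; omega
        rw [Finset.mem_inter] at hz
        exact ⟨z, f1 hz.2, fun h => (Finset.mem_sdiff.1 h).2 (Finset.mem_union_left _ hz.2),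
          fun h => (mem_bd.1 h).2.1 hz.2⟩
  obtain ⟨U, u1, u2, u3⟩ := core (G := G) (S := A ∪ B) hB (by
    intro F f1 f2
    by_contra hc
    push Not at hc
    exact hsep ⟨F, f1, f2, hc.1, hc.2⟩)
  obtain ⟨col0, k1, k2⟩ := h _ u2
  have : ∀ a, ∃ y', (∃ y ∈ B, G.Adj a y) → y' ∈ B ∧ G.Adj a y' := by
    intro a
    by_cases ha : ∃ y ∈ B, G.Adj a y
    · obtain ⟨y', h1⟩ := ha
      exact ⟨y', fun _ => h1⟩
    · exact ⟨a, fun h => (ha h).elim⟩
  choose g hg using this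
  have hr : ∀ a, (∃ y ∈ B, G.Adj a y) → Rep G W φ a (φ (g a) + 3) := fun a ha =>
    Or.inr ⟨g a, (hrep _ (hg a ha).1).1, (hg a ha).2.symm, rfl⟩
  refine step hG (R := (A ∪ B) \ U) (Θ := Θ) hAB hW hrep (sk0 := fun a => ∃ y ∈ B, G.Adj a y)
    (val0 := fun a => φ (g a) + 3) (col0 := col0)
    ⟨fun a ha _ => k1 a (Finset.mem_inter.1 ha).2,
      fun a _ a' _ hadj s s' => far_rep hG hW (hr a s) (hr a' s') hadj,
      fun a ha a' ha' hadj _ _ => k2 a (Finset.mem_inter.1 ha).2 a' (Finset.mem_inter.1 ha').2 hadj,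
      fun a _ y hy hadj => ⟨⟨y, hy, hadj⟩, far_rep hG hW (hr a ⟨y, hy, hadj⟩) (hrep y hy).2 hadj⟩⟩
    (fun a _ s => hr a s) (fun a => reach G U {a}) fun a ha haR => ?_
  have haU : a ∈ U := by
    by_contra h'
    exact haR (Finset.mem_sdiff.2 ⟨Finset.mem_union_left _ ha, h'⟩)
  obtain ⟨c1, c2⟩ := u3 a haU
  refine ⟨self_mem_reach (by simp) haU,
    fun x hx => ⟨fun h' => (Finset.mem_sdiff.1 h').2 (reach_sub hx), u1 (reach_sub hx)⟩,
    fun x hx _ => reach_eq hx, bd G (A ∪ B) (reach G U {a}), fun z hz => ?_,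
    fun x hx hxA z hz => ?_, hWX _ c2, (Finset.card_union_le _ _).trans (by omega),
    IH' _ _ (reach_sub.trans u1) (fun z hz => (mem_bd.1 hz).1) ?_⟩
  · obtain ⟨a1, a2, x, a3, a4⟩ := mem_bd.1 hz
    exact Finset.mem_sdiff.2 ⟨a1, fun hzU => a2 (reach_closed a3 hzU a4)⟩
  · by_cases hzF : z ∈ reach G U {a}
    · exact Or.inl hzF
    · exact Or.inr (mem_bd.2 ⟨hN x hxA z hz, hzF, x, hx, hz⟩)
  · obtain ⟨z, z1, z2⟩ : ∃ z ∈ B, z ∉ B ∩ reach G U {a} ∪ bd G (A ∪ B) (reach G U {a}) :=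
      Finset.exists_mem_notMem_of_card_lt_card
        (lt_of_le_of_lt (Finset.card_union_le _ _) (by omega))
    simp only [Finset.mem_union, Finset.mem_inter] at z2
    exact ⟨z, Finset.mem_union_right _ z1, by tauto, by tauto⟩

end Dec

theorem dec_col [Fintype V] [DecidableEq V] (G : SimpleGraph V) (Θ q : ℕ) (hΘ : 1 ≤ Θ)
    (Gd : Finset V → (V → ℤ) → Prop) (hG : GoodSys G (9 * Θ + 1) Gd)
    (h : ∀ R, Linked G Θ R → Col G R q) : Col G univ (q + 3) := by
  classical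
  obtain ⟨sk, val, col, hr⟩ := Dec.solv hΘ hG h Finset.univ ∅ (fun _ => 0) (by simp) (by simp)
    (by simp) ⟨∅, fun _ => 0, hG.empty _, by simp⟩
  refine ⟨fun a => if sk a then q + ((val a % 6) / 2).toNat else col a, fun a _ => ?_,
    fun a _ a' _ hadj => ?_⟩
  · by_cases s : sk a <;> simp only [s, if_true, if_false]
    · omega
    · have := hr.lt a (by simp) s
      omega
  · by_cases s : sk a <;> by_cases s' : sk a' <;> simp only [s, s', if_true, if_false]
    · have := hr.far a (by simp) a' (by simp) hadj s s'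
      unfold Dec.Far at this
      omega
    · have := hr.lt a' (by simp) s'
      omega
    · have := hr.lt a (by simp) s
      omega
    · exact hr.ne a (by simp) a' (by simp) hadj s s'

end Pool.Agent.P.MP_0cc987_co
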