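import Pool.Agent.P.MP_0cc987_co.Num

/-! The tangle star: a linked core whose complement has small components. -/

namespace Pool.Agent.P.MP_0cc987_co.Dec

open Set

variable {V : Type*} {G : SimpleGraph V}

open Classical in
/-- The boundary of `F` inside `S`. -/
noncomputable def bd (G : SimpleGraph V) (S F : Finset V) : Finset V :=
  S.filter fun y => y ∉ F ∧ ∃ x ∈ F, G.Adj x y

theorem mem_bd {S F : Finset V} {y : V} :
    y ∈ bd G S F ↔ y ∈ S ∧ y ∉ F ∧ ∃ x ∈ F, G.Adj x y := by
  classical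
  simp [bd]

open Classical in
/-- The vertices reached from `Y` inside `S`. -/
noncomputable def reach (G : SimpleGraph V) (S Y : Finset V) : Finset V :=
  S.filter fun y => ∃ a ∈ Y, Rch G ↑S a y

theorem mem_reach {S Y : Finset V} {y : V} : y ∈ reach G S Y ↔ ∃ a ∈ Y, Rch G ↑S a y := by
  classical
  simp only [reach, Finset.mem_filter]
  exact ⟨fun h => h.2, fun h => ⟨let ⟨_, _, h1⟩ := h; h1.right, h⟩⟩

theorem reach_sub {S Y : Finset V} : reach G S Y ⊆ S := fun _ hy =>
  let ⟨_, _, h1⟩ := mem_reach.1 hy; h1.right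

theorem reach_closed {S Y : Finset V} {x y : V} (hx : x ∈ reach G S Y) (hy : y ∈ S)
    (h : G.Adj x y) : y ∈ reach G S Y :=
  let ⟨a, ha, h1⟩ := mem_reach.1 hx; mem_reach.2 ⟨a, ha, h1.snoc h hy⟩

theorem self_mem_reach {S Y : Finset V} {y : V} (hy : y ∈ Y) (hS : y ∈ S) : y ∈ reach G S Y :=
  mem_reach.2 ⟨y, hy, Rch.refl hS⟩

theorem reach_eq {S : Finset V} {u x : V} (hx : x ∈ reach G S {u}) :
    reach G S {x} = reach G S {u} := by
  obtain ⟨a, ha, h1⟩ := mem_reach.1 hx
  rw [Finset.mem_singleton] at ha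
  subst ha
  ext y
  simp only [mem_reach, Finset.mem_singleton, exists_eq_left]
  exact ⟨fun h => h1.trans h, fun h => h1.symm.trans h⟩

variable [DecidableEq V]

/-- Every point of `U` lies in a small closed subset with small boundary. -/
def Cov (G : SimpleGraph V) (S B : Finset V) (Θ : ℕ) (U : Finset V) : Prop :=
  U ⊆ S ∧ ∀ u ∈ U, ∃ F ⊆ U, u ∈ F ∧ (B ∩ F).card < Θ ∧
    (∀ x ∈ F, ∀ y ∈ U, G.Adj x y → y ∈ F) ∧ (bd G S F).card ≤ Θ

theorem Cov.comp {S B U : Finset V} {Θ : ℕ} (h : Cov G S B Θ U) {u : V} (hu : u ∈ U) :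
    (B ∩ reach G U {u}).card < Θ ∧ (bd G S (reach G U {u})).card ≤ Θ := by
  obtain ⟨F, h1, h2, h3, h4, h5⟩ := h.2 u hu
  have hs : reach G U {u} ⊆ F := by
    intro y hy
    obtain ⟨a, ha, h6⟩ := mem_reach.1 hy
    rw [Finset.mem_singleton] at ha
    subst ha
    exact h6.closed (B := ↑F) h2 fun a ha b hb _ hab => h4 a ha b hb hab
  refine ⟨lt_of_le_of_lt (Finset.card_le_card (Finset.inter_subset_inter_left hs)) h3,
    le_trans (Finset.card_le_card fun y hy => ?_) h5⟩
  obtain ⟨a1, a2, x, a3, a4⟩ := mem_bd.1 hy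
  exact mem_bd.2 ⟨a1, fun hF => a2 (reach_closed a3 (h1 hF) a4), x, hs a3, a4⟩

/-- A small set together with a small set containing its boundary. -/
def Pair (G : SimpleGraph V) (S B : Finset V) (Θ : ℕ) (F X : Finset V) : Prop :=
  F ⊆ S ∧ (B ∩ F).card < Θ ∧ X ⊆ S ∧ bd G S F ⊆ X ∧ Disjoint X F ∧ X.card ≤ Θ

theorem exchange [Fintype V] {S B U : Finset V} {Θ : ℕ} (hU : Cov G S B Θ U)
    (hmax : ∀ U', Cov G S B Θ U' → U'.card ≤ U.card) {F0 X0 : Finset V}
    (h0 : Pair G S B Θ F0 X0) : (F0 \ U).card ≤ (X0 ∩ U).card := by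
  classical
  obtain ⟨⟨F, X⟩, hp, hm⟩ := Finset.exists_max_image
    (Finset.univ.filter fun p : Finset V × Finset V => Pair G S B Θ p.1 p.2)
    (fun p => ((p.1 \ U).card : ℤ) - (p.2 ∩ U).card) ⟨(F0, X0), by simpa using h0⟩
  simp only [Finset.mem_filter, Finset.mem_univ, true_and] at hp hm
  obtain ⟨p1, p2, p3, p4, p5, p6⟩ := hp
  rw [Finset.disjoint_left] at p5
  have hb : ∀ x ∈ F, ∀ y ∈ S, G.Adj x y → y ∈ F ∨ y ∈ X := fun x hx y hy ha => by
    by_cases h : y ∈ F
    · exact Or.inl h
    · exact Or.inr (p4 (mem_bd.2 ⟨hy, h, x, hx, ha⟩))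
  have key : ∀ u ∈ U, (X ∩ reach G U {u}).card ≤ (bd G S (reach G U {u}) ∩ F).card := by
    intro u hu
    by_contra hlt
    push Not at hlt
    set C := reach G U {u} with hC
    set Y := bd G S C with hY
    have hCU : C ⊆ U := reach_sub
    have hYU : ∀ y ∈ Y, y ∉ U := fun y hy hyU => by
      obtain ⟨_, a2, x, a3, a4⟩ := mem_bd.1 hy
      exact a2 (reach_closed a3 hyU a4)
    have e1 := Finset.card_sdiff_add_card_inter X C
    have hp' : Pair G S B Θ (F \ (C ∪ Y)) ((X \ C) ∪ (Y ∩ F)) := by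
      refine ⟨Finset.sdiff_subset.trans p1, lt_of_le_of_lt (Finset.card_le_card
        (Finset.inter_subset_inter_left Finset.sdiff_subset)) p2,
        Finset.union_subset (Finset.sdiff_subset.trans p3) (Finset.inter_subset_right.trans p1),
        fun y hy => ?_, ?_, (Finset.card_union_le _ _).trans (by omega)⟩
      · obtain ⟨a1, a2, x, a3, a4⟩ := mem_bd.1 hy
        simp only [Finset.mem_sdiff, Finset.mem_union, Finset.mem_inter] at a2 a3 ⊢
        have hyC : y ∉ C := fun hyC =>
          a3.2 (Or.inr (mem_bd.2 ⟨p1 a3.1, fun h => a3.2 (Or.inl h), y, hyC, a4.symm⟩))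
        have := hb x a3.1 y a1 a4
        tauto
      · rw [Finset.disjoint_left]
        intro y hy hy'
        simp only [Finset.mem_sdiff, Finset.mem_union, Finset.mem_inter] at hy hy'
        have := @p5 y
        tauto
    have h1 := hm (_, _) hp'
    simp only at h1
    have e2 : (F \ U).card ≤ ((F \ (C ∪ Y)) \ U).card + (Y ∩ F).card := by
      refine le_trans (Finset.card_le_card fun y hy => ?_) (Finset.card_union_le _ _)
      simp only [Finset.mem_sdiff, Finset.mem_union, Finset.mem_inter] at hy ⊢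
      have := @hCU y
      tauto
    have e3 : (((X \ C) ∪ (Y ∩ F)) ∩ U).card + (X ∩ C).card ≤ (X ∩ U).card := by
      rw [← Finset.card_union_of_disjoint]
      · refine Finset.card_le_card fun y hy => ?_
        simp only [Finset.mem_sdiff, Finset.mem_union, Finset.mem_inter] at hy ⊢
        have := @hCU y
        have := hYU y
        tauto
      · rw [Finset.disjoint_left]
        intro y hy hy'
        simp only [Finset.mem_sdiff, Finset.mem_union, Finset.mem_inter] at hy hy'
        have := @hCU y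
        have := hYU y
        tauto
    omega
  have hc : Cov G S B Θ (F ∪ (U \ X)) := by
    refine ⟨Finset.union_subset p1 (Finset.sdiff_subset.trans hU.1), fun u hu => ?_⟩
    by_cases huF : u ∈ F
    · refine ⟨F, Finset.subset_union_left, huF, p2, fun x hx y hy ha => ?_,
        (Finset.card_le_card p4).trans p6⟩
      simp only [Finset.mem_sdiff, Finset.mem_union] at hy
      rcases hy with hy | hy
      · exact hy
      · exact (hb x hx y (hU.1 hy.1) ha).resolve_right hy.2
    · simp only [Finset.mem_sdiff, Finset.mem_union] at hu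
      replace hu := hu.resolve_left huF
      obtain ⟨c1, c2⟩ := hU.comp hu.1
      have c3 := key u hu.1
      set C := reach G U {u} with hC
      set Y := bd G S C with hY
      have hCU : C ⊆ U := reach_sub
      have hnF : ∀ x ∈ C \ (F ∪ X), ∀ y, G.Adj x y → y ∉ F := fun x hx y ha hy => by
        simp only [Finset.mem_sdiff, Finset.mem_union] at hx
        exact hx.2 (hb y hy x (hU.1 (hCU hx.1)) ha.symm)
      refine ⟨C \ (F ∪ X), fun x hx => ?_, ?_, lt_of_le_of_lt (Finset.card_le_card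
        (Finset.inter_subset_inter_left Finset.sdiff_subset)) c1, fun x hx y hy ha => ?_, ?_⟩
      · simp only [Finset.mem_sdiff, Finset.mem_union] at hx ⊢
        have := @hCU x
        tauto
      · simp only [Finset.mem_sdiff, Finset.mem_union]
        exact ⟨self_mem_reach (by simp) hu.1, by tauto⟩
      · have h1 := hnF x hx y ha
        simp only [Finset.mem_sdiff, Finset.mem_union] at hx hy ⊢
        replace hy := hy.resolve_left h1
        exact ⟨reach_closed hx.1 hy.1 ha, by tauto⟩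
      · have e1 := Finset.card_sdiff_add_card_inter Y F
        have e2 : (bd G S (C \ (F ∪ X))).card ≤ (Y \ F).card + (X ∩ C).card := by
          refine le_trans (Finset.card_le_card fun y hy => ?_) (Finset.card_union_le _ _)
          obtain ⟨a1, a2, x, a3, a4⟩ := mem_bd.1 hy
          have h1 := hnF x a3 y a4
          simp only [Finset.mem_sdiff, Finset.mem_union, Finset.mem_inter] at a2 a3 ⊢
          by_cases hyC : y ∈ C
          · tauto
          · exact Or.inl ⟨mem_bd.2 ⟨a1, hyC, x, a3.1, a4⟩, h1⟩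
        omega
  have h1 := hmax _ hc
  have h2 := hm (_, _) h0
  simp only at h2
  have e1 : (F \ U).card + (U \ X).card ≤ (F ∪ (U \ X)).card := by
    rw [← Finset.card_union_of_disjoint]
    · exact Finset.card_le_card (Finset.union_subset_union_left Finset.sdiff_subset)
    · rw [Finset.disjoint_left]
      intro y hy hy'
      simp only [Finset.mem_sdiff] at hy hy'
      tauto
  have e2 := Finset.card_sdiff_add_card_inter U X
  rw [Finset.inter_comm U X] at e2
  omega

/-- The tangle star decomposition. -/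
theorem core [Fintype V] {S B : Finset V} {Θ : ℕ} (hB : B.card ≤ 4 * Θ)
    (hgap : ∀ F ⊆ S, (bd G S F).card ≤ Θ → (B ∩ F).card < Θ ∨ 2 * Θ < (B ∩ F).card) :
    ∃ U ⊆ S, Linked G Θ ↑(S \ U) ∧
      ∀ u ∈ U, (B ∩ reach G U {u}).card < Θ ∧ (bd G S (reach G U {u})).card ≤ Θ := by
  classical
  obtain ⟨U, hU, hm⟩ := Finset.exists_max_image
    (Finset.univ.filter fun U : Finset V => Cov G S B Θ U) Finset.card
    ⟨∅, by simp [Cov]⟩
  simp only [Finset.mem_filter, Finset.mem_univ, true_and] at hU hm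
  refine ⟨U, hU.1, fun Y Y' X h1 h2 h3 h4 h5 => ?_, fun u hu => hU.comp hu⟩
  have key : ∀ Y : Finset V, (↑Y : Set V) ⊆ ↑(S \ U) → Θ < Y.card →
      2 * Θ < (B ∩ reach G (S \ X) Y).card := by
    intro Y h1 h3
    have hs : bd G S (reach G (S \ X) Y) ⊆ X ∩ S := by
      intro y hy
      obtain ⟨a1, a2, x, a3, a4⟩ := mem_bd.1 hy
      refine Finset.mem_inter.2 ⟨?_, a1⟩
      by_contra hX
      exact a2 (reach_closed a3 (Finset.mem_sdiff.2 ⟨a1, hX⟩) a4)
    have hc : (X ∩ S).card ≤ Θ := (Finset.card_le_card Finset.inter_subset_left).trans h5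
    refine (hgap _ (reach_sub.trans Finset.sdiff_subset)
      ((Finset.card_le_card hs).trans hc)).resolve_left fun hsm => ?_
    have e := exchange hU hm (F0 := reach G (S \ X) Y) (X0 := X ∩ S)
      ⟨reach_sub.trans Finset.sdiff_subset, hsm, Finset.inter_subset_right, hs, by
        rw [Finset.disjoint_left]
        intro y hy hy'
        exact (Finset.mem_sdiff.1 (reach_sub hy')).2 (Finset.mem_inter.1 hy).1, hc⟩
    have hY : ∀ y ∈ Y, y ∈ S ∧ y ∉ U := fun y hy => Finset.mem_sdiff.1 (h1 hy)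
    have e1 : (Y \ X).card ≤ (reach G (S \ X) Y \ U).card := by
      refine Finset.card_le_card fun y hy => ?_
      rw [Finset.mem_sdiff] at hy
      exact Finset.mem_sdiff.2 ⟨self_mem_reach hy.1 (Finset.mem_sdiff.2 ⟨(hY y hy.1).1, hy.2⟩),
        (hY y hy.1).2⟩
    have e2 : (X ∩ S ∩ U).card ≤ (X ∩ U).card :=
      Finset.card_le_card (Finset.inter_subset_inter_right Finset.inter_subset_left)
    have e3 : (Y ∩ X).card ≤ (X \ U).card := by
      refine Finset.card_le_card fun y hy => ?_
      rw [Finset.mem_inter] at hy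
      exact Finset.mem_sdiff.2 ⟨hy.2, (hY y hy.1).2⟩
    have e4 := Finset.card_sdiff_add_card_inter Y X
    have e5 := Finset.card_sdiff_add_card_inter X U
    omega
  have k1 := key Y h1 h3
  have k2 := key Y' h2 h4
  have e1 := Finset.card_union_add_card_inter (B ∩ reach G (S \ X) Y) (B ∩ reach G (S \ X) Y')
  have e2 : (B ∩ reach G (S \ X) Y ∪ B ∩ reach G (S \ X) Y').card ≤ B.card :=
    Finset.card_le_card (Finset.union_subset Finset.inter_subset_left Finset.inter_subset_left)
  obtain ⟨z, hz⟩ : (B ∩ reach G (S \ X) Y ∩ (B ∩ reach G (S \ X) Y')).Nonempty := by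
    rw [← Finset.card_pos]; omega
  simp only [Finset.mem_inter] at hz
  obtain ⟨a, ha, r1⟩ := mem_reach.1 hz.1.2
  obtain ⟨b, hb, r2⟩ := mem_reach.1 hz.2.2
  refine ⟨a, ha, b, hb, (r1.trans r2.symm).mono fun y hy => ⟨trivial, ?_⟩⟩
  exact (Finset.mem_sdiff.1 hy).2

end Pool.Agent.P.MP_0cc987_co.Dec
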