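import Pool.Agent.P.MP_0cc987_co.Col

/-! Definitions shared by all parts of the proof. -/

namespace Pool.Agent.P.MP_0cc987_co

open Set

variable {V : Type*}

/-- Every interval `[l, l ^ K]` with `l ≥ 2` misses an odd cycle length. -/
def Miss (G : SimpleGraph V) (K : ℕ) : Prop :=
  ∀ l, 2 ≤ l → ∃ m, Odd m ∧ l ≤ m ∧ m ≤ l ^ K ∧ ¬ Cyc G univ m

/-- The statement of Menger's theorem. -/
def MengerSt (V : Type*) : Prop := ∀ (G : SimpleGraph V) (S A B : Set V) (k : ℕ),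
  (∀ X : Finset V, X.card < k → ∃ a ∈ A, ∃ b ∈ B, Rch G (S \ ↑X) a b) →
  ∃ (P : Fin k → Set V) (a b : Fin k → V) (n : Fin k → ℕ),
    (∀ i, P i ⊆ S ∧ a i ∈ A ∧ b i ∈ B ∧ Pth G (P i) (a i) (b i) (n i) ∧
      (∀ x ∈ P i, x ∈ A → x = a i) ∧ (∀ x ∈ P i, x ∈ B → x = b i)) ∧
    ∀ i j x, x ∈ P i → x ∈ P j → i = j

/-- `A` stays connected when any two vertices are deleted. -/
def Conn3 (G : SimpleGraph V) (A : Set V) : Prop :=
  ∀ u u' a b, a ∈ A \ {u, u'} → b ∈ A \ {u, u'} → Rch G (A \ {u, u'}) a b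

/-- An abstract system of good partial colourings with values modulo six. -/
structure GoodSys [DecidableEq V] (G : SimpleGraph V) (n0 : ℕ)
    (Gd : Finset V → (V → ℤ) → Prop) : Prop where
  empty : ∀ φ, Gd ∅ φ
  mono : ∀ W W' φ φ', Gd W φ → W' ⊆ W → (∀ x ∈ W', φ' x = φ x) → Gd W' φ'
  ext : ∀ W φ y, Gd W φ → W.card < n0 → ∃ φ', Gd (insert y W) φ' ∧ ∀ x ∈ W, φ' x = φ x
  odd : ∀ W φ x y n, Gd W φ → x ∈ W → y ∈ W → Wk G univ x y n → n = 1 ∨ n = 3 →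
    (φ x - φ y) % 6 = 2 ∨ (φ x - φ y) % 6 = 3 ∨ (φ x - φ y) % 6 = 4
  even : ∀ W φ x y, Gd W φ → x ∈ W → y ∈ W → Wk G univ x y 2 →
    (φ x - φ y) % 6 = 5 ∨ (φ x - φ y) % 6 = 0 ∨ (φ x - φ y) % 6 = 1

/-- No two subsets of `R` with more than `Θ` elements are separated by at most `Θ` vertices. -/
def Linked (G : SimpleGraph V) (Θ : ℕ) (R : Set V) : Prop :=
  ∀ Y Y' X : Finset V, ↑Y ⊆ R → ↑Y' ⊆ R → Θ < Y.card → Θ < Y'.card → X.card ≤ Θ →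
    ∃ a ∈ Y, ∃ b ∈ Y', Rch G (univ \ ↑X) a b

/-- The edges of `G` whose ends get different values under `σ`. -/
def bic (G : SimpleGraph V) (σ : V → Bool) : SimpleGraph V where
  Adj u v := G.Adj u v ∧ σ u ≠ σ v
  symm := ⟨fun _ _ h => ⟨h.1.symm, h.2.symm⟩⟩
  loopless := ⟨fun _ h => h.1.ne rfl⟩

@[simp] theorem bic_adj {G : SimpleGraph V} {σ : V → Bool} {u v : V} :
    (bic G σ).Adj u v ↔ G.Adj u v ∧ σ u ≠ σ v := Iff.rfl

theorem bic_le (G : SimpleGraph V) (σ : V → Bool) : bic G σ ≤ G := fun _ _ h => h.1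

theorem bic_mono {G G' : SimpleGraph V} (h : G ≤ G') (σ : V → Bool) : bic G σ ≤ bic G' σ :=
  fun _ _ ha => ⟨h ha.1, ha.2⟩

/-- Two disjoint paths inside `S` from `{u, u'}` to `{v, v'}` of total length `n`. -/
def TwoP (G : SimpleGraph V) (S : Set V) (u u' v v' : V) (n : ℕ) : Prop :=
  ∃ S1 S2 n1 n2, S1 ⊆ S ∧ S2 ⊆ S ∧ (∀ x ∈ S1, x ∉ S2) ∧ n1 + n2 = n ∧
    ((Pth G S1 u v n1 ∧ Pth G S2 u' v' n2) ∨ (Pth G S1 u v' n1 ∧ Pth G S2 u' v n2))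

/-- A bipartite piece with flexible linkages. -/
structure Piece (G : SimpleGraph V) (A : ℕ) (H : Set V) (σ : V → Bool) (δ : ℕ) : Prop where
  three : ∃ a ∈ H, ∃ b ∈ H, ∃ c ∈ H, a ≠ b ∧ a ≠ c ∧ b ≠ c
  two : ∀ u ∈ H, ∀ u' ∈ H, ∀ v ∈ H, ∀ v' ∈ H, u ≠ u' → v ≠ v' →
    (u ≠ v ∧ u ≠ v') ∨ (u' ≠ v ∧ u' ≠ v') →
    ∃ b ≤ δ, ∀ j ≤ δ ^ A, TwoP (bic G σ) H u u' v v' (b + 2 * j)

/-- Every edge is an edge of a piece with parameter at least `δ0`. -/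
def Covered (G : SimpleGraph V) (A δ0 : ℕ) : Prop :=
  ∀ u v, G.Adj u v → ∃ H σ δ, δ0 ≤ δ ∧ Piece G A H σ δ ∧ u ∈ H ∧ v ∈ H ∧ σ u ≠ σ v

/-- A path of the wrong parity between two vertices of a piece is long. -/
def DBound (G : SimpleGraph V) (A : ℕ) : Prop :=
  ∀ H σ δ, 2 ≤ δ → Piece G A H σ δ → ∀ u ∈ H, ∀ v ∈ H, ∀ n, Pth G univ u v n →
    (σ u = σ v ↔ Odd n) → δ ^ 4 < 2 * n

/-- `U` is a fan set from `z` to `C`. -/
def Fan (G : SimpleGraph V) (C : Finset V) (z : V) (U : Finset V) : Prop :=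
  ∀ x, x ≠ z → ∃ y ∈ C, Rch G ((↑U ∪ ↑C) \ {x}) z y

/-- The vertices with a fan set of size at most `t` to `C`. -/
def blob (G : SimpleGraph V) (t : ℕ) (C : Finset V) : Set V := {z | ∃ U, Fan G C z U ∧ U.card ≤ t}

def IsBlob (G : SimpleGraph V) (t : ℕ) (b : Set V) : Prop :=
  ∃ C, TCyc G C ∧ Odd C.card ∧ C.card ≤ t ∧ b = blob G t C

/-- The gap property of fan sets. -/
def WProp (G : SimpleGraph V) (t : ℕ) : Prop :=
  ∀ C z U, TCyc G C → Odd C.card → C.card ≤ t → Fan G C z U → U.card ≤ 50 * t → z ∈ blob G t C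

/-- The properties of a family of blobs. -/
structure Fam (G : SimpleGraph V) (𝓑 : Set (Set V)) (t : ℕ) : Prop where
  sep : ∀ b ∈ 𝓑, ∀ v ∈ b, ∀ w ∈ b, WkLe (cut G b) univ v w (10 * t) → v = w
  lin : ∀ b ∈ 𝓑, ∀ b' ∈ 𝓑, ∀ v w, v ≠ w → v ∈ b → w ∈ b → v ∈ b' → w ∈ b' → b = b'
  gad : ∀ b ∈ 𝓑, ∀ v ∈ b, ∀ w ∈ b, v ≠ w → ∃ x x', x + 2 ≤ 4 * t ∧ x' ≤ 4 * t ∧ Odd (x + x') ∧
    Pth G b v w x ∧ Pth G b v w (x + 2) ∧ Pth G b v w x'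

/-- No three points of `S` are pairwise within distance `T`. -/
def Sparse (G : SimpleGraph V) (S : Set V) (T : ℕ) : Prop :=
  ∀ a ∈ S, ∀ b ∈ S, ∀ c ∈ S, WkLe G univ a b T → WkLe G univ a c T → WkLe G univ b c T →
    a = b ∨ a = c ∨ b = c

/-- The robust colouring property of `β` relative to `S`. -/
def QP (G : SimpleGraph V) (β S : Set V) (F : ℕ) : Prop :=
  ∃ (c : V → ℕ) (κ : V → Finset V), (∀ v, (κ v).card ≤ 3) ∧ (∀ v ∈ β, v ∉ S → c v < F) ∧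
    ∀ v ∈ β, ∀ w ∈ β, G.Adj v w → w ∉ S →
      (v ∈ S → v ∈ κ w) ∧ (v ∉ S → c v ≠ c w ∨ v ∈ κ w ∨ w ∈ κ v)

/-- The structure left when the peeling process gets stuck. -/
structure Stuck (G : SimpleGraph V) (𝓑 : Set (Set V)) (S : Set V) (T : ℕ)
    (𝒰 : Set (Set V × V)) : Prop where
  ne : 𝒰.Nonempty
  mem : ∀ b v, (b, v) ∈ 𝒰 → b ∈ 𝓑 ∧ v ∈ b
  tri : ∀ b v, (b, v) ∈ 𝒰 → ∃ p ∈ b, ∃ q ∈ b, p ≠ q ∧ p ≠ v ∧ q ≠ v ∧ WkLe G b v p T ∧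
    WkLe G b v q T ∧ (p ∈ S ∨ (b, p) ∈ 𝒰) ∧ (q ∈ S ∨ (b, q) ∈ 𝒰)
  link : ∀ b v, (b, v) ∈ 𝒰 → (∃ s ∈ S, (cut G b).Adj v s) ∨
    ∃ b' v', (b', v') ∈ 𝒰 ∧ b' ≠ b ∧ WkLe (cut G b ⊓ cut G b') univ v v' 2

/-- The vertices reached from `v` in at most `n` steps without using an edge inside `b`. -/
def Out (G : SimpleGraph V) (b : Set V) (v : V) (n : ℕ) : Set V := {w | WkLe (cut G b) univ v w n}

def Safe (G : SimpleGraph V) (S : Set V) (𝒰 : Set (Set V × V)) (b : Set V) (v : V) (n : ℕ) : Prop :=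
  (b, v) ∈ 𝒰 ∧ ∀ s ∈ S, s ∉ Out G b v n

def Near (G : SimpleGraph V) (𝒰 : Set (Set V × V)) (T : ℕ) : Set V :=
  {w | ∃ b v, (b, v) ∈ 𝒰 ∧ WkLe G univ v w (T + 2)}

/-- A family of arms (blob, entry, exit) leaving the centre `c`. -/
structure Arms (G : SimpleGraph V) (𝓑 : Set (Set V)) (S : Set V) (𝒰 : Set (Set V × V))
    (t T : ℕ) (c : V) (r n : ℕ) (𝒜 : Finset (Set V × V × V)) : Prop where
  mem : ∀ e ∈ 𝒜, e.1 ∈ 𝓑 ∧ e.2.1 ∈ e.1 ∧ e.2.2 ∈ e.1 ∧ e.2.1 ≠ e.2.2 ∧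
    Safe G S 𝒰 e.1 e.2.2 n ∧ WkLe G e.1 e.2.1 e.2.2 T
  out : ∀ e ∈ 𝒜, ∀ e' ∈ 𝒜, e.2.1 ∈ Out G e'.1 c r
  div : ∀ e ∈ 𝒜, ∀ e' ∈ 𝒜, e ≠ e' → ∃ b ∈ 𝓑, ∃ w ∈ b, ∃ w' ∈ b, w ≠ w' ∧
    WkLe G univ c w r ∧ WkLe G univ c w' r ∧
    e.1 ⊆ Out G b w (4 * t + r) ∧ e'.1 ⊆ Out G b w' (4 * t + r) ∧
    Out G e.1 e.2.2 t ⊆ Out G b w (t + r) ∧ Out G e'.1 e'.2.2 t ⊆ Out G b w' (t + r)

/-- Cells and arcs with gadgets. -/
structure ArcSys {ι : Type*} (G : SimpleGraph V) (C : Finset V) (E : Finset ι) (cell : V → Set V)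
    (tl hd z : ι → V) (al : ι → Set V) (s : ℕ) : Prop where
  disj : ∀ c ∈ C, ∀ c' ∈ C, ∀ w, w ∈ cell c → w ∈ cell c' → c = c'
  diam : ∀ c ∈ C, ∀ w ∈ cell c, ∀ w' ∈ cell c, WkLe G (cell c) w w' s
  arc : ∀ e ∈ E, tl e ∈ C ∧ hd e ∈ C ∧ tl e ≠ hd e ∧ z e ∈ cell (hd e) ∧
    ∀ w ∈ al e, w ∉ cell (hd e)
  conn : ∀ e ∈ E, ∀ y, y ∈ cell (tl e) ∨ y ∈ al e →
    WkLe G (cell (tl e) ∪ al e ∪ {z e}) y (z e) s
  sib : ∀ e ∈ E, ∀ e' ∈ E, e ≠ e' → tl e = tl e' → hd e ≠ hd e' ∧ (∀ w ∈ al e, w ∉ al e') ∧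
    ∃ x x', x + 2 ≤ s ∧ x' ≤ s ∧ Odd (x + x') ∧
      Pth G (cell (tl e) ∪ al e' ∪ {z e, z e'}) (z e) (z e') x ∧
      Pth G (cell (tl e) ∪ al e' ∪ {z e, z e'}) (z e) (z e') (x + 2) ∧
      Pth G (cell (tl e) ∪ al e' ∪ {z e, z e'}) (z e) (z e') x'

/-- No complete bipartite subgraph with both sides of size `s`. -/
def KFree (G : SimpleGraph V) (s : ℕ) : Prop :=
  ∀ P Q : Finset V, P.card = s → Q.card = s → ¬ ∀ p ∈ P, ∀ q ∈ Q, G.Adj p q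

/-- The numerical regime of the expander part. -/
structure Par (n s j0 ρ L lam : ℕ) : Prop where
  s1 : 1 ≤ s
  j80 : 80 ≤ j0
  sj : ∀ j, j0 ≤ j → 80000 * s * j ^ 2 < 2 ^ j
  rho : s + 2 ^ (2 * j0 + 1) + 12 ≤ ρ
  lam0 : 15000 ≤ lam
  jl : j0 ≤ lam
  sl : s ≤ lam
  nL : n ≤ 2 ^ L
  Ln : 2 ^ L ≤ 2 * n
  Ll : L ≤ 2 ^ lam
  lL : 2 ^ lam ≤ 2 * L

section
variable [Fintype V] [DecidableEq V]

/-- A sublinear expander on the vertex set `H` with minimum degree at least `ρ`. -/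
structure Expd (G : SimpleGraph V) (H : Finset V) (ρ : ℕ) : Prop where
  sup : ∀ u v, G.Adj u v → u ∈ H
  deg : ∀ v ∈ H, ρ ≤ dg G H v
  exp : ∀ X ⊆ H, ∀ k, 1 ≤ k → X.card ≤ 2 ^ k → 2 * X.card ≤ H.card →
    X.card ≤ 100 * k ^ 2 * (nb G X).card

/-- Rooted sets in a range of sizes expand outside `Y`. -/
def NoStall (G : SimpleGraph V) (Y : Finset V) (v v' : V) (ρ q x N : ℕ) : Prop :=
  ∀ X, Rt G X v ρ → Disjoint X Y → v' ∉ X → x ≤ X.card → X.card < N →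
    2 * X.card ≤ q * (nb G X \ Y).card

/-- Two disjoint rooted sets avoiding `Y`. -/
def TwoExp (G : SimpleGraph V) (Y : Finset V) (v1 v2 : V) (ρ D : ℕ) : Prop :=
  ∃ F1 F2, Rt G F1 v1 ρ ∧ Rt G F2 v2 ρ ∧ Disjoint F1 F2 ∧ Disjoint F1 Y ∧ Disjoint F2 Y ∧
    D ≤ F1.card ∧ D ≤ F2.card

/-- A rooted set that fails to expand outside `Y`. -/
def Stall (G : SimpleGraph V) (Y : Finset V) (v v' : V) (j0 lam : ℕ) : Prop :=
  ∃ X ρ q, Rt G X v ρ ∧ Disjoint X Y ∧ v' ∉ X ∧ ρ ≤ 4 * lam ^ 7 ∧ q * (2 * ρ + 3) ≤ X.card ∧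
    q * (nb G X \ Y).card < 2 * X.card ∧ X.card < 2 ^ (3 * lam ^ 2) ∧
    (q = lam ^ 5 ∨ ∃ j, j0 ≤ j ∧ q = 240000 * j ^ 2 ∧ 2 ^ j ≤ X.card ∧ X.card < 2 ^ (10 * j) ∧
      2 ^ (2 * j) < lam ^ 18)

/-- An adjuster avoiding `U`. -/
def Adjuster (G : SimpleGraph V) (U : Finset V) (D ρ c : ℕ) : Prop :=
  ∃ (C F1 F2 : Finset V) (v1 v2 : V) (h : ℕ), 1 ≤ h ∧ C.card ≤ c ∧ Pth G ↑C v1 v2 h ∧
    Pth G ↑C v1 v2 (h + 2) ∧ Rt G F1 v1 ρ ∧ Rt G F2 v2 ρ ∧ D ≤ F1.card ∧ D ≤ F2.card ∧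
    Disjoint F1 F2 ∧ (∀ x ∈ F1, x ∈ C → x = v1) ∧ (∀ x ∈ F2, x ∈ C → x = v2) ∧
    Disjoint C U ∧ Disjoint F1 U ∧ Disjoint F2 U

end

/-- The statement of the growth lemma. -/
def GrowSt (V : Type*) [Fintype V] [DecidableEq V] : Prop :=
  ∀ (G : SimpleGraph V) (X Y : Finset V) (q κ N : ℕ), Disjoint X Y → X.Nonempty →
    N ≤ 2 ^ κ * X.card → ∃ X', X ⊆ X' ∧ Disjoint X' Y ∧
      (∀ y ∈ X', ∃ x ∈ X, WkLe G ↑X' x y (q * κ)) ∧
      (N ≤ X'.card ∨ (X'.card < N ∧ q * (nb G X' \ Y).card < X'.card))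

/-- The statement of the connection lemma. -/
def ConnSt (V : Type*) [Fintype V] [DecidableEq V] : Prop :=
  ∀ (G : SimpleGraph V) (H X1 X2 Y : Finset V) (ρ L : ℕ), Expd G H ρ → 1 ≤ L → H.card ≤ 2 ^ L →
    X1 ⊆ H → X2 ⊆ H → X1.Nonempty → X2.Nonempty → Disjoint X1 Y → Disjoint X2 Y →
    200 * L ^ 2 * Y.card ≤ X1.card → 200 * L ^ 2 * Y.card ≤ X2.card →
    ∃ a ∈ X1, ∃ b ∈ X2, WkLe G (univ \ ↑Y) a b (400 * L ^ 3)

/-- The statement of one stage of the two-expansions lemma. -/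
def StageSt (V : Type*) [Fintype V] [DecidableEq V] : Prop :=
  ∀ (G : SimpleGraph V) (Y : Finset V) (v1 v2 : V) (ρ q κ x x' D N : ℕ),
    TwoExp G Y v1 v2 ρ x' → 1 ≤ q → 1 ≤ D → q * x ≤ x' → q * (ρ + q * κ + 1) ≤ x →
    (ρ + q * κ + 1) * (D ^ 2 + D + 1) ≤ N → N ≤ 2 ^ κ →
    NoStall G Y v1 v2 (ρ + q * κ) q x N → NoStall G Y v2 v1 (ρ + q * κ) q x N →
    TwoExp G Y v1 v2 (3 * (ρ + q * κ) + 1) D

/-- The statement of the two-expansions lemma. -/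
def TwoSt (V : Type*) [Fintype V] [DecidableEq V] : Prop :=
  ∀ (G : SimpleGraph V) (Y : Finset V) (v1 v2 : V) (j0 lam : ℕ), v1 ≠ v2 → v1 ∉ Y → v2 ∉ Y →
    80 ≤ j0 → 15000 ≤ lam → j0 ≤ lam →
    2 ^ (2 * j0 + 1) + 2 ≤ (nb G {v1} \ Y).card → 2 ^ (2 * j0 + 1) + 2 ≤ (nb G {v2} \ Y).card →
    TwoExp G Y v1 v2 (lam ^ 8) (2 ^ (lam ^ 2)) ∨ Stall G Y v1 v2 j0 lam ∨ Stall G Y v2 v1 j0 lam

/-- A set of vertices that expands badly outside `U`, with its colour `(κ, Z, y)`. -/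
structure Bad [Fintype V] [DecidableEq V] (G : SimpleGraph V) (H U X : Finset V) (κ : ℕ)
    (Z : Finset V) (y : ℕ) : Prop where
  sub : X ⊆ H
  hZ : Z ⊆ U
  nbZ : ∀ w ∈ nb G X, w ∈ U → w ∈ Z
  k1 : 1 ≤ κ
  size : y * X.card ≤ 2 ^ κ
  half : 2 * (y * X.card) ≤ H.card
  out : 200 * κ ^ 2 * (nb G X \ U).card ≤ X.card
  inn : 200 * κ ^ 2 * Z.card < y * X.card

/-- A bad set with a colour in the admissible range. -/
def BadIn [Fintype V] [DecidableEq V] (G : SimpleGraph V) (H U X : Finset V) (lam : ℕ) : Prop :=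
  X.Nonempty ∧ X.card < 2 ^ (3 * lam ^ 2) ∧ ∃ κ Z y, Bad G H U X κ Z y ∧ κ ≤ 5 * lam ^ 2 ∧
    y ≤ 2 ^ (lam ^ 2 + lam) ∧ (Z.card ≤ lam ^ 91 ∨ Z = U)

section Basic
variable {G G' : SimpleGraph V} {S S' H : Set V} {u u' v v' w : V} {n A δ : ℕ} {σ : V → Bool}

theorem Miss.monoG {K : ℕ} (h : Miss G K) (hG : G' ≤ G) : Miss G' K := fun l hl =>
  let ⟨m, h1, h2, h3, h4⟩ := h l hl; ⟨m, h1, h2, h3, fun h => h4 (h.monoG hG)⟩

theorem TwoP.transfer (h : TwoP G S u u' v v' n) (hS : S ⊆ S')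
    (hG : ∀ a ∈ S, ∀ b ∈ S, G.Adj a b → G'.Adj a b) : TwoP G' S' u u' v v' n := by
  obtain ⟨S1, S2, n1, n2, h1, h2, h3, h4, h5⟩ := h
  have t1 : ∀ {a b k}, Pth G S1 a b k → Pth G' S1 a b k := fun h =>
    h.transfer Subset.rfl fun a ha b hb => hG a (h1 ha) b (h1 hb)
  have t2 : ∀ {a b k}, Pth G S2 a b k → Pth G' S2 a b k := fun h =>
    h.transfer Subset.rfl fun a ha b hb => hG a (h2 ha) b (h2 hb)
  exact ⟨S1, S2, n1, n2, h1.trans hS, h2.trans hS, h3, h4,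
    h5.imp (fun h => ⟨t1 h.1, t2 h.2⟩) fun h => ⟨t1 h.1, t2 h.2⟩⟩

theorem TwoP.monoG (h : TwoP G S u u' v v' n) (hG : G ≤ G') : TwoP G' S u u' v v' n :=
  h.transfer Subset.rfl fun _ _ _ _ h => hG h

theorem TwoP.mono (h : TwoP G S u u' v v' n) (hS : S ⊆ S') : TwoP G S' u u' v v' n :=
  h.transfer hS fun _ _ _ _ h => h

theorem TwoP.swap_right (h : TwoP G S u u' v v' n) : TwoP G S u u' v' v n := by
  obtain ⟨S1, S2, n1, n2, h1, h2, h3, h4, h5⟩ := h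
  exact ⟨S1, S2, n1, n2, h1, h2, h3, h4, h5.symm⟩

theorem TwoP.swap_left (h : TwoP G S u u' v v' n) : TwoP G S u' u v v' n := by
  obtain ⟨S1, S2, n1, n2, h1, h2, h3, h4, h5⟩ := h
  exact ⟨S2, S1, n2, n1, h2, h1, fun x a b => h3 x b a, by omega,
    h5.symm.imp (fun h => ⟨h.2, h.1⟩) fun h => ⟨h.2, h.1⟩⟩

/-- Attach two disjoint paths to the ends of a path. -/
theorem TwoP.attach {k : ℕ} (h : TwoP G S u u' v v' n) (hp : Pth G S' u u' k)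
    (hS : ∀ x ∈ S', x ∈ S → x = u ∨ x = u') : Pth G (S' ∪ S) v v' (k + n) := by
  have key : ∀ {S1 S2 : Set V} {a b : V} {n1 n2 : ℕ}, S1 ⊆ S → S2 ⊆ S → (∀ x ∈ S1, x ∉ S2) →
      Pth G S1 u a n1 → Pth G S2 u' b n2 → Pth G (S' ∪ S) a b (k + (n1 + n2)) := by
    intro S1 S2 a b n1 n2 h1 h2 h3 h4 h5
    have a1 := h4.symm.trans hp (by
      intro x hx hx'
      rcases hS x hx' (h1 hx) with e | e
      · exact e
      · exact (h3 x hx (e ▸ h5.left)).elim)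
    have a2 := a1.trans h5 (by
      rintro x (hx | hx) hx'
      · exact (h3 x hx hx').elim
      · rcases hS x hx (h2 hx') with e | e
        · exact (h3 x (e ▸ h4.left) hx').elim
        · exact e)
    rw [show n1 + k + n2 = k + (n1 + n2) by omega] at a2
    refine a2.mono ?_
    rintro x ((hx | hx) | hx)
    · exact Or.inr (h1 hx)
    · exact Or.inl hx
    · exact Or.inr (h2 hx)
  obtain ⟨S1, S2, n1, n2, h1, h2, h3, rfl, h5 | h5⟩ := h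
  · exact key h1 h2 h3 h5.1 h5.2
  · exact (key h1 h2 h3 h5.1 h5.2).symm

theorem Piece.monoG (h : Piece G A H σ δ) (hG : G ≤ G') : Piece G' A H σ δ := by
  refine ⟨h.three, fun u hu u' hu' v hv v' hv' h1 h2 h3 => ?_⟩
  obtain ⟨b, hb, h4⟩ := h.two u hu u' hu' v hv v' hv' h1 h2 h3
  exact ⟨b, hb, fun j hj => (h4 j hj).monoG (bic_mono hG σ)⟩

/-- Flexible paths avoiding a given vertex. -/
theorem Piece.avoid (h : Piece G A H σ δ) (hu : u ∈ H) (hv : v ∈ H) (hw : w ∈ H) (huv : u ≠ v)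
    (huw : u ≠ w) (hvw : v ≠ w) :
    ∃ b ≤ δ, ∀ j ≤ δ ^ A, Pth (bic G σ) (H \ {w}) u v (b + 2 * j) := by
  obtain ⟨b, hb, h1⟩ := h.two u hu w hw v hv w hw huw hvw (Or.inl ⟨huv, huw⟩)
  refine ⟨b, hb, fun j hj => ?_⟩
  obtain ⟨S1, S2, n1, n2, h2, h3, h4, h5, h6 | h6⟩ := h1 j hj
  · have := h6.2.eq_iff.1 rfl
    rw [← h5, this]
    exact h6.1.mono fun x hx => ⟨h2 hx, fun e => h4 x hx (e ▸ h6.2.left)⟩
  · exact (h4 w h6.1.right h6.2.left).elim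

/-- Flexible paths between any two distinct vertices of a piece. -/
theorem Piece.pth (h : Piece G A H σ δ) (hu : u ∈ H) (hv : v ∈ H) (huv : u ≠ v) :
    ∃ b ≤ δ, ∀ j ≤ δ ^ A, Pth (bic G σ) H u v (b + 2 * j) := by
  obtain ⟨w, hw, h1, h2⟩ : ∃ w ∈ H, u ≠ w ∧ v ≠ w := by
    obtain ⟨a, ha, b, hb, c, hc, h1, h2, h3⟩ := h.three
    by_contra h'
    push Not at h'
    by_cases e1 : u = a
    · exact h3 ((h' b hb (e1 ▸ h1)).symm.trans (h' c hc (e1 ▸ h2)))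
    · by_cases e2 : u = b
      · exact h2 ((h' a ha e1).symm.trans (h' c hc (e2 ▸ h3)))
      · exact h1 ((h' a ha e1).symm.trans (h' b hb e2))
  obtain ⟨b, hb, h3⟩ := h.avoid hu hv hw huv h1 h2
  exact ⟨b, hb, fun j hj => (h3 j hj).mono sdiff_subset⟩

/-- A small set in which two vertices of a piece are doubly connected. -/
theorem Piece.small (h : Piece G A H σ δ) (hu : u ∈ H) (hv : v ∈ H) :
    ∃ T : Finset V, ↑T ⊆ H ∧ T.card ≤ δ + 2 ∧ ∀ x, x ≠ u → x ≠ v → Rch G (↑T \ {x}) u v := by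
  classical
  by_cases huv : u = v
  · subst huv
    exact ⟨{u}, by simpa using hu, by simp, fun x h1 _ => Rch.refl ⟨by simp, h1.symm⟩⟩
  by_cases ha : G.Adj u v
  · refine ⟨{u, v}, ?_, (Finset.card_le_two).trans (by omega), fun x h1 h2 =>
      Rch.single ⟨by simp, h1.symm⟩ ⟨by simp, h2.symm⟩ ha⟩
    rw [Finset.coe_pair]
    exact insert_subset hu (singleton_subset_iff.2 hv)
  have hn : ∀ a ∈ H, ∀ b ∈ H, a ≠ b → ∃ c ∈ H, G.Adj a c := by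
    intro a ha b hb hab
    obtain ⟨k, _, h1⟩ := h.pth ha hb hab
    have h2 := h1 0 (Nat.zero_le _)
    obtain ⟨l, hl⟩ : ∃ l, k + 2 * 0 = l + 1 := ⟨k - 1, by have := h2.pos hab; omega⟩
    rw [hl] at h2
    obtain ⟨c, h3, h4⟩ := h2.uncons
    exact ⟨c, h4.left.1, h3.1⟩
  obtain ⟨u', hu', h1⟩ := hn u hu v hv huv
  obtain ⟨v', hv', h2⟩ := hn v hv u hu (Ne.symm huv)
  obtain ⟨b, hb, h3⟩ := h.two u hu u' hu' v hv v' hv' h1.ne h2.ne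
    (Or.inl ⟨huv, fun e => ha (e ▸ h2.symm)⟩)
  obtain ⟨S1, S2, n1, n2, h4, h5, h6, h7, h8⟩ := (h3 0 (Nat.zero_le _)).monoG (bic_le G σ)
  have key : ∀ {a b : V}, Pth G S1 u a n1 → Pth G S2 u' b n2 → ∃ T : Finset V, ↑T ⊆ H ∧
      T.card ≤ δ + 2 ∧ u ∈ T ∧ a ∈ T ∧ b ∈ T ∧
        ∀ x, x ≠ u → Rch G (↑T \ {x}) u a ∨ Rch G (↑T \ {x}) u b := by
    intro a b p1 p2
    obtain ⟨T1, a1, a2, a3⟩ := p1.tight
    obtain ⟨T2, b1, b2, b3⟩ := p2.tight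
    refine ⟨T1 ∪ T2, ?_, (Finset.card_union_le _ _).trans (by omega),
      Finset.mem_union_left _ a3.left, Finset.mem_union_left _ a3.right,
      Finset.mem_union_right _ b3.right, fun x hx => ?_⟩
    · rw [Finset.coe_union]
      exact union_subset (a1.trans h4) (b1.trans h5)
    · by_cases hx1 : x ∈ T1
      · right
        refine Rch.cons ⟨Finset.mem_coe.2 (Finset.mem_union_left _ a3.left), hx.symm⟩ h1
          (b3.rch.mono fun y hy => ⟨Finset.mem_coe.2 (Finset.mem_union_right _ hy), ?_⟩)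
        rintro rfl
        exact h6 _ (a1 hx1) (b1 hy)
      · left
        exact a3.rch.mono fun y hy => ⟨Finset.mem_coe.2 (Finset.mem_union_left _ hy),
          fun e => hx1 (e ▸ hy)⟩
  rcases h8 with h8 | h8
  · obtain ⟨T, a1, a2, _, a4, _, a6⟩ := key h8.1 h8.2
    refine ⟨T, a1, a2, fun x hx hx' => ?_⟩
    rcases a6 x hx with h | h
    · exact h
    · exact h.snoc h2.symm ⟨a4, hx'.symm⟩
  · obtain ⟨T, a1, a2, _, _, a5, a6⟩ := key h8.1 h8.2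
    refine ⟨T, a1, a2, fun x hx hx' => ?_⟩
    rcases a6 x hx with h | h
    · exact h.snoc h2.symm ⟨a5, hx'.symm⟩
    · exact h

/-- The parameter of a piece is bounded in terms of any path of the wrong parity. -/
theorem Miss.dbound {K : ℕ} (hM : Miss G K) : DBound G (4 * K) := by
  classical
  intro H σ δ hδ hP u hu v hv n
  induction n using Nat.strong_induction_on generalizing u v with
  | _ n ih =>
  intro hp hpar
  obtain ⟨T, _, h2, h3⟩ := hp.tight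
  have huv : u ≠ v := by
    rintro rfl
    have := hp.eq_iff.1 rfl
    subst this
    simp at hpar
  by_cases hw : ∃ w ∈ T, w ∈ H ∧ w ≠ u ∧ w ≠ v
  · obtain ⟨w, hw, hwH, hwu, hwv⟩ := hw
    obtain ⟨k, l, S1, S2, hkl, _, _, p1, p2, _⟩ := h3.split_at h2.le hw
    have q1 := p1.pos hwu.symm
    have q2 := p2.pos hwv
    by_cases e : (σ u = σ w ↔ Odd k)
    · have := ih k (by omega) u hu w hwH p1.univ e
      omega
    · have := ih l (by omega) w hwH v hv p2.univ (by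
        rw [Nat.odd_iff] at hpar e ⊢
        revert hpar e
        cases σ u <;> cases σ v <;> cases σ w <;> simp <;> omega)
      omega
  · push Not at hw
    by_contra hlt
    push Not at hlt
    obtain ⟨b, hb, h4⟩ := hP.pth hu hv huv
    have hn := hp.pos huv
    obtain ⟨m, h5, h6, h7, h8⟩ := hM (n + δ) (by omega)
    have h9 : 2 * δ ≤ δ ^ 4 := by
      have : 2 ^ 3 ≤ δ ^ 3 := Nat.pow_le_pow_left hδ 3
      calc 2 * δ ≤ δ ^ 3 * δ := Nat.mul_le_mul_right _ (by omega)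
        _ = δ ^ 4 := by ring
    have h10 : m ≤ δ ^ (4 * K) := by
      rw [pow_mul]
      exact h7.trans (Nat.pow_le_pow_left (by omega) K)
    have h11 := (h4 0 (Nat.zero_le _)).parity (σ := σ) fun a b h => h.2
    have h12 : Odd (n + b) := by
      rw [Nat.odd_add, ← hpar, h11]; simp
    obtain ⟨r, hr⟩ := h5
    obtain ⟨r', hr'⟩ := h12
    have h13 := (h4 (r - r') (by omega)).monoG (bic_le G σ)
    have h14 := h3.close h13 huv (by omega) (by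
      intro x hx hx'
      by_contra h'
      push Not at h'
      exact h'.2 (hw x hx hx' h'.1))
    rw [show n + (b + 2 * (r - r')) = m by omega] at h14
    exact h8 h14.univ

end Basic

end Pool.Agent.P.MP_0cc987_co
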