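import Pool.Agent.P.MP_0cc987_co.Num

/-! Circular Lipschitz colourings and ball carving. -/

namespace Pool.Agent.P.MP_0cc987_co

open Set

variable {V : Type*}

namespace Good

/-- Flip the second coordinate of a point of the double cover. -/
def tau (p : V × Bool) : V × Bool := (p.1, !p.2)

@[simp] theorem tau_fst (p : V × Bool) : (tau p).1 = p.1 := rfl

@[simp] theorem tau_tau (p : V × Bool) : tau (tau p) = p := by simp [tau]

/-- The points `p` and `q` of the double cover are joined by a walk of length at most `3 j`. -/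
def Rel (G : SimpleGraph V) (j : ℕ) (p q : V × Bool) : Prop :=
  ∃ n ≤ 3 * j, Wk G univ p.1 q.1 n ∧ (p.2 = q.2 ↔ Even n)

variable {G : SimpleGraph V} {i j : ℕ} {p q r : V × Bool}

theorem Rel.refl (j : ℕ) (p : V × Bool) : Rel G j p p :=
  ⟨0, Nat.zero_le _, Wk.nil trivial, by simp⟩

theorem Rel.le (h : Rel G i p q) (hij : i ≤ j) : Rel G j p q :=
  let ⟨n, h1, h2⟩ := h; ⟨n, by omega, h2⟩

theorem Rel.symm (h : Rel G j p q) : Rel G j q p :=
  let ⟨n, h1, h2, h3⟩ := h; ⟨n, h1, h2.symm, by rw [← h3, eq_comm]⟩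

theorem Rel.trans (h : Rel G i p q) (h' : Rel G j q r) : Rel G (i + j) p r := by
  obtain ⟨n, h1, h2, h3⟩ := h
  obtain ⟨m, h4, h5, h6⟩ := h'
  refine ⟨n + m, by omega, h2.trans h5, ?_⟩
  rw [Nat.even_add, ← h3, ← h6]
  cases p.2 <;> cases q.2 <;> cases r.2 <;> simp

theorem Rel.flip (h : Rel G j p q) : Rel G j (tau p) (tau q) := by
  obtain ⟨n, h1, h2, h3⟩ := h
  exact ⟨n, h1, h2, by rw [← h3]; simp [tau]⟩

theorem Rel.not_tau {g : ℕ} (ho : OddFree G g) (hj : 3 * j ≤ g) : ¬ Rel G j (tau p) p := by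
  rintro ⟨n, h1, h2, h3⟩
  refine ho p.1 n ?_ (by omega) h2
  rw [← Nat.not_even_iff_odd, ← h3]
  simp [tau]

/-- A lift of `φ` to the double cover over `W` that is Lipschitz for `Rel`. -/
def Val (G : SimpleGraph V) (W : Finset V) (φ : V → ℤ) (f : V × Bool → ℤ) : Prop :=
  (∀ x ∈ W, (f (x, false) - φ x) % 6 = 0 ∧ (f (x, true) - φ x) % 6 = 3) ∧
    ∀ p q : V × Bool, p.1 ∈ W → q.1 ∈ W → ∀ j, Rel G j p q → f p - f q ≤ j

/-- Compression of the values of a lift into a short interval. -/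
theorem compress {W : Finset V} {φ : V → ℤ} {f : V × Bool → ℤ} (h : Val G W φ f) :
    ∃ g, Val G W φ g ∧ ∀ p : V × Bool, p.1 ∈ W → 0 ≤ g p ∧ g p ≤ 12 * W.card := by
  classical
  let P : Finset (V × Bool) := W ×ˢ Finset.univ
  have hP : ∀ p : V × Bool, p ∈ P ↔ p.1 ∈ W := fun p => by simp [P]
  have hc : P.card = 2 * W.card := by simp [P, mul_comm]
  have h0 : ∃ s : ℕ, ∃ g, Val G W φ g ∧ (∀ p ∈ P, 0 ≤ g p) ∧ ∑ p ∈ P, g p = s := by
    have hb : ∀ p ∈ P, |f p| ≤ ∑ p ∈ P, |f p| := fun p hp =>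
      Finset.single_le_sum (f := fun p => |f p|) (fun _ _ => abs_nonneg _) hp
    have hn : ∀ p ∈ P, 0 ≤ f p + 6 * ∑ p ∈ P, |f p| := fun p hp => by
      have h1 := hb p hp
      have h2 := neg_abs_le (f p)
      have h3 := abs_nonneg (f p)
      linarith
    refine ⟨(∑ p ∈ P, (f p + 6 * ∑ p ∈ P, |f p|)).toNat, fun p => f p + 6 * ∑ p ∈ P, |f p|,
      ⟨fun x hx => ?_, fun p q hp hq j hj => ?_⟩, hn, ?_⟩
    · have := h.1 x hx
      simp only
      omega
    · have := h.2 p q hp hq j hj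
      simp only
      omega
    · exact (Int.toNat_of_nonneg (Finset.sum_nonneg hn)).symm
  obtain ⟨g, h1, h2, h3⟩ := Nat.find_spec h0
  refine ⟨g, h1, fun p0 hp0 => ⟨h2 p0 ((hP _).2 hp0), ?_⟩⟩
  by_contra hlt
  push Not at hlt
  have hp0' := (hP _).2 hp0
  obtain ⟨k, hk, hk'⟩ : ∃ k ∈ Finset.range P.card,
      k ∉ (P.erase p0).image fun p => (g p / 6).toNat := by
    apply Finset.exists_mem_notMem_of_card_lt_card
    have a1 := Finset.card_erase_add_one hp0'
    have a2 : ((P.erase p0).image fun p => (g p / 6).toNat).card ≤ (P.erase p0).card :=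
      Finset.card_image_le
    rw [Finset.card_range]
    omega
  rw [Finset.mem_range, hc] at hk
  have hw : ∀ p ∈ P, g p < 6 * k ∨ 6 * k + 6 ≤ g p := by
    intro p hp
    by_cases e : p = p0
    · subst e
      omega
    · have a1 : (g p / 6).toNat ≠ k := fun a =>
        hk' (Finset.mem_image.2 ⟨p, Finset.mem_erase.2 ⟨e, hp⟩, a⟩)
      have a2 := h2 p hp
      omega
  let g' : V × Bool → ℤ := fun p => if 6 * (k : ℤ) + 6 ≤ g p then g p - 6 else g p
  have b1 : ∀ p, (6 * (k : ℤ) + 6 ≤ g p ∧ g' p = g p - 6) ∨ (g p < 6 * k + 6 ∧ g' p = g p) := by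
    intro p
    by_cases e : 6 * (k : ℤ) + 6 ≤ g p
    · exact Or.inl ⟨e, if_pos e⟩
    · exact Or.inr ⟨by omega, if_neg e⟩
  have b2 : ∀ p ∈ P, 0 ≤ g' p := fun p hp => by
    have := h2 p hp
    have := b1 p
    omega
  have b3 : ∑ p ∈ P, g' p < ∑ p ∈ P, g p := by
    refine Finset.sum_lt_sum (fun p _ => ?_) ⟨p0, hp0', ?_⟩
    · have := b1 p
      omega
    · have := b1 p0
      omega
  have b4 := Finset.sum_nonneg b2
  refine Nat.find_min h0 (m := (∑ p ∈ P, g' p).toNat) (by omega)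
    ⟨g', ⟨fun x hx => ?_, fun p q hp hq j hj => ?_⟩, b2, (Int.toNat_of_nonneg b4).symm⟩
  · have := h1.1 x hx
    have := b1 (x, false)
    have := b1 (x, true)
    omega
  · have := h1.2 p q hp hq j hj
    have := b1 p
    have := b1 q
    have := hw p ((hP _).2 hp)
    have := hw q ((hP _).2 hq)
    omega

/-- An empty shell around a point. -/
theorem shell (G : SimpleGraph V) (W : Finset V) (w : ℕ) (p0 : V × Bool) :
    ∃ i ≤ 2 * W.card, ∀ q : V × Bool, q.1 ∈ W → Rel G (w + i * w) q p0 → Rel G (i * w) q p0 := by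
  classical
  by_contra hne
  push Not at hne
  let P : Finset (V × Bool) := W ×ˢ Finset.univ
  have hP : ∀ p : V × Bool, p ∈ P ↔ p.1 ∈ W := fun p => by simp [P]
  have hc : P.card = 2 * W.card := by simp [P, mul_comm]
  have key : ∀ i ≤ 2 * W.card + 1, i ≤ (P.filter fun q => Rel G (i * w) q p0).card := by
    intro i
    induction i with
    | zero => simp
    | succ i ih =>
      intro hi
      obtain ⟨q, h1, h2, h3⟩ := hne i (by omega)
      have e : (i + 1) * w = w + i * w := by ring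
      have : (P.filter fun q => Rel G (i * w) q p0).card <
          (P.filter fun q => Rel G ((i + 1) * w) q p0).card := by
        apply Finset.card_lt_card
        rw [Finset.ssubset_iff_of_subset]
        · exact ⟨q, Finset.mem_filter.2 ⟨(hP q).2 h1, e ▸ h2⟩,
            fun h => h3 (Finset.mem_filter.1 h).2⟩
        · intro x hx
          rw [Finset.mem_filter] at hx ⊢
          exact ⟨hx.1, hx.2.le (by omega)⟩
      have := ih (by omega)
      omega
  have h1 := key _ le_rfl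
  have h2 := Finset.card_filter_le P fun q => Rel G ((2 * W.card + 1) * w) q p0
  omega

/-- Lipschitz extension to one more point. -/
theorem mcshane {W : Finset V} {φ : V → ℤ} {f : V × Bool → ℤ} (h : Val G W φ f) {ω : ℤ}
    (hω : 0 ≤ ω) (hb : ∀ p : V × Bool, p.1 ∈ W → 0 ≤ f p ∧ f p ≤ ω) (p0 : V × Bool) :
    ∃ a : ℤ, 0 ≤ a ∧ a ≤ ω ∧ ∀ q : V × Bool, q.1 ∈ W → ∀ j, Rel G j q p0 →
      a - f q ≤ j ∧ f q - a ≤ j := by
  classical
  obtain ⟨a, h1, h2⟩ := Int.exists_least_of_bdd
    (P := fun z => z = ω ∨ ∃ q : V × Bool, ∃ j : ℕ, q.1 ∈ W ∧ Rel G j q p0 ∧ z = f q + j)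
    ⟨0, by
      rintro z (rfl | ⟨q, j, a1, _, rfl⟩)
      · exact hω
      · have := (hb q a1).1
        omega⟩ ⟨ω, Or.inl rfl⟩
  refine ⟨a, ?_, h2 ω (Or.inl rfl), fun q hq j hj => ⟨?_, ?_⟩⟩
  · rcases h1 with rfl | ⟨q, j, a1, _, rfl⟩
    · exact hω
    · have := (hb q a1).1
      omega
  · have := h2 _ (Or.inr ⟨q, j, hq, hj, rfl⟩)
    omega
  · rcases h1 with rfl | ⟨q', j', a1, a2, rfl⟩
    · have := (hb q hq).2
      omega
    · have := h.2 q q' hq a1 _ (hj.trans a2.symm)
      push_cast at this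
      omega

theorem ext [DecidableEq V] {n0 : ℕ} (ho : OddFree G (300 * (n0 + 1) ^ 2)) {W : Finset V}
    {φ : V → ℤ} {f : V × Bool → ℤ} (h : Val G W φ f) (hW : W.card < n0) {y : V} (hy : y ∉ W) :
    ∃ a f', Val G (insert y W) (Function.update φ y a) f' := by
  classical
  obtain ⟨f, h, hb⟩ := compress h
  obtain ⟨i, hi, hs⟩ := shell G W (12 * W.card + 3) (y, false)
  obtain ⟨a, a0, a1, ha⟩ := mcshane h (by positivity) hb (y, false)
  set w := 12 * W.card + 3 with hw
  have hbig : 3 * (w + i * w) ≤ 300 * (n0 + 1) ^ 2 := by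
    have h1 : i + 1 ≤ 2 * (n0 + 1) := by omega
    have h2 : w ≤ 12 * (n0 + 1) := by omega
    have h3 := Nat.mul_le_mul h1 h2
    nlinarith
  have hno : ∀ j ≤ w + i * w, ¬ Rel G j (tau (y, false)) (y, false) := fun j hj =>
    Rel.not_tau ho (by omega)
  let g : V × Bool → ℤ := fun p => if p.1 = y then a else f p
  have g1 : ∀ p : V × Bool, p.1 ∈ W → g p = f p := fun p hp =>
    if_neg fun e : p.1 = y => hy (e ▸ hp)
  have g2 : g (y, false) = a := if_pos rfl
  have g3 : ∀ p : V × Bool, p.1 ∈ W ∨ p = (y, false) → 0 ≤ g p ∧ g p ≤ 12 * W.card := by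
    rintro p (hp | rfl)
    · rw [g1 p hp]; exact hb p hp
    · rw [g2]; exact ⟨a0, a1⟩
  have g4 : ∀ p q : V × Bool, p.1 ∈ W ∨ p = (y, false) → q.1 ∈ W ∨ q = (y, false) →
      ∀ j, Rel G j p q → g p - g q ≤ j := by
    rintro p q (hp | rfl) (hq | rfl) j hj
    · rw [g1 p hp, g1 q hq]; exact h.2 p q hp hq j hj
    · rw [g1 p hp, g2]; exact (ha p hp j hj).2
    · rw [g1 q hq, g2]; exact (ha q hq j hj.symm).1
    · simp
  let A : V × Bool → Prop := fun p => Rel G (i * w) (tau p) (y, false)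
  let f' : V × Bool → ℤ := fun p => if A p then g (tau p) + 3 else g p
  have A0 : ¬ A (y, false) := hno _ (by omega)
  have A1 : A (y, true) := Rel.refl _ _
  have c1 : ∀ p : V × Bool, p.1 ∈ insert y W →
      (A p ∧ f' p = g (tau p) + 3 ∧ ((tau p).1 ∈ W ∨ tau p = (y, false))) ∨
      (¬ A p ∧ f' p = g p ∧ (p.1 ∈ W ∨ p = (y, false))) := by
    rintro ⟨x, ε⟩ hp
    by_cases e : A (x, ε)
    · refine Or.inl ⟨e, if_pos e, ?_⟩
      rcases Finset.mem_insert.1 hp with rfl | hp
      · cases ε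
        · exact (A0 e).elim
        · exact Or.inr rfl
      · exact Or.inl hp
    · refine Or.inr ⟨e, if_neg e, ?_⟩
      rcases Finset.mem_insert.1 hp with rfl | hp
      · cases ε
        · exact Or.inr rfl
        · exact (e A1).elim
      · exact Or.inl hp
  have c2 : ∀ p q : V × Bool, A p → ¬ A q → (q.1 ∈ W ∨ q = (y, false)) →
      ∀ j, Rel G j q p → w < j := by
    intro p q hp hq hq' j hj
    by_contra hle
    have a2 : Rel G (w + i * w) (tau q) (y, false) := (hj.flip.trans hp).le (by omega)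
    rcases hq' with hq' | rfl
    · exact hq (hs (tau q) hq' a2)
    · exact hno _ le_rfl a2
  refine ⟨a, f', fun x hx => ?_, fun p q hp hq j hj => ?_⟩
  · rcases Finset.mem_insert.1 hx with rfl | hx'
    · have e1 : f' (x, false) = a := (if_neg A0).trans g2
      have e2 : f' (x, true) = a + 3 := (if_pos A1).trans (by rw [← g2]; rfl)
      rw [e1, e2, Function.update_self]
      omega
    · have e0 : x ≠ y := fun e => hy (e ▸ hx')
      have e1 := g1 (x, false) hx'
      have e2 := g1 (x, true) hx'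
      have e3 := h.1 x hx'
      have e4 := c1 (x, false) hx
      have e5 := c1 (x, true) hx
      have e6 : tau (x, false) = (x, true) := rfl
      have e7 : tau (x, true) = (x, false) := rfl
      rw [e6] at e4
      rw [e7] at e5
      rw [Function.update_of_ne e0]
      rcases e4 with ⟨_, e4, _⟩ | ⟨_, e4, _⟩ <;> rcases e5 with ⟨_, e5, _⟩ | ⟨_, e5, _⟩ <;> omega
  · rcases c1 p hp with ⟨p1, p2, p3⟩ | ⟨p1, p2, p3⟩ <;>
      rcases c1 q hq with ⟨q1, q2, q3⟩ | ⟨q1, q2, q3⟩
    · have := g4 _ _ p3 q3 j hj.flip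
      omega
    · have := c2 p q p1 q1 q3 j hj.symm
      have := g3 _ p3
      have := g3 _ q3
      omega
    · have := c2 q p q1 p1 p3 j hj
      have := g3 _ p3
      have := g3 _ q3
      omega
    · have := g4 _ _ p3 q3 j hj
      omega

/-- One round of ball carving. -/
theorem round [DecidableEq V] (G : SimpleGraph V) (θ k : ℕ) (hθ : 2 * k + 1 ≤ θ)
    (ho : OddFree G (θ ^ 3)) (A : Finset V) (hA : A.card < θ ^ k) :
    ∃ B ⊆ A, θ * B.card ≤ A.card ∧ Col G ↑(A \ B) 2 := by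
  classical
  induction hn : A.card using Nat.strong_induction_on generalizing A with
  | _ n ih =>
  subst hn
  rcases A.eq_empty_or_nonempty with rfl | ⟨v, hv⟩
  · exact ⟨∅, Finset.Subset.rfl, by simp, by simpa using Col.empty G 2⟩
  let X : ℕ → Finset V := fun i => A.filter fun y => WkLe G ↑A v y i
  have hX : ∀ i y, y ∈ X i ↔ y ∈ A ∧ WkLe G ↑A v y i := fun i y => Finset.mem_filter
  have hm : ∀ i j, i ≤ j → X i ⊆ X j := fun i j hij y hy =>
    (hX j y).2 ⟨((hX i y).1 hy).1, ((hX i y).1 hy).2.le hij⟩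
  have hvX : ∀ i, v ∈ X i := fun i => (hX i v).2 ⟨hv, WkLe.refl hv i⟩
  have hXA : ∀ i, X i ⊆ A := fun i => Finset.filter_subset _ _
  obtain ⟨i, hi, hg⟩ : ∃ i < k * θ * θ, θ * (X (i + 1) \ X i).card ≤ (X (i + 1)).card := by
    by_contra hne
    push Not at hne
    have s1 : ∀ i < k * θ * θ, θ * (X i).card + (X (i + 1)).card ≤ θ * (X (i + 1)).card := by
      intro i hi
      have a1 := hne i hi
      have a2 := Finset.card_sdiff_add_card_eq_card (hm i (i + 1) (by omega))
      rw [← a2] at a1 ⊢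
      nlinarith
    have s2 : ∀ i t, i + t ≤ k * θ * θ → (θ + t) * (X i).card ≤ θ * (X (i + t)).card := by
      intro i t
      induction t with
      | zero => simp
      | succ t iht =>
        intro ht
        have a1 := iht (by omega)
        have a2 := s1 (i + t) (by omega)
        have a3 := Finset.card_le_card (hm i (i + t + 1) (by omega))
        rw [← add_assoc i t 1]
        nlinarith
    have s3 : ∀ t ≤ k * θ, 2 ^ t ≤ (X (t * θ)).card := by
      intro t
      induction t with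
      | zero => exact fun _ => Finset.card_pos.2 ⟨v, hvX _⟩
      | succ t iht =>
        intro ht
        have a1 := iht (by omega)
        have a2 := s2 (t * θ) θ (by
          have := Nat.mul_le_mul_right θ ht
          nlinarith)
        have a3 : 2 * (X (t * θ)).card ≤ (X (t * θ + θ)).card :=
          Nat.le_of_mul_le_mul_left (c := θ) (by nlinarith) (by omega)
        rw [pow_succ, show (t + 1) * θ = t * θ + θ by ring]
        omega
    have a1 := s3 _ le_rfl
    have a2 := pow_le_two_pow_mul θ k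
    have a3 := Finset.card_le_card (hXA (k * θ * θ))
    omega
  have c1 := Finset.card_sdiff_add_card_eq_card (hXA (i + 1))
  have c2 : 0 < (X (i + 1)).card := Finset.card_pos.2 ⟨v, hvX _⟩
  obtain ⟨B, b1, b2, b3⟩ := ih _ (by omega) (A \ X (i + 1)) (by omega) rfl
  refine ⟨B ∪ (X (i + 1) \ X i), Finset.union_subset (b1.trans Finset.sdiff_subset)
    (Finset.sdiff_subset.trans (hXA _)), ?_, ?_⟩
  · have := Nat.mul_le_mul_left θ (Finset.card_union_le B (X (i + 1) \ X i))
    rw [mul_add] at this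
    omega
  · have d1 : Col G ↑(X i) 2 := by
      refine Col.of_ball (v := v) (r := i) (fun y hy => ((hX i y).1 hy).2.univ) (ho.le ?_)
      have : 2 * k * (θ * θ) ≤ θ * (θ * θ) := Nat.mul_le_mul_right _ (by omega)
      nlinarith
    refine (d1.union_same b3 fun a ha b hb _ hab => ?_).mono fun y hy => ?_
    · simp only [Finset.coe_sdiff, mem_sdiff, Finset.mem_coe] at hb
      exact hb.1.2 ((hX _ b).2 ⟨hb.1.1, ((hX i a).1 ha).2.snoc hab hb.1.1⟩)
    · simp only [Finset.coe_sdiff, Finset.coe_union, mem_sdiff, mem_union, Finset.mem_coe] at hy ⊢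
      tauto

end Good

theorem good_sys [DecidableEq V] (G : SimpleGraph V) (n0 : ℕ) (h : OddFree G (300 * (n0 + 1) ^ 2)) :
    ∃ Gd, GoodSys G n0 Gd := by
  refine ⟨fun W φ => ∃ f, Good.Val G W φ f, fun φ => ⟨fun _ => 0, by simp, by simp⟩, ?_, ?_, ?_, ?_⟩
  · rintro W W' φ φ' ⟨f, h1, h2⟩ hW hφ
    exact ⟨f, fun x hx => by rw [hφ x hx]; exact h1 x (hW hx),
      fun p q hp hq => h2 p q (hW hp) (hW hq)⟩
  · rintro W φ y ⟨f, hf⟩ hW
    by_cases hy : y ∈ W
    · exact ⟨φ, ⟨f, by rwa [Finset.insert_eq_of_mem hy]⟩, fun _ _ => rfl⟩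
    · obtain ⟨a, f', h1⟩ := Good.ext h hf hW hy
      exact ⟨_, ⟨f', h1⟩, fun x hx => Function.update_of_ne (fun e : x = y => hy (e ▸ hx)) _ _⟩
  · rintro W φ x y n ⟨f, h1, h2⟩ hx hy hw hn
    have r : Good.Rel G 1 (x, false) (y, true) :=
      ⟨n, by omega, hw, by rcases hn with rfl | rfl <;> simp [Nat.even_iff]⟩
    have a1 := h2 _ _ hx hy 1 r
    have a2 := h2 _ _ hy hx 1 r.symm
    have a3 := h1 x hx
    have a4 := h1 y hy
    push_cast at a1 a2
    omega
  · rintro W φ x y ⟨f, h1, h2⟩ hx hy hw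
    have r : Good.Rel G 1 (x, false) (y, false) := ⟨2, by omega, hw, by simp⟩
    have a1 := h2 _ _ hx hy 1 r
    have a2 := h2 _ _ hy hx 1 r.symm
    have a3 := h1 x hx
    have a4 := h1 y hy
    push_cast at a1 a2
    omega

theorem kst [DecidableEq V] (G : SimpleGraph V) (θ k : ℕ) (hθ : 2 * k + 1 ≤ θ) (ho : OddFree G (θ ^ 3))
    (j : ℕ) (hj : j ≤ k) (Z : Finset V) (hZ : Z.card < θ ^ j) : Col G ↑Z (2 * j) := by
  induction j generalizing Z with
  | zero =>
    obtain rfl : Z = ∅ := Finset.card_eq_zero.1 (by simpa using hZ)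
    simpa using Col.empty G 0
  | succ j ih =>
    obtain ⟨B, b1, b2, b3⟩ := Good.round G θ k hθ ho Z
      (hZ.trans_le (Nat.pow_le_pow_right (by omega) hj))
    have b4 : B.card < θ ^ j := by
      rw [pow_succ, mul_comm] at hZ
      exact Nat.lt_of_mul_lt_mul_left (a := θ) (by omega)
    have b5 := b3.union (ih (by omega) B b4)
    rw [show 2 * (j + 1) = 2 + 2 * j by ring]
    refine b5.mono fun y hy => ?_
    simp only [Finset.coe_sdiff, mem_sdiff, mem_union, Finset.mem_coe] at hy ⊢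
    tauto

end Pool.Agent.P.MP_0cc987_co
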