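import Pool.Agent.P.MP_0cc987_co.Num

/-! Greedy construction of a cycle of prescribed length in a system of cells and arcs. -/

namespace Pool.Agent.P.MP_0cc987_co

open Set

variable {V : Type*} [DecidableEq V]

namespace Greedy

theorem drop {ι : Type*} (g : ι → V) (D : ℕ) (E0 : Finset ι) (e : ι) (he : e ∈ E0)
    (h : (E0.filter fun f => g f = g e).card ≤ D) :
    ∃ E1 ⊂ E0, E0.card ≤ E1.card + D ∧ (E1.image g).card + 1 ≤ (E0.image g).card ∧
      ∀ g' : ι → V, (E1.image g').card ≤ (E0.image g').card := by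
  have hs : (E0.filter fun f => ¬ g f = g e) ⊆ E0 := Finset.filter_subset _ _
  refine ⟨E0.filter fun f => ¬ g f = g e, ⟨hs, fun h' => ?_⟩, ?_, ?_,
    fun g' => Finset.card_le_card (Finset.image_subset_image hs)⟩
  · have := h' he
    simp at this
  · have := Finset.card_filter_add_card_filter_not (s := E0) (fun f => g f = g e)
    omega
  · apply Finset.card_lt_card
    refine ⟨Finset.image_subset_image hs, fun h' => ?_⟩
    have := h' (Finset.mem_image_of_mem g he)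
    simp only [Finset.mem_image, Finset.mem_filter] at this
    obtain ⟨f, ⟨_, h1⟩, h2⟩ := this
    exact h1 h2

/-- A dense family of arcs has a subfamily with large degrees at both ends. -/
theorem dense {ι : Type*} (tl hd : ι → V) (D : ℕ) (E0 : Finset ι)
    (h : D * ((E0.image tl).card + (E0.image hd).card) < E0.card) :
    ∃ E' ⊆ E0, E'.Nonempty ∧ ∀ e ∈ E', D < (E'.filter fun f => tl f = tl e).card ∧
      D < (E'.filter fun f => hd f = hd e).card := by
  induction E0 using Finset.strongInduction with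
  | H E0 ih =>
  by_cases hall : ∀ e ∈ E0, D < (E0.filter fun f => tl f = tl e).card ∧
      D < (E0.filter fun f => hd f = hd e).card
  · exact ⟨E0, Finset.Subset.refl _, Finset.card_pos.1 (by omega), hall⟩
  · have : ∃ E1 ⊂ E0, E0.card ≤ E1.card + D ∧
        (E1.image tl).card + (E1.image hd).card + 1 ≤
          (E0.image tl).card + (E0.image hd).card := by
      push Not at hall
      obtain ⟨e, he, h1⟩ := hall
      by_cases h2 : D < (E0.filter fun f => tl f = tl e).card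
      · obtain ⟨E1, a1, a2, a3, a4⟩ := drop hd D E0 e he (h1 h2)
        exact ⟨E1, a1, a2, by have := a4 tl; omega⟩
      · obtain ⟨E1, a1, a2, a3, a4⟩ := drop tl D E0 e he (by omega)
        exact ⟨E1, a1, a2, by have := a4 hd; omega⟩
    obtain ⟨E1, a1, a2, a3⟩ := this
    have h3 := Nat.mul_le_mul_left D a3
    rw [Nat.mul_add, Nat.mul_one] at h3
    obtain ⟨E', b1, b2⟩ := ih E1 a1 (by omega)
    exact ⟨E', b1.trans a1.1, b2⟩

variable {ι : Type*} {G : SimpleGraph V} {C : Finset V} {E E' : Finset ι} {cell : V → Set V}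
  {tl hd z : ι → V} {al : ι → Set V} {s D : ℕ}

/-- The choice of the next two arcs. -/
theorem choice (h : ArcSys G C E cell tl hd z al s) (hE : E' ⊆ E)
    (hdeg : ∀ e ∈ E', D < (E'.filter fun f => tl f = tl e).card ∧
      D < (E'.filter fun f => hd f = hd e).card)
    {Us : Finset V} (hU : 2 * (Us.card + s + 1) ≤ D) {e0 : ι} (he0 : e0 ∈ E') {x : V}
    (hx : x ∈ cell (hd e0)) :
    ∃ e ∈ E', ∃ e' ∈ E', ∃ (P : Finset V) (p : ℕ), hd e = hd e0 ∧ tl e = tl e' ∧ e ≠ e' ∧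
      p ≤ s ∧ P.card = p + 1 ∧ ↑P ⊆ cell (hd e) ∧ Pth G ↑P x (z e) p ∧
      (∀ w ∈ Us, w ∉ cell (tl e)) ∧ ∀ w ∈ Us ∪ P, w ∉ cell (hd e') ∧ w ∉ al e' := by
  classical
  have h1 : ∃ e ∈ E'.filter fun f => hd f = hd e0, ∀ w ∈ Us, w ∉ cell (tl e) := by
    by_contra hc
    push Not at hc
    have := card_meet_le (E'.filter fun f => hd f = hd e0) (fun e => cell (tl e)) Us (by
      intro i hi j hj w a b
      rw [Finset.mem_filter] at hi hj
      by_contra hij
      have e1 := h.disj _ (h.arc i (hE hi.1)).1 _ (h.arc j (hE hj.1)).1 w a b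
      exact (h.sib i (hE hi.1) j (hE hj.1) hij e1).1 (hi.2.trans hj.2.symm)) hc
    have := (hdeg e0 he0).2
    omega
  obtain ⟨e, he, h2⟩ := h1
  rw [Finset.mem_filter] at he
  obtain ⟨he, he1⟩ := he
  have ha := h.arc e (hE he)
  obtain ⟨p, hp, h3⟩ := (h.diam _ ha.2.1 x (he1 ▸ hx) (z e) ha.2.2.2.1).pth
  obtain ⟨P, h4, h5, h6⟩ := h3.tight
  have hcard : (Us ∪ P).card ≤ Us.card + s + 1 := (Finset.card_union_le _ _).trans (by omega)
  have h7 : ∃ e' ∈ E'.filter fun f => tl f = tl e,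
      ∀ w ∈ Us ∪ P, w ∉ cell (hd e') ∧ w ∉ al e' := by
    by_contra hc
    push Not at hc
    set J := E'.filter fun f => tl f = tl e with hJ
    have hJm : ∀ i ∈ J, i ∈ E ∧ tl i = tl e := fun i hi => by
      rw [hJ, Finset.mem_filter] at hi
      exact ⟨hE hi.1, hi.2⟩
    have c1 := card_meet_le (J.filter fun i => ∃ w ∈ Us ∪ P, w ∈ cell (hd i))
      (fun i => cell (hd i)) (Us ∪ P) (by
        intro i hi j hj w a b
        have hi := hJm i (Finset.mem_filter.1 hi).1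
        have hj := hJm j (Finset.mem_filter.1 hj).1
        by_contra hij
        exact (h.sib i hi.1 j hj.1 hij (hi.2.trans hj.2.symm)).1
          (h.disj _ (h.arc i hi.1).2.1 _ (h.arc j hj.1).2.1 w a b))
      (fun i hi => (Finset.mem_filter.1 hi).2)
    have c2 := card_meet_le (J.filter fun i => ¬ ∃ w ∈ Us ∪ P, w ∈ cell (hd i))
      al (Us ∪ P) (by
        intro i hi j hj w a b
        have hi := hJm i (Finset.mem_filter.1 hi).1
        have hj := hJm j (Finset.mem_filter.1 hj).1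
        by_contra hij
        exact (h.sib i hi.1 j hj.1 hij (hi.2.trans hj.2.symm)).2.1 w a b)
      (fun i hi => by
        obtain ⟨hi1, hi2⟩ := Finset.mem_filter.1 hi
        obtain ⟨w, hw, h8⟩ := hc i hi1
        exact ⟨w, hw, h8 fun h9 => hi2 ⟨w, hw, h9⟩⟩)
    have c3 := Finset.card_filter_add_card_filter_not (s := J)
      (fun i => ∃ w ∈ Us ∪ P, w ∈ cell (hd i))
    have := (hdeg e he).1
    rw [← hJ] at this
    omega
  obtain ⟨e', he', h8⟩ := h7
  rw [Finset.mem_filter] at he'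
  refine ⟨e, he, e', he'.1, P, p, he1, he'.2.symm, ?_, hp, h5, h4, h6, h2, h8⟩
  rintro rfl
  exact (h8 (z e) (Finset.mem_union_right _ h6.right)).1 ha.2.2.2.1

/-- The position reached: the used set meets the current cell only in the current end. -/
structure Pos (E' : Finset ι) (cell : V → Set V) (hd : ι → V) (H : Set V) (Us : Finset V)
    (e0 : ι) (x : V) : Prop where
  mem : e0 ∈ E'
  cx : x ∈ cell (hd e0)
  only : ∀ w ∈ Us, w ∈ cell (hd e0) → w = x
  high : ∀ w ∈ Us, w ∈ H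

variable {H : Set V}

/-- One step of the construction. -/
theorem step (h : ArcSys G C E cell tl hd z al s) (hE : E' ⊆ E)
    (hdeg : ∀ e ∈ E', D < (E'.filter fun f => tl f = tl e).card ∧
      D < (E'.filter fun f => hd f = hd e).card)
    (hH : ∀ e ∈ E', ∀ w, w ∈ cell (tl e) ∨ w ∈ al e ∨ w ∈ cell (hd e) → w ∈ H)
    {Us : Finset V} (hU : 2 * (Us.card + s + 1) ≤ D) {e0 : ι} {x : V}
    (hP : Pos E' cell hd H Us e0 x) :
    ∃ (Us' : Finset V) (e1 : ι) (x1 : V) (d d' : ℕ), Pos E' cell hd H Us' e1 x1 ∧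
      Us'.card ≤ Us.card + 4 * (s + 1) ∧ 1 ≤ d ∧ d ≤ 2 * s ∧ d ≤ d' + s ∧ d' ≤ d + s ∧
      Odd (d + d') ∧ ∀ y l, Pth G ↑Us y x l →
        Pth G ↑Us' y x1 (l + d) ∧ Pth G ↑Us' y x1 (l + d + 2) ∧ Pth G ↑Us' y x1 (l + d') := by
  obtain ⟨e, he, e', he', P, p, h1, h2, h3, h4, h5, h6, h7, h8, h9⟩ :=
    choice h hE hdeg hU hP.mem hP.cx
  have ha := h.arc e (hE he)
  have ha' := h.arc e' (hE he')
  obtain ⟨h10, _, k, k', h11, h12, h13, p1, p2, p3⟩ := h.sib e (hE he) e' (hE he') h3 h2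
  obtain ⟨T1, a1, a2, a3⟩ := p1.tight
  obtain ⟨T2, b1, b2, b3⟩ := p2.tight
  obtain ⟨T3, c1, c2, c3⟩ := p3.tight
  have hz : z e ∈ Us ∪ P := Finset.mem_union_right _ h7.right
  have hne : z e ≠ z e' := fun e1 => (h9 _ hz).1 (e1 ▸ ha'.2.2.2.1)
  have hk := p1.pos hne
  set W := cell (tl e) ∪ al e' ∪ {z e, z e'} with hW
  have hT : ∀ w ∈ T1 ∪ T2 ∪ T3, w ∈ W := by
    intro w hw
    simp only [Finset.mem_union] at hw
    rcases hw with (hw | hw) | hw
    · exact a1 hw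
    · exact b1 hw
    · exact c1 hw
  have hmeet : ∀ w ∈ (↑Us ∪ ↑P : Set V), w ∈ W → w = z e := by
    intro w hw hw'
    have hw1 : w ∈ Us ∪ P := by simpa using hw
    rcases hw' with (hw' | hw') | hw' | hw'
    · rcases hw with hw | hw
      · exact (h8 w hw hw').elim
      · exact (ha.2.2.1 (h.disj _ ha.1 _ ha.2.1 w hw' (h6 hw))).elim
    · exact ((h9 w hw1).2 hw').elim
    · exact hw'
    · exact ((h9 w hw1).1 (hw' ▸ ha'.2.2.2.1)).elim
  have hext : ∀ (T : Finset V) (j : ℕ), ↑T ⊆ W → T ⊆ T1 ∪ T2 ∪ T3 → Pth G ↑T (z e) (z e') j →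
      ∀ y l, Pth G ↑Us y x l → Pth G ↑(Us ∪ P ∪ (T1 ∪ T2 ∪ T3)) y (z e') (l + p + j) := by
    intro T j t1 t2 t3 y l hl
    have q1 := hl.trans h7 fun w hw hw' => hP.only w hw (h1 ▸ h6 hw')
    refine (q1.trans t3 fun w hw hw' => hmeet w hw (t1 hw')).mono ?_
    rintro w (hw | hw)
    · exact Finset.mem_coe.2 (Finset.mem_union_left _ (by simpa using hw))
    · exact Finset.mem_coe.2 (Finset.mem_union_right _ (t2 hw))
  refine ⟨Us ∪ P ∪ (T1 ∪ T2 ∪ T3), e', z e', p + k, p + k', ⟨he', ha'.2.2.2.1, ?_, ?_⟩, ?_,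
    by omega, by omega, by omega, by omega, ?_, fun y l hl => ⟨?_, ?_, ?_⟩⟩
  · intro w hw hw'
    rcases Finset.mem_union.1 hw with hw | hw
    · exact ((h9 w hw).1 hw').elim
    · rcases hT w hw with (hw | hw) | hw | hw
      · exact (ha'.2.2.1 (h.disj _ ha'.1 _ ha'.2.1 w (h2 ▸ hw) hw')).elim
      · exact (ha'.2.2.2.2 w hw hw').elim
      · exact ((h9 _ hz).1 (hw ▸ hw')).elim
      · exact hw
  · intro w hw
    rcases Finset.mem_union.1 hw with hw | hw
    · rcases Finset.mem_union.1 hw with hw | hw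
      · exact hP.high w hw
      · exact hH e he w (Or.inr (Or.inr (h6 hw)))
    · rcases hT w hw with (hw | hw) | hw | hw
      · exact hH e he w (Or.inl hw)
      · exact hH e' he' w (Or.inr (Or.inl hw))
      · exact hH e he w (Or.inr (Or.inr (hw ▸ ha.2.2.2.1)))
      · exact hH e' he' w (Or.inr (Or.inr (hw ▸ ha'.2.2.2.1)))
  · have d1 := Finset.card_union_le (Us ∪ P) (T1 ∪ T2 ∪ T3)
    have d2 := Finset.card_union_le Us P
    have d3 := Finset.card_union_le (T1 ∪ T2) T3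
    have d4 := Finset.card_union_le T1 T2
    omega
  · obtain ⟨r, hr⟩ := h13
    exact ⟨r + p, by omega⟩
  · have := hext T1 k a1 (Finset.subset_union_left.trans Finset.subset_union_left) a3 y l hl
    rwa [Nat.add_assoc] at this
  · have := hext T2 _ b1 (Finset.subset_union_right.trans Finset.subset_union_left) b3 y l hl
    rwa [show l + p + (k + 2) = l + (p + k) + 2 by omega] at this
  · have := hext T3 k' c1 Finset.subset_union_right c3 y l hl
    rwa [Nat.add_assoc] at this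

/-- The last step of the construction. -/
theorem closing (h : ArcSys G C E cell tl hd z al s) (hE : E' ⊆ E)
    (hdeg : ∀ e ∈ E', D < (E'.filter fun f => tl f = tl e).card ∧
      D < (E'.filter fun f => hd f = hd e).card)
    (hH : ∀ e ∈ E', ∀ w, w ∈ cell (tl e) ∨ w ∈ al e ∨ w ∈ cell (hd e) → w ∈ H)
    {Low : Set V} (hL : ∀ e ∈ E', ∃ y ∈ Low, y ∈ cell (tl e) ∨ y ∈ al e ∨ y ∈ cell (hd e))
    {Us : Finset V} (hU : 2 * (Us.card + s + 1) ≤ D) {e0 : ι} {x : V}
    (hP : Pos E' cell hd H Us e0 x) :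
    ∃ y1 ∈ Low, y1 ∉ Us ∧ ∃ q ≤ 3 * s, ∀ y l, Pth G ↑Us y x l → Pth G H y y1 (l + q) := by
  obtain ⟨e, he, e', he', P, p, h1, h2, h3, h4, h5, h6, h7, h8, h9⟩ :=
    choice h hE hdeg hU hP.mem hP.cx
  have ha := h.arc e (hE he)
  have ha' := h.arc e' (hE he')
  obtain ⟨_, _, k, k', h11, _, _, p1, _, _⟩ := h.sib e (hE he) e' (hE he') h3 h2
  obtain ⟨y1, hy, hy'⟩ := hL e' he'
  set W := cell (hd e) ∪ cell (tl e) ∪ al e' ∪ cell (hd e') with hW
  have hU' : ∀ w ∈ Us, w ∉ cell (tl e) ∧ w ∉ al e' ∧ w ∉ cell (hd e') := fun w hw =>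
    ⟨h8 w hw, (h9 w (Finset.mem_union_left _ hw)).2, (h9 w (Finset.mem_union_left _ hw)).1⟩
  have w1 : WkLe G W x (z e) s := (h7.wkLe h4).mono fun w hw => Or.inl (Or.inl (Or.inl (h6 hw)))
  have w2 : WkLe G W (z e) (z e') s := (p1.wkLe (by omega)).mono (by
    rintro w ((hw | hw) | hw | hw)
    · exact Or.inl (Or.inl (Or.inr hw))
    · exact Or.inl (Or.inr hw)
    · exact Or.inl (Or.inl (Or.inl (hw ▸ ha.2.2.2.1)))
    · exact Or.inr (hw ▸ ha'.2.2.2.1))
  have w3 : WkLe G W (z e') y1 s := by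
    by_cases hc : y1 ∈ cell (hd e')
    · exact (h.diam _ ha'.2.1 _ ha'.2.2.2.1 _ hc).mono fun w hw => Or.inr hw
    · refine (h.conn e' (hE he') y1 (by tauto)).symm.mono ?_
      rintro w ((hw | hw) | hw)
      · exact Or.inl (Or.inl (Or.inr (h2 ▸ hw)))
      · exact Or.inl (Or.inr hw)
      · exact Or.inr (hw ▸ ha'.2.2.2.1)
  obtain ⟨q, hq, h10⟩ := ((w1.trans w2).trans w3).pth
  refine ⟨y1, hy, fun hc => ?_, q, by omega, fun y l hl => ?_⟩
  · obtain ⟨a, b, c⟩ := hU' y1 hc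
    rcases hy' with hy' | hy' | hy'
    · exact a (h2 ▸ hy')
    · exact b hy'
    · exact c hy'
  · refine (hl.trans h10 ?_).mono ?_
    · intro w hw hw'
      obtain ⟨a, b, c⟩ := hU' w hw
      rcases hw' with ((hw' | hw') | hw') | hw'
      · exact hP.only w hw (h1 ▸ hw')
      · exact (a hw').elim
      · exact (b hw').elim
      · exact (c hw').elim
    · rintro w (hw | ((hw | hw) | hw) | hw)
      · exact hP.high w hw
      · exact hH e he w (Or.inr (Or.inr hw))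
      · exact hH e he w (Or.inl hw)
      · exact hH e' he' w (Or.inr (Or.inl hw))
      · exact hH e' he' w (Or.inr (Or.inr hw))

/-- The first path of the construction. -/
theorem start (h : ArcSys G C E cell tl hd z al s) (hE : E' ⊆ E)
    (hH : ∀ e ∈ E', ∀ w, w ∈ cell (tl e) ∨ w ∈ al e ∨ w ∈ cell (hd e) → w ∈ H)
    {e0 : ι} (he0 : e0 ∈ E') {y : V} (hy : y ∈ cell (tl e0) ∨ y ∈ al e0 ∨ y ∈ cell (hd e0)) :
    ∃ (Us : Finset V) (x : V) (l : ℕ), Pos E' cell hd H Us e0 x ∧ l ≤ s ∧ Us.card = l + 1 ∧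
      Pth G ↑Us y x l := by
  have ha := h.arc e0 (hE he0)
  by_cases hc : y ∈ cell (hd e0)
  · refine ⟨{y}, y, 0, ⟨he0, hc, fun w hw _ => by simpa using hw, fun w hw => ?_⟩, Nat.zero_le _,
      by simp, Pth.refl (by simp)⟩
    rw [Finset.mem_singleton.1 hw]
    exact hH e0 he0 y hy
  · obtain ⟨l, hl, h1⟩ := (h.conn e0 (hE he0) y (by tauto)).pth
    obtain ⟨T, h2, h3, h4⟩ := h1.tight
    refine ⟨T, z e0, l, ⟨he0, ha.2.2.2.1, fun w hw hw' => ?_, fun w hw => ?_⟩, hl, h3, h4⟩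
    · rcases h2 hw with (hw | hw) | hw
      · exact (ha.2.2.1 (h.disj _ ha.1 _ ha.2.1 w hw hw')).elim
      · exact (ha.2.2.2.2 w hw hw').elim
      · exact hw
    · rcases h2 hw with (hw | hw) | hw
      · exact hH e0 he0 w (Or.inl hw)
      · exact hH e0 he0 w (Or.inr (Or.inl hw))
      · exact hH e0 he0 w (Or.inr (Or.inr (hw ▸ ha.2.2.2.1)))

/-- The state after `n` steps. -/
def State (G : SimpleGraph V) (E' : Finset ι) (cell : V → Set V) (hd : ι → V) (H : Set V)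
    (y0 : V) (s n a : ℕ) : Prop :=
  ∃ (Us : Finset V) (e : ι) (x : V) (a' : ℕ), Pos E' cell hd H Us e x ∧ Odd (a + a') ∧
    a ≤ a' + s ∧ a' ≤ a + s ∧ n ≤ a ∧ a ≤ 2 * s * (n + 2) ∧ Us.card ≤ 4 * (n + 2) * (s + 1) ∧
    ∀ j ≤ n, Pth G ↑Us y0 x (a + 2 * j) ∧ Pth G ↑Us y0 x (a' + 2 * j)

theorem room {n M s u : ℕ} (hn : n ≤ M) (hu : u ≤ 4 * (n + 2) * (s + 1)) :
    2 * (u + s + 1) ≤ 10 * (M + 2) * (s + 1) := by
  have h1 : (n + 2) * (s + 1) ≤ (M + 2) * (s + 1) := Nat.mul_le_mul_right _ (by omega)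
  have h2 : 1 * (s + 1) ≤ (M + 2) * (s + 1) := Nat.mul_le_mul_right _ (by omega)
  rw [Nat.mul_assoc] at hu ⊢
  omega

theorem core (h : ArcSys G C E cell tl hd z al s) (hE : E' ⊆ E) (hne : E'.Nonempty) {R M : ℕ}
    (hdeg : ∀ e ∈ E', 10 * (M + 2) * (s + 1) < (E'.filter fun f => tl f = tl e).card ∧
      10 * (M + 2) * (s + 1) < (E'.filter fun f => hd f = hd e).card)
    (hH : ∀ e ∈ E', ∀ w, w ∈ cell (tl e) ∨ w ∈ al e ∨ w ∈ cell (hd e) → w ∈ H)
    {Low : Set V} (hL : ∀ e ∈ E', ∃ y ∈ Low, y ∈ cell (tl e) ∨ y ∈ al e ∨ y ∈ cell (hd e))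
    (hB : ∀ y ∈ Low, ∀ y' ∈ Low, WkLe G (Hᶜ ∪ {y, y'}) y y' (2 * R))
    (hs : 1 ≤ s) (hM : 20 * s * (s + R + 1) ≤ M) : Cyc G univ M := by
  obtain ⟨e0, he0⟩ := hne
  obtain ⟨y0, hy0, hy0'⟩ := hL e0 he0
  have hM1 : 20 * (s + R + 1) ≤ M := by
    refine le_trans ?_ hM
    exact Nat.mul_le_mul_right _ (by omega)
  have h0 : ∃ a, State G E' cell hd H y0 s 0 a ∧ a + 4 * s + 2 * R ≤ M := by
    obtain ⟨Us, x, l, a1, a2, a3, a4⟩ := start h hE hH he0 hy0'
    obtain ⟨Us', e1, x1, d, d', b1, b2, b3, b4, b5, b6, b7, b8⟩ :=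
      step h hE hdeg hH (room (Nat.zero_le M) (by omega)) a1
    refine ⟨l + d, ⟨Us', e1, x1, l + d', b1, ?_, by omega, by omega, by omega, by omega, by omega,
      fun j hj => ?_⟩, by omega⟩
    · obtain ⟨r, hr⟩ := b7
      exact ⟨r + l, by omega⟩
    · obtain rfl : j = 0 := by omega
      exact ⟨(b8 y0 l a4).1, (b8 y0 l a4).2.2⟩
  have hstep : ∀ n a, State G E' cell hd H y0 s n a → n ≤ M →
      ∃ a1 ≤ a + 2 * s, State G E' cell hd H y0 s (n + 1) a1 := by
    rintro n a ⟨Us, e, x, a', a1, a2, a3, a4, a5, a6, a7, a8⟩ hn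
    obtain ⟨Us', e1, x1, d, d', b1, b2, b3, b4, -, -, -, b8⟩ :=
      step h hE hdeg hH (room hn a7) a1
    refine ⟨a + d, by omega, Us', e1, x1, a' + d, b1, ?_, by omega, by omega, by omega, ?_, ?_,
      fun j hj => ?_⟩
    · obtain ⟨r, hr⟩ := a2
      exact ⟨r + d, by omega⟩
    · rw [show 2 * s * (n + 1 + 2) = 2 * s * (n + 2) + 2 * s by ring]
      omega
    · rw [show 4 * (n + 1 + 2) * (s + 1) = 4 * (n + 2) * (s + 1) + 4 * (s + 1) by ring]
      omega
    · rcases j with _ | j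
      · exact ⟨(b8 y0 _ (a8 0 (Nat.zero_le _)).1).1, (b8 y0 _ (a8 0 (Nat.zero_le _)).2).1⟩
      · have c1 := (b8 y0 _ (a8 j (by omega)).1).2.1
        have c2 := (b8 y0 _ (a8 j (by omega)).2).2.1
        rw [show a + 2 * j + d + 2 = a + d + 2 * (j + 1) by omega] at c1
        rw [show a' + 2 * j + d + 2 = a' + d + 2 * (j + 1) by omega] at c2
        exact ⟨c1, c2⟩
  have hlast : ∃ n a, State G E' cell hd H y0 s n a ∧ a + 4 * s + 2 * R ≤ M ∧
      M < a + 6 * s + 2 * R := by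
    by_contra hc
    push Not at hc
    have : ∀ n, ∃ a, State G E' cell hd H y0 s n a ∧ a + 4 * s + 2 * R ≤ M := by
      intro n
      induction n with
      | zero => exact h0
      | succ n ih =>
        obtain ⟨a, a1, a2⟩ := ih
        have a3 := hc n a a1 a2
        have a4 : n ≤ a := by
          obtain ⟨_, _, _, _, _, _, _, _, a5, _⟩ := a1
          exact a5
        obtain ⟨a', a5, a6⟩ := hstep n a a1 (by omega)
        exact ⟨a', a6, by omega⟩
    obtain ⟨a, ⟨_, _, _, _, _, _, _, _, a5, _⟩, a2⟩ := this (M + 1)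
    omega
  obtain ⟨n, a, ⟨Us, e, x, a', a1, a2, a3, a4, a5, a6, a7, a8⟩, b1, b2⟩ := hlast
  have hn : 7 * s + 2 * R ≤ 2 * n := by
    by_contra hc
    have c1 : s * (2 * n) ≤ s * (7 * s + 2 * R) := Nat.mul_le_mul_left _ (by omega)
    have c2 : 1 * R ≤ s * R := Nat.mul_le_mul_right _ hs
    nlinarith
  obtain ⟨y1, hy1, c1, q, hq, c2⟩ := closing h hE hdeg hH hL (room (by omega) a7) a1
  obtain ⟨b, hb, c3⟩ := (hB y0 hy0 y1 hy1).pth
  have hl : Pth G ↑Us y0 x (M - q - b) := by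
    obtain ⟨r, hr⟩ := a2
    by_cases hp : (M - q - b + a) % 2 = 0
    · have := (a8 ((M - q - b - a) / 2) (by omega)).1
      rwa [show a + 2 * ((M - q - b - a) / 2) = M - q - b by omega] at this
    · have := (a8 ((M - q - b - a') / 2) (by omega)).2
      rwa [show a' + 2 * ((M - q - b - a') / 2) = M - q - b by omega] at this
  have c4 := (c2 y0 _ hl).close c3 (fun e1 => c1 (e1 ▸ hl.left)) (by omega) (by
    rintro w hw (hw' | hw')
    · exact (hw' hw).elim
    · exact hw')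
  rw [show M - q - b + q + b = M by omega] at c4
  exact c4.univ

end Greedy

theorem greedy_cycle {ι : Type*} (G : SimpleGraph V) (C : Finset V) (E : Finset ι)
    (cell : V → Set V) (tl hd z : ι → V) (al : ι → Set V) (s : ℕ)
    (h : ArcSys G C E cell tl hd z al s) (hC : C.Nonempty) (root : V) (R M : ℕ)
    (hR : ∀ e ∈ E, ∀ w, w ∈ cell (tl e) ∨ w ∈ al e ∨ w ∈ cell (hd e) → WkLe G univ root w R)
    (hs : 1 ≤ s) (hM : 20 * s * (s + R + 1) ≤ M)
    (hD : 40 * (R + 1) * (M + 2) * (s + 1) * C.card ≤ E.card) : Cyc G univ M := by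
  classical
  obtain ⟨dep, par, own, h1, h2⟩ := bfs G univ {root}
  have h3 : ∀ w, WkLe G univ root w R → dep w ≤ R ∧
      Wk G {v | dep v < dep w ∨ v = w} root w (dep w) := by
    rintro w ⟨k, hk, hw⟩
    obtain ⟨a1, _, _, _, a2⟩ := h2 w ⟨root, rfl, hw.rch⟩
    rw [mem_singleton_iff.1 a1] at a2
    exact ⟨(h1 root rfl w k hw).trans hk, a2.mono fun v hv => hv.2.2⟩
  have h4 : ∀ e, ∃ ν, e ∈ E → (∃ y, dep y = ν ∧ (y ∈ cell (tl e) ∨ y ∈ al e ∨ y ∈ cell (hd e))) ∧
      ∀ w, w ∈ cell (tl e) ∨ w ∈ al e ∨ w ∈ cell (hd e) → ν ≤ dep w := by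
    intro e
    by_cases he : e ∈ E
    · have hex : ∃ ν, ∃ y, dep y = ν ∧ (y ∈ cell (tl e) ∨ y ∈ al e ∨ y ∈ cell (hd e)) :=
        ⟨_, z e, rfl, Or.inr (Or.inr (h.arc e he).2.2.2.1)⟩
      exact ⟨Nat.find hex, fun _ => ⟨Nat.find_spec hex, fun w hw => Nat.find_min' hex ⟨w, rfl, hw⟩⟩⟩
    · exact ⟨0, fun h' => (he h').elim⟩
  choose nu hnu using h4
  obtain ⟨ν, hν, h5⟩ := Finset.exists_le_card_fiber_of_mul_le_card_of_maps_to (s := E)
    (t := Finset.range (R + 1)) (f := nu) (n := 4 * (10 * (M + 2) * (s + 1) * C.card))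
    (fun e he => by
      obtain ⟨y, e1, hy⟩ := (hnu e he).1
      rw [← e1]
      exact Finset.mem_range.2 (Nat.lt_succ_of_le (h3 y (hR e he y hy)).1))
    ⟨0, by simp⟩ (by
      rw [Finset.card_range]
      refine le_trans (le_of_eq ?_) hD
      ring)
  set E0 := E.filter fun e => nu e = ν with hE0
  have hE0m : ∀ e ∈ E0, e ∈ E ∧ nu e = ν := fun e he => Finset.mem_filter.1 he
  obtain ⟨E', b1, b2, b3⟩ := Greedy.dense tl hd (10 * (M + 2) * (s + 1)) E0 (by
    have c1 : (E0.image tl).card ≤ C.card := Finset.card_le_card fun v hv => by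
      obtain ⟨e, he, rfl⟩ := Finset.mem_image.1 hv
      exact (h.arc e (hE0m e he).1).1
    have c2 : (E0.image hd).card ≤ C.card := Finset.card_le_card fun v hv => by
      obtain ⟨e, he, rfl⟩ := Finset.mem_image.1 hv
      exact (h.arc e (hE0m e he).1).2.1
    have c3 : 0 < 10 * (M + 2) * (s + 1) * C.card := Nat.mul_pos (by positivity) hC.card_pos
    have c4 := Nat.mul_le_mul_left (10 * (M + 2) * (s + 1)) c1
    have c5 := Nat.mul_le_mul_left (10 * (M + 2) * (s + 1)) c2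
    rw [Nat.mul_add]
    omega)
  refine Greedy.core (H := {w | ν ≤ dep w}) (Low := {y | dep y = ν ∧ WkLe G univ root y R}) h
    (fun e he => (hE0m e (b1 he)).1) b2 b3 (fun e he w hw => ?_) (fun e he => ?_)
    (fun y hy y' hy' => ?_) hs hM
  · obtain ⟨c1, c2⟩ := hE0m e (b1 he)
    exact c2 ▸ (hnu e c1).2 w hw
  · obtain ⟨c1, c2⟩ := hE0m e (b1 he)
    obtain ⟨y, c3, c4⟩ := (hnu e c1).1
    exact ⟨y, ⟨c3.trans c2, hR e c1 y c4⟩, c4⟩
  · obtain ⟨c1, c2⟩ := h3 y hy.2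
    obtain ⟨c3, c4⟩ := h3 y' hy'.2
    refine ((c2.symm.mono ?_).trans (c4.mono ?_)).le (by omega)
    · rintro v (hv | hv)
      · exact Or.inl fun hc => by
          have : ν ≤ dep v := hc
          have := hy.1
          omega
      · exact Or.inr (Or.inl hv)
    · rintro v (hv | hv)
      · exact Or.inl fun hc => by
          have : ν ≤ dep v := hc
          have := hy'.1
          omega
      · exact Or.inr (Or.inr hv)

end Pool.Agent.P.MP_0cc987_co
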