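import Pool.Agent.P.MP_0cc987_co.Num

/-! Growth of sets, connection in expanders, splitting of rooted sets, one expansion stage. -/

namespace Pool.Agent.P.MP_0cc987_co

open Set

variable {V : Type*}

namespace Grow

theorem steps [Fintype V] [DecidableEq V] (G : SimpleGraph V) (X Y : Finset V) (q i : ℕ)
    (h : Disjoint X Y) : ∃ X', X ⊆ X' ∧ Disjoint X' Y ∧ (∀ y ∈ X', ∃ x ∈ X, WkLe G ↑X' x y i) ∧
      (q * (nb G X' \ Y).card < X'.card ∨ (q + i) * X.card ≤ q * X'.card) := by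
  induction i with
  | zero => exact ⟨X, Finset.Subset.rfl, h, fun y hy => ⟨y, hy, WkLe.refl hy _⟩, Or.inr le_rfl⟩
  | succ i ih =>
    obtain ⟨X', h1, h2, h3, h4⟩ := ih
    by_cases hs : q * (nb G X' \ Y).card < X'.card
    · exact ⟨X', h1, h2, fun y hy => let ⟨x, hx, hw⟩ := h3 y hy; ⟨x, hx, hw.le (by omega)⟩, Or.inl hs⟩
    have h5 := h4.resolve_left hs
    have hsub : (↑X' : Set V) ⊆ ↑(X' ∪ (nb G X' \ Y)) := Finset.coe_subset.2 Finset.subset_union_left
    refine ⟨X' ∪ (nb G X' \ Y), h1.trans Finset.subset_union_left,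
      Finset.disjoint_union_left.2 ⟨h2, Finset.sdiff_disjoint⟩, fun y hy => ?_, Or.inr ?_⟩
    · rcases Finset.mem_union.1 hy with h6 | h6
      · obtain ⟨x, hx, hw⟩ := h3 y h6
        exact ⟨x, hx, (hw.mono hsub).le (by omega)⟩
      · obtain ⟨-, z, hz, ha⟩ := mem_nb.1 (Finset.mem_sdiff.1 h6).1
        obtain ⟨x, hx, hw⟩ := h3 z hz
        exact ⟨x, hx, (hw.mono hsub).snoc ha hy⟩
    · rw [Finset.card_union_of_disjoint (Finset.disjoint_left.2 fun z hz hz' =>
        (mem_nb.1 (Finset.mem_sdiff.1 hz').1).1 hz), Nat.mul_add]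
      have := Finset.card_le_card h1
      rw [← Nat.add_assoc, Nat.add_mul, Nat.one_mul]
      omega

theorem rounds [Fintype V] [DecidableEq V] (G : SimpleGraph V) (X Y : Finset V) (q κ : ℕ)
    (h : Disjoint X Y) (hX : X.Nonempty) : ∃ X', X ⊆ X' ∧ Disjoint X' Y ∧
      (∀ y ∈ X', ∃ x ∈ X, WkLe G ↑X' x y (q * κ)) ∧
      (q * (nb G X' \ Y).card < X'.card ∨ 2 ^ κ * X.card ≤ X'.card) := by
  rcases Nat.eq_zero_or_pos q with rfl | hq
  · exact ⟨X, Finset.Subset.rfl, h, fun y hy => ⟨y, hy, WkLe.refl hy _⟩,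
      Or.inl (by simpa using hX)⟩
  induction κ with
  | zero => exact ⟨X, Finset.Subset.rfl, h, fun y hy => ⟨y, hy, WkLe.refl hy _⟩, Or.inr (by simp)⟩
  | succ κ ih =>
    obtain ⟨X', h1, h2, h3, h4 | h4⟩ := ih
    · exact ⟨X', h1, h2, fun y hy => let ⟨x, hx, hw⟩ := h3 y hy
        ⟨x, hx, hw.le (Nat.mul_le_mul_left _ (Nat.le_succ _))⟩, Or.inl h4⟩
    obtain ⟨X'', g1, g2, g3, g4⟩ := steps G X' Y q q h2
    refine ⟨X'', h1.trans g1, g2, fun y hy => ?_, g4.imp id fun g4 => ?_⟩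
    · obtain ⟨z, hz, hw⟩ := g3 y hy
      obtain ⟨x, hx, hw'⟩ := h3 z hz
      exact ⟨x, hx, (hw'.mono (Finset.coe_subset.2 g1)).trans hw⟩
    · have : 2 * X'.card ≤ X''.card := Nat.le_of_mul_le_mul_left (c := q) (by linarith) hq
      rw [pow_succ]
      linarith

end Grow

theorem grow (V : Type*) [Fintype V] [DecidableEq V] : GrowSt V := by
  intro G X Y q κ N h hX hN
  obtain ⟨X', h1, h2, h3, h4⟩ := Grow.rounds G X Y q κ h hX
  exact ⟨X', h1, h2, h3, by omega⟩

theorem connect (V : Type*) [Fintype V] [DecidableEq V] : ConnSt V := by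
  intro G H X1 X2 Y ρ L hE hL hH s1 s2 n1 n2 d1 d2 c1 c2
  have key : ∀ X ⊆ H, X.Nonempty → Disjoint X Y → 200 * L ^ 2 * Y.card ≤ X.card →
      ∃ X' ⊆ H, (∀ y ∈ X', ∃ x ∈ X, WkLe G (univ \ ↑Y) x y (200 * L ^ 3)) ∧
        H.card / 2 + 1 ≤ X'.card := by
    intro X s n d c
    have h2L : 2 ^ 1 ≤ 2 ^ L := Nat.pow_le_pow_right (by omega) hL
    obtain ⟨X', h1, h2, h3, h4⟩ := grow V G X Y (200 * L ^ 2) L (H.card / 2 + 1) d n
      (le_trans (by omega) (Nat.le_mul_of_pos_right _ (Finset.card_pos.2 n)))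
    have hs : X' ⊆ H := fun y hy => by
      obtain ⟨x, hx, hw⟩ := h3 y hy
      exact hw.rch.closed (B := ↑H) (s hx) fun a _ b _ _ hab => hE.sup b a hab.symm
    refine ⟨X', hs, fun y hy => ?_, ?_⟩
    · obtain ⟨x, hx, hw⟩ := h3 y hy
      refine ⟨x, hx, (hw.le (le_of_eq (by ring))).mono fun z hz => ?_⟩
      exact ⟨mem_univ _, Finset.disjoint_left.1 h2 hz⟩
    · rcases h4 with h4 | ⟨h4, h5⟩
      · exact h4
      have h6 := hE.exp X' hs L hL ((Finset.card_le_card hs).trans hH) (by omega)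
      have h7 : (nb G X').card ≤ (nb G X' \ Y).card + Y.card := Finset.card_le_card_sdiff_add_card
      have h8 := Finset.card_le_card h1
      have h9 := Nat.mul_le_mul_left (100 * L ^ 2) h7
      exfalso
      linarith
  obtain ⟨A, a1, a2, a3⟩ := key X1 s1 n1 d1 c1
  obtain ⟨B, b1, b2, b3⟩ := key X2 s2 n2 d2 c2
  obtain ⟨z, za, zb⟩ : ∃ z ∈ A, z ∈ B := by
    by_contra h
    push Not at h
    have h1 := Finset.card_union_of_disjoint (Finset.disjoint_left.2 h)
    have h2 := Finset.card_le_card (Finset.union_subset a1 b1)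
    omega
  obtain ⟨a, ha, wa⟩ := a2 z za
  obtain ⟨b, hb, wb⟩ := b2 z zb
  exact ⟨a, ha, b, hb, (wa.trans wb.symm).le (by omega)⟩

theorem split_rt [DecidableEq V] (G : SimpleGraph V) (X : Finset V) (v : V) (r M : ℕ) (h : Rt G X v r)
    (hX : (r + 1) * (M + 1) ≤ X.card) :
    ∃ (P T : Finset V) (w : V) (p : ℕ) (own : V → V), P ⊆ X ∧ T ⊆ X ∧ Disjoint P T ∧ p ≤ r ∧
      P.card = p + 1 ∧ Pth G ↑P v w p ∧
      (∀ y ∈ T, G.Adj w (own y) ∧ WkLe G {z | z ∈ T ∧ own z = own y} (own y) y r) ∧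
      ∀ c, M ≤ (T.filter fun y => own y ≠ c).card := by
  induction r generalizing X v with
  | zero =>
    have h1 : X.card ≤ 1 := Finset.card_le_one.2 fun a ha b hb =>
      (h.2 a ha).eq_of_zero.symm.trans (h.2 b hb).eq_of_zero
    exact ⟨{v}, ∅, v, 0, id, by simpa using h.1, by simp, by simp, le_rfl, by simp,
      Pth.refl (by simp), by simp, fun c => by omega⟩
  | succ r ih =>
    obtain ⟨dep, par, own, b1, b2⟩ := bfs G (↑(X.erase v)) {c | G.Adj v c}
    have key : ∀ y ∈ X.erase v,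
        G.Adj v (own y) ∧ WkLe G {z | z ∈ X.erase v ∧ own z = own y} (own y) y r := by
      intro y hy
      obtain ⟨hyv, hyX⟩ := Finset.mem_erase.1 hy
      obtain ⟨k, hk, hw⟩ := h.2 y hyX
      obtain ⟨l, hl, hp⟩ := hw.pth
      obtain ⟨l, rfl⟩ : ∃ l', l = l' + 1 := ⟨l - 1, by have := hp.pos hyv.symm; omega⟩
      obtain ⟨c, hc, hp'⟩ := hp.uncons
      rw [← Finset.coe_erase] at hp'
      have h1 := b1 c hc y l hp'.wk
      obtain ⟨c1, -, -, -, c5⟩ := b2 y ⟨c, hc, hp'.rch⟩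
      refine ⟨c1, (c5.mono ?_).le (by omega)⟩
      rintro z ⟨⟨c', -, hz⟩, h2, -⟩
      exact ⟨hz.right, h2⟩
    by_cases hM : ∀ c, M ≤ ((X.erase v).filter fun y => own y ≠ c).card
    · exact ⟨{v}, X.erase v, v, 0, own, by simpa using h.1, Finset.erase_subset _ _, by simp,
        Nat.zero_le _, by simp, Pth.refl (by simp),
        fun y hy => ⟨(key y hy).1, (key y hy).2.le (by omega)⟩, hM⟩
    push Not at hM
    obtain ⟨c, hc⟩ := hM
    have h1 := Finset.card_filter_add_card_filter_not (s := X.erase v) fun y => own y = c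
    have h2 := Finset.card_erase_add_one h.1
    have h3 : (r + 1) * (M + 1) ≤ ((X.erase v).filter fun y => own y = c).card := by
      rw [Nat.add_mul (r + 1), Nat.one_mul] at hX
      simp only [ne_eq] at hc
      omega
    have h4 : ∀ y ∈ (X.erase v).filter fun y => own y = c,
        G.Adj v c ∧ WkLe G ↑((X.erase v).filter fun y => own y = c) c y r := fun y hy => by
      obtain ⟨h5, h6⟩ := Finset.mem_filter.1 hy
      have := key y h5
      rw [h6] at this
      exact ⟨this.1, this.2.mono fun z hz => Finset.mem_filter.2 hz⟩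
    obtain ⟨y0, hy0⟩ : ((X.erase v).filter fun y => own y = c).Nonempty :=
      Finset.card_pos.1 (lt_of_lt_of_le (by positivity) h3)
    obtain ⟨P, T, w, p, own', g1, g2, g3, g4, g5, g6, g7, g8⟩ :=
      ih _ c ⟨(h4 y0 hy0).2.left, fun y hy => (h4 y hy).2⟩ h3
    have hv : v ∉ (X.erase v).filter fun y => own y = c := by simp
    have hs : ((X.erase v).filter fun y => own y = c) ⊆ X :=
      (Finset.filter_subset _ _).trans (Finset.erase_subset _ _)
    refine ⟨insert v P, T, w, p + 1, own', Finset.insert_subset h.1 (g1.trans hs), g2.trans hs,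
      Finset.disjoint_insert_left.2 ⟨fun h' => hv (g2 h'), g3⟩, by omega,
      by rw [Finset.card_insert_of_notMem fun h' => hv (g1 h'), g5], ?_,
      fun y hy => ⟨(g7 y hy).1, (g7 y hy).2.le (by omega)⟩, g8⟩
    rw [Finset.coe_insert]
    exact g6.cons (h4 y0 hy0).1 fun h' => hv (g1 h')

namespace Grow

theorem grow_rt [Fintype V] [DecidableEq V] {G : SimpleGraph V} {F Y W : Finset V} {v v' : V}
    {ρ q κ x N N' : ℕ} (hF : Rt G F v ρ) (hY : Disjoint F Y) (hW : Disjoint F W) (hv : v' ∈ W)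
    (hs : NoStall G Y v v' (ρ + q * κ) q x N) (hx : x ≤ F.card) (hq : q * W.card ≤ F.card)
    (h1 : N' ≤ N) (h2 : N ≤ 2 ^ κ) :
    ∃ X, Rt G X v (ρ + q * κ) ∧ Disjoint X Y ∧ Disjoint X W ∧ N' ≤ X.card := by
  have hne : F.Nonempty := ⟨v, hF.1⟩
  obtain ⟨X, g1, g2, g3, g4⟩ := grow V G F (Y ∪ W) q κ N' (Finset.disjoint_union_right.2 ⟨hY, hW⟩)
    hne ((h1.trans h2).trans (Nat.le_mul_of_pos_right _ (Finset.card_pos.2 hne)))
  obtain ⟨g5, g6⟩ := Finset.disjoint_union_right.1 g2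
  have hR : Rt G X v (ρ + q * κ) := ⟨g1 hF.1, fun y hy => by
    obtain ⟨z, hz, hw⟩ := g3 y hy
    exact ((hF.2 z hz).mono (Finset.coe_subset.2 g1)).trans hw⟩
  refine ⟨X, hR, g5, g6, ?_⟩
  rcases g4 with g4 | ⟨g4, g7⟩
  · exact g4
  have g8 := Finset.card_le_card g1
  have g9 := hs X hR g5 (fun h => Finset.disjoint_left.1 g6 h hv) (hx.trans g8) (by omega)
  have g10 : (nb G X \ Y).card ≤ (nb G X \ (Y ∪ W)).card + W.card := by
    rw [show nb G X \ (Y ∪ W) = (nb G X \ Y) \ W from sdiff_sdiff_left.symm]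
    exact Finset.card_le_card_sdiff_add_card
  have g11 := Nat.mul_le_mul_left q g10
  exfalso
  linarith

theorem second [DecidableEq V] {G : SimpleGraph V} {Z T : Finset V} {v : V} {r D : ℕ} {own : V → V}
    (hZ : Rt G Z v r) (hD : Z.card = D)
    (hT : ∀ y ∈ T, WkLe G {z | z ∈ T ∧ own z = own y} (own y) y r) :
    ∃ (Q F : Finset V) (c : V), Q ⊆ Z ∧ Rt G F v (3 * r + 1) ∧ D ≤ F.card ∧
      (∀ y ∈ F, y ∈ Q ∨ (y ∈ T ∧ own y = c)) ∧
      ∀ y ∈ Q, y ∈ T → own y ≠ c → (T.filter fun z => own z = own y).card ≤ D := by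
  classical
  by_cases h : ∃ y ∈ Z, y ∈ T ∧ D ≤ (T.filter fun z => own z = own y).card
  · obtain ⟨y, hy, hy'⟩ := h
    obtain ⟨w, ⟨hw1, hw2⟩, w1, w2⟩ := (hZ.2 y hy).first_hit
      (B := {y | y ∈ T ∧ D ≤ (T.filter fun z => own z = own y).card}) hy'
    set S := ((↑Z : Set V) \ {y | y ∈ T ∧ D ≤ (T.filter fun z => own z = own y).card}) ∪ {w}
      with hS
    have hSZ : S ⊆ ↑Z := union_subset sdiff_subset (singleton_subset_iff.2 w2.left)
    have hQ : ∀ z, WkLe G S v z r → WkLe G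
        ↑(Z.filter (fun z => WkLe G S v z r) ∪ T.filter fun z => own z = own w) v z r :=
      fun z hz => hz.self_ball.mono fun a ha =>
        Finset.mem_union_left _ (Finset.mem_filter.2 ⟨hSZ (WkLe.right ha), ha⟩)
    have hC : ∀ z ∈ T, own z = own w → WkLe G
        ↑(Z.filter (fun z => WkLe G S v z r) ∪ T.filter fun z => own z = own w) (own w) z r :=
      fun z hz e => by
        have := hT z hz
        rw [e] at this
        exact this.mono fun a ha => Finset.mem_union_right _ (Finset.mem_filter.2 ha)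
    refine ⟨Z.filter fun z => WkLe G S v z r,
      Z.filter (fun z => WkLe G S v z r) ∪ T.filter fun z => own z = own w, own w,
      Finset.filter_subset _ _, ⟨(hQ w w1).left, fun z hz => ?_⟩,
      hw2.trans (Finset.card_le_card Finset.subset_union_right),
      fun z hz => (Finset.mem_union.1 hz).imp id Finset.mem_filter.1, fun z hz hzT hc => ?_⟩
    · rcases Finset.mem_union.1 hz with hz | hz
      · exact (hQ z (Finset.mem_filter.1 hz).2).le (by omega)
      · obtain ⟨z1, z2⟩ := Finset.mem_filter.1 hz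
        exact (((hQ w w1).trans (hC w hw1 rfl).symm).trans (hC z z1 z2)).le (by omega)
    · rcases (Finset.mem_filter.1 hz).2.right with h1 | h1
      · by_contra h2
        exact h1.2 ⟨hzT, by omega⟩
      · exact absurd (congrArg own h1) hc
  · push Not at h
    exact ⟨Z, Z, v, Finset.Subset.rfl, hZ.le (by omega), hD.ge, fun y hy => Or.inl hy,
      fun y hy hyT _ => (h y hy hyT).le⟩

end Grow

theorem stage (V : Type*) [Fintype V] [DecidableEq V] : StageSt V := by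
  classical
  intro G Y v1 v2 ρ q κ x x' D N ⟨F1, F2, r1, r2, d12, d1, d2, c1, c2⟩ hq hD hx hr hN hκ s1 s2
  have hx1 : 1 ≤ x := le_trans (Nat.mul_pos hq (Nat.succ_pos _)) hr
  have hx2 : x ≤ x' := le_trans (Nat.le_mul_of_pos_left _ hq) hx
  obtain ⟨X2, a1, a2, a3⟩ := r2.trim hx1 (hx2.trans c2)
  obtain ⟨X1, b1, b2, b3, b4⟩ := Grow.grow_rt r1 d1 (d12.mono_right a1) a2.1 s1 (hx2.trans c1)
    (by rw [a3]; exact hx.trans c1) le_rfl hκ
  obtain ⟨P, T, w, p, own, g1, g2, g3, g4, g5, g6, g7, g8⟩ :=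
    split_rt G X1 v1 _ (D ^ 2 + D) b1 (hN.trans b4)
  have hDN : D ≤ N := le_trans (le_trans (by omega) (Nat.le_mul_of_pos_left _ (Nat.succ_pos _))) hN
  obtain ⟨Z0, z1, z2, z3, z4⟩ := Grow.grow_rt a2 (d2.mono_left a1) (b3.mono_left g1).symm g6.left s2
    a3.ge (by rw [a3]; exact le_trans (Nat.mul_le_mul_left _ (by omega)) hr) hDN hκ
  obtain ⟨Z, y1, y2, y3⟩ := z1.trim hD z4
  obtain ⟨Q, F, c, f1, f2, f3, f4, f5⟩ := Grow.second y2 y3 fun y hy => (g7 y hy).2
  set R := T.filter fun y => own y ≠ c ∧ ∀ z ∈ Q, z ∈ T → own z ≠ own y with hR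
  have hRT : R ⊆ T := Finset.filter_subset _ _
  have hP : (↑P : Set V) ⊆ ↑(P ∪ R) := Finset.coe_subset.2 Finset.subset_union_left
  refine ⟨P ∪ R, F, ⟨hP g6.left, fun y hy => ?_⟩, f2, Finset.disjoint_left.2 fun y hy hy' => ?_,
    b2.mono_left (Finset.union_subset g1 (hRT.trans g2)), Finset.disjoint_left.2 fun y hy => ?_,
    le_trans ?_ (Finset.card_le_card Finset.subset_union_right), f3⟩
  · rcases Finset.mem_union.1 hy with hy | hy
    · obtain ⟨k, l, S1, S2, e, p1, -, p2, -⟩ := g6.split_at g5.le hy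
      exact (p2.mono (p1.trans hP)).wkLe (by omega)
    · obtain ⟨t1, t2⟩ := Finset.mem_filter.1 hy
      have h1 : WkLe G ↑(P ∪ R) (own y) y (ρ + q * κ) := (g7 y t1).2.mono fun z hz =>
        Finset.mem_union_right _ (Finset.mem_filter.2 ⟨hz.1, hz.2 ▸ t2⟩)
      exact ((((g6.mono hP).wkLe g4).snoc (g7 y t1).1 h1.left).trans h1).le (by omega)
  · rcases Finset.mem_union.1 hy with hy | hy <;> rcases f4 y hy' with h | h
    · exact Finset.disjoint_left.1 z3 (y1 (f1 h)) hy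
    · exact Finset.disjoint_left.1 g3 hy h.1
    · exact (Finset.mem_filter.1 hy).2.2 y h (hRT hy) rfl
    · exact (Finset.mem_filter.1 hy).2.1 h.2
  · rcases f4 y hy with h | h
    · exact Finset.disjoint_left.1 z2 (y1 (f1 h))
    · exact Finset.disjoint_left.1 b2 (g2 h.1)
  · have h1 : (T.filter fun y => own y ≠ c) ⊆ R ∪ (Q.filter fun z => z ∈ T ∧ own z ≠ c).biUnion
        fun z => T.filter fun y => own y = own z := fun y hy => by
      obtain ⟨t1, t2⟩ := Finset.mem_filter.1 hy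
      by_cases h : ∀ z ∈ Q, z ∈ T → own z ≠ own y
      · exact Finset.mem_union_left _ (Finset.mem_filter.2 ⟨t1, t2, h⟩)
      · push Not at h
        obtain ⟨z, t3, t4, t5⟩ := h
        exact Finset.mem_union_right _ (Finset.mem_biUnion.2 ⟨z, Finset.mem_filter.2
          ⟨t3, t4, t5 ▸ t2⟩, Finset.mem_filter.2 ⟨t1, t5.symm⟩⟩)
    have h2 := Finset.card_biUnion_le_card_mul (Q.filter fun z => z ∈ T ∧ own z ≠ c)
      (fun z => T.filter fun y => own y = own z) D fun z hz =>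
        let ⟨t1, t2, t3⟩ := Finset.mem_filter.1 hz; f5 z t1 t2 t3
    have h3 : (Q.filter fun z => z ∈ T ∧ own z ≠ c).card ≤ D :=
      y3 ▸ Finset.card_le_card ((Finset.filter_subset _ _).trans f1)
    have h4 := (g8 c).trans ((Finset.card_le_card h1).trans (Finset.card_union_le _ _))
    have h5 := Nat.mul_le_mul_right D h3
    rw [sq] at h4
    omega

end Pool.Agent.P.MP_0cc987_co
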