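import Pool.Agent.P.MP_0cc987_co.Num

/-! A longest anchored cycle meets all long cycles, and the Moore bound. -/

namespace Pool.Agent.P.MP_0cc987_co

open Set

variable {V : Type*}

namespace Hub

/-- Rerouting a cycle through a long arc of a disjoint cycle. -/
theorem reroute [DecidableEq V] {G : SimpleGraph V} {C C' : Finset V} {SA P Q : Set V}
    {a a' b b' : V} {m n n' : ℕ} (hC' : TCyc G C') (hdis : ∀ x ∈ C, x ∉ C')
    (hSA : SA ⊆ ↑C) (hA : Pth G SA a a' m) (hb : b ∈ C') (hb' : b' ∈ C')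
    (hP : Pth G P a b n) (hQ : Pth G Q a' b' n') (hPQ : ∀ x ∈ P, x ∉ Q)
    (hPa : ∀ x ∈ P, x ∈ C → x = a) (hPb : ∀ x ∈ P, x ∈ C' → x = b)
    (hQa : ∀ x ∈ Q, x ∈ C → x = a') (hQb : ∀ x ∈ Q, x ∈ C' → x = b') :
    ∃ (D : Finset V) (d : ℕ), TCyc G D ∧ C'.card ≤ 2 * d ∧ m + d + 2 ≤ D.card ∧
      d ≤ (D.filter (· ∈ C')).card + 3 := by
  have hbb : b ≠ b' := fun e => hPQ b hP.right (e ▸ hQ.right)
  have haa : a ≠ a' := fun e => hPQ a hP.left (e ▸ hQ.left)
  have haC : a ∈ C := hSA hA.left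
  have haC' : a' ∈ C := hSA hA.right
  have hn : 1 ≤ n := hP.pos fun e => hdis a haC (e ▸ hb)
  have hn' : 1 ≤ n' := hQ.pos fun e => hdis a' haC' (e ▸ hb')
  have hm : 1 ≤ m := hA.pos haa
  obtain ⟨SB, d, hSB, hd, hB⟩ : ∃ (SB : Set V) (d : ℕ), SB ⊆ ↑C' ∧ C'.card ≤ 2 * d ∧
      Pth G SB b b' d := by
    obtain ⟨S1, S2, d, e, h1, h2, h3, _, _, h4, h5, _⟩ := hC'.arcs hb hb' hbb
    by_cases h : e ≤ d
    · exact ⟨S1, d, h1, by omega, h4⟩
    · exact ⟨S2, e, h2, by omega, h5⟩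
  obtain ⟨TA, hTA, cA, pA⟩ := hA.tight
  obtain ⟨TP, hTP, cP, pP⟩ := hP.tight
  obtain ⟨TQ, hTQ, cQ, pQ⟩ := hQ.tight
  have p1 := pP.trans hB (fun x hx hx' => hPb x (hTP hx) (hSB hx'))
  have p2 := p1.trans pQ.symm (by
    rintro x (hx | hx) hx'
    · exact (hPQ x (hTP hx) (hTQ hx')).elim
    · exact hQb x (hTQ hx') (hSB hx))
  have cyc := pA.close p2 haa (by omega) (by
    rintro x hx ((hx' | hx') | hx')
    · exact Or.inl (hPa x (hTP hx') (hSA (hTA hx)))
    · exact (hdis x (hSA (hTA hx)) (hSB hx')).elim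
    · exact Or.inr (hQa x (hTQ hx') (hSA (hTA hx))))
  obtain ⟨D, hD, cD, tD⟩ := cyc.tight
  refine ⟨D, d, tD, hd, by omega, ?_⟩
  have hsub : D ⊆ D.filter (· ∈ C') ∪ (TA ∪ (TP ∪ TQ)) := by
    intro x hx
    simp only [Finset.mem_union, Finset.mem_filter]
    rcases hD hx with h | (h | h) | h
    · exact Or.inr (Or.inl h)
    · exact Or.inr (Or.inr (Or.inl h))
    · exact Or.inl ⟨hx, hSB h⟩
    · exact Or.inr (Or.inr (Or.inr h))
  have h1 := Finset.card_le_card hsub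
  have h2 := Finset.card_union_le (D.filter (· ∈ C')) (TA ∪ (TP ∪ TQ))
  have h3 := Finset.card_union_le TA (TP ∪ TQ)
  have h4 := Finset.card_union_le TP TQ
  omega

end Hub

theorem hub [Fintype V] [DecidableEq V] (hM : MengerSt V) (G : SimpleGraph V) (θ r : ℕ) (R : Set V)
    (hθ : 1 ≤ θ) (hr : 4 * θ + 10 ≤ r) (hL : Linked G (2 * θ) R)
    (hc : ∀ n, θ * r ≤ n → ¬ Cyc G univ n) :
    ∃ Z : Finset V, Z.card < θ * r ∧ ∀ n, r ≤ n → ¬ Cyc G (R \ ↑Z) n := by
  classical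
  by_cases hex : ∃ C : Finset V, TCyc G C ∧ 2 * θ < (C.filter (· ∈ R)).card
  swap
  · refine ⟨∅, by simpa using ⟨by omega, by omega⟩, fun n hn h => hex ?_⟩
    obtain ⟨C, h1, h2, h3⟩ := h.tight
    refine ⟨C, h3, ?_⟩
    rw [Finset.filter_true_of_mem fun x hx => (h1 hx).1]
    omega
  obtain ⟨C, hC, hmax⟩ := Finset.exists_max_image
    (Finset.univ.filter fun C : Finset V => TCyc G C ∧ 2 * θ < (C.filter (· ∈ R)).card)
    Finset.card (by
      obtain ⟨C, hC⟩ := hex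
      exact ⟨C, Finset.mem_filter.2 ⟨Finset.mem_univ _, hC⟩⟩)
  obtain ⟨_, hC, hCR⟩ := Finset.mem_filter.1 hC
  have hN : C.card < θ * r := by
    by_contra h
    exact hc _ (not_lt.1 h) (Cyc.univ hC)
  refine ⟨C, hN, fun n hn h => ?_⟩
  obtain ⟨C', h1, h2, hC'⟩ := h.tight
  have hdis : ∀ x ∈ C, x ∉ C' := fun x hx hx' => (h1 hx').2 hx
  obtain ⟨P, a, b, l, hP, hPP⟩ := hM G univ ↑C ↑C' (2 * θ + 1) (by
    intro X hX
    obtain ⟨a, ha, b, hb, hab⟩ := hL (C.filter (· ∈ R)) C' X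
      (fun x hx => (Finset.mem_filter.1 hx).2) (fun x hx => (h1 hx).1) hCR (by omega) (by omega)
    exact ⟨a, (Finset.mem_filter.1 ha).1, b, hb, hab⟩)
  obtain ⟨c, hcyc, hmem⟩ := hC.exists_fun
  have hidx : ∀ i, ∃ k < C.card, c k = a i := fun i => (hmem _).1 (hP i).2.1
  choose idx hidx1 hidx2 using hidx
  have key : ∀ i j, idx i < idx j → 2 * (idx j - idx i) ≤ r → False := by
    intro i j hij hd
    have hne : i ≠ j := fun e => by rw [e] at hij; omega
    have hA := hcyc.arc' hij (hidx1 j)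
    rw [hidx2, hidx2] at hA
    have h3 := hC.three
    have hj := hidx1 j
    obtain ⟨D, d, hD, e1, e2, e3⟩ := Hub.reroute (C := C) hC' hdis (by
        rintro _ (⟨k, _, h, rfl⟩ | ⟨k, _, h, rfl⟩) <;> exact (hmem _).2 ⟨k, by omega, rfl⟩)
      hA (hP i).2.2.1 (hP j).2.2.1 (hP i).2.2.2.1 (hP j).2.2.2.1
      (fun x hx hx' => hne (hPP i j x hx hx')) (hP i).2.2.2.2.1 (hP i).2.2.2.2.2
      (hP j).2.2.2.2.1 (hP j).2.2.2.2.2
    have e4 : (D.filter (· ∈ C')).card ≤ (D.filter (· ∈ R)).card :=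
      Finset.card_le_card fun x hx =>
        Finset.mem_filter.2 ⟨(Finset.mem_filter.1 hx).1, (h1 (Finset.mem_filter.1 hx).2).1⟩
    have := hmax D (Finset.mem_filter.2 ⟨Finset.mem_univ _, hD, by omega⟩)
    omega
  have hw : 0 < r / 2 + 1 := by omega
  obtain ⟨i, _, j, _, hij, e⟩ := Finset.exists_ne_map_eq_of_card_lt_of_maps_to
    (s := (Finset.univ : Finset (Fin (2 * θ + 1)))) (t := Finset.range (2 * θ))
    (f := fun i => idx i / (r / 2 + 1)) (by simp) (by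
      intro i _
      simp only [Finset.coe_range, mem_Iio]
      rw [Nat.div_lt_iff_lt_mul hw]
      have h3 := hidx1 i
      have h4 : θ * r ≤ θ * (2 * (r / 2 + 1)) := Nat.mul_le_mul_left _ (by omega)
      have h5 : θ * (2 * (r / 2 + 1)) = 2 * θ * (r / 2 + 1) := by ring
      omega)
  have hne : idx i ≠ idx j := by
    intro h
    have : a i = a j := by rw [← hidx2 i, ← hidx2 j, h]
    exact hij (hPP i j (a i) (hP i).2.2.2.1.left (this ▸ (hP j).2.2.2.1.left))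
  have e1 := Nat.div_add_mod (idx i) (r / 2 + 1)
  have e2 := Nat.div_add_mod (idx j) (r / 2 + 1)
  have e3 := Nat.mod_lt (idx i) hw
  have e4 := Nat.mod_lt (idx j) hw
  rw [e] at e1
  rcases lt_or_gt_of_ne hne with h | h
  · exact key i j h (by omega)
  · exact key j i h (by omega)

theorem short_cycle [DecidableEq V] (G : SimpleGraph V) (B : Finset V) (L : ℕ) (hB : B.Nonempty)
    (hd : ∀ v ∈ B, 3 ≤ dg G B v) (hL : B.card ≤ 2 ^ L) : ∃ n ≤ 2 * L + 4, Cyc G ↑B n := by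
  classical
  by_contra hno
  push Not at hno
  obtain ⟨v, hv⟩ := hB
  obtain ⟨dep, par, own, hle, hr⟩ := bfs G ↑B {v}
  have hle' : ∀ y n, Wk G ↑B v y n → dep y ≤ n := hle v rfl
  have hown : ∀ y, Rch G ↑B v y → own y = v := fun y hy => (hr y ⟨v, rfl, hy⟩).1
  have hwk : ∀ y, Rch G ↑B v y → Wk G ↑B v y (dep y) := fun y hy => by
    have := (hr y ⟨v, rfl, hy⟩).2.1
    rwa [hown y hy] at this
  have havoid : ∀ z x, Rch G ↑B v x → z ≠ x → dep x ≤ dep z → Wk G (↑B \ {z}) v x (dep x) := by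
    intro z x hx hzx hdep
    have := (hr x ⟨v, rfl, hx⟩).2.2.2.2
    rw [hown x hx] at this
    refine this.mono ?_
    rintro w ⟨⟨c, _, hw⟩, _, h⟩
    refine ⟨hw.right, fun e => ?_⟩
    rw [mem_singleton_iff] at e
    subst e
    rcases h with h | h
    · omega
    · exact hzx h
  have hone : ∀ z, Rch G ↑B v z → dep z ≤ L + 1 → ∀ x ∈ B, ∀ y ∈ B, G.Adj z x → G.Adj z y →
      dep x ≤ dep z → dep y ≤ dep z → x = y := by
    intro z hz hzL x hx y hy hzx hzy h1 h2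
    by_contra hxy
    have w1 := havoid z x (hz.snoc hzx hx) hzx.ne h1
    have w2 := havoid z y (hz.snoc hzy hy) hzy.ne h2
    obtain ⟨k, hk, hp⟩ := (w1.symm.trans w2).pth
    have hk1 := hp.pos hxy
    have h3 := (hp.cons hzx (fun h => h.2 rfl)).close_edge (by omega) hzy.symm
    exact hno _ (by omega) (h3.mono (insert_subset hz.right sdiff_subset))
  let lay : ℕ → Finset V := fun j => B.filter fun y => Rch G ↑B v y ∧ dep y = j
  have hlay : ∀ j y, y ∈ lay j ↔ y ∈ B ∧ Rch G ↑B v y ∧ dep y = j := fun j y => Finset.mem_filter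
  have hup : ∀ j ≤ L, ∀ z ∈ lay j, 2 ≤ dg G (lay (j + 1)) z := by
    intro j hj z hz
    obtain ⟨hzB, hzr, hzd⟩ := (hlay j z).1 hz
    have h1 := hd z hzB
    rw [← card_nbr] at h1 ⊢
    have h2 : ((nbr G B z).filter fun x => dep x ≤ dep z).card ≤ 1 := by
      rw [Finset.card_le_one]
      intro x hx y hy
      obtain ⟨hx1, hx2⟩ := Finset.mem_filter.1 hx
      obtain ⟨hy1, hy2⟩ := Finset.mem_filter.1 hy
      exact hone z hzr (by omega) x (mem_nbr.1 hx1).1 y (mem_nbr.1 hy1).1 (mem_nbr.1 hx1).2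
        (mem_nbr.1 hy1).2 hx2 hy2
    have h3 : nbr G B z ⊆ nbr G (lay (j + 1)) z ∪ (nbr G B z).filter fun x => dep x ≤ dep z := by
      intro x hx
      obtain ⟨hx1, hx2⟩ := mem_nbr.1 hx
      rw [Finset.mem_union, Finset.mem_filter, mem_nbr, hlay]
      by_cases h : dep x ≤ dep z
      · exact Or.inr ⟨hx, h⟩
      · have := hle' x _ ((hwk z hzr).snoc hx2 hx1)
        exact Or.inl ⟨⟨hx1, hzr.snoc hx2 hx1, by omega⟩, hx2⟩
    have h4 := (Finset.card_le_card h3).trans (Finset.card_union_le _ _)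
    omega
  have hdown : ∀ j ≤ L, ∀ z ∈ lay (j + 1), dg G (lay j) z ≤ 1 := by
    intro j hj z hz
    obtain ⟨_, hzr, hzd⟩ := (hlay _ z).1 hz
    rw [← card_nbr, Finset.card_le_one]
    intro x hx y hy
    obtain ⟨hx1, hx2⟩ := mem_nbr.1 hx
    obtain ⟨hy1, hy2⟩ := mem_nbr.1 hy
    obtain ⟨hx3, _, hx4⟩ := (hlay _ x).1 hx1
    obtain ⟨hy3, _, hy4⟩ := (hlay _ y).1 hy1
    exact hone z hzr (by omega) x hx3 y hy3 hx2 hy2 (by omega) (by omega)
  have hdouble : ∀ j ≤ L, 2 * (lay j).card ≤ (lay (j + 1)).card := by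
    intro j hj
    have h1 := Finset.card_nsmul_le_sum (lay j) (fun z => dg G (lay (j + 1)) z) 2 (hup j hj)
    have h2 := Finset.sum_le_card_nsmul (lay (j + 1)) (fun z => dg G (lay j) z) 1 (hdown j hj)
    have h3 := sum_dg_comm G (lay j) (lay (j + 1))
    simp only [smul_eq_mul] at h1 h2
    omega
  have hpow : ∀ j ≤ L + 1, 2 ^ j ≤ (lay j).card := by
    intro j
    induction j with
    | zero =>
      intro _
      have := hle' v 0 (Wk.nil hv)
      exact Finset.card_pos.2 ⟨v, (hlay 0 v).2 ⟨hv, Rch.refl hv, by omega⟩⟩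
    | succ j ih =>
      intro hj
      have h1 := ih (by omega)
      have h2 := hdouble j (by omega)
      rw [pow_succ]
      omega
  have h1 := hpow (L + 1) le_rfl
  have h2 : (lay (L + 1)).card ≤ B.card := Finset.card_filter_le _ _
  have h3 : 0 < 2 ^ L := by positivity
  rw [pow_succ] at h1
  omega

end Pool.Agent.P.MP_0cc987_co
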