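import Pool.Agent.P.MP_0cc987_co.Num

/-! Bipartite sublinear expanders in graphs of large minimum degree, and complete bipartite pieces. -/

namespace Pool.Agent.P.MP_0cc987_co

open Set

variable {V : Type*}

namespace KS

theorem dg_congr {G G' : SimpleGraph V} {A : Finset V} {v : V}
    (h : ∀ b ∈ A, G.Adj v b ↔ G'.Adj v b) : dg G A v = dg G' A v := by
  rw [← card_nbr, ← card_nbr]
  congr 1
  ext b
  simp only [mem_nbr]
  exact and_congr_right (h b)

theorem ed_congr {G G' : SimpleGraph V} {A : Finset V}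
    (h : ∀ a ∈ A, ∀ b ∈ A, G.Adj a b ↔ G'.Adj a b) : ed G A = ed G' A :=
  Finset.sum_congr rfl fun a ha => dg_congr (h a ha)

theorem max_cut [DecidableEq V] (G : SimpleGraph V) (B : Finset V) :
    ∃ σ : V → Bool, ed G B ≤ 2 * ed (bic G σ) B := by
  induction B using Finset.induction_on with
  | empty => exact ⟨fun _ => true, by simp [ed]⟩
  | insert v B hv ih =>
    obtain ⟨σ, hσ⟩ := ih
    have h1 : ∀ G' : SimpleGraph V, ed G' (insert v B) = ed G' B + 2 * dg G' (insert v B) v :=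
      fun G' => by rw [ed_erase (Finset.mem_insert_self v B), Finset.erase_insert hv]
    have h2 : ∀ b, ed (bic G (Function.update σ v b)) B = ed (bic G σ) B := fun b =>
      ed_congr fun x hx y hy => by
        rw [bic_adj, bic_adj, Function.update_of_ne (ne_of_mem_of_not_mem hx hv),
          Function.update_of_ne (ne_of_mem_of_not_mem hy hv)]
    have h3 : dg G (insert v B) v ≤ dg (bic G (Function.update σ v true)) (insert v B) v +
        dg (bic G (Function.update σ v false)) (insert v B) v := by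
      rw [← card_nbr, ← card_nbr, ← card_nbr]
      refine le_trans (Finset.card_le_card fun x hx => ?_) (Finset.card_union_le _ _)
      rw [mem_nbr] at hx
      simp only [Finset.mem_union, mem_nbr, bic_adj, Function.update_self,
        Function.update_of_ne hx.2.ne.symm, hx.1, hx.2, true_and]
      cases σ x <;> simp
    rcases le_total (dg (bic G (Function.update σ v true)) (insert v B) v)
      (dg (bic G (Function.update σ v false)) (insert v B) v) with h | h
    · exact ⟨Function.update σ v false, by rw [h1, h1, h2]; omega⟩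
    · exact ⟨Function.update σ v true, by rw [h1, h1, h2]; omega⟩

/-- The weight function. -/
noncomputable def wt (n : ℕ) : ℝ := 1 + 1 / (1 + Real.log n)

theorem log_pos' (n : ℕ) : 1 ≤ 1 + Real.log n := by
  have := Real.log_natCast_nonneg n
  linarith

theorem one_le_wt (n : ℕ) : 1 ≤ wt n := by
  have := log_pos' n
  have : 0 ≤ 1 / (1 + Real.log n) := by positivity
  unfold wt
  linarith

theorem wt_le_two (n : ℕ) : wt n ≤ 2 := by
  have := log_pos' n
  have : 1 / (1 + Real.log n) ≤ 1 := by rw [div_le_one (by linarith)]; exact this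
  unfold wt
  linarith

theorem wt_anti {m n : ℕ} (h0 : 0 < m) (h : m ≤ n) : wt n ≤ wt m := by
  have h1 : Real.log m ≤ Real.log n :=
    Real.log_le_log (by exact_mod_cast h0) (by exact_mod_cast h)
  have := one_div_le_one_div_of_le (by linarith [log_pos' m] : 0 < 1 + Real.log m)
    (by linarith : 1 + Real.log m ≤ 1 + Real.log n)
  unfold wt
  linarith

theorem wt_gap {y n k : ℕ} (h0 : 0 < y) (h1 : 4 * y ≤ 3 * n) (hk : 1 ≤ k) (h2 : y ≤ 2 ^ (k + 1)) :
    1 / (48 * (k : ℝ) ^ 2) ≤ wt y - wt n := by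
  have hy : (0 : ℝ) < y := by exact_mod_cast h0
  have hn : (0 : ℝ) < n := by exact_mod_cast (by omega : 0 < n)
  have hk' : (1 : ℝ) ≤ k := by exact_mod_cast hk
  have h3 : 1 / 4 ≤ Real.log n - Real.log y := by
    rw [← Real.log_div hn.ne' hy.ne']
    refine le_trans ?_ (Real.one_sub_inv_le_log_of_pos (by positivity))
    have : (4 : ℝ) * y ≤ 3 * n := by exact_mod_cast h1
    have : (y : ℝ) / n ≤ 3 / 4 := by rw [div_le_iff₀ hn]; linarith
    rw [inv_div]
    linarith
  have h4 : 1 + Real.log y ≤ 3 * k := by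
    have a1 : Real.log y ≤ Real.log (2 ^ (k + 1)) := Real.log_le_log hy (by exact_mod_cast h2)
    have a2 : Real.log 2 ≤ 1 := by linarith [Real.log_le_sub_one_of_pos two_pos]
    rw [Real.log_pow] at a1
    push_cast at a1
    nlinarith
  have h5 := log_pos' y
  set a := 1 + Real.log y with ha
  have h6 : 1 / (1 + Real.log n) ≤ 1 / (a + 1 / 4) :=
    one_div_le_one_div_of_le (by linarith) (by linarith)
  have h7 : 1 / (48 * (k : ℝ) ^ 2) ≤ 1 / a - 1 / (a + 1 / 4) := by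
    have : 1 / a - 1 / (a + 1 / 4) = 1 / (4 * a * (a + 1 / 4)) := by field_simp; ring
    rw [this]
    refine one_div_le_one_div_of_le (by positivity) ?_
    nlinarith
  unfold wt
  linarith

theorem ed_split [Fintype V] [DecidableEq V] (G : SimpleGraph V) {H X : Finset V} :
    ed G H ≤ ed G (H \ X) + ed G (X ∪ nb (res G ↑H) X) := by
  classical
  rw [ed_eq_card, ed_eq_card, ed_eq_card]
  refine le_trans (Finset.card_le_card fun p hp => ?_) (Finset.card_union_le _ _)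
  simp only [Finset.mem_union, Finset.mem_filter, Finset.mem_product, Finset.mem_sdiff, mem_nb,
    res_adj, Finset.mem_coe] at hp ⊢
  obtain ⟨⟨h1, h2⟩, h3⟩ := hp
  by_cases a : p.1 ∈ X <;> by_cases b : p.2 ∈ X
  · exact Or.inr ⟨⟨Or.inl a, Or.inl b⟩, h3⟩
  · exact Or.inr ⟨⟨Or.inl a, Or.inr ⟨b, _, a, h3, h1, h2⟩⟩, h3⟩
  · exact Or.inr ⟨⟨Or.inr ⟨a, _, b, h3.symm, h2, h1⟩, Or.inl b⟩, h3⟩
  · exact Or.inl ⟨⟨⟨h1, a⟩, h2, b⟩, h3⟩

theorem expander [Fintype V] [DecidableEq V] (G : SimpleGraph V) (B : Finset V) (ρ : ℕ)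
    (hB : B.Nonempty) (hρ : 1 ≤ ρ) (hd : 4 * ρ * B.card ≤ ed G B) :
    ∃ H : Finset V, H.Nonempty ∧ Expd (res G ↑H) H ρ := by
  obtain ⟨H, hH, hmax⟩ := Finset.exists_max_image (Finset.univ.filter Finset.Nonempty)
    (fun H : Finset V => (ed G H : ℝ) / H.card * wt H.card) ⟨B, by simpa using hB⟩
  have hH' : H.Nonempty := (Finset.mem_filter.1 hH).2
  have hn : (0 : ℝ) < H.card := by exact_mod_cast hH'.card_pos
  set e : ℝ := (ed G H : ℝ) / H.card with he
  have he' : (ed G H : ℝ) = e * H.card := by rw [he]; field_simp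
  have h1 : ∀ Y : Finset V, (ed G Y : ℝ) * wt Y.card ≤ e * Y.card * wt H.card := by
    intro Y
    rcases Y.eq_empty_or_nonempty with rfl | hY
    · simp [ed]
    · have hy : (0 : ℝ) < Y.card := by exact_mod_cast hY.card_pos
      have := hmax Y (by simpa using hY)
      rw [div_mul_eq_mul_div, div_le_iff₀ hy] at this
      linarith
  have he0 : 0 ≤ e := div_nonneg (Nat.cast_nonneg _) hn.le
  have h2 : 2 * (ρ : ℝ) ≤ e := by
    have hb : (0 : ℝ) < B.card := by exact_mod_cast hB.card_pos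
    have a1 : (4 * ρ * B.card : ℝ) ≤ ed G B := by exact_mod_cast hd
    have a2 : (ed G B : ℝ) ≤ ed G B * wt B.card :=
      le_mul_of_one_le_right (Nat.cast_nonneg _) (one_le_wt _)
    have a3 : e * B.card * wt H.card ≤ e * B.card * 2 :=
      mul_le_mul_of_nonneg_left (wt_le_two _) (mul_nonneg he0 hb.le)
    have a4 := h1 B
    refine le_of_mul_le_mul_right ?_ hb
    linarith
  have hρ' : (1 : ℝ) ≤ ρ := by exact_mod_cast hρ
  have h3 : ∀ Y ⊆ H, (ed G Y : ℝ) ≤ e * Y.card := by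
    intro Y hY
    rcases Y.eq_empty_or_nonempty with rfl | hY'
    · simp [ed]
    · have a1 := wt_anti hY'.card_pos (Finset.card_le_card hY)
      have a2 := one_le_wt H.card
      have a3 : (ed G Y : ℝ) * wt H.card ≤ ed G Y * wt Y.card :=
        mul_le_mul_of_nonneg_left a1 (Nat.cast_nonneg _)
      exact le_of_mul_le_mul_right (a3.trans (h1 Y)) (by linarith)
  refine ⟨H, hH', fun u v h => h.2.1, fun v hv => ?_, fun X hX k hk hXk hXH => ?_⟩
  · rw [dg_congr (G := res G ↑H) (G' := G) fun b hb => ⟨fun h => h.1, fun h => ⟨h, hv, hb⟩⟩]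
    have a1 : (ed G H : ℝ) = ed G (H.erase v) + 2 * dg G H v := by exact_mod_cast ed_erase hv
    have a2 := h3 _ (Finset.erase_subset v H)
    have a3 : ((H.erase v).card : ℝ) + 1 = H.card := by exact_mod_cast Finset.card_erase_add_one hv
    have : (ρ : ℝ) ≤ dg G H v := by nlinarith
    exact_mod_cast this
  · set N := nb (res G ↑H) X with hN
    by_cases hc : X.card ≤ 2 * N.card
    · have : 1 ≤ k ^ 2 := Nat.one_le_pow _ _ hk
      nlinarith
    have hy : (X ∪ N).card = X.card + N.card :=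
      Finset.card_union_of_disjoint (Finset.disjoint_left.2 fun a ha hb => (mem_nb.1 hb).1 ha)
    have a1 : (ed G H : ℝ) ≤ ed G (H \ X) + ed G (X ∪ N) := by exact_mod_cast ed_split G
    have a2 := h3 _ (Finset.sdiff_subset (s := H) (t := X))
    have a3 : ((H \ X).card : ℝ) + X.card = H.card := by
      exact_mod_cast Finset.card_sdiff_add_card_eq_card hX
    have a4 : e * X.card ≤ ed G (X ∪ N) := by nlinarith
    have a5 := h1 (X ∪ N)
    have a6 := wt_gap (y := (X ∪ N).card) (n := H.card) (by omega) (by omega) hk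
      (by rw [pow_succ]; omega)
    have a7 : e * (X.card * wt (X ∪ N).card) ≤ e * ((X ∪ N).card * wt H.card) := by
      have := mul_le_mul_of_nonneg_right a4 (zero_le_one.trans (one_le_wt (X ∪ N).card))
      linarith
    have a8 := le_of_mul_le_mul_left a7 (by linarith)
    have a9 : ((X ∪ N).card : ℝ) = X.card + N.card := by exact_mod_cast hy
    rw [a9] at a8
    have b1 : (N.card : ℝ) * wt H.card ≤ N.card * 2 :=
      mul_le_mul_of_nonneg_left (wt_le_two _) (Nat.cast_nonneg _)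
    have b2 : (X.card : ℝ) * (1 / (48 * (k : ℝ) ^ 2)) ≤ X.card * (wt (X ∪ N).card - wt H.card) :=
      mul_le_mul_of_nonneg_left a6 (Nat.cast_nonneg _)
    have hk' : (0 : ℝ) < k := by exact_mod_cast hk
    have b3 : (X.card : ℝ) * (1 / (48 * (k : ℝ) ^ 2)) ≤ N.card * 2 := by linarith
    rw [mul_one_div, div_le_iff₀ (mul_pos (by norm_num) (pow_pos hk' 2))] at b3
    have b4 : (0 : ℝ) ≤ k ^ 2 * N.card := mul_nonneg (sq_nonneg _) (Nat.cast_nonneg _)
    have : (X.card : ℝ) ≤ 100 * k ^ 2 * N.card := by linarith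
    exact_mod_cast this

/-- Paths of all admissible lengths in a complete bipartite graph. -/
theorem kss_path [DecidableEq V] {G : SimpleGraph V} {H : Finset V} {σ : V → Bool} {m : ℕ}
    (hadj : ∀ x ∈ H, ∀ y ∈ H, σ x ≠ σ y → G.Adj x y)
    (hbig : ∀ (b : Bool) (Z : Finset V), Z.card < m → ∃ x ∈ H, x ∉ Z ∧ σ x = b) (j : ℕ) :
    ∀ (Z : Finset V) (x y : V), x ∈ H → y ∈ H → x ∉ Z → y ∉ Z → x ≠ y → Z.card + 2 * j + 4 ≤ m →
      Pth G (↑H \ ↑Z) x y ((if σ x = σ y then 2 else 1) + 2 * j) := by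
  induction j with
  | zero =>
    intro Z x y hx hy hxZ hyZ hxy hm
    split_ifs with h
    · obtain ⟨c, hc, hcZ, hσ⟩ := hbig (!σ x) Z (by omega)
      have h1 : σ x ≠ σ c := by rw [hσ]; cases σ x <;> simp
      have p1 : Pth G {c, y} c y 1 := Pth.single (by simp) (by simp) (hadj c hc y hy (h ▸ h1.symm))
      refine (p1.cons (hadj x hx c hc h1) ?_).mono ?_
      · rintro (e | e)
        · exact h1 (congrArg σ e)
        · exact hxy e
      · rintro z (rfl | rfl | rfl)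
        exacts [⟨hx, hxZ⟩, ⟨hc, hcZ⟩, ⟨hy, hyZ⟩]
    · exact Pth.single ⟨hx, hxZ⟩ ⟨hy, hyZ⟩ (hadj x hx y hy h)
  | succ j ih =>
    intro Z x y hx hy hxZ hyZ hxy hm
    have hc : (insert x (insert y Z)).card ≤ Z.card + 2 :=
      (Finset.card_insert_le _ _).trans (by have := Finset.card_insert_le y Z; omega)
    obtain ⟨x1, h1, h1Z, hσ1⟩ := hbig (!σ x) (insert x (insert y Z)) (by omega)
    obtain ⟨x2, h2, h2Z, hσ2⟩ := hbig (σ x) (insert x (insert y Z)) (by omega)
    simp only [Finset.mem_insert, not_or] at h1Z h2Z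
    have h3 : σ x ≠ σ x1 := by rw [hσ1]; cases σ x <;> simp
    have h4 : x2 ≠ x1 := fun e => h3 (by rw [← e, hσ2])
    have hc' : (insert x (insert x1 Z)).card ≤ Z.card + 2 :=
      (Finset.card_insert_le _ _).trans (by have := Finset.card_insert_le x1 Z; omega)
    have p := ih (insert x (insert x1 Z)) x2 y h2 hy (by simp [h2Z.1, h4, h2Z.2.2])
      (by simp [hxy.symm, Ne.symm h1Z.2.1, hyZ]) h2Z.2.1 (by omega)
    rw [hσ2] at p
    have q := (p.cons (hadj x1 h1 x2 h2 (hσ2 ▸ h3.symm)) (by simp)).cons (hadj x hx x1 h1 h3)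
      (by simp [Ne.symm h1Z.1])
    refine q.mono ?_
    rintro z (rfl | rfl | hz)
    · exact ⟨hx, hxZ⟩
    · exact ⟨h1, h1Z.2.2⟩
    · exact ⟨hz.1, fun h => hz.2 (by simp [Finset.mem_coe.1 h])⟩

end KS

theorem exists_expander [Fintype V] [DecidableEq V] (G : SimpleGraph V) (B : Finset V) (ρ : ℕ)
    (hB : B.Nonempty) (hρ : 1 ≤ ρ) (hd : ∀ v ∈ B, 8 * ρ ≤ dg G B v) :
    ∃ (σ : V → Bool) (H : Finset V), H.Nonempty ∧ Expd (res (bic G σ) ↑H) H ρ := by
  obtain ⟨σ, hσ⟩ := KS.max_cut G B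
  have h : B.card • (8 * ρ) ≤ ed G B := Finset.card_nsmul_le_sum B _ _ hd
  rw [smul_eq_mul] at h
  exact ⟨σ, KS.expander _ B ρ hB hρ (by nlinarith)⟩

theorem piece_of_kss [DecidableEq V] (G : SimpleGraph V) (A δ : ℕ) (hδ : 4 ≤ δ) (P Q : Finset V)
    (hP : 2 * δ ^ A + 10 ≤ P.card) (hQ : 2 * δ ^ A + 10 ≤ Q.card)
    (h : ∀ p ∈ P, ∀ q ∈ Q, G.Adj p q) : ∃ H σ, Piece G A H σ δ := by
  let σ : V → Bool := fun x => decide (x ∈ P)
  have hadj : ∀ x ∈ P ∪ Q, ∀ y ∈ P ∪ Q, σ x ≠ σ y → (bic G σ).Adj x y := by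
    intro x hx y hy hσ
    refine ⟨?_, hσ⟩
    rw [Finset.mem_union] at hx hy
    by_cases a : x ∈ P <;> by_cases b : y ∈ P
    · exact absurd (by simp [σ, a, b]) hσ
    · exact h x a y (hy.resolve_left b)
    · exact (h y b x (hx.resolve_left a)).symm
    · exact absurd (by simp [σ, a, b]) hσ
  have hbig : ∀ (b : Bool) (Z : Finset V), Z.card < 2 * δ ^ A + 10 →
      ∃ x ∈ P ∪ Q, x ∉ Z ∧ σ x = b := by
    intro b Z hZ
    cases b
    · obtain ⟨x, hx, hx'⟩ := Finset.exists_mem_notMem_of_card_lt_card (hZ.trans_le hQ)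
      exact ⟨x, Finset.mem_union_right _ hx, hx', decide_eq_false fun hp => (h x hp x hx).ne rfl⟩
    · obtain ⟨x, hx, hx'⟩ := Finset.exists_mem_notMem_of_card_lt_card (hZ.trans_le hP)
      exact ⟨x, Finset.mem_union_left _ hx, hx', decide_eq_true hx⟩
  have key : ∀ u ∈ P ∪ Q, ∀ u' ∈ P ∪ Q, ∀ v ∈ P ∪ Q, ∀ v' ∈ P ∪ Q, u ≠ u' → v ≠ v' → u ≠ v →
      u ≠ v' → u' ≠ v →
      ∃ b ≤ δ, ∀ j ≤ δ ^ A, TwoP (bic G σ) ↑(P ∪ Q) u u' v v' (b + 2 * j) := by
    intro u hu u' hu' v hv v' hv' h1 h2 h3 h4 h5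
    have a1 : u' ∉ ({u, v} : Finset V) := by simp [h1.symm, h5]
    have a2 : v' ∉ ({u, v} : Finset V) := by simp [h4.symm, h2.symm]
    obtain ⟨r, hr, hR⟩ : ∃ r ≤ 2, Pth (bic G σ) (↑(P ∪ Q) \ ↑({u, v} : Finset V)) u' v' r := by
      by_cases e : u' = v'
      · exact ⟨0, by omega, e ▸ Pth.refl ⟨hu', a1⟩⟩
      · refine ⟨_, ?_, KS.kss_path hadj hbig 0 {u, v} u' v' hu' hv' a1 a2 e
          (by have := Finset.card_le_two (a := u) (b := v); omega)⟩
        split_ifs <;> omega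
    obtain ⟨T, t1, t2, t3⟩ := hR.tight
    refine ⟨(if σ u = σ v then 2 else 1) + r, by split_ifs <;> omega, fun j hj => ?_⟩
    exact ⟨_, _, _, r, sdiff_subset, t1.trans sdiff_subset, fun x hx => hx.2, by omega,
      Or.inl ⟨KS.kss_path hadj hbig j T u v hu hv (fun a => (t1 a).2 (by simp))
        (fun a => (t1 a).2 (by simp)) h3 (by omega), t3⟩⟩
  have key' : ∀ u ∈ P ∪ Q, ∀ u' ∈ P ∪ Q, ∀ v ∈ P ∪ Q, ∀ v' ∈ P ∪ Q, u ≠ u' → v ≠ v' → u ≠ v →
      u ≠ v' → ∃ b ≤ δ, ∀ j ≤ δ ^ A, TwoP (bic G σ) ↑(P ∪ Q) u u' v v' (b + 2 * j) := by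
    intro u hu u' hu' v hv v' hv' h1 h2 h3 h4
    by_cases e : u' = v
    · obtain ⟨b, hb, h5⟩ := key u hu u' hu' v' hv' v hv h1 h2.symm h4 h3 (e ▸ h2)
      exact ⟨b, hb, fun j hj => (h5 j hj).swap_right⟩
    · exact key u hu u' hu' v hv v' hv' h1 h2 h3 h4 e
  refine ⟨↑(P ∪ Q), σ, ?_, fun u hu u' hu' v hv v' hv' h1 h2 h3 => ?_⟩
  · obtain ⟨a, b, c, ha, hb, hc, h1⟩ := Finset.two_lt_card_iff.1 (show 2 < P.card by omega)
    exact ⟨a, Finset.mem_union_left _ ha, b, Finset.mem_union_left _ hb, c,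
      Finset.mem_union_left _ hc, h1⟩
  · rcases h3 with h3 | h3
    · exact key' u hu u' hu' v hv v' hv' h1 h2 h3.1 h3.2
    · obtain ⟨b, hb, h5⟩ := key' u' hu' u hu v hv v' hv' h1.symm h2 h3.1 h3.2
      exact ⟨b, hb, fun j hj => (h5 j hj).swap_left⟩

end Pool.Agent.P.MP_0cc987_co
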