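import Pool.Agent.P.MP_0cc987_co.LemW1

/-! The gap lemma for fan sets. -/

namespace Pool.Agent.P.MP_0cc987_co

open Set

namespace LemWAux

variable {V : Type*} {G : SimpleGraph V} {C : Finset V} {P Q : ℕ → V} {p q A δ : ℕ}
  {H : ℕ → Set V} {σ : ℕ → V → Bool}

/-- Well separated pieces along `P`. -/
structure Sep (G : SimpleGraph V) (P : ℕ → V) (p A δ : ℕ) (H : ℕ → Set V) (σ : ℕ → V → Bool)
    (J : Finset ℕ) : Prop where
  piece : ∀ i ∈ J, Piece G A (H i) (σ i) δ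
  mem : ∀ i ∈ J, P i ∈ H i ∧ P (i + 1) ∈ H i
  range : ∀ i ∈ J, 2 * δ + 8 ≤ i ∧ i + 2 * δ + 8 ≤ p
  gap : ∀ i ∈ J, ∀ i' ∈ J, i < i' → i + 2 * δ + 8 ≤ i'

/-- The state after `r` pieces have been used and those in `J` remain. -/
structure St (G : SimpleGraph V) (C : Finset V) (P Q : ℕ → V) (p q A δ : ℕ) (H : ℕ → Set V)
    (r : ℕ) (J : Finset ℕ) (e e' b : ℕ) (Y : Set V) : Prop where
  he : e < p
  he' : e' ≤ q
  hb : b ≤ e + e' + r * δ
  pth : ∀ j ≤ r * δ ^ A, Pth G Y (P e) (Q e') (b + 2 * j)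
  nP : ∀ k, e < k → k ≤ p → P k ∉ Y
  nQ : ∀ k, e' < k → k ≤ q → Q k ∉ Y
  nC : ∀ x ∈ Y, x ∈ C → x = Q q
  lP : ∀ i ∈ J, ∀ k ≤ p, P k ∈ H i → e < k
  lY : ∀ i ∈ J, ∀ x ∈ Y, x ∈ H i → x = Q e'
  lQ : ∀ i ∈ J, ∀ k ≤ q, Q k ∈ H i → e' ≤ k

theorem exists_ends (f : ℕ → Prop) (n : ℕ) (h : ∃ k ≤ n, f k) :
    ∃ a b, a ≤ b ∧ b ≤ n ∧ f a ∧ f b ∧ ∀ k ≤ n, f k → a ≤ k ∧ k ≤ b := by
  classical
  obtain ⟨k, hk, hf⟩ := h
  have hne : ((Finset.range (n + 1)).filter f).Nonempty := ⟨k, by simp [hf, hk]⟩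
  obtain ⟨a, ha, ha'⟩ := Finset.exists_min_image _ id hne
  obtain ⟨b, hb, hb'⟩ := Finset.exists_max_image _ id hne
  simp only [Finset.mem_filter, Finset.mem_range, Nat.lt_succ_iff, id, and_imp] at ha ha' hb hb'
  exact ⟨a, b, ha' b hb.1 hb.2, hb.1, ha.2, hb.2, fun k h1 h2 => ⟨ha' k h1 h2, hb' k h1 h2⟩⟩

variable [DecidableEq V]

theorem Ctx.step (h : Ctx G C P Q p q) (hm : Mn G C (P 0) (p + q)) {J : Finset ℕ}
    (hJ : Sep G P p A δ H σ J) {r e e' b i : ℕ} {Y : Set V} (hs : St G C P Q p q A δ H r J e e' b Y)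
    (hi : i ∈ J) (hmin : ∀ i' ∈ J, i ≤ i') :
    ∃ e e' b Y, St G C P Q p q A δ H (r + 1) (J.erase i) e e' b Y := by
  have hH := hJ.piece i hi
  obtain ⟨m1, m2⟩ := hJ.mem i hi
  obtain ⟨r1, r2⟩ := hJ.range i hi
  have later : ∀ i' ∈ J.erase i, i' ∈ J ∧ i + 2 * δ + 8 ≤ i' ∧ i' ≤ p := fun i' hi' => by
    obtain ⟨h1, h2⟩ := Finset.mem_erase.1 hi'
    have := hJ.range i' h2
    exact ⟨h2, hJ.gap i hi i' h2 (lt_of_le_of_ne (hmin i' h2) h1.symm), by omega⟩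
  obtain ⟨a, a2, -, ha2, hPa, hPa2, hab⟩ := exists_ends (fun k => P k ∈ H i) p ⟨i, by omega, m1⟩
  have a_1 := (hab i (by omega) m1).1
  have a_2 := (hab (i + 1) (by omega) m2).2
  have a_3 := h.w1 hm hH (by omega) ha2 m1 hPa2
  have a_4 := hs.lP i hi a (by omega) hPa
  have hne : P a ≠ P a2 := h.hP.ne (by omega) ha2 (by omega)
  obtain ⟨c, c2, b1, hc1, hc2, hc3, hb1, htwo, hcH, hcl⟩ : ∃ c c2 b1, e' ≤ c ∧ c ≤ c2 ∧ c2 ≤ q ∧
      b1 ≤ δ ∧ (∀ j ≤ δ ^ A, TwoP G (H i ∪ {Q c}) (P a) (Q c) (P a2) (Q c2) (b1 + 2 * j)) ∧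
      (∀ k ≤ q, Q k ∈ H i → c ≤ k ∧ k ≤ c2) ∧
      ∀ i' ∈ J.erase i, ∀ k ≤ q, Q k ∈ H i' → c2 ≤ k := by
    by_cases hQ : ∃ k ≤ q, Q k ∈ H i
    · obtain ⟨c, c2, h1, h2, h3, h4, h5⟩ := exists_ends (fun k => Q k ∈ H i) q hQ
      obtain ⟨b1, h6, h7⟩ := hH.two _ hPa _ h3 _ hPa2 _ h4
        (h.ne (by omega) (by omega) (Or.inl (by omega))) (h.ne ha2 h2 (Or.inl (by omega)))
        (Or.inl ⟨hne, h.ne (by omega) h2 (Or.inl (by omega))⟩)
      refine ⟨c, c2, b1, hs.lQ i hi c (by omega) h3, h1, h2, h6,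
        fun j hj => ((h7 j hj).monoG (bic_le _ _)).mono subset_union_left, h5,
        fun i' hi' k _ hk => ?_⟩
      obtain ⟨l1, l2, l3⟩ := later i' hi'
      exact h.w2b hm hH (hJ.piece i' l1) (by omega) l3 m1 (hJ.mem i' l1).1 h2 h4 hk
    · push Not at hQ
      obtain ⟨b1, h6, h7⟩ := hH.pth hPa hPa2 hne
      refine ⟨e', e', b1, le_rfl, le_rfl, hs.he', h6, fun j hj => ⟨H i, {Q e'}, b1 + 2 * j, 0,
        subset_union_left, subset_union_right, ?_, rfl,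
        Or.inl ⟨(h7 j hj).monoG (bic_le _ _), Pth.refl rfl⟩⟩, fun k hk hk' => absurd hk' (hQ k hk),
        fun i' hi' => hs.lQ i' (later i' hi').1⟩
      rintro x hx rfl
      exact hQ e' hs.he' hx
  have hb := hs.hb
  have he := hs.he
  have he' := hs.he'
  have lP : ∀ i' ∈ J.erase i, ∀ k ≤ p, P k ∈ H i' → a2 < k := fun i' hi' k hk hk' => by
    obtain ⟨l1, l2, l3⟩ := later i' hi'
    have := h.w1 hm (hJ.piece i' l1) hk l3 hk' (hJ.mem i' l1).1
    omega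
  refine ⟨a2, c2, a - e + b + (c - e') + b1, (seg P e a ∪ Y ∪ seg Q e' c) ∪ (H i ∪ {Q c}),
    by omega, hc3, by rw [add_mul]; omega, fun j hj => ?_, ?_, ?_, ?_, lP, ?_, hcl⟩
  · rw [add_mul, one_mul] at hj
    have a1 := h.ext (hs.pth (min j (r * δ ^ A)) (min_le_right _ _)) hs.nP hs.nQ a_4.le
      (by omega) hc1 (by omega)
    have a2 := (htwo (j - min j (r * δ ^ A)) (by omega)).attach a1 (by
      rintro x ((⟨k, k1, k2, rfl⟩ | hx) | ⟨k, k1, k2, rfl⟩) (hx' | hx')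
      · left; rw [le_antisymm k2 (hab k (by omega) hx').1]
      · exact Or.inr hx'
      · have e1 := hs.lY i hi x hx hx'
        right; rw [e1, le_antisymm hc1 (hcH e' he' (e1 ▸ hx')).1]
      · exact Or.inr hx'
      · right; rw [le_antisymm k2 (hcH k (by omega) hx').1]
      · exact Or.inr hx')
    convert a2 using 1
    omega
  · rintro k k1 k2 (((hx | hx) | hx) | (hx | hx))
    · rw [h.hP.mem_seg_iff (by omega) k2] at hx
      omega
    · exact hs.nP k (by omega) k2 hx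
    · exact h.P_notMem (by omega) k2 (by omega) hx
    · have := (hab k k2 hx).2
      omega
    · exact h.ne k2 (by omega) (Or.inl (by omega)) hx
  · rintro k k1 k2 (((hx | hx) | hx) | (hx | hx))
    · exact h.Q_notMem (by omega) k2 (by omega) hx
    · exact hs.nQ k (by omega) k2 hx
    · rw [h.hQ.mem_seg_iff (by omega) k2] at hx
      omega
    · have := (hcH k k2 hx).2
      omega
    · exact h.hQ.ne k2 (by omega) (by omega) hx
  · rintro x (((⟨k, -, k2, rfl⟩ | hx) | ⟨k, -, k2, rfl⟩) | (hx | rfl)) hC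
    · have := (h.PC k (by omega)).1 hC
      omega
    · exact hs.nC x hx hC
    · rw [(h.QC k (by omega)).1 hC]
    · exact h.wc hm hH (by omega) m1 hx hC
    · rw [(h.QC c (by omega)).1 hC]
  · rintro i' hi' x (((⟨k, -, k2, rfl⟩ | hx) | ⟨k, -, k2, rfl⟩) | (hx | rfl)) hx'
    · have := lP i' hi' k (by omega) hx'
      omega
    · have e1 := hs.lY i' (later i' hi').1 x hx hx'
      rw [e1, le_antisymm (hc1.trans hc2) (hcl i' hi' e' he' (e1 ▸ hx'))]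
    · rw [le_antisymm (k2.trans hc2) (hcl i' hi' k (by omega) hx')]
    · obtain ⟨l1, l2, l3⟩ := later i' hi'
      obtain ⟨k, k1, rfl⟩ := h.w2a hm hH (hJ.piece i' l1) (by omega) l3 m1 (hJ.mem i' l1).1 hx hx'
      rw [le_antisymm (hcH k k1 hx).2 (hcl i' hi' k k1 hx')]
    · rw [le_antisymm hc2 (hcl i' hi' c (by omega) hx')]

theorem Ctx.run (h : Ctx G C P Q p q) (hm : Mn G C (P 0) (p + q)) {J : Finset ℕ}
    (hJ : Sep G P p A δ H σ J) (r : ℕ) (hr : r ≤ J.card) :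
    ∃ J' ⊆ J, J'.card + r = J.card ∧ ∃ e e' b Y, St G C P Q p q A δ H r J' e e' b Y := by
  induction r with
  | zero =>
    obtain ⟨b1, b2, b3⟩ := h.base
    refine ⟨J, Finset.Subset.refl _, rfl, 0, 0, 0, {P 0}, h.p1, Nat.zero_le _, Nat.zero_le _,
      fun j hj => ?_, b2, b3, ?_, fun i hi k hk hk' => ?_, ?_, fun _ _ _ _ _ => Nat.zero_le _⟩
    · obtain rfl : j = 0 := by omega
      exact b1
    · rintro x rfl hx
      have := (h.PC 0 (Nat.zero_le _)).1 hx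
      have := h.p1
      omega
    · have := hJ.range i hi
      have := h.w1 hm (hJ.piece i hi) hk (by omega) hk' (hJ.mem i hi).1
      omega
    · rintro i _ x rfl _
      exact h.z0.symm
  | succ r ih =>
    obtain ⟨J', h1, h2, e, e', b, Y, h3⟩ := ih (by omega)
    obtain ⟨i, hi, hmin⟩ := Finset.exists_min_image J' id (Finset.card_pos.1 (by omega))
    have hJ' : Sep G P p A δ H σ J' := ⟨fun i hi => hJ.piece i (h1 hi), fun i hi => hJ.mem i (h1 hi),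
      fun i hi => hJ.range i (h1 hi), fun i hi i' hi' => hJ.gap i (h1 hi) i' (h1 hi')⟩
    refine ⟨J'.erase i, (Finset.erase_subset _ _).trans h1, ?_, h.step hm hJ' h3 hi hmin⟩
    rw [Finset.card_erase_of_mem hi]
    omega

theorem Ctx.cyc (h : Ctx G C P Q p q) (hm : Mn G C (P 0) (p + q)) (hC : TCyc G C) (ho : Odd C.card)
    {J : Finset ℕ} (hJ : Sep G P p A δ H σ J) {r m : ℕ} (hr : r ≤ J.card) (hmo : Odd m)
    (h1 : p + q + r * δ + C.card ≤ m) (h2 : m ≤ 2 * (r * δ ^ A)) : Cyc G univ m := by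
  obtain ⟨J', -, -, e, e', b, Y, hs⟩ := h.run hm hJ r hr
  have he := hs.he
  have he' := hs.he'
  have hb := hs.hb
  have h3 := hC.three
  obtain ⟨S, d, a1, a2, a3, a4⟩ := h.arc hC ho (p - e + b + (q - e'))
  rw [Nat.odd_iff] at hmo a3
  have a5 := h.ext (hs.pth ((m - (p - e + b + (q - e') + d)) / 2) (by omega)) hs.nP hs.nQ he.le
    le_rfl he' le_rfl
  have a6 := a5.close a4 (h.ne le_rfl le_rfl (Or.inl h.p1)) (by omega) (by
    rintro x ((⟨k, -, k2, rfl⟩ | hx) | ⟨k, -, k2, rfl⟩) hx'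
    · left; rw [(h.PC k k2).1 (a1 hx')]
    · exact Or.inr (hs.nC x hx (a1 hx'))
    · right; rw [(h.QC k k2).1 (a1 hx')])
  convert a6.univ using 1
  omega

omit [DecidableEq V] in
theorem popular {p : ℕ} (hp : 1 ≤ p) (d : ℕ → ℕ) (hd : ∀ i < p, 2 ≤ d i) :
    ∃ i < p, p ≤ ((Finset.range p).filter fun k => d k = d i).card * d i ^ 2 := by
  have h1 : ∑ δ ∈ (Finset.range p).image d, (p : ℝ) * ((δ : ℝ) ^ 2)⁻¹ ≤
      ∑ δ ∈ (Finset.range p).image d, (((Finset.range p).filter fun k => d k = δ).card : ℝ) := by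
    rw [← Finset.mul_sum, ← Nat.cast_sum, ← Finset.card_eq_sum_card_image, Finset.card_range]
    refine mul_le_of_le_one_right (Nat.cast_nonneg _) ?_
    have h2 := sum_Ioo_inv_sq_le (α := ℝ) 1 (((Finset.range p).image d).sup id + 1)
    refine le_trans (Finset.sum_le_sum_of_subset_of_nonneg (fun δ hδ => ?_) fun _ _ _ => by
      positivity) (h2.trans (by norm_num))
    have h3 : δ ≤ ((Finset.range p).image d).sup id := Finset.le_sup (f := id) hδ
    obtain ⟨i, hi, rfl⟩ := Finset.mem_image.1 hδ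
    have := hd i (Finset.mem_range.1 hi)
    exact Finset.mem_Ioo.2 ⟨by omega, by omega⟩
  obtain ⟨δ, hδ, h2⟩ := Finset.exists_le_of_sum_le
    ((Finset.nonempty_range_iff.2 (by omega)).image d) h1
  obtain ⟨i, hi, rfl⟩ := Finset.mem_image.1 hδ
  have hi' := Finset.mem_range.1 hi
  refine ⟨i, hi', ?_⟩
  have h3 : (0 : ℝ) < (d i : ℝ) ^ 2 := by
    have : (0 : ℝ) < d i := by exact_mod_cast (by have := hd i hi'; omega : 0 < d i)
    positivity
  rw [← div_eq_mul_inv, div_le_iff₀ h3] at h2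
  exact_mod_cast h2

omit [DecidableEq V] in
theorem spread {p N s : ℕ} (hN : 1 ≤ N) {I : Finset ℕ} (hI : ∀ i ∈ I, i < p)
    (h : N * (s + 2) ≤ I.card) : ∃ J ⊆ I, s ≤ J.card ∧ (∀ i ∈ J, N ≤ i ∧ i + N ≤ p) ∧
      ∀ i ∈ J, ∀ i' ∈ J, i < i' → i + N ≤ i' := by
  have h1 : I.card ≤ (I.filter fun i => N ≤ i ∧ i + N ≤ p).card + (N + N) := by
    have a1 : I ⊆ (I.filter fun i => N ≤ i ∧ i + N ≤ p) ∪
        (Finset.range N ∪ Finset.Ico (p - N) p) := fun i hi => by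
      have := hI i hi
      simp only [Finset.mem_union, Finset.mem_filter, Finset.mem_range, Finset.mem_Ico, hi, true_and]
      omega
    have a2 := Finset.card_le_card a1
    have a3 := Finset.card_union_le (I.filter fun i => N ≤ i ∧ i + N ≤ p)
      (Finset.range N ∪ Finset.Ico (p - N) p)
    have a4 := Finset.card_union_le (Finset.range N) (Finset.Ico (p - N) p)
    rw [Finset.card_range, Nat.card_Ico] at a4
    omega
  obtain ⟨y, -, h2⟩ := Finset.exists_le_card_fiber_of_mul_le_card_of_maps_to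
    (s := I.filter fun i => N ≤ i ∧ i + N ≤ p) (t := Finset.range N) (f := fun i => i % N) (n := s)
    (fun i _ => Finset.mem_range.2 (Nat.mod_lt _ hN)) (Finset.nonempty_range_iff.2 (by omega))
    (by rw [Finset.card_range]; rw [mul_add] at h; omega)
  refine ⟨_, (Finset.filter_subset _ _).trans (Finset.filter_subset _ _), h2,
    fun i hi => (Finset.mem_filter.1 (Finset.mem_filter.1 hi).1).2, fun i hi i' hi' hlt => ?_⟩
  have e : i ≡ i' [MOD N] := (Finset.mem_filter.1 hi).2.trans (Finset.mem_filter.1 hi').2.symm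
  have := Nat.le_of_dvd (by omega) ((Nat.modEq_iff_dvd' hlt.le).1 e)
  omega

theorem Ctx.main (h : Ctx G C P Q p q) (hm : Mn G C (P 0) (p + q)) (hC : TCyc G C)
    (ho : Odd C.card) {m : ℕ} (hA : 4 ≤ A) (hcov : Covered G A 1000) (hδ : DBound G A)
    (hm0 : 10 ^ 17 ≤ m) (hmo : Odd m) (hCt : C.card ≤ m / 100) (hqp : q ≤ p)
    (h1 : m / 100 < p + q) (h2 : p + q ≤ 50 * (m / 100) + 1) : Cyc G univ m := by
  have hex : ∀ i, ∃ H σ δ, i < p → 1000 ≤ δ ∧ Piece G A H σ δ ∧ P i ∈ H ∧ P (i + 1) ∈ H ∧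
      σ (P i) ≠ σ (P (i + 1)) := fun i => by
    by_cases hi : i < p
    · obtain ⟨H, σ, δ, h3⟩ := hcov _ _ (h.hP.adj i hi)
      exact ⟨H, σ, δ, fun _ => h3⟩
    · exact ⟨∅, fun _ => true, 0, fun h => absurd h hi⟩
  choose H σ d hd using hex
  obtain ⟨i0, hi0, hpop⟩ := popular h.p1 d fun i hi => by have := (hd i hi).1; omega
  obtain ⟨d1, d2, d3, d4, d5⟩ := hd i0 hi0
  obtain ⟨n, n1, n2, n3⟩ := h.even_pth hC ho hi0
  have d6 := hδ _ _ _ (by omega) d2 _ d3 _ d4 n n3 (iff_of_false d5 n2)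
  generalize d i0 = δ at *
  have e1 : 4300 * δ ^ 3 ≤ m := by
    rcases le_total δ 8600 with h3 | h3
    · have := Nat.pow_le_pow_left h3 3
      omega
    · have : 8600 * δ ^ 3 ≤ δ ^ 4 := by rw [pow_succ' δ 3]; exact Nat.mul_le_mul_right _ h3
      omega
  have e2 : 1000 * δ ^ 3 ≤ δ ^ A := mul_pow_le_pow d1 (by omega) (by omega)
  have e3 : 0 < 2 * δ ^ A := by positivity
  have e4 := Nat.mul_div_le m (2 * δ ^ A)
  have e5 := Nat.lt_mul_div_succ m e3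
  generalize m / (2 * δ ^ A) = x at e4 e5
  have e6 : 2000 * (δ ^ 3 * x) ≤ m := by
    have := Nat.mul_le_mul_right x e2
    linarith
  have e7 : δ ≤ δ ^ 3 := Nat.le_self_pow (by norm_num) δ
  have e8 : δ * x ≤ δ ^ 3 * x := Nat.mul_le_mul_right _ e7
  obtain ⟨J, j1, j2, j3, j4⟩ := spread (p := p) (N := 4 * δ) (s := x + 1) (by omega)
    (I := (Finset.range p).filter fun k => d k = δ)
    (fun i hi => Finset.mem_range.1 (Finset.mem_filter.1 hi).1) (by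
      refine Nat.le_of_mul_le_mul_right (c := δ ^ 2) (le_trans ?_ hpop) (by positivity)
      have : 4 * δ * (x + 1 + 2) * δ ^ 2 = 4 * (δ ^ 3 * x) + 12 * δ ^ 3 := by ring
      omega)
  have hJ : ∀ i ∈ J, i < p ∧ d i = δ := fun i hi => by simpa using j1 hi
  refine h.cyc (H := H) (σ := σ) (A := A) (δ := δ) hm hC ho (J := J) ⟨fun i hi => ?_,
    fun i hi => ?_, fun i hi => ?_, fun i hi i' hi' hlt => ?_⟩ j2 hmo ?_ ?_
  · exact (hJ i hi).2 ▸ (hd i (hJ i hi).1).2.1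
  · exact ⟨(hd i (hJ i hi).1).2.2.1, (hd i (hJ i hi).1).2.2.2.1⟩
  · have := j3 i hi
    omega
  · have := j4 i hi i' hi' hlt
    omega
  · rw [add_mul, mul_comm x δ]
    omega
  · linarith

theorem exists_ctx (hM : MengerSt V) {z : V} {U : Finset V} (hz : z ∉ C) (hC : C.Nonempty)
    (hU : Fan G C z U) : ∃ P Q p q, Ctx G C P Q p q ∧ P 0 = z ∧ p + q ≤ U.card + 1 := by
  obtain ⟨S, a, b, n, h1, h2⟩ := hM G ((↑U ∪ ↑C) \ {z}) {w | G.Adj z w} ↑C 2 fun X hX => by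
    obtain ⟨x, hx, hX'⟩ : ∃ x, x ≠ z ∧ ∀ y ∈ X, y ≠ z → y = x := by
      by_cases hc : ∃ x ∈ X, x ≠ z
      · obtain ⟨x, h1, h2⟩ := hc
        exact ⟨x, h2, fun y hy _ => Finset.card_le_one.1 (by omega) y hy x h1⟩
      · obtain ⟨x, h1⟩ := hC
        exact ⟨x, fun e => hz (e ▸ h1), fun y hy h2 => absurd ⟨y, hy, h2⟩ hc⟩
    obtain ⟨y, hy, h1⟩ := hU x hx
    obtain ⟨k, h2⟩ := h1.pth
    obtain ⟨l, rfl⟩ : ∃ l, k = l + 1 := ⟨k - 1, by have := h2.pos fun e => hz (e ▸ hy); omega⟩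
    obtain ⟨w, h3, h4⟩ := h2.uncons
    exact ⟨w, h3, y, hy, h4.rch.mono fun v hv => ⟨⟨hv.1.1, hv.2⟩, fun e => hv.1.2 (hX' v e hv.2)⟩⟩
  have key : ∀ i, ∃ f, PathF G f (n i + 1) ∧ f 0 = z ∧ (∀ k ≤ n i + 1, 1 ≤ k → f k ∈ S i) ∧
      ∀ k ≤ n i + 1, f k ∈ C ↔ k = n i + 1 := fun i => by
    obtain ⟨a1, a2, a3, a4, -, a6⟩ := h1 i
    obtain ⟨f, f1, f2, f3, f4⟩ := a4.cons a2 fun h => (a1 h).2 rfl
    have f5 : ∀ k ≤ n i + 1, 1 ≤ k → f k ∈ S i := fun k k1 k2 =>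
      (f4 k k1).resolve_left (f2 ▸ f1.ne k1 (Nat.zero_le _) (by omega))
    refine ⟨f, f1, f2, f5, fun k k1 => ⟨fun hk => ?_, fun e => by rw [e, f3]; exact a3⟩⟩
    have k2 : 1 ≤ k := Nat.pos_of_ne_zero fun e => hz (by rw [← f2, ← e]; exact hk)
    exact f1.inj k k1 _ le_rfl ((a6 _ (f5 k k1 k2) hk).trans f3.symm)
  obtain ⟨P, p1, p2, p3, p4⟩ := key 0
  obtain ⟨Q, q1, q2, q3, q4⟩ := key 1
  have hctx : Ctx G C P Q (n 0 + 1) (n 1 + 1) := by
    refine ⟨p1, q1, q2.trans p2.symm, fun i hi j hj e => ?_, p4, q4, by omega, by omega⟩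
    rcases Nat.eq_zero_or_pos i with rfl | i1
    · exact ⟨rfl, q1.inj j hj 0 (Nat.zero_le _) (by rw [← e, p2, q2])⟩
    rcases Nat.eq_zero_or_pos j with rfl | j1
    · exact ⟨p1.inj i hi 0 (Nat.zero_le _) (by rw [e, p2, q2]), rfl⟩
    exact absurd (h2 0 1 _ (p3 i hi i1) (e ▸ q3 j hj j1)) (by decide)
  refine ⟨P, Q, _, _, hctx, p2, ?_⟩
  have hzU : z ∈ U := by
    obtain ⟨x, hx⟩ := hC
    obtain ⟨y, -, h3⟩ := hU x fun e => hz (e ▸ hx)
    exact h3.left.1.resolve_right hz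
  have h3 : (Finset.range (n 0 + 1)).image P ∪ (Finset.Ico 1 (n 1 + 1)).image Q ⊆ U := by
    intro x hx
    simp only [Finset.mem_union, Finset.mem_image, Finset.mem_range, Finset.mem_Ico] at hx
    rcases hx with ⟨k, k1, rfl⟩ | ⟨k, k1, rfl⟩
    · rcases Nat.eq_zero_or_pos k with rfl | k2
      · rwa [p2]
      · exact ((h1 0).1 (p3 k k1.le k2)).1.resolve_right fun hc => k1.ne ((p4 k k1.le).1 hc)
    · exact ((h1 1).1 (q3 k k1.2.le k1.1)).1.resolve_right fun hc => k1.2.ne ((q4 k k1.2.le).1 hc)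
  have h4 := Finset.card_le_card h3
  rw [Finset.card_union_of_disjoint, p1.card_image (fun i hi => (Finset.mem_range.1 hi).le),
    q1.card_image (fun i hi => (Finset.mem_Ico.1 hi).2.le), Finset.card_range, Nat.card_Ico] at h4
  · omega
  · rw [Finset.disjoint_left]
    intro x hx hx'
    obtain ⟨k, k1, rfl⟩ := Finset.mem_image.1 hx
    obtain ⟨l, l1, e⟩ := Finset.mem_image.1 hx'
    rw [Finset.mem_range] at k1
    rw [Finset.mem_Ico] at l1
    exact hctx.ne k1.le l1.2.le (Or.inr l1.1) e.symm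

end LemWAux

open LemWAux

variable {V : Type*} [Fintype V] [DecidableEq V]

theorem lemma_W (hM : MengerSt V) (G : SimpleGraph V) (A m : ℕ) (hA : 4 ≤ A)
    (hcov : Covered G A 1000) (hδ : DBound G A) (hm : 10 ^ 17 ≤ m) (ho : Odd m)
    (hmiss : ¬ Cyc G univ m) : WProp G (m / 100) := by
  classical
  intro C z U0 hC hCo hCt hU0 hU0c
  by_contra hz
  have hz' : ∀ U, Fan G C z U → m / 100 < U.card := fun U hU => by
    by_contra hc
    exact hz ⟨U, hU, by omega⟩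
  have hzC : z ∉ C := fun h => by
    have := hz' ∅ fun x hx => ⟨z, h, Rch.refl ⟨Or.inr h, hx.symm⟩⟩
    simp at this
  have hex : ∃ n, ∃ U, Fan G C z U ∧ U.card = n := ⟨_, U0, hU0, rfl⟩
  obtain ⟨U, hU, hUc⟩ := Nat.find_spec hex
  have hmin : ∀ U', Fan G C z U' → U.card ≤ U'.card := fun U' h =>
    hUc ▸ Nat.find_min' hex ⟨U', h, rfl⟩
  obtain ⟨P, Q, p, q, h, rfl, hpq⟩ := exists_ctx hM hzC
    (Finset.card_pos.1 (by have := hC.three; omega)) hU
  have hmn : Mn G C (P 0) (p + q) := fun U' h' => by have := hmin U' h'; omega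
  have h1 : m / 100 < p + q := by
    have hp := h.p1
    obtain ⟨U', a1, a2⟩ := h.fan (i := p - 1) (by omega) le_rfl ∅ fun k k1 k2 =>
      ⟨P p, (h.PC p le_rfl).2 rfl, (h.start (by omega) ∅ k1 k2).snoc
        (by simpa [Nat.sub_add_cancel hp] using h.hP.adj (p - 1) (by omega))
        (h.stop le_rfl ∅ k1 k2).left⟩
    have := hz' U' a1
    rw [Finset.card_empty] at a2
    omega
  have h2 := hmin U0 hU0
  refine hmiss ?_
  rcases le_total q p with h3 | h3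
  · exact h.main hmn hC hCo hA hcov hδ hm ho hCt h3 h1 (by omega)
  · exact h.symm.main (by rw [h.z0, add_comm]; exact hmn) hC hCo hA hcov hδ hm ho hCt h3
      (by omega) (by omega)

end Pool.Agent.P.MP_0cc987_co
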