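import Pool.Agent.P.MP_0cc987_co.Num

/-! Two paths from a vertex to a cycle, shortcuts through pieces. -/

namespace Pool.Agent.P.MP_0cc987_co

open Set

namespace LemWAux

variable {V : Type*} {G : SimpleGraph V} {C : Finset V} {P Q : ℕ → V} {p q : ℕ}

/-- Two paths from a common vertex to `C`, otherwise disjoint. -/
structure Ctx (G : SimpleGraph V) (C : Finset V) (P Q : ℕ → V) (p q : ℕ) : Prop where
  hP : PathF G P p
  hQ : PathF G Q q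
  z0 : Q 0 = P 0
  disj : ∀ i ≤ p, ∀ j ≤ q, P i = Q j → i = 0 ∧ j = 0
  PC : ∀ i ≤ p, P i ∈ C ↔ i = p
  QC : ∀ j ≤ q, Q j ∈ C ↔ j = q
  p1 : 1 ≤ p
  q1 : 1 ≤ q

theorem Ctx.symm (h : Ctx G C P Q p q) : Ctx G C Q P q p :=
  ⟨h.hQ, h.hP, h.z0.symm, fun i hi j hj e => (h.disj j hj i hi e.symm).symm, h.QC, h.PC, h.q1, h.p1⟩

theorem Ctx.ne (h : Ctx G C P Q p q) {i j : ℕ} (hi : i ≤ p) (hj : j ≤ q) (h0 : 1 ≤ i ∨ 1 ≤ j) :
    P i ≠ Q j := fun e => by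
  have := h.disj i hi j hj e
  omega

theorem Ctx.Q_notMem (h : Ctx G C P Q p q) {a b k : ℕ} (hb : b ≤ p) (hk : k ≤ q) (h1 : 1 ≤ k) :
    Q k ∉ seg P a b := fun ⟨_, _, h3, e⟩ => h.ne (h3.trans hb) hk (Or.inr h1) e

theorem Ctx.P_notMem (h : Ctx G C P Q p q) {a b k : ℕ} (hb : b ≤ q) (hk : k ≤ p) (h1 : 1 ≤ k) :
    P k ∉ seg Q a b := h.symm.Q_notMem hb hk h1

theorem seg_rch (h : PathF G P p) {a b : ℕ} (hab : a ≤ b) (hb : b ≤ p) {S : Set V} {x : V}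
    (hS : seg P a b ⊆ S) (hx : x ∉ seg P a b) : Rch G (S \ {x}) (P a) (P b) :=
  (h.pth hab hb).rch.mono fun _ hy => ⟨hS hy, fun e => hx (e ▸ hy)⟩

/-- The vertex set available for a shortcut. -/
def Av (C : Finset V) (P Q : ℕ → V) (p q i i' : ℕ) (T : Finset V) : Set V :=
  seg P 0 i ∪ ↑T ∪ seg P i' p ∪ seg Q 0 q ∪ ↑C

theorem Av1 {i i' : ℕ} {T : Finset V} : seg P 0 i ⊆ Av C P Q p q i i' T :=
  fun _ h => Or.inl (Or.inl (Or.inl (Or.inl h)))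

theorem Av2 {i i' : ℕ} {T : Finset V} : ↑T ⊆ Av C P Q p q i i' T :=
  fun _ h => Or.inl (Or.inl (Or.inl (Or.inr h)))

theorem Av3 {i i' : ℕ} {T : Finset V} : seg P i' p ⊆ Av C P Q p q i i' T :=
  fun _ h => Or.inl (Or.inl (Or.inr h))

theorem Av4 {i i' a b : ℕ} {T : Finset V} (hb : b ≤ q) : seg Q a b ⊆ Av C P Q p q i i' T :=
  fun _ ⟨k, _, h2, e⟩ => Or.inl (Or.inr ⟨k, Nat.zero_le _, h2.trans hb, e⟩)

variable [DecidableEq V]

theorem Ctx.fan (h : Ctx G C P Q p q) {i i' : ℕ} (hi : i < i') (hi' : i' ≤ p) (T : Finset V)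
    (hw : ∀ k, 1 ≤ k → k ≤ q → ∃ y ∈ C, Rch G (Av C P Q p q i i' T \ {Q k}) (P 0) y) :
    ∃ U, Fan G C (P 0) U ∧ U.card + i' ≤ i + p + q + T.card := by
  have hq := h.q1
  set U := ((Finset.range (i + 1)).image P ∪ (Finset.Ico i' p).image P) ∪
    ((Finset.Ico 1 q).image Q ∪ T) with hU
  have hsub : Av C P Q p q i i' T ⊆ ↑U ∪ ↑C := by
    have h0 : P 0 ∈ U := by simp [hU]; exact Or.inl ⟨0, Nat.zero_le _, rfl⟩
    rintro x ((((⟨k, -, h2, rfl⟩ | hx) | ⟨k, h1, h2, rfl⟩) | ⟨k, -, h2, rfl⟩) | hx)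
    · left; simp [hU]; exact Or.inl ⟨k, h2, rfl⟩
    · left; simp [hU]; exact Or.inr (Or.inr (Or.inr hx))
    · rcases h2.eq_or_lt with e | e
      · exact Or.inr ((h.PC k h2).2 e)
      · left; simp [hU]; exact Or.inr (Or.inl ⟨k, ⟨h1, e⟩, rfl⟩)
    · rcases h2.eq_or_lt with e | e
      · exact Or.inr ((h.QC k h2).2 e)
      · rcases Nat.eq_zero_or_pos k with rfl | h3
        · rw [h.z0]; exact Or.inl h0
        · left; simp [hU]; exact Or.inr (Or.inr (Or.inl ⟨k, ⟨h3, e⟩, rfl⟩))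
    · exact Or.inr hx
  refine ⟨U, fun x hx => ?_, ?_⟩
  · by_cases hs : x ∈ seg Q 0 q
    · obtain ⟨k, -, h2, rfl⟩ := hs
      obtain ⟨y, hy, h3⟩ := hw k (Nat.pos_of_ne_zero fun e => hx (by rw [e, h.z0])) h2
      exact ⟨y, hy, h3.mono (sdiff_subset_sdiff_left hsub)⟩
    · refine ⟨Q q, (h.QC q le_rfl).2 rfl, ?_⟩
      rw [← h.z0]
      exact seg_rch h.hQ (Nat.zero_le _) le_rfl ((Av4 le_rfl).trans hsub) hs
  · have a1 := Finset.card_image_le (s := Finset.range (i + 1)) (f := P)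
    have a2 := Finset.card_image_le (s := Finset.Ico i' p) (f := P)
    have a3 := Finset.card_image_le (s := Finset.Ico 1 q) (f := Q)
    have a4 := Finset.card_union_le ((Finset.range (i + 1)).image P) ((Finset.Ico i' p).image P)
    have a5 := Finset.card_union_le ((Finset.Ico 1 q).image Q) T
    have a6 := Finset.card_union_le ((Finset.range (i + 1)).image P ∪ (Finset.Ico i' p).image P)
      ((Finset.Ico 1 q).image Q ∪ T)
    rw [Finset.card_range] at a1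
    rw [Nat.card_Ico] at a2 a3
    rw [← hU] at a6
    omega

/-- The two paths form a smallest fan set. -/
def Mn (G : SimpleGraph V) (C : Finset V) (z : V) (n : ℕ) : Prop :=
  ∀ U, Fan G C z U → n ≤ U.card + 1

variable {A δ : ℕ} {H H' : Set V} {σ σ' : V → Bool}

theorem Ctx.short (h : Ctx G C P Q p q) (hm : Mn G C (P 0) (p + q)) {i i' : ℕ} (hi : i < i')
    (hi' : i' ≤ p) (T : Finset V)
    (hw : ∀ k, 1 ≤ k → k ≤ q → ∃ y ∈ C, Rch G (Av C P Q p q i i' T \ {Q k}) (P 0) y) :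
    i' ≤ i + T.card + 1 := by
  obtain ⟨U, h1, h2⟩ := h.fan hi hi' T hw
  have := hm U h1
  omega

omit [DecidableEq V] in
theorem Ctx.start (h : Ctx G C P Q p q) {i i' k : ℕ} (hi : i ≤ p) (T : Finset V) (h1 : 1 ≤ k)
    (h2 : k ≤ q) : Rch G (Av C P Q p q i i' T \ {Q k}) (P 0) (P i) :=
  seg_rch h.hP (Nat.zero_le _) hi Av1 (h.Q_notMem hi h2 h1)

omit [DecidableEq V] in
theorem Ctx.stop (h : Ctx G C P Q p q) {i i' k : ℕ} (hi : i' ≤ p) (T : Finset V) (h1 : 1 ≤ k)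
    (h2 : k ≤ q) : Rch G (Av C P Q p q i i' T \ {Q k}) (P i') (P p) :=
  seg_rch h.hP hi le_rfl Av3 (h.Q_notMem le_rfl h2 h1)

theorem Ctx.w1 (h : Ctx G C P Q p q) (hm : Mn G C (P 0) (p + q)) (hH : Piece G A H σ δ) {a b : ℕ}
    (ha : a ≤ p) (hb : b ≤ p) (h1 : P a ∈ H) (h2 : P b ∈ H) : b ≤ a + δ + 3 := by
  by_contra hc
  obtain ⟨T, -, hT, h3⟩ := hH.small h1 h2
  have := h.short hm (i := a) (by omega) hb T fun k k1 k2 => ⟨P p, (h.PC p le_rfl).2 rfl,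
    ((h.start ha T k1 k2).trans ((h3 _ (h.ne ha k2 (Or.inr k1)).symm
      (h.ne hb k2 (Or.inr k1)).symm).mono (sdiff_subset_sdiff_left Av2))).trans (h.stop hb T k1 k2)⟩
  omega

theorem Ctx.wc (h : Ctx G C P Q p q) (hm : Mn G C (P 0) (p + q)) (hH : Piece G A H σ δ) {i : ℕ}
    (hi : i + δ + 3 < p) (h1 : P i ∈ H) {y : V} (h2 : y ∈ H) (h3 : y ∈ C) : y = Q q := by
  by_contra hc
  obtain ⟨T, -, hT, h4⟩ := hH.small h1 h2
  have := h.short hm (i := i) (by omega) le_rfl T fun k k1 k2 => ⟨y, h3,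
    (h.start (by omega) T k1 k2).trans ((h4 _ (h.ne (by omega) k2 (Or.inr k1)).symm
      (fun e => hc (by rw [← e, (h.QC k k2).1 (e ▸ h3)]))).mono (sdiff_subset_sdiff_left Av2))⟩
  omega

theorem Ctx.w2a (h : Ctx G C P Q p q) (hm : Mn G C (P 0) (p + q)) (hH : Piece G A H σ δ)
    (hH' : Piece G A H' σ' δ) {i i' : ℕ} (hi : i + 2 * δ + 5 < i') (hi' : i' ≤ p) (h1 : P i ∈ H)
    (h2 : P i' ∈ H') {w : V} (h3 : w ∈ H) (h4 : w ∈ H') : ∃ k ≤ q, Q k = w := by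
  by_contra hc
  push Not at hc
  obtain ⟨T, -, hT, h5⟩ := hH.small h1 h3
  obtain ⟨T', -, hT', h6⟩ := hH'.small h4 h2
  have s1 : (↑T : Set V) ⊆ Av C P Q p q i i' (T ∪ T') :=
    fun x hx => Av2 (Finset.mem_union_left _ hx)
  have s2 : (↑T' : Set V) ⊆ Av C P Q p q i i' (T ∪ T') :=
    fun x hx => Av2 (Finset.mem_union_right _ hx)
  have := h.short hm (i := i) (by omega) hi' (T ∪ T') fun k k1 k2 => ⟨P p, (h.PC p le_rfl).2 rfl,
    (((h.start (by omega) _ k1 k2).trans ((h5 _ (h.ne (by omega) k2 (Or.inr k1)).symm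
      (hc k k2)).mono (sdiff_subset_sdiff_left s1))).trans
      ((h6 _ (hc k k2) (h.ne hi' k2 (Or.inr k1)).symm).mono (sdiff_subset_sdiff_left s2))).trans
      (h.stop hi' _ k1 k2)⟩
  have := Finset.card_union_le T T'
  omega

theorem Ctx.w2b (h : Ctx G C P Q p q) (hm : Mn G C (P 0) (p + q)) (hH : Piece G A H σ δ)
    (hH' : Piece G A H' σ' δ) {i i' : ℕ} (hi : i + 2 * δ + 5 < i') (hi' : i' ≤ p) (h1 : P i ∈ H)
    (h2 : P i' ∈ H') {a a' : ℕ} (ha : a ≤ q) (h3 : Q a ∈ H) (h4 : Q a' ∈ H') : a ≤ a' := by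
  by_contra hc
  obtain ⟨T, -, hT, h5⟩ := hH.small h1 h3
  obtain ⟨T', -, hT', h6⟩ := hH'.small h4 h2
  have s1 : (↑T : Set V) ⊆ Av C P Q p q i i' (T ∪ T') :=
    fun x hx => Av2 (Finset.mem_union_left _ hx)
  have s2 : (↑T' : Set V) ⊆ Av C P Q p q i i' (T ∪ T') :=
    fun x hx => Av2 (Finset.mem_union_right _ hx)
  have := h.short hm (i := i) (by omega) hi' (T ∪ T') fun k k1 k2 => by
    by_cases hk : k < a
    · exact ⟨Q q, (h.QC q le_rfl).2 rfl, ((h.start (by omega) _ k1 k2).trans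
        ((h5 _ (h.ne (by omega) k2 (Or.inr k1)).symm (h.hQ.ne k2 ha hk.ne)).mono
          (sdiff_subset_sdiff_left s1))).trans (seg_rch h.hQ ha le_rfl (Av4 le_rfl)
            (by rw [h.hQ.mem_seg_iff le_rfl k2]; omega))⟩
    · have a1 := seg_rch h.hQ (Nat.zero_le a') (by omega)
        (Av4 (C := C) (P := P) (p := p) (i := i) (i' := i') (T := T ∪ T') (q := q) (by omega))
        (x := Q k) (by rw [h.hQ.mem_seg_iff (by omega) k2]; omega)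
      rw [h.z0] at a1
      exact ⟨P p, (h.PC p le_rfl).2 rfl, (a1.trans ((h6 _ (h.hQ.ne k2 (by omega) (by omega))
        (h.ne hi' k2 (Or.inr k1)).symm).mono (sdiff_subset_sdiff_left s2))).trans
        (h.stop hi' _ k1 k2)⟩
  have := Finset.card_union_le T T'
  omega

omit [DecidableEq V] in
/-- Extend a path along `P` and `Q`. -/
theorem Ctx.ext (h : Ctx G C P Q p q) {Y : Set V} {e e' a c n : ℕ} (hY : Pth G Y (P e) (Q e') n)
    (h1 : ∀ k, e < k → k ≤ p → P k ∉ Y) (h2 : ∀ k, e' < k → k ≤ q → Q k ∉ Y)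
    (ha : e ≤ a) (ha' : a ≤ p) (hc : e' ≤ c) (hc' : c ≤ q) :
    Pth G (seg P e a ∪ Y ∪ seg Q e' c) (P a) (Q c) (a - e + n + (c - e')) := by
  refine ((h.hP.pth ha ha').symm.trans hY ?_).trans (h.hQ.pth hc hc') ?_
  · rintro _ ⟨k, k1, k2, rfl⟩ hk
    rcases k1.eq_or_lt with e1 | e1
    · rw [e1]
    · exact absurd hk (h1 k e1 (by omega))
  · rintro _ hx ⟨k, k1, k2, rfl⟩
    rcases k1.eq_or_lt with e1 | e1
    · rw [e1]
    · rcases hx with hx | hx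
      · exact absurd hx (h.Q_notMem ha' (by omega) (by omega))
      · exact absurd hx (h2 k e1 (by omega))

omit [DecidableEq V] in
theorem Ctx.arc (h : Ctx G C P Q p q) (hC : TCyc G C) (ho : Odd C.card) (n : ℕ) :
    ∃ S d, S ⊆ ↑C ∧ d ≤ C.card ∧ Odd (n + d) ∧ Pth G S (P p) (Q q) d := by
  obtain ⟨S1, S2, d, e, h1, h2, h3, -, -, h4, h5, -⟩ := hC.arcs ((h.PC p le_rfl).2 rfl)
    ((h.QC q le_rfl).2 rfl) (h.ne le_rfl le_rfl (Or.inl h.p1))
  rw [Nat.odd_iff] at ho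
  by_cases hd : (n + d) % 2 = 1
  · exact ⟨S1, d, h1, by omega, Nat.odd_iff.2 hd, h4⟩
  · exact ⟨S2, e, h2, by omega, Nat.odd_iff.2 (by omega), h5⟩

omit [DecidableEq V] in
theorem Ctx.base (h : Ctx G C P Q p q) : Pth G {P 0} (P 0) (Q 0) 0 ∧
    (∀ k, 0 < k → k ≤ p → P k ∉ ({P 0} : Set V)) ∧ ∀ k, 0 < k → k ≤ q → Q k ∉ ({P 0} : Set V) :=
  ⟨h.z0 ▸ Pth.refl (by rw [h.z0]; rfl), fun _ k1 k2 => h.hP.ne k2 (Nat.zero_le _) k1.ne',
    fun _ k1 k2 => (h.ne (Nat.zero_le _) k2 (Or.inr k1)).symm⟩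

omit [DecidableEq V] in
/-- An even path between consecutive vertices of `P`. -/
theorem Ctx.even_pth (h : Ctx G C P Q p q) (hC : TCyc G C) (ho : Odd C.card) {i : ℕ} (hi : i < p) :
    ∃ n, n + 1 ≤ p + q + C.card ∧ ¬ Odd n ∧ Pth G univ (P i) (P (i + 1)) n := by
  obtain ⟨S, d, h1, h2, h3, h4⟩ := h.arc hC ho (p + q)
  obtain ⟨b1, b2, b3⟩ := h.base
  have a1 := h.ext b1 b2 b3 (Nat.zero_le i) hi.le (Nat.zero_le q) le_rfl
  have a2 := a1.trans h4.symm (by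
    rintro x ((⟨k, -, k2, rfl⟩ | rfl) | ⟨k, -, k2, rfl⟩) hx
    · have := (h.PC k (by omega)).1 (h1 hx)
      omega
    · have := (h.PC 0 (by omega)).1 (h1 hx)
      omega
    · rw [(h.QC k k2).1 (h1 hx)])
  have a3 := a2.trans (h.hP.pth (Nat.succ_le_of_lt hi) le_rfl).symm (by
    rintro _ hx ⟨k, k1, k2, rfl⟩
    rcases hx with ((hx | hx) | hx) | hx
    · rw [h.hP.mem_seg_iff hi.le k2] at hx
      omega
    · exact absurd hx (b2 k (by omega) k2)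
    · exact absurd hx (h.P_notMem le_rfl k2 (by omega))
    · rw [(h.PC k k2).1 (h1 hx)])
  refine ⟨_, by omega, ?_, a3.univ⟩
  rw [Nat.odd_iff] at h3 ⊢
  omega

end LemWAux

end Pool.Agent.P.MP_0cc987_co
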