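import Pool.Agent.P.MP_0cc987_co.Num

/-! The final analysis: compactness and the computation of the upper limit. -/

namespace Pool.Agent.P.MP_0cc987_co

open Set

universe u

namespace Limsup

theorem contained_of_cyc {V : Type*} {G : SimpleGraph V} {m : ℕ} (h : Cyc G univ m) :
    (SimpleGraph.cycleGraph m).IsContained G := by
  obtain ⟨c, hc, -⟩ := h
  have h3 := hc.three
  have key : ∀ u v : Fin m, (u - v).val = 1 → G.Adj (c u) (c v) := by
    intro u v huv
    have hu := u.2
    have hv := v.2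
    rcases le_or_gt v u with hle | hlt
    · rw [Fin.sub_val_of_le hle] at huv
      have hle' : v.val ≤ u.val := hle
      have e : u.val = v.val + 1 := by omega
      rw [e]
      exact (hc.path.adj v (by omega)).symm
    · have hlt' : u.val < v.val := hlt
      rw [Fin.val_sub, Nat.mod_eq_of_lt (by omega)] at huv
      have e1 : u.val = 0 := by omega
      have e2 : v.val = m - 1 := by omega
      rw [e1, e2]
      exact hc.close.symm
  refine ⟨⟨⟨fun i => c i, ?_⟩, ?_⟩⟩
  · intro u v huv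
    rcases SimpleGraph.cycleGraph_adj'.1 huv with h1 | h1
    · exact key u v h1
    · exact (key v u h1).symm
  · intro u v huv
    have hu := u.2
    have hv := v.2
    exact Fin.ext (hc.path.inj u (by omega) v (by omega) huv)

theorem exists_window
    (hmain : ∀ K, 1 ≤ K → ∃ k, ∀ (W : Type u) [Fintype W] [DecidableEq W] (G : SimpleGraph W),
      Miss G K → Col G univ k)
    {V : Type u} (G : SimpleGraph V) (h : ∀ n, ¬ G.Colorable n) (K : ℕ) (hK : 1 ≤ K) :
    ∃ l, 2 ≤ l ∧ ∀ m, Odd m → l ≤ m → m ≤ l ^ K → (SimpleGraph.cycleGraph m).IsContained G := by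
  classical
  obtain ⟨k, hk⟩ := hmain K hK
  by_contra hcon
  push Not at hcon
  apply h k
  have hfin : ∀ G' : G.Subgraph, G'.verts.Finite → G'.coe.Colorable k := by
    intro G' hG'
    let : Fintype G'.verts := hG'.fintype
    have hM : Miss G'.coe K := by
      intro l hl
      obtain ⟨m, h1, h2, h3, h4⟩ := hcon l hl
      refine ⟨m, h1, h2, h3, fun hc => ?_⟩
      obtain ⟨cp⟩ := (contained_of_cyc hc).trans (⟨G'.coeCopy⟩ : G'.coe.IsContained G)
      exact h4.false cp
    obtain ⟨c, hc1, hc2⟩ := hk _ G'.coe hM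
    refine ⟨SimpleGraph.Coloring.mk (fun v => ⟨c v, hc1 v (mem_univ v)⟩) ?_⟩
    intro u v huv e
    exact hc2 u (mem_univ u) v (mem_univ v) huv (congrArg Fin.val e)
  exact SimpleGraph.nonempty_hom_of_forall_finite_subgraph_hom
    (F := SimpleGraph.completeGraph (Fin k)) fun G' hG' => (hfin G' hG').some

theorem log_step_le {x : ℝ} (hx : 0 < x) : (Real.log (x + 2) - Real.log x) / 2 ≤ 1 / x := by
  rw [← Real.log_div (by positivity) hx.ne']
  have h1 := Real.log_le_sub_one_of_pos (show 0 < (x + 2) / x by positivity)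
  have h2 : (x + 2) / x - 1 = 2 * (1 / x) := by field_simp; ring
  linarith

theorem le_log_step {x : ℝ} (hx : 0 < x) :
    1 / (x + 2) ≤ (Real.log (x + 2) - Real.log x) / 2 := by
  have h1 := Real.log_le_sub_one_of_pos (show 0 < x / (x + 2) by positivity)
  rw [Real.log_div hx.ne' (by positivity)] at h1
  have h2 : x / (x + 2) - 1 = -(2 * (1 / (x + 2))) := by field_simp; ring
  linarith

/-- Upper bound for a function supported on the odd numbers from three on. -/
theorem sum_le (f : ℕ → ℝ) (h1 : ∀ n, f n ≤ 1 / n) (h0 : ∀ n, ¬ (Odd n ∧ 3 ≤ n) → f n = 0)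
    (M : ℕ) : ∑ n ∈ Finset.range (M + 3), f n ≤ Real.log (M + 1) / 2 := by
  induction M using Nat.twoStepInduction with
  | zero =>
    simp only [Finset.sum_range_succ, Finset.range_zero, Finset.sum_empty]
    rw [h0 0 (by omega), h0 1 (by omega), h0 2 (by omega)]
    simp
  | one =>
    simp only [Finset.sum_range_succ, Finset.range_zero, Finset.sum_empty]
    rw [h0 0 (by omega), h0 1 (by omega), h0 2 (by omega)]
    have h2 := h1 3
    have h3 := Real.log_two_gt_d9
    have h4 : ((1 : ℕ) : ℝ) + 1 = 2 := by norm_num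
    rw [h4]
    push_cast at h2
    linarith
  | more M ih _ =>
    rw [show M + 2 + 3 = M + 3 + 1 + 1 by ring, Finset.sum_range_succ, Finset.sum_range_succ]
    have hM : (0 : ℝ) ≤ M := Nat.cast_nonneg M
    have h2 := le_log_step (show (0 : ℝ) < M + 1 by positivity)
    have h3 : f (M + 3) + f (M + 3 + 1) ≤ 1 / ((M : ℝ) + 1 + 2) := by
      rcases Nat.even_or_odd (M + 3) with he | ho
      · rw [h0 (M + 3) (fun hh => (Nat.not_odd_iff_even.2 he) hh.1)]
        have h4 := h1 (M + 3 + 1)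
        have h5 : 1 / ((M + 3 + 1 : ℕ) : ℝ) ≤ 1 / ((M : ℝ) + 1 + 2) :=
          one_div_le_one_div_of_le (by positivity) (by push_cast; linarith)
        linarith
      · rw [h0 (M + 3 + 1) (fun hh => (Nat.not_odd_iff_even.2 ho.add_one) hh.1)]
        have h4 := h1 (M + 3)
        have h5 : ((M + 3 : ℕ) : ℝ) = (M : ℝ) + 1 + 2 := by push_cast; ring
        rw [h5] at h4
        linarith
    have h6 : ((M + 2 : ℕ) : ℝ) + 1 = (M : ℝ) + 1 + 2 := by push_cast; ring
    rw [h6]
    linarith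

/-- Lower bound for a function which is `1 / n` on the odd numbers of an interval. -/
theorem le_sum (f : ℕ → ℝ) (h0 : ∀ n, 0 ≤ f n) (a : ℕ) (ha : 1 ≤ a) (t : ℕ)
    (h1 : ∀ n, Odd n → a ≤ n → n < a + t → f n = 1 / n) :
    (Real.log (a + t + 1) - Real.log (a + 2)) / 2 ≤ ∑ n ∈ Finset.range t, f (a + n) := by
  have ha' : (1 : ℝ) ≤ a := by exact_mod_cast ha
  induction t using Nat.twoStepInduction with
  | zero =>
    have h2 : Real.log ((a : ℝ) + 1) ≤ Real.log (a + 2) :=
      Real.log_le_log (by positivity) (by linarith)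
    simp only [Finset.range_zero, Finset.sum_empty, Nat.cast_zero, add_zero]
    linarith
  | one =>
    have h2 : (a : ℝ) + (1 : ℕ) + 1 = a + 2 := by push_cast; ring
    rw [h2, Finset.sum_range_one]
    have := h0 (a + 0)
    linarith
  | more t ih _ =>
    rw [Finset.sum_range_succ, Finset.sum_range_succ]
    have ht : (0 : ℝ) ≤ t := Nat.cast_nonneg t
    have h2 := log_step_le (show (0 : ℝ) < a + t + 1 by positivity)
    have h3 : 1 / ((a : ℝ) + t + 1) ≤ f (a + t) + f (a + (t + 1)) := by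
      rcases Nat.even_or_odd (a + t) with he | ho
      · rw [h1 (a + (t + 1)) (by rw [← add_assoc]; exact he.add_one) (by omega) (by omega)]
        have h4 := h0 (a + t)
        have h5 : ((a + (t + 1) : ℕ) : ℝ) = (a : ℝ) + t + 1 := by push_cast; ring
        rw [h5]
        linarith
      · rw [h1 (a + t) ho (by omega) (by omega)]
        have h4 := h0 (a + (t + 1))
        have h5 : 1 / ((a : ℝ) + t + 1) ≤ 1 / ((a + t : ℕ) : ℝ) :=
          one_div_le_one_div_of_le (by push_cast; positivity) (by push_cast; linarith)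
        linarith
    have h6 : (a : ℝ) + ((t + 2 : ℕ) : ℝ) + 1 = a + t + 1 + 2 := by push_cast; ring
    have ih' := ih fun n hn h7 h8 => h1 n hn h7 (by omega)
    rw [h6]
    linarith

theorem quot_ge (f : ℕ → ℝ) (h0 : ∀ n, 0 ≤ f n) (l K : ℕ) (hl : 2 ≤ l) (hK : 1 ≤ K)
    (h1 : ∀ n, Odd n → l ≤ n → n ≤ l ^ K → f n = 1 / n) :
    1 / 2 - 1 / (K : ℝ) ≤
      (∑ n ∈ Finset.range (l ^ K + 1), f n) / Real.log ((l ^ K + 1 : ℕ) : ℝ) := by
  have hlK : l ≤ l ^ K := Nat.le_self_pow (by omega) l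
  obtain ⟨t, ht⟩ : ∃ t, l ^ K + 1 = l + t := ⟨l ^ K + 1 - l, by omega⟩
  have hl' : (2 : ℝ) ≤ l := by exact_mod_cast hl
  have hK' : (1 : ℝ) ≤ K := by exact_mod_cast hK
  have h2 := le_sum f h0 l (by omega) t fun n hn h3 h4 => h1 n hn h3 (by omega)
  have h3 : ∑ n ∈ Finset.range t, f (l + n) ≤ ∑ n ∈ Finset.range (l ^ K + 1), f n := by
    rw [ht, Finset.sum_range_add]
    have : 0 ≤ ∑ n ∈ Finset.range l, f n := Finset.sum_nonneg fun n _ => h0 n
    linarith
  have hlog : 0 < Real.log l := Real.log_pos (by linarith)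
  have h4 : (K : ℝ) * Real.log l ≤ Real.log ((l ^ K + 1 : ℕ) : ℝ) := by
    rw [← Real.log_pow]
    exact Real.log_le_log (by positivity) (by push_cast; linarith)
  have h5 : Real.log ((l : ℝ) + 2) ≤ 2 * Real.log l := by
    have e : 2 * Real.log l = Real.log ((l : ℝ) ^ 2) := by rw [Real.log_pow]; norm_num
    rw [e]
    exact Real.log_le_log (by positivity) (by nlinarith)
  have h6 : Real.log ((l ^ K + 1 : ℕ) : ℝ) ≤ Real.log ((l : ℝ) + t + 1) := by
    rw [ht]
    exact Real.log_le_log (by push_cast; positivity) (by push_cast; linarith)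
  set L := Real.log ((l ^ K + 1 : ℕ) : ℝ) with hL
  have hLpos : 0 < L := lt_of_lt_of_le (by positivity) h4
  rw [le_div_iff₀ hLpos]
  have h7 : Real.log l ≤ 1 / (K : ℝ) * L := by
    rw [one_div, ← div_eq_inv_mul, le_div_iff₀ (by positivity)]
    linarith
  have h8 : (1 / 2 - 1 / (K : ℝ)) * L = L / 2 - 1 / (K : ℝ) * L := by ring
  rw [h8]
  linarith

theorem limsup_eq (f : ℕ → ℝ) (h0 : ∀ n, 0 ≤ f n) (h1 : ∀ n, f n ≤ 1 / n)
    (h2 : ∀ n, ¬ (Odd n ∧ 3 ≤ n) → f n = 0)
    (h3 : ∀ K, 1 ≤ K → ∃ l, 2 ≤ l ∧ ∀ n, Odd n → l ≤ n → n ≤ l ^ K → f n = 1 / n) :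
    Filter.limsup (fun N : ℕ => (∑ n ∈ Finset.range N, f n) / Real.log N) Filter.atTop
      = 1 / 2 := by
  have hup : ∀ᶠ N : ℕ in Filter.atTop,
      (∑ n ∈ Finset.range N, f n) / Real.log N ≤ 1 / 2 := by
    refine Filter.eventually_atTop.2 ⟨3, fun N hN => ?_⟩
    obtain ⟨M, rfl⟩ : ∃ M, N = M + 3 := ⟨N - 3, by omega⟩
    have hM : (0 : ℝ) ≤ M := Nat.cast_nonneg M
    have h4 := sum_le f h1 h2 M
    have h5 : Real.log ((M : ℝ) + 1) ≤ Real.log ((M + 3 : ℕ) : ℝ) :=
      Real.log_le_log (by positivity) (by push_cast; linarith)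
    rw [div_le_iff₀ (Real.log_pos (by push_cast; linarith))]
    linarith
  have hlow : ∀ N : ℕ, 0 ≤ (∑ n ∈ Finset.range N, f n) / Real.log N := fun N =>
    div_nonneg (Finset.sum_nonneg fun n _ => h0 n) (Real.log_natCast_nonneg N)
  have hb : Filter.IsBoundedUnder (· ≤ ·) Filter.atTop
      (fun N : ℕ => (∑ n ∈ Finset.range N, f n) / Real.log N) := ⟨1 / 2, hup⟩
  refine le_antisymm (Filter.limsup_le_of_le
    (Filter.isCoboundedUnder_le_of_le Filter.atTop hlow) hup) ?_
  refine le_of_forall_pos_le_add fun ε hε => ?_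
  obtain ⟨K0, hK0⟩ := exists_nat_one_div_lt hε
  have h4 : 1 / 2 - ε ≤ Filter.limsup
      (fun N : ℕ => (∑ n ∈ Finset.range N, f n) / Real.log N) Filter.atTop := by
    refine Filter.le_limsup_of_frequently_le (Filter.frequently_atTop.2 fun N0 => ?_) hb
    obtain ⟨l, hl, hw⟩ := h3 (K0 + 1 + N0) (by omega)
    refine ⟨l ^ (K0 + 1 + N0) + 1, ?_, ?_⟩
    · have h5 : K0 + 1 + N0 < l ^ (K0 + 1 + N0) := Nat.lt_pow_self (by omega)
      omega
    · have h5 := quot_ge f h0 l _ hl (by omega) hw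
      have h6 : 1 / ((K0 + 1 + N0 : ℕ) : ℝ) ≤ 1 / ((K0 : ℝ) + 1) :=
        one_div_le_one_div_of_le (by positivity)
          (by push_cast; linarith [Nat.cast_nonneg (α := ℝ) N0])
      linarith
  linarith

end Limsup

theorem limsup_eq_half
    (hmain : ∀ K, 1 ≤ K → ∃ k, ∀ (W : Type u) [Fintype W] [DecidableEq W] (G : SimpleGraph W),
      Miss G K → Col G univ k)
    {V : Type u} (G : SimpleGraph V) (h : ∀ n, ¬ G.Colorable n) :
    Filter.limsup (fun N : ℕ => (∑ n ∈ Finset.range N,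
      Set.indicator {n : ℕ | Odd n ∧ 3 ≤ n ∧ (SimpleGraph.cycleGraph n).IsContained G}
        (fun n => (1 : ℝ) / n) n) / Real.log N) Filter.atTop = 1 / 2 := by
  refine Limsup.limsup_eq _ (fun n => ?_) (fun n => ?_) (fun n hn => ?_) (fun K hK => ?_)
  · exact Set.indicator_nonneg (fun a _ => by positivity) n
  · exact Set.indicator_le_self' (fun a _ => by positivity) n
  · exact Set.indicator_of_notMem (fun hh => hn ⟨hh.1, hh.2.1⟩) _
  · obtain ⟨l, hl, hw⟩ := Limsup.exists_window hmain G h K hK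
    refine ⟨l, hl, fun n hn h1 h2 => ?_⟩
    have h3 : 3 ≤ n := by
      obtain ⟨j, hj⟩ := hn
      omega
    exact Set.indicator_of_mem (s := {n : ℕ | Odd n ∧ 3 ≤ n ∧
      (SimpleGraph.cycleGraph n).IsContained G}) ⟨hn, h3, hw n hn h1 h2⟩ _

end Pool.Agent.P.MP_0cc987_co
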