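import Pool.Agent.P.MP_0cc987_co.Num

/-! The peeling process and the robust colouring property. -/

namespace Pool.Agent.P.MP_0cc987_co

open Set

namespace Peel

variable {V : Type*} {G : SimpleGraph V} {𝓑 : Set (Set V)} {S : Set V} {T : ℕ}
  {Φ Φ' Fr Sl : Set (Set V × V)} {v w : V}

/-- A blob together with one of its points outside `S`. -/
def Node (𝓑 : Set (Set V)) (S : Set V) (x : Set V × V) : Prop := x.1 ∈ 𝓑 ∧ x.2 ∈ x.1 ∧ x.2 ∉ S

/-- The edges that are not hidden by a node of `Φ`. -/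
def Vis (G : SimpleGraph V) (𝓑 : Set (Set V)) (Φ : Set (Set V × V)) (v w : V) : Prop :=
  G.Adj v w ∧ ∀ b ∈ 𝓑, v ∈ b → w ∈ b → (b, v) ∉ Φ ∧ (b, w) ∉ Φ

/-- Distance at most two along visible edges. -/
def Nr (G : SimpleGraph V) (𝓑 : Set (Set V)) (Φ : Set (Set V × V)) (v v' : V) : Prop :=
  v = v' ∨ Vis G 𝓑 Φ v v' ∨ ∃ w, Vis G 𝓑 Φ v w ∧ Vis G 𝓑 Φ w v'

theorem Vis.symm (h : Vis G 𝓑 Φ v w) : Vis G 𝓑 Φ w v :=
  ⟨h.1.symm, fun b hb h1 h2 => (h.2 b hb h2 h1).symm⟩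

theorem Vis.anti (h : Vis G 𝓑 Φ v w) (hΦ : Φ' ⊆ Φ) : Vis G 𝓑 Φ' v w :=
  ⟨h.1, fun b hb h1 h2 => ⟨fun a => (h.2 b hb h1 h2).1 (hΦ a), fun a => (h.2 b hb h1 h2).2 (hΦ a)⟩⟩

theorem Nr.symm (h : Nr G 𝓑 Φ v w) : Nr G 𝓑 Φ w v := by
  rcases h with h | h | ⟨u, h1, h2⟩
  exacts [Or.inl h.symm, Or.inr (Or.inl h.symm), Or.inr (Or.inr ⟨u, h2.symm, h1.symm⟩)]

theorem Nr.anti (h : Nr G 𝓑 Φ v w) (hΦ : Φ' ⊆ Φ) : Nr G 𝓑 Φ' v w := by
  rcases h with h | h | ⟨u, h1, h2⟩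
  exacts [Or.inl h, Or.inr (Or.inl (h.anti hΦ)), Or.inr (Or.inr ⟨u, h1.anti hΦ, h2.anti hΦ⟩)]

/-- An assignment of free nodes and slave nodes. -/
structure Asg (G : SimpleGraph V) (𝓑 : Set (Set V)) (S : Set V) (T : ℕ)
    (Fr Sl : Set (Set V × V)) : Prop where
  node : ∀ x ∈ Fr, Node 𝓑 S x
  disj : ∀ x ∈ Fr, x ∉ Sl
  i1a : ∀ x ∈ Fr, ∀ s ∈ S, ¬ Vis G 𝓑 Fr x.2 s
  i1b : ∀ x ∈ Fr, ∀ x', Node 𝓑 S x' → x' ∉ Sl → x' ≠ x → ¬ Nr G 𝓑 (insert x' Fr) x.2 x'.2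
  i2 : ∀ b, ∀ p ∈ b, ∀ q ∈ b, ∀ r ∈ b, p ≠ q → p ≠ r → q ≠ r → WkLe (res G b) univ p q T →
    WkLe (res G b) univ p r T → WkLe (res G b) univ q r T → (b, q) ∉ Fr → (b, r) ∉ Fr →
    (b, p) ∉ Sl

theorem Asg.not_nr (h : Asg G 𝓑 S T Fr Sl) {x x' : Set V × V} (hx : x ∈ Fr) (hx' : x' ∈ Fr)
    (hne : x' ≠ x) : ¬ Nr G 𝓑 Fr x.2 x'.2 := by
  have := h.i1b x hx x' (h.node x' hx') (h.disj x' hx') hne
  rwa [insert_eq_of_mem hx'] at this

theorem Asg.uniq (h : Asg G 𝓑 S T Fr Sl) {b b' : Set V} (hb : (b, v) ∈ Fr) (hb' : (b', v) ∈ Fr) :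
    b' = b := by
  by_contra hne
  exact h.not_nr hb hb' (fun e => hne (congrArg Prod.fst e)) (Or.inl rfl)

theorem stuck {t : ℕ} (hF : Fam G 𝓑 t) (ht : 1 ≤ t) (h : Asg G 𝓑 S T Fr Sl)
    (h₁ : ∀ x, x ∉ Fr → x ∉ Sl → ¬ Asg G 𝓑 S T Fr (insert x Sl))
    (h₂ : ∀ x, x ∉ Fr → x ∉ Sl → ¬ Asg G 𝓑 S T (insert x Fr) Sl)
    (hne : {x | Node 𝓑 S x ∧ x ∉ Fr ∧ x ∉ Sl}.Nonempty) :
    Stuck G 𝓑 S T {x | Node 𝓑 S x ∧ x ∉ Fr ∧ x ∉ Sl} := by
  refine ⟨hne, fun b v hx => ⟨hx.1.1, hx.1.2.1⟩, ?_, ?_⟩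
  · rintro b v ⟨hN, hf, hs⟩
    by_contra hc
    refine h₁ _ hf hs ⟨h.node, ?_, h.i1a,
      fun x hx x' a1 a2 => h.i1b x hx x' a1 fun a => a2 (Or.inr a), ?_⟩
    · rintro x hx (rfl | a)
      exacts [hf hx, h.disj x hx a]
    · rintro b' p hp q hq r hr n1 n2 n3 w1 w2 w3 f1 f2 (e | a)
      swap
      · exact h.i2 b' p hp q hq r hr n1 n2 n3 w1 w2 w3 f1 f2 a
      obtain ⟨rfl, rfl⟩ := Prod.mk.inj e
      refine hc ⟨q, hq, r, hr, n3, n1.symm, n2.symm, (w1.of_res hp).mono inter_subset_right,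
        (w2.of_res hp).mono inter_subset_right, ?_, ?_⟩
      · exact or_iff_not_imp_left.2 fun a => ⟨⟨hN.1, hq, a⟩, f1,
          h.i2 b' q hq p hp r hr n1.symm n3 n2 w1.symm w3 w2 hf f2⟩
      · exact or_iff_not_imp_left.2 fun a => ⟨⟨hN.1, hr, a⟩, f2,
          h.i2 b' r hr p hp q hq n2.symm n3.symm n1 w2.symm w3.symm w1 hf f1⟩
  · rintro b v ⟨hN, hf, hs⟩
    by_contra hc
    rw [not_or] at hc
    refine h₂ _ hf hs ⟨?_, ?_, ?_, ?_, fun b' p hp q hq r hr n1 n2 n3 w1 w2 w3 f1 f2 =>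
      h.i2 b' p hp q hq r hr n1 n2 n3 w1 w2 w3 (fun a => f1 (Or.inr a)) fun a => f2 (Or.inr a)⟩
    · rintro x (rfl | hx)
      exacts [hN, h.node x hx]
    · rintro x (rfl | hx)
      exacts [hs, h.disj x hx]
    · rintro x (rfl | hx) s hsS hv
      · exact hc.1 ⟨s, hsS, hv.1, fun a => (hv.2 b hN.1 a.1 a.2).1 (Or.inl rfl)⟩
      · exact h.i1a x hx s hsS (hv.anti (subset_insert _ _))
    · rintro x (rfl | hx) ⟨b', v'⟩ hN' hs' hne' hv
      swap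
      · exact h.i1b x hx _ hN' hs' hne' (hv.anti (insert_subset_insert (subset_insert _ _)))
      have hf' : (b', v') ∉ Fr := fun a =>
        h.i1b _ a _ hN hs hne'.symm (hv.symm.anti (subset_insert _ _))
      have m1 : (b, v) ∈ insert (b', v') (insert (b, v) Fr) := Or.inr (Or.inl rfl)
      have m2 : (b', v') ∈ insert (b', v') (insert (b, v) Fr) := Or.inl rfl
      have hw : WkLe (cut G b ⊓ cut G b') univ v v' 2 := by
        rcases hv with e | hv | ⟨u, a1, a2⟩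
        · exact (show v = v' from e) ▸ WkLe.refl (mem_univ _) 2
        · exact (WkLe.single (G := cut G b ⊓ cut G b') (mem_univ _) (mem_univ _)
            ⟨⟨hv.1, fun a => (hv.2 b hN.1 a.1 a.2).1 m1⟩,
              hv.1, fun a => (hv.2 b' hN'.1 a.1 a.2).2 m2⟩).le (by omega)
        · have u1 : u ∉ b := fun a => (a1.2 b hN.1 hN.2.1 a).1 m1
          have u2 : u ∉ b' := fun a => (a2.2 b' hN'.1 a hN'.2.1).2 m2
          exact WkLe.cons (G := cut G b ⊓ cut G b') (mem_univ _)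
            ⟨⟨a1.1, fun a => u1 a.2⟩, a1.1, fun a => u2 a.2⟩
            (WkLe.single (mem_univ _) (mem_univ _) ⟨⟨a2.1, fun a => u1 a.1⟩, a2.1, fun a => u2 a.1⟩)
      refine hc.2 ⟨b', v', ⟨hN', hf', hs'⟩, ?_, hw⟩
      rintro rfl
      have := hF.sep b' hN.1 v hN.2.1 v' hN'.2.1 ((hw.monoG inf_le_left).le (by omega))
      exact hne' (by rw [this])

theorem card_le_two {H : SimpleGraph V} {n : ℕ} (hS : Sparse H S n) (hn : 2 ≤ n) {X : Finset V}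
    (hX : ∀ s ∈ X, s ∈ S ∧ H.Adj v s) : X.card ≤ 2 := by
  classical
  by_contra hc
  obtain ⟨a, b, c, ha, hb, hc, n1, n2, n3⟩ := Finset.two_lt_card_iff.1 (not_le.1 hc)
  have k : ∀ x ∈ X, ∀ y ∈ X, WkLe H univ x y n := fun x hx y hy =>
    (WkLe.cons (mem_univ _) (hX x hx).2.symm (WkLe.single (mem_univ _) (mem_univ _) (hX y hy).2)).le hn
  rcases hS a (hX a ha).1 b (hX b hb).1 c (hX c hc).1 (k a ha b hb) (k a ha c hc) (k b hb c hc)
    with e | e | e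
  exacts [n1 e, n2 e, n3 e]

theorem done [Fintype V] [DecidableEq V] {t T' F : ℕ} (hT : 2 ≤ T) (hT' : T ≤ T')
    (hS : Sparse G S T') (hQ : ∀ b ∈ 𝓑, ∀ Sb, Sparse (res G b) Sb T → QP G b Sb F)
    (hcyc : ∀ C, TCyc G C → Odd C.card → C.card ≤ t → ∃ b ∈ 𝓑, ↑C ⊆ b)
    (hcol : ∀ A : Set V, OddFree (res G A) t → Col G A F) (h : Asg G 𝓑 S T Fr Sl)
    (hall : ∀ x, Node 𝓑 S x → x ∉ Fr → x ∈ Sl) : QP G univ S F := by
  classical
  have hsp : ∀ b ∈ 𝓑, Sparse (res G b) {v | v ∈ b ∧ (b, v) ∉ Fr} T := by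
    rintro b hb p ⟨hp, fp⟩ q ⟨hq, fq⟩ r ⟨hr, fr⟩ w1 w2 w3
    by_contra hc
    simp only [not_or] at hc
    obtain ⟨n1, n2, n3⟩ := hc
    have s1 : p ∈ S := by_contra fun a =>
      h.i2 b p hp q hq r hr n1 n2 n3 w1 w2 w3 fq fr (hall _ ⟨hb, hp, a⟩ fp)
    have s2 : q ∈ S := by_contra fun a =>
      h.i2 b q hq p hp r hr (Ne.symm n1) n3 n2 w1.symm w3 w2 fp fr (hall _ ⟨hb, hq, a⟩ fq)
    have s3 : r ∈ S := by_contra fun a =>
      h.i2 b r hr p hp q hq (Ne.symm n2) (Ne.symm n3) n1 w2.symm w3.symm w1 fp fq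
        (hall _ ⟨hb, hr, a⟩ fr)
    rcases hS p s1 q s2 r s3 ((w1.monoG (res_le _ _)).le hT') ((w2.monoG (res_le _ _)).le hT')
      ((w3.monoG (res_le _ _)).le hT') with e | e | e
    exacts [n1 e, n2 e, n3 e]
  choose cb κb q1 q2 q3 using fun b hb => hQ b hb _ (hsp b hb)
  obtain ⟨cT, c1, c2⟩ := hcol {v | ¬ ∃ b, (b, v) ∈ Fr} (oddFree_of_cyc fun k hk ho hc => by
    obtain ⟨C, a1, a2, a3⟩ := hc.of_res.tight
    obtain ⟨b, hb, a4⟩ := hcyc C a3 (a2 ▸ ho) (a2 ▸ hk)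
    obtain ⟨c, a5, a6⟩ := a3
    have a7 := a5.three
    have m : ∀ i < C.card, c i ∈ {v | v ∈ b ∧ (b, v) ∉ Fr} := fun i hi =>
      ⟨a4 (a6 i hi), fun a => (a1 (a6 i hi)).2 ⟨b, a⟩⟩
    have e1 : (res G b).Adj (c 0) (c 1) :=
      ⟨a5.adj (i := 0) (by omega), (m 0 (by omega)).1, (m 1 (by omega)).1⟩
    have e2 : (res G b).Adj (c 1) (c 2) :=
      ⟨a5.adj (i := 1) (by omega), (m 1 (by omega)).1, (m 2 (by omega)).1⟩
    rcases hsp b hb _ (m 0 (by omega)) _ (m 1 (by omega)) _ (m 2 (by omega))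
      ((WkLe.single (mem_univ _) (mem_univ _) e1).le (by omega))
      ((WkLe.cons (mem_univ _) e1 (WkLe.single (mem_univ _) (mem_univ _) e2)).le hT)
      ((WkLe.single (mem_univ _) (mem_univ _) e2).le (by omega)) with e | e | e
    · exact e1.ne e
    · exact absurd (a5.inj (by omega) (by omega) e) (by omega)
    · exact e2.ne e)
  let c : V → ℕ := fun v => if a : ∃ b, (b, v) ∈ Fr then
    cb a.choose (h.node _ a.choose_spec).1 v else cT v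
  let κ : V → Finset V := fun v => if a : ∃ b, (b, v) ∈ Fr then
    κb a.choose (h.node _ a.choose_spec).1 v else
      (Finset.univ.filter fun s => s ∈ S ∧ G.Adj v s) ∪
        Finset.univ.filter fun w => (∃ b, (b, w) ∈ Fr) ∧ Vis G 𝓑 Fr v w
  have hfree : ∀ b v (a : (b, v) ∈ Fr), c v = cb b (h.node _ a).1 v ∧
      κ v = κb b (h.node _ a).1 v := fun b v a => by
    have a' : ∃ b, (b, v) ∈ Fr := ⟨b, a⟩
    have e : ∀ b' (a1 : (b', v) ∈ Fr), cb b' (h.node _ a1).1 v = cb b (h.node _ a).1 v ∧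
        κb b' (h.node _ a1).1 v = κb b (h.node _ a).1 v := fun b' a1 => by
      obtain rfl := h.uniq a a1
      exact ⟨rfl, rfl⟩
    simp only [c, κ, dif_pos a']
    exact e _ a'.choose_spec
  have k1 : ∀ b v w, G.Adj v w → (b, v) ∈ Fr → w ∈ b → (b, w) ∉ Fr → w ∈ κ v :=
    fun b v w ha a hw a' => by
      rw [(hfree b v a).2]
      exact (q3 b _ w hw v (h.node _ a).2.1 ha.symm fun x => x.2 a).1 ⟨hw, a'⟩
  have k2 : ∀ v w, G.Adj v w → ¬ Vis G 𝓑 Fr v w → c v ≠ c w ∨ v ∈ κ w ∨ w ∈ κ v := by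
    intro v w ha hv
    obtain ⟨b, hb, hv, hw, hor⟩ : ∃ b ∈ 𝓑, v ∈ b ∧ w ∈ b ∧ ((b, v) ∈ Fr ∨ (b, w) ∈ Fr) := by
      by_contra hc
      exact hv ⟨ha, fun b hb h1 h2 => not_or.1 fun a => hc ⟨b, hb, h1, h2, a⟩⟩
    by_cases f1 : (b, v) ∈ Fr <;> by_cases f2 : (b, w) ∈ Fr
    · rw [(hfree b v f1).1, (hfree b v f1).2, (hfree b w f2).1, (hfree b w f2).2]
      exact (q3 b hb v hv w hw ha fun x => x.2 f2).2 fun x => x.2 f1
    · exact Or.inr (Or.inr (k1 b v w ha f1 hw f2))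
    · exact Or.inr (Or.inl (k1 b w v ha.symm f2 hv f1))
    · exact (hor.elim f1 f2).elim
  have k3 : ∀ v w, (¬ ∃ b, (b, v) ∈ Fr) → (∃ b, (b, w) ∈ Fr) → Vis G 𝓑 Fr v w → w ∈ κ v :=
    fun v w a1 a2 a3 => by
      simp only [κ, dif_neg a1, Finset.mem_union, Finset.mem_filter, Finset.mem_univ, true_and]
      exact Or.inr ⟨a2, a3⟩
  refine ⟨c, κ, fun v => ?_, fun v _ _ => ?_, fun v _ w _ ha hw => ⟨fun hv => ?_, fun _ => ?_⟩⟩
  · by_cases a : ∃ b, (b, v) ∈ Fr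
    · obtain ⟨b, a⟩ := a
      rw [(hfree b v a).2]
      exact q1 _ _ _
    · simp only [κ, dif_neg a]
      refine (Finset.card_union_le _ _).trans (add_le_add (b := 2) (d := 1)
        (card_le_two hS (hT.trans hT') fun s hs => (Finset.mem_filter.1 hs).2) ?_)
      refine Finset.card_le_one.2 fun x hx y hy => by_contra fun hne => ?_
      obtain ⟨-, ⟨b, a1⟩, a2⟩ := Finset.mem_filter.1 hx
      obtain ⟨-, ⟨b', a3⟩, a4⟩ := Finset.mem_filter.1 hy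
      exact h.not_nr a1 a3 (fun e => hne (congrArg Prod.snd e).symm)
        (Or.inr (Or.inr ⟨v, a2.symm, a4⟩))
  · by_cases a : ∃ b, (b, v) ∈ Fr
    · obtain ⟨b, a⟩ := a
      rw [(hfree b v a).1]
      exact q2 b _ v (h.node _ a).2.1 fun x => x.2 a
    · simp only [c, dif_neg a]
      exact c1 v a
  · by_cases a : ∃ b, (b, w) ∈ Fr
    · obtain ⟨b, a⟩ := a
      by_contra hc
      refine h.i1a _ a v hv ⟨ha.symm, fun b' _ _ h2 => ?_⟩
      have f : (b', v) ∉ Fr := fun x => (h.node _ x).2.2 hv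
      exact ⟨fun x => hc (k1 b' w v ha.symm x h2 f), f⟩
    · simp only [κ, dif_neg a, Finset.mem_union, Finset.mem_filter, Finset.mem_univ, true_and]
      exact Or.inl ⟨hv, ha.symm⟩
  · by_cases hv : Vis G 𝓑 Fr v w
    swap
    · exact k2 v w ha hv
    by_cases a1 : ∃ b, (b, v) ∈ Fr <;> by_cases a2 : ∃ b, (b, w) ∈ Fr
    · obtain ⟨b, a1⟩ := a1
      obtain ⟨b', a2⟩ := a2
      exact (h.not_nr a1 a2 (fun e => ha.ne (congrArg Prod.snd e).symm)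
        (Or.inr (Or.inl hv))).elim
    · exact Or.inr (Or.inl (k3 w v a2 a1 hv.symm))
    · exact Or.inr (Or.inr (k3 v w a1 a2 hv))
    · simp only [c, dif_neg a1, dif_neg a2]
      exact Or.inl (c2 v a1 w a2 ha)

end Peel

variable {V : Type*} [Fintype V] [DecidableEq V]

theorem peel (G : SimpleGraph V) (𝓑 : Set (Set V)) (S : Set V) (t T T' F : ℕ) (hF : Fam G 𝓑 t)
    (ht : 1 ≤ t) (hT : 2 ≤ T) (hT' : T ≤ T') (hS : Sparse G S T')
    (hQ : ∀ b ∈ 𝓑, ∀ Sb, Sparse (res G b) Sb T → QP G b Sb F)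
    (hcyc : ∀ C, TCyc G C → Odd C.card → C.card ≤ t → ∃ b ∈ 𝓑, ↑C ⊆ b)
    (hcol : ∀ A : Set V, OddFree (res G A) t → Col G A F) :
    QP G univ S F ∨ ∃ 𝒰, Stuck G 𝓑 S T 𝒰 := by
  obtain ⟨⟨Fr, Sl⟩, h, hmax⟩ := Set.exists_max_image
    {p : Set (Set V × V) × Set (Set V × V) | Peel.Asg G 𝓑 S T p.1 p.2}
    (fun p => (p.1 ∪ p.2).ncard) (Set.toFinite _)
    ⟨(∅, ∅), by simp, by simp, by simp, by simp, by simp⟩
  have hlt : ∀ x, x ∉ Fr → x ∉ Sl → (Fr ∪ Sl).ncard < (insert x (Fr ∪ Sl)).ncard :=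
    fun x a1 a2 => by
      rw [Set.ncard_insert_of_notMem fun a => a.elim a1 a2]
      omega
  by_cases hne : {x | Peel.Node 𝓑 S x ∧ x ∉ Fr ∧ x ∉ Sl}.Nonempty
  · refine Or.inr ⟨_, Peel.stuck hF ht h (fun x a1 a2 a => ?_) (fun x a1 a2 a => ?_) hne⟩
    · have := hmax (Fr, insert x Sl) a
      simp only [union_insert] at this
      exact absurd (hlt x a1 a2) (not_lt.2 this)
    · have := hmax (insert x Fr, Sl) a
      simp only [insert_union] at this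
      exact absurd (hlt x a1 a2) (not_lt.2 this)
  · exact Or.inl (Peel.done hT hT' hS hQ hcyc hcol h fun x a1 a2 =>
      by_contra fun a3 => hne ⟨x, a1, a2, a3⟩)

theorem col_of_qp (G : SimpleGraph V) (β : Set V) (F : ℕ) (h : QP G β ∅ F) : Col G β (F * 7) := by
  classical
  obtain ⟨c, κ, h1, h2, h3⟩ := h
  let K : SimpleGraph V :=
    { Adj := fun v w => v ≠ w ∧ (v ∈ κ w ∨ w ∈ κ v)
      symm := ⟨fun _ _ h => ⟨h.1.symm, h.2.symm⟩⟩
      loopless := ⟨fun _ h => h.1 rfl⟩ }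
  let L : SimpleGraph V :=
    { Adj := fun v w => c v ≠ c w
      symm := ⟨fun _ _ h => h.symm⟩
      loopless := ⟨fun _ h => h rfl⟩ }
  have hK : Col K ↑(Finset.univ : Finset V) 7 := by
    refine Col.of_degenerate fun B _ hB => ?_
    by_contra hc
    push Not at hc
    have a1 : ∀ v, ∑ w ∈ B, (if w ∈ κ v then 1 else 0) ≤ 3 := fun v => by
      rw [← Finset.card_filter]
      exact (Finset.card_le_card fun x hx => (Finset.mem_filter.1 hx).2).trans (h1 v)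
    have a2 : ∀ v, dg K B v ≤
        ∑ w ∈ B, (if v ∈ κ w then 1 else 0) + ∑ w ∈ B, (if w ∈ κ v then 1 else 0) := fun v => by
      rw [← Finset.card_filter, ← Finset.card_filter, ← card_nbr]
      refine le_trans (Finset.card_le_card fun x hx => ?_) (Finset.card_union_le _ _)
      obtain ⟨b1, -, b2⟩ := mem_nbr.1 hx
      simp only [Finset.mem_union, Finset.mem_filter]
      exact b2.imp (fun a => ⟨b1, a⟩) fun a => ⟨b1, a⟩
    have a3 := Finset.sum_le_sum fun v (hv : v ∈ B) => (hc v hv).trans (a2 v)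
    rw [Finset.sum_add_distrib, Finset.sum_comm] at a3
    have a4 := Finset.sum_le_sum fun v (_ : v ∈ B) => a1 v
    have a5 := hB.card_pos
    simp only [Finset.sum_const, smul_eq_mul] at a3 a4
    omega
  refine Col.prod (G1 := L) (G2 := K) ⟨c, fun v hv => h2 v hv (notMem_empty v),
    fun _ _ _ _ a => a⟩ (hK.mono (by simp)) fun u hu v hv ha => ?_
  exact ((h3 u hu v hv ha (notMem_empty v)).2 (notMem_empty u)).imp id fun a => ⟨ha.ne, a⟩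

theorem qp_base (G : SimpleGraph V) (b S : Set V) (F : ℕ) (h : Col G b F)
    (hS : Sparse (res G b) S 2) : QP G b S F := by
  classical
  obtain ⟨c, h1, h2⟩ := h
  refine ⟨c, fun w => Finset.univ.filter fun s => s ∈ S ∧ (res G b).Adj w s, fun w => ?_,
    fun v hv _ => h1 v hv, fun v hv w hw ha _ => ⟨fun a => ?_, fun _ => Or.inl (h2 v hv w hw ha)⟩⟩
  · exact (Peel.card_le_two hS le_rfl fun s hs => (Finset.mem_filter.1 hs).2).trans (by omega)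
  · exact Finset.mem_filter.2 ⟨Finset.mem_univ _, a, ha.symm, hw, hv⟩

end Pool.Agent.P.MP_0cc987_co
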