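import Pool.Agent.P.MP_0cc987_co.Num

/-! From a short cycle far from `W0` to an adjuster or a new bad set. -/

namespace Pool.Agent.P.MP_0cc987_co

open Set

variable {V : Type*} [Fintype V] [DecidableEq V]

namespace RAin

/-- A rooted set touching a cycle only in its root has few neighbours on the cycle, or there is a
much shorter cycle. -/
theorem contact {G : SimpleGraph V} {C X : Finset V} {v : V} {ρ : ℕ} (hC : TCyc G C) (hv : v ∈ C)
    (hX : Rt G X v ρ) (hXC : ∀ x ∈ X, x ∈ C → x = v) :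
    (nb G X ∩ C).card ≤ 2 * ρ + 3 ∨ ∃ C' ⊆ C ∪ X, TCyc G C' ∧ C'.card < C.card ∧
      2 * C'.card ≤ C.card + 2 * (ρ + 1) := by
  obtain ⟨c, hc, h0, hm⟩ := hC.exists_fun_at hv
  by_cases hex : ∃ i, ρ + 1 < i ∧ i + (ρ + 1) < C.card ∧ c i ∈ nb G X
  · right
    obtain ⟨i, h1, h2, h3⟩ := hex
    obtain ⟨h4, x, hx, ha⟩ := mem_nb.1 h3
    obtain ⟨k, hk, hp⟩ := (hX.2 x hx).pth
    have hp' := hp.snoc ha (by simpa using h4)
    have hne : v ≠ c i := fun e => h4 (e ▸ hX.1)
    have key : ∀ (S : Set V) (m : ℕ), S ⊆ ↑C → Pth G S v (c i) m → 2 ≤ m →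
        ∃ C' ⊆ C ∪ X, TCyc G C' ∧ C'.card = k + 1 + m := by
      intro S m hS hq hm2
      have h5 := hp'.close hq hne (by omega) (by
        rintro y (rfl | hy) hy'
        · exact Or.inr rfl
        · exact Or.inl (hXC y hy (hS hy')))
      obtain ⟨C', a1, a2, a3⟩ := h5.tight
      refine ⟨C', fun y hy => ?_, a3, a2⟩
      rcases a1 hy with (rfl | h) | h
      · exact Finset.mem_union_left _ ((hm _).2 ⟨i, by omega, rfl⟩)
      · exact Finset.mem_union_right _ h
      · exact Finset.mem_union_left _ (hS h)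
    by_cases hi : 2 * i ≤ C.card
    · have a := hc.arc (Nat.zero_le i) (by omega)
      rw [h0] at a
      obtain ⟨C', b1, b2, b3⟩ := key _ _ (by
        rintro _ ⟨l, _, h, rfl⟩
        exact (hm _).2 ⟨l, by omega, rfl⟩) a (by omega)
      exact ⟨C', b1, b2, by omega, by omega⟩
    · have a := hc.arc' (i := 0) (j := i) (by omega) (by omega)
      rw [h0] at a
      obtain ⟨C', b1, b2, b3⟩ := key _ _ (by
        rintro _ (⟨l, _, h, rfl⟩ | ⟨l, _, h, rfl⟩) <;>
        exact (hm _).2 ⟨l, by omega, rfl⟩) a (by omega)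
      exact ⟨C', b1, b2, by omega, by omega⟩
  · left
    push Not at hex
    have hsub : nb G X ∩ C ⊆
        (Finset.range (ρ + 2) ∪ Finset.Ico (C.card - (ρ + 1)) C.card).image c := by
      intro y hy
      rw [Finset.mem_inter] at hy
      obtain ⟨i, hi, rfl⟩ := (hm y).1 hy.2
      refine Finset.mem_image.2 ⟨i, ?_, rfl⟩
      rw [Finset.mem_union, Finset.mem_range, Finset.mem_Ico]
      by_contra h
      exact hex i (by omega) (by omega) hy.1
    refine (Finset.card_le_card hsub).trans (Finset.card_image_le.trans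
      ((Finset.card_union_le _ _).trans ?_))
    rw [Finset.card_range, Nat.card_Ico]
    omega

theorem card_nbU_le {G : SimpleGraph V} {U X : Finset V} {s : ℕ} (h : ∀ x ∈ X, dg G U x ≤ s) :
    (nb G X ∩ U).card ≤ X.card * s := by
  have : nb G X ∩ U ⊆ X.biUnion fun x => nbr G U x := by
    intro y hy
    rw [Finset.mem_inter] at hy
    obtain ⟨_, x, hx, ha⟩ := mem_nb.1 hy.1
    exact Finset.mem_biUnion.2 ⟨x, hx, mem_nbr.2 ⟨hy.2, ha⟩⟩
  exact (Finset.card_le_card this).trans (Finset.card_biUnion_le_card_mul _ _ _ h)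

theorem dg_le_of_mem {G : SimpleGraph V} {X Y : Finset V} {x : V} (hx : x ∈ X) :
    dg G Finset.univ x ≤ (nb G X \ Y).card + X.card + Y.card := by
  have : nbr G Finset.univ x ⊆ (nb G X \ Y) ∪ X ∪ Y := by
    intro y hy
    have ha := (mem_nbr.1 hy).2
    simp only [Finset.mem_union, Finset.mem_sdiff, mem_nb]
    by_cases h1 : y ∈ X
    · exact Or.inl (Or.inr h1)
    by_cases h2 : y ∈ Y
    · exact Or.inr h2
    exact Or.inl (Or.inl ⟨⟨h1, x, hx, ha⟩, h2⟩)
  rw [← card_nbr]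
  refine (Finset.card_le_card this).trans ((Finset.card_union_le _ _).trans ?_)
  have := Finset.card_union_le (nb G X \ Y) X
  omega

theorem sq_big {lam : ℕ} (h : 15000 ≤ lam) : 2 * lam + 3 ≤ lam ^ 2 := by nlinarith

theorem pow_lt {lam a : ℕ} (h : 15000 ≤ lam) (ha : a ≤ 98) : lam ^ a < 2 ^ lam := by
  have h1 := two_mul_pow98 h
  have h2 : lam ^ a ≤ lam ^ 98 := Nat.pow_le_pow_right (by omega) ha
  have h3 : 0 < lam ^ 98 := by positivity
  omega

theorem half_le {n s j0 ρ L lam : ℕ} (hP : Par n s j0 ρ L lam) : 2 * 2 ^ (5 * lam ^ 2) ≤ n := by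
  have h1 := hP.nbig
  have h0 := hP.lam0
  have h2 : 6 * lam ^ 2 ≤ lam ^ 98 := mul_pow_le_pow (by omega) (by omega) (by omega)
  have h3 := sq_big h0
  have h4 : 2 ^ (5 * lam ^ 2 + 2) ≤ 2 ^ (lam ^ 98) := Nat.pow_le_pow_right (by omega) (by omega)
  rw [pow_add] at h4
  omega

/-- A stalled set with few neighbours outside `U` is bad. -/
theorem bad_of {G : SimpleGraph V} {H U X : Finset V} {s j0 ρ L lam q : ℕ}
    (hP : Par H.card s j0 ρ L lam) (hU : U.card ≤ 2 ^ (lam ^ 2)) (hXH : X ⊆ H)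
    (hne : X.Nonempty) (hs : ∀ x ∈ X, dg G U x ≤ s) (hq : q * (nb G X \ U).card < 3 * X.card)
    (hX : X.card < 2 ^ (3 * lam ^ 2))
    (ht : q = lam ^ 5 ∨ ∃ j, j0 ≤ j ∧ q = 240000 * j ^ 2 ∧ 2 ^ j ≤ X.card ∧
      X.card < 2 ^ (10 * j) ∧ 2 ^ (2 * j) < lam ^ 18) : BadIn G H U X lam := by
  have h0 := hP.lam0
  have hh := half_le hP
  have hsq := sq_big h0
  have hpos := hne.card_pos
  refine ⟨hne, hX, ?_⟩
  rcases ht with rfl | ⟨j, hj, rfl, h1, h2, h3⟩
  · have hsz : 2 ^ (lam ^ 2 + lam) * X.card ≤ 2 ^ (5 * lam ^ 2) :=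
      calc 2 ^ (lam ^ 2 + lam) * X.card ≤ 2 ^ (lam ^ 2 + lam) * 2 ^ (3 * lam ^ 2) :=
            Nat.mul_le_mul_left _ hX.le
        _ = 2 ^ (lam ^ 2 + lam + 3 * lam ^ 2) := (pow_add _ _ _).symm
        _ ≤ 2 ^ (5 * lam ^ 2) := Nat.pow_le_pow_right (by omega) (by omega)
    have e : 200 * (5 * lam ^ 2) ^ 2 = 5000 * lam ^ 4 := by ring
    have h5 : 15000 * lam ^ 4 ≤ lam ^ 5 := mul_pow_le_pow h0 (by omega) (by omega)
    refine ⟨5 * lam ^ 2, U, 2 ^ (lam ^ 2 + lam), ⟨hXH, Finset.Subset.rfl, fun _ _ h => h, by omega,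
      hsz, by omega, ?_, ?_⟩, le_rfl, le_rfl, Or.inr rfl⟩
    · rw [e]
      have := Nat.mul_le_mul_right (nb G X \ U).card h5
      have e2 : 15000 * lam ^ 4 * (nb G X \ U).card = 3 * (5000 * lam ^ 4 * (nb G X \ U).card) := by
        ring
      omega
    · rw [e]
      have h6 := pow_lt h0 (a := 5) (by omega)
      calc 5000 * lam ^ 4 * U.card ≤ 5000 * lam ^ 4 * 2 ^ (lam ^ 2) := Nat.mul_le_mul_left _ hU
        _ < 2 ^ lam * 2 ^ (lam ^ 2) :=
          Nat.mul_lt_mul_of_pos_right (by omega) (by positivity)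
        _ = 2 ^ (lam ^ 2 + lam) * 1 := by ring
        _ ≤ 2 ^ (lam ^ 2 + lam) * X.card := Nat.mul_le_mul_left _ hpos
  · have hj80 := hP.j80
    have h4 : 2 * j < lam := by
      have := h3.trans (pow_lt h0 (a := 18) (by omega))
      exact (Nat.pow_lt_pow_iff_right (by omega)).1 this
    have hk : 20 * j ≤ 5 * lam ^ 2 := by omega
    have h90 : X.card ≤ lam ^ 90 :=
      calc X.card ≤ 2 ^ (10 * j) := h2.le
        _ = (2 ^ (2 * j)) ^ 5 := by rw [← pow_mul]; congr 1; ring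
        _ ≤ (lam ^ 18) ^ 5 := Nat.pow_le_pow_left h3.le _
        _ = lam ^ 90 := by rw [← pow_mul]
    have hsz : X.card * X.card ≤ 2 ^ (20 * j) :=
      calc X.card * X.card ≤ 2 ^ (10 * j) * 2 ^ (10 * j) := Nat.mul_le_mul h2.le h2.le
        _ = 2 ^ (20 * j) := by rw [← pow_add]; congr 1; ring
    have hsz' : 2 ^ (20 * j) ≤ 2 ^ (5 * lam ^ 2) := Nat.pow_le_pow_right (by omega) hk
    have hZ := card_nbU_le (G := G) (U := U) hs
    have e : 200 * (20 * j) ^ 2 = 80000 * j ^ 2 := by ring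
    refine ⟨20 * j, nb G X ∩ U, X.card, ⟨hXH, Finset.inter_subset_right,
      fun w a b => Finset.mem_inter.2 ⟨a, b⟩, by omega, hsz, by omega, ?_, ?_⟩, hk, ?_, Or.inl ?_⟩
    · rw [e]
      have e2 : 240000 * j ^ 2 * (nb G X \ U).card = 3 * (80000 * j ^ 2 * (nb G X \ U).card) := by
        ring
      omega
    · rw [e]
      have h5 := hP.sj j hj
      calc 80000 * j ^ 2 * (nb G X ∩ U).card ≤ 80000 * j ^ 2 * (X.card * s) :=
            Nat.mul_le_mul_left _ hZ
        _ = 80000 * s * j ^ 2 * X.card := by ring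
        _ < 2 ^ j * X.card := Nat.mul_lt_mul_of_pos_right h5 hpos
        _ ≤ X.card * X.card := Nat.mul_le_mul_right _ h1
    · have h6 := pow_lt h0 (a := 90) (by omega)
      have h7 : 2 ^ lam ≤ 2 ^ (lam ^ 2 + lam) := Nat.pow_le_pow_right (by omega) (by omega)
      omega
    · calc (nb G X ∩ U).card ≤ X.card * s := hZ
        _ ≤ lam ^ 90 * lam := Nat.mul_le_mul h90 hP.sl
        _ = lam ^ 91 := by ring

/-- No short walk through vertices of low degree joins the set `C` to `W0`. -/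
def Far (G : SimpleGraph V) (W0 C : Finset V) (lam d : ℕ) : Prop :=
  ∀ v ∈ C, ∀ w ∈ W0, ¬ WkLe G {x | dg G Finset.univ x < 2 ^ (3 * lam ^ 2 + 2)} v w d

omit [DecidableEq V] in
theorem Far.le {G : SimpleGraph V} {W0 C : Finset V} {lam d d' : ℕ} (h : Far G W0 C lam d)
    (hd : d' ≤ d) : Far G W0 C lam d' := fun v hv w hw h' => h v hv w hw (h'.le hd)

omit [Fintype V] [DecidableEq V] in
theorem exists_adj {G : SimpleGraph V} {C : Finset V} {v : V} (hC : TCyc G C) (hv : v ∈ C) :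
    ∃ w, G.Adj v w := by
  obtain ⟨c, hc, h0, _⟩ := hC.exists_fun_at hv
  have := hc.three
  exact ⟨c 1, h0 ▸ hc.adj (i := 0) (by omega)⟩

/-- One step of the shortening process. -/
theorem step (hT : TwoSt V) {G : SimpleGraph V} {σ : V → Bool}
    (hσ : ∀ a b, G.Adj a b → σ a ≠ σ b) {H U W0 C : Finset V} {s j0 ρ L lam d : ℕ}
    (hE : Expd G H ρ) (hP : Par H.card s j0 ρ L lam) (hU : U.card ≤ 2 ^ (lam ^ 2))
    (hW : ∀ v, s ≤ dg G U v → v ∈ W0) (hC : TCyc G C) (hCL : C.card ≤ 2 * L + 4)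
    (hCU : Disjoint C U) (hfar : Far G W0 C lam (d + (4 * lam ^ 7 + 1))) :
    (Adjuster G U (2 ^ (lam ^ 2)) (lam ^ 8) (2 * L + 4) ∨
      ∃ X, BadIn G H U X lam ∧ Disjoint X W0) ∨
    ∃ C', TCyc G C' ∧ Disjoint C' U ∧ C'.card < C.card ∧
      2 * C'.card ≤ C.card + 2 * (4 * lam ^ 7 + 1) ∧ Far G W0 C' lam d := by
  have h0 := hP.lam0
  have hsq := sq_big h0
  obtain ⟨c, hc, hm⟩ := hC.exists_fun
  have h3 := hc.three
  obtain ⟨h, hh⟩ : ∃ h, C.card = 2 * h + 2 := by
    obtain ⟨u, hu⟩ := Cyc.wk hC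
    obtain ⟨r, hr⟩ := (hu.parity hσ).1 rfl
    exact ⟨r - 1, by omega⟩
  have m1 : c 0 ∈ C := (hm _).2 ⟨0, by omega, rfl⟩
  have m2 : c h ∈ C := (hm _).2 ⟨h, by omega, rfl⟩
  have hne : c 0 ≠ c h := fun e => by
    have := hc.inj (by omega) (by omega) e
    omega
  have p1 : Pth G ↑C (c 0) (c h) h := by
    have := hc.arc (Nat.zero_le h) (by omega)
    refine this.mono ?_
    rintro _ ⟨l, _, h, rfl⟩
    exact (hm _).2 ⟨l, by omega, rfl⟩
  have p2 : Pth G ↑C (c 0) (c h) (h + 2) := by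
    have := hc.arc' (i := 0) (j := h) (by omega) (by omega)
    rw [show C.card - (h - 0) = h + 2 by omega] at this
    refine this.mono ?_
    rintro _ (⟨l, _, h, rfl⟩ | ⟨l, _, h, rfl⟩) <;> exact (hm _).2 ⟨l, by omega, rfl⟩
  generalize c 0 = v1 at m1 hne p1 p2
  generalize c h = v2 at m2 hne p1 p2
  obtain ⟨Y, hY⟩ : ∃ Y : Finset V, Y = U ∪ (C \ {v1, v2}) := ⟨_, rfl⟩
  have mY : ∀ x, x ∈ Y ↔ x ∈ U ∨ (x ∈ C ∧ x ≠ v1 ∧ x ≠ v2) := by
    intro x
    simp only [hY, Finset.mem_union, Finset.mem_sdiff, Finset.mem_insert, Finset.mem_singleton,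
      not_or, ne_eq]
  have hUY : U ⊆ Y := fun x hx => (mY x).2 (Or.inl hx)
  have e1 : 2 ^ (lam + 2) ≤ 2 ^ (lam ^ 2) := Nat.pow_le_pow_right (by omega) (by omega)
  have e2 : 2 ^ (lam ^ 2 + 2) ≤ 2 ^ (3 * lam ^ 2) := Nat.pow_le_pow_right (by omega) (by omega)
  have e3 : 2 ^ (2 * j0 + 1 + 2) ≤ 2 ^ (lam ^ 2) :=
    Nat.pow_le_pow_right (by omega) (by have := hP.jl; omega)
  have e4 : 2 ^ 2 ≤ 2 ^ lam := Nat.pow_le_pow_right (by omega) (by omega)
  have e5 : 2 ^ 1 ≤ 2 ^ (2 * j0 + 1) := Nat.pow_le_pow_right (by omega) (by omega)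
  rw [pow_add] at e1 e2 e3
  have eΔ : 2 ^ (3 * lam ^ 2 + 2) = 4 * 2 ^ (3 * lam ^ 2) := by rw [pow_add]; ring
  have cY : Y.card ≤ 2 * 2 ^ (lam ^ 2) := by
    have a1 : Y.card ≤ U.card + (C \ {v1, v2}).card := hY ▸ Finset.card_union_le _ _
    have a2 : (C \ {v1, v2}).card ≤ C.card := Finset.card_le_card Finset.sdiff_subset
    have := hP.Ll
    omega
  have hsub : ∀ X : Finset V, (nb G X \ U).card ≤ (nb G X \ Y).card + (nb G X ∩ C).card := by
    intro X
    refine le_trans (Finset.card_le_card ?_) (Finset.card_union_le _ _)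
    intro x hx
    rw [Finset.mem_sdiff] at hx
    rw [Finset.mem_union, Finset.mem_sdiff, Finset.mem_inter, mY]
    tauto
  have deg : ∀ v ∈ C, 2 ^ (2 * j0 + 1) + 2 ≤ (nb G {v} \ Y).card ∨
      ∃ C', TCyc G C' ∧ Disjoint C' U ∧ C'.card < C.card ∧
        2 * C'.card ≤ C.card + 2 * (4 * lam ^ 7 + 1) ∧ Far G W0 C' lam d := by
    intro v hv
    by_cases hl : dg G Finset.univ v < 2 ^ (3 * lam ^ 2 + 2)
    · have a1 : dg G U v < s := by
        by_contra a
        exact hfar v hv v (hW v (by omega))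
          (WkLe.refl (S := {x | dg G Finset.univ x < 2 ^ (3 * lam ^ 2 + 2)}) hl _)
      rcases contact hC hv (Rt.singleton G v 0) (by simp) with a2 | ⟨C', a2, a3, a4, a5⟩
      · left
        obtain ⟨w, hw⟩ := exists_adj hC hv
        have a3 := (hE.deg v (hE.sup v w hw)).trans (dg_mono (Finset.subset_univ H) v)
        have a4 := hsub {v}
        have a5 := card_nbU_le (G := G) (U := U) (X := {v}) (s := s) (by simpa using a1.le)
        have a6 := Finset.card_sdiff_add_card_inter (nb G {v}) U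
        have a7 : (nb G {v}).card = dg G Finset.univ v := by rw [nb_singleton, card_nbr]
        have a8 := hP.rho
        rw [Finset.card_singleton] at a5
        omega
      · right
        have a6 : C' ⊆ C := fun x hx => by
          rcases Finset.mem_union.1 (a2 hx) with a | a
          · exact a
          · rwa [Finset.mem_singleton.1 a]
        exact ⟨C', a3, hCU.mono_left a6, a4, by omega,
          fun x hx => hfar.le (Nat.le_add_right _ _) x (a6 hx)⟩
    · left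
      have a1 := dg_le_of_mem (G := G) (X := {v}) (Y := Y) (Finset.mem_singleton_self v)
      rw [Finset.card_singleton] at a1
      omega
  have stall : ∀ v v', v ∈ C → (∀ x ∈ C, x ∉ Y → x = v ∨ x = v') → Stall G Y v v' j0 lam →
      (∃ X, BadIn G H U X lam ∧ Disjoint X W0) ∨
      ∃ C', TCyc G C' ∧ Disjoint C' U ∧ C'.card < C.card ∧
        2 * C'.card ≤ C.card + 2 * (4 * lam ^ 7 + 1) ∧ Far G W0 C' lam d := by
    rintro v v' hv hvv ⟨X, r, q, a1, a2, a3, a4, a5, a6, a7, a8⟩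
    have q1 : 1 ≤ q := by
      rcases a8 with rfl | ⟨j, hj, rfl, _⟩
      · exact Nat.one_le_pow _ _ (by omega)
      · have := hP.j80
        have : 1 ≤ j ^ 2 := Nat.one_le_pow _ _ (by omega)
        omega
    have hlow : (↑X : Set V) ⊆ {x | dg G Finset.univ x < 2 ^ (3 * lam ^ 2 + 2)} := by
      intro x hx
      have b1 := dg_le_of_mem (G := G) (Y := Y) (Finset.mem_coe.1 hx)
      have b2 := Nat.mul_le_mul_right (nb G X \ Y).card q1
      show dg G Finset.univ x < 2 ^ (3 * lam ^ 2 + 2)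
      omega
    have hXfar : Far G W0 X lam d := fun x hx w hw b =>
      hfar v hv w hw ((((a1.2 x hx).mono hlow).trans b).le (by omega))
    have hXW : ∀ x ∈ X, x ∉ W0 := fun x hx hw => hXfar x hx x hw (WkLe.refl (hlow hx) _)
    rcases contact hC hv a1 (fun x hx hx' => by
      rcases hvv x hx' (Finset.disjoint_left.1 a2 hx) with b | b
      · exact b
      · exact (a3 (b ▸ hx)).elim) with b1 | ⟨C', b1, b2, b3, b4⟩
    · left
      refine ⟨X, bad_of hP hU (q := q) ?_ ⟨v, a1.1⟩ ?_ ?_ a7 a8, Finset.disjoint_left.2 hXW⟩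
      · intro x hx
        obtain ⟨w, hw⟩ := exists_adj hC hv
        exact (a1.2 x hx).rch.closed (B := ↑H) (hE.sup v w hw)
          fun a _ b _ _ hab => hE.sup b a hab.symm
      · intro x hx
        by_contra b
        exact hXW x hx (hW x (by omega))
      · have b2 := Nat.mul_le_mul_left q ((hsub X).trans (Nat.add_le_add_left b1 _))
        rw [Nat.mul_add] at b2
        omega
    · right
      refine ⟨C', b2, ?_, b3, by omega, fun x hx => ?_⟩
      · refine Finset.disjoint_left.2 fun x hx hxU => ?_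
        rcases Finset.mem_union.1 (b1 hx) with b | b
        · exact Finset.disjoint_left.1 hCU b hxU
        · exact Finset.disjoint_left.1 a2 b (hUY hxU)
      · rcases Finset.mem_union.1 (b1 hx) with b | b
        · exact hfar.le (Nat.le_add_right _ _) x b
        · exact hXfar x b
  have hCY : ∀ x ∈ C, x ∉ Y → x = v1 ∨ x = v2 := by
    intro x hx hx'
    rw [mY] at hx'
    tauto
  rcases deg v1 m1 with d1 | d1
  swap
  · exact Or.inr d1
  rcases deg v2 m2 with d2 | d2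
  swap
  · exact Or.inr d2
  have n1 : v1 ∉ Y := by
    rw [mY]
    have := Finset.disjoint_left.1 hCU m1
    tauto
  have n2 : v2 ∉ Y := by
    rw [mY]
    have := Finset.disjoint_left.1 hCU m2
    tauto
  rcases hT G Y v1 v2 j0 lam hne n1 n2 hP.j80 h0 hP.jl d1 d2 with t | t | t
  · obtain ⟨F1, F2, a1, a2, a3, a4, a5, a6, a7⟩ := t
    refine Or.inl (Or.inl ⟨C, F1, F2, v1, v2, h, by omega, hCL, p1, p2, a1, a2, a6, a7, a3,
      fun x hx hx' => ?_, fun x hx hx' => ?_, hCU, a4.mono_right hUY, a5.mono_right hUY⟩)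
    · rcases hCY x hx' (Finset.disjoint_left.1 a4 hx) with b | b
      · exact b
      · exact (Finset.disjoint_left.1 a3 hx (b ▸ a2.1)).elim
    · rcases hCY x hx' (Finset.disjoint_left.1 a5 hx) with b | b
      · exact (Finset.disjoint_left.1 a3 (b ▸ a1.1) hx).elim
      · exact b
  · exact (stall v1 v2 m1 hCY t).imp Or.inr id
  · exact (stall v2 v1 m2 (fun x a b => (hCY x a b).symm) t).imp Or.inr id

end RAin

theorem adj_or_bad (hT : TwoSt V) (G : SimpleGraph V) (σ : V → Bool)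
    (hσ : ∀ a b, G.Adj a b → σ a ≠ σ b) (H U W0 C : Finset V) (s j0 ρ L lam : ℕ)
    (hE : Expd G H ρ) (hP : Par H.card s j0 ρ L lam) (hU : U.card ≤ 2 ^ (lam ^ 2))
    (hW : ∀ v, s ≤ dg G U v → v ∈ W0) (hC : TCyc G C) (hCL : C.card ≤ 2 * L + 4)
    (hCU : Disjoint C U)
    (hfar : ∀ v ∈ C, ∀ w ∈ W0,
      ¬ WkLe G {x | dg G Finset.univ x < 2 ^ (3 * lam ^ 2 + 2)} v w (lam ^ 15)) :
    Adjuster G U (2 ^ (lam ^ 2)) (lam ^ 8) (2 * L + 4) ∨
      ∃ X, BadIn G H U X lam ∧ Disjoint X W0 := by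
  obtain ⟨r, hr⟩ : ∃ r, r = 4 * lam ^ 7 + 1 := ⟨_, rfl⟩
  let P : ℕ → ℕ → Prop := fun l d => ∀ C : Finset V, TCyc G C → C.card ≤ l → C.card ≤ 2 * L + 4 →
    Disjoint C U → RAin.Far G W0 C lam d → Adjuster G U (2 ^ (lam ^ 2)) (lam ^ 8) (2 * L + 4) ∨
      ∃ X, BadIn G H U X lam ∧ Disjoint X W0
  have st : ∀ l l' d, P l d → (∀ a b, a < b → b ≤ l' → 2 * a ≤ b + 2 * r → a ≤ l) →
      P l' (d + r) := by
    intro l l' d h1 h2 C a1 a2 a3 a4 a5
    rw [hr] at a5
    rcases RAin.step hT hσ hE hP hU hW a1 a3 a4 a5 with b | ⟨C', b1, b2, b3, b4, b5⟩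
    · exact b
    · exact h1 C' b1 (h2 _ _ b3 a2 (by rw [hr]; exact b4)) (by omega) b2 b5
  have P1 : ∀ i, P i (i * r) := by
    intro i
    induction i with
    | zero =>
      intro C a1 a2
      have := a1.three
      omega
    | succ i ih =>
      rw [Nat.succ_mul]
      exact st _ _ _ ih (by omega)
  have P2 : ∀ j, P (2 * r + 2 ^ j) ((2 * r + 1 + j) * r) := by
    intro j
    induction j with
    | zero => exact P1 _
    | succ j ih =>
      rw [show (2 * r + 1 + (j + 1)) * r = (2 * r + 1 + j) * r + r by ring]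
      refine st _ _ _ ih fun a b h1 h2 h3 => ?_
      rw [pow_succ] at h2
      omega
  have h0 := hP.lam0
  refine P2 (lam + 2) C hC ?_ hCL hCU (RAin.Far.le hfar ?_)
  · have e4 : 2 ^ 2 ≤ 2 ^ lam := Nat.pow_le_pow_right (by omega) (by omega)
    have := hP.Ll
    rw [pow_add]
    omega
  · have a1 : 3 * lam ^ 1 ≤ lam ^ 7 := mul_pow_le_pow (by omega) (by omega) (by omega)
    rw [pow_one] at a1
    have a2 : 50 * lam ^ 14 ≤ lam ^ 15 := mul_pow_le_pow (by omega) (by omega) (by omega)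
    calc (2 * r + 1 + (lam + 2)) * r ≤ (10 * lam ^ 7) * (5 * lam ^ 7) :=
          Nat.mul_le_mul (by omega) (by omega)
      _ = 50 * lam ^ 14 := by ring
      _ ≤ lam ^ 15 := a2

end Pool.Agent.P.MP_0cc987_co
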