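import Pool.Agent.P.MP_0cc987_co.Num

/-! The outer part of the robust adjuster lemma. -/

namespace Pool.Agent.P.MP_0cc987_co

open Set

variable {V : Type*} [Fintype V] [DecidableEq V]

namespace RAoutAux

theorem le_two_pow {a b : ℕ} (h : a ≤ b) : a ≤ 2 ^ b := h.trans Nat.lt_two_pow_self.le

theorem two_pow_le {a b : ℕ} (h : a ≤ b) : 2 ^ a ≤ 2 ^ b := Nat.pow_le_pow_right (by omega) h

theorem step {lam : ℕ} (hl : 15000 ≤ lam) {a b : ℕ} (h : a < b) : 15000 * lam ^ a ≤ lam ^ b :=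
  mul_pow_le_pow hl (by omega) h

open Classical in
/-- The ball of radius `d` around `W` inside `S`. -/
noncomputable def ball (G : SimpleGraph V) (S : Set V) (W : Finset V) (d : ℕ) : Finset V :=
  Finset.univ.filter fun v => ∃ w ∈ W, WkLe G S w v d

omit [DecidableEq V] in
theorem mem_ball {G : SimpleGraph V} {S : Set V} {W : Finset V} {d : ℕ} {v : V} :
    v ∈ ball G S W d ↔ ∃ w ∈ W, WkLe G S w v d := by
  classical
  simp [ball]

theorem card_ball (G : SimpleGraph V) (S : Set V) (W : Finset V) (D : ℕ)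
    (hS : ∀ x ∈ S, dg G Finset.univ x < D) (d : ℕ) :
    (ball G S W d).card ≤ W.card * D ^ d := by
  induction d with
  | zero =>
    rw [pow_zero, Nat.mul_one]
    refine Finset.card_le_card fun v hv => ?_
    obtain ⟨w, hw, h⟩ := mem_ball.1 hv
    exact h.eq_of_zero ▸ hw
  | succ d ih =>
    have h1 : ball G S W (d + 1) ⊆ ball G S W d ∪ nb G (ball G S W d) := by
      intro v hv
      obtain ⟨w, hw, h⟩ := mem_ball.1 hv
      rw [Finset.mem_union]
      by_cases hb : v ∈ ball G S W d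
      · exact Or.inl hb
      · right
        rcases h.succ_cases' with e | ⟨x, h2, h3⟩
        · exact (hb (mem_ball.2 ⟨w, hw, e ▸ WkLe.refl h.left d⟩)).elim
        · exact mem_nb.2 ⟨hb, x, mem_ball.2 ⟨w, hw, h2⟩, h3⟩
    have h2 : ∀ x ∈ ball G S W d, dg G Finset.univ x ≤ D - 1 := by
      intro x hx
      obtain ⟨w, _, h⟩ := mem_ball.1 hx
      have := hS x h.right
      omega
    have h3 := card_nb_le h2
    have h4 := (Finset.card_le_card h1).trans (Finset.card_union_le _ _)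
    rcases Nat.eq_zero_or_pos D with rfl | hD
    · have : ball G S W (d + 1) = ∅ := by
        rw [Finset.eq_empty_iff_forall_notMem]
        intro v hv
        obtain ⟨w, _, h⟩ := mem_ball.1 hv
        exact absurd (hS v h.right) (Nat.not_lt_zero _)
      simp [this]
    obtain ⟨E, rfl⟩ : ∃ E, D = E + 1 := ⟨D - 1, by omega⟩
    rw [Nat.add_sub_cancel] at h3
    calc (ball G S W (d + 1)).card ≤ (ball G S W d).card * (E + 1) := by
          rw [Nat.mul_add, Nat.mul_one]; omega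
      _ ≤ W.card * (E + 1) ^ d * (E + 1) := Nat.mul_le_mul_right _ ih
      _ = W.card * (E + 1) ^ (d + 1) := by ring

/-- A family of pairwise disjoint bad sets of the same colour is small. -/
theorem class_le (G : SimpleGraph V) (H U Z : Finset V) (ρ κ y r : ℕ) (hE : Expd G H ρ)
    (𝒞 : Finset (Finset V)) (hb : ∀ X ∈ 𝒞, Bad G H U X κ Z y ∧ X.card = r)
    (hd : ∀ X ∈ 𝒞, ∀ X' ∈ 𝒞, X ≠ X' → Disjoint X X') : 𝒞.card ≤ y := by
  by_contra hlt
  push Not at hlt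
  obtain ⟨X0, hX0⟩ : 𝒞.Nonempty := Finset.card_pos.1 (by omega)
  obtain ⟨b0, r0⟩ := hb X0 hX0
  obtain ⟨𝒴, hY, hc⟩ := Finset.exists_subset_card_eq hlt.le
  have h1 : (𝒴.biUnion id).card = y * r := by
    rw [Finset.card_biUnion (t := id) (fun X hX X' hX' hne => hd X (hY hX) X' (hY hX') hne)]
    rw [← hc]
    exact Finset.sum_const_nat fun X hX => (hb X (hY hX)).2
  have h2 : 𝒴.biUnion id ⊆ H := by
    intro x hx
    obtain ⟨X, hX, hx⟩ := Finset.mem_biUnion.1 hx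
    exact (hb X (hY hX)).1.sub hx
  have h3 := hE.exp _ h2 κ b0.k1 (by rw [h1, ← r0]; exact b0.size)
    (by rw [h1, ← r0]; exact b0.half)
  have h4 : nb G (𝒴.biUnion id) ⊆ Z ∪ 𝒴.biUnion fun X => nb G X \ U := by
    intro w hw
    obtain ⟨h5, x, hx, ha⟩ := mem_nb.1 hw
    obtain ⟨X, hX, hx⟩ := Finset.mem_biUnion.1 hx
    have h6 : w ∈ nb G X :=
      mem_nb.2 ⟨fun h => h5 (Finset.mem_biUnion.2 ⟨X, hX, h⟩), x, hx, ha⟩
    rw [Finset.mem_union]
    by_cases hU : w ∈ U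
    · exact Or.inl ((hb X (hY hX)).1.nbZ w h6 hU)
    · exact Or.inr (Finset.mem_biUnion.2 ⟨X, hX, Finset.mem_sdiff.2 ⟨h6, hU⟩⟩)
  have h5 := (Finset.card_le_card h4).trans ((Finset.card_union_le _ _).trans
    (Nat.add_le_add_left Finset.card_biUnion_le _))
  have h6 : 200 * κ ^ 2 * ∑ X ∈ 𝒴, (nb G X \ U).card ≤ y * r := by
    rw [Finset.mul_sum, ← hc]
    exact Finset.sum_le_card_nsmul _ _ _ fun X hX => by
      rw [← (hb X (hY hX)).2]; exact (hb X (hY hX)).1.out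
  have h7 := b0.inn
  have h8 := Nat.mul_le_mul_left (200 * κ ^ 2) h5
  rw [h1] at h3
  rw [r0] at h7
  rw [Nat.mul_add] at h8
  have h9 : 200 * κ ^ 2 * (nb G (𝒴.biUnion id)).card
      = 2 * (100 * κ ^ 2 * (nb G (𝒴.biUnion id)).card) := by ring
  omega

omit [Fintype V] in
/-- The number of small subsets. -/
theorem card_small (U : Finset V) (p N : ℕ) (hN : 1 ≤ N) (hU : U.card ≤ N) :
    ((Finset.range (p + 1)).biUnion fun i => U.powersetCard i).card ≤ (p + 1) * N ^ p := by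
  refine (Finset.card_biUnion_le_card_mul _ _ (N ^ p) fun i hi => ?_).trans (by simp)
  rw [Finset.card_powersetCard]
  have := Finset.mem_range.1 hi
  exact (Nat.choose_le_pow _ _).trans
    ((Nat.pow_le_pow_left hU _).trans (Nat.pow_le_pow_right hN (by omega)))

end RAoutAux

open RAoutAux

theorem u0_card (G : SimpleGraph V) (s : ℕ) (hK : KFree G s) (U : Finset V) :
    (Finset.univ.filter fun v => s ≤ dg G U v).card ≤ s * U.card ^ s := by
  have : ∀ v, ∃ Q : Finset V, s ≤ dg G U v → Q ⊆ nbr G U v ∧ Q.card = s := by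
    intro v
    by_cases h : s ≤ dg G U v
    · obtain ⟨Q, h1, h2⟩ := Finset.exists_subset_card_eq (s := nbr G U v) (n := s) h
      exact ⟨Q, fun _ => ⟨h1, h2⟩⟩
    · exact ⟨∅, fun h' => (h h').elim⟩
  choose f hf using this
  have h1 := Finset.card_le_mul_card_image_of_maps_to (f := f)
    (s := Finset.univ.filter fun v => s ≤ dg G U v) (t := U.powersetCard s) (by
      intro v hv
      obtain ⟨a1, a2⟩ := hf v (Finset.mem_filter.1 hv).2
      exact Finset.mem_powersetCard.2 ⟨fun x hx => (mem_nbr.1 (a1 hx)).1, a2⟩) s (by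
      intro Q hQ
      by_contra hlt
      push Not at hlt
      obtain ⟨P, h2, h3⟩ := Finset.exists_subset_card_eq hlt.le
      refine hK P Q h3 (Finset.mem_powersetCard.1 hQ).2 fun p hp q hq => ?_
      obtain ⟨a1, a2⟩ := Finset.mem_filter.1 (h2 hp)
      obtain ⟨a3, _⟩ := hf p (Finset.mem_filter.1 a1).2
      exact (mem_nbr.1 (a3 (a2 ▸ hq))).2)
  rw [Finset.card_powersetCard] at h1
  exact h1.trans (Nat.mul_le_mul_left _ (Nat.choose_le_pow _ _))

theorem far_cycle (G : SimpleGraph V)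
    (hshort : ∀ (B : Finset V) (L : ℕ), B.Nonempty → (∀ v ∈ B, 3 ≤ dg G B v) → B.card ≤ 2 ^ L →
      ∃ n ≤ 2 * L + 4, Cyc G ↑B n)
    (H U W0 : Finset V) (s j0 ρ L lam : ℕ) (hE : Expd G H ρ) (hP : Par H.card s j0 ρ L lam)
    (hU : U.card ≤ 2 ^ (lam ^ 2)) (hW : ∀ v, s ≤ dg G U v → v ∈ W0)
    (hW0 : W0.card ≤ 2 ^ (lam ^ 96)) :
    ∃ C, TCyc G C ∧ C.card ≤ 2 * L + 4 ∧ Disjoint C U ∧ ∀ v ∈ C, ∀ w ∈ W0,
      ¬ WkLe G {x | dg G Finset.univ x < 2 ^ (3 * lam ^ 2 + 2)} v w (lam ^ 15) := by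
  have hl := hP.lam0
  obtain ⟨D, hD⟩ : ∃ D, D = 2 ^ (3 * lam ^ 2 + 2) := ⟨_, rfl⟩
  obtain ⟨M, hM⟩ : ∃ M, M = 2 ^ (lam ^ 97) := ⟨_, rfl⟩
  rw [← hD]
  obtain ⟨W, hWd⟩ : ∃ W, W = ball G {x | dg G Finset.univ x < D} W0 (lam ^ 15) := ⟨_, rfl⟩
  have hD1 : 1 ≤ D := hD ▸ Nat.one_le_two_pow
  have hM1 : 1 ≤ M := hM ▸ Nat.one_le_two_pow
  have c1 : W.card * D ≤ M := by
    have h1 := card_ball G {x | dg G Finset.univ x < D} W0 D (fun x hx => hx) (lam ^ 15)
    rw [← hWd] at h1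
    have e1 := step hl (show 0 < 2 by omega)
    have e2 := step hl (show 2 < 17 by omega)
    have e3 := step hl (show 15 < 17 by omega)
    have e4 := step hl (show 17 < 96 by omega)
    have e5 := step hl (show 96 < 97 by omega)
    rw [pow_zero] at e1
    calc W.card * D ≤ 2 ^ (lam ^ 96) * D ^ (lam ^ 15) * D :=
          Nat.mul_le_mul_right _ (h1.trans (Nat.mul_le_mul_right _ hW0))
      _ = 2 ^ (lam ^ 96 + (3 * lam ^ 17 + 2 * lam ^ 15 + 3 * lam ^ 2 + 2)) := by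
          rw [hD, ← pow_mul, ← pow_add, ← pow_add]
          congr 1
          ring
      _ ≤ M := hM ▸ two_pow_le (by omega)
  have c2 : W.card ≤ M := (Nat.le_mul_of_pos_right _ hD1).trans c1
  have c3 : U.card ≤ M := hU.trans (hM ▸ two_pow_le (Nat.pow_le_pow_right (by omega) (by omega)))
  have c4 : W0.card ≤ M :=
    hW0.trans (hM ▸ two_pow_le (Nat.pow_le_pow_right (by omega) (by omega)))
  have c5 : 8 * M ≤ H.card := by
    have e1 := step hl (show 0 < 97 by omega)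
    have e2 := step hl (show 97 < 98 by omega)
    rw [pow_zero] at e1
    have h1 : 2 ^ (lam ^ 97 + 4) ≤ 2 * H.card := (two_pow_le (by omega)).trans hP.nbig
    rw [pow_add, ← hM] at h1
    omega
  obtain ⟨A, hA⟩ : ∃ A, A = H \ (U ∪ W) := ⟨_, rfl⟩
  have hAH : A ⊆ H := hA ▸ Finset.sdiff_subset
  have d1 : ∀ v ∈ A \ W0, 12 ≤ dg G A v + dg G W v := by
    intro v hv
    obtain ⟨h1, h2⟩ := Finset.mem_sdiff.1 hv
    have h3 := hE.deg v (hAH h1)
    have h4 : dg G U v < s := by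
      by_contra h
      exact h2 (hW v (by omega))
    have h5 : dg G H v ≤ dg G (A ∪ (U ∪ W)) v := dg_mono (by
      rw [hA, Finset.sdiff_union_self_eq_union]
      exact Finset.subset_union_left) v
    have h6 := dg_union_le (G := G) A (U ∪ W) v
    have h7 := dg_union_le (G := G) U W v
    have h8 := hP.rho
    have h9 : 0 ≤ 2 ^ (2 * j0 + 1) := Nat.zero_le _
    omega
  have d2 := Finset.card_nsmul_le_sum _ _ _ d1
  rw [Finset.sum_add_distrib, sum_dg_comm G (A \ W0) W, smul_eq_mul] at d2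
  have d3 : ∑ w ∈ W, dg G (A \ W0) w ≤ W.card * D := by
    refine Finset.sum_le_card_nsmul _ _ _ fun w hw => ?_
    rw [hWd] at hw
    obtain ⟨_, _, h⟩ := mem_ball.1 hw
    exact (dg_mono (Finset.subset_univ _) w).trans (le_of_lt h.right)
  have d4 : ∑ v ∈ A \ W0, dg G A v ≤ ed G A :=
    Finset.sum_le_sum_of_subset Finset.sdiff_subset
  have d5 : H.card ≤ A.card + (U.card + W.card) := by
    have := Finset.card_le_card_sdiff_add_card (s := H) (t := U ∪ W)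
    have := Finset.card_union_le U W
    rw [hA]
    omega
  have d6 := Finset.card_le_card_sdiff_add_card (s := A) (t := W0)
  have d7 := Finset.card_le_card hAH
  obtain ⟨B, b1, b2, b3⟩ := exists_mindeg (G := G) (A := A) (d := 2) (by omega)
  obtain ⟨n, hn, hc⟩ := hshort B L b2 b3
    ((Finset.card_le_card (b1.trans hAH)).trans hP.nL)
  obtain ⟨C, f1, f2, f3⟩ := hc.tight
  have f4 : ∀ v ∈ C, v ∉ U ∧ v ∉ W := by
    intro v hv
    have := b1 (f1 hv)
    rw [hA, Finset.mem_sdiff, Finset.mem_union] at this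
    tauto
  refine ⟨C, f3, by omega, Finset.disjoint_left.2 fun v hv => (f4 v hv).1,
    fun v hv w hw h => (f4 v hv).2 ?_⟩
  rw [hWd]
  exact mem_ball.2 ⟨w, hw, h.symm⟩

theorem few_bad (G : SimpleGraph V) (H U : Finset V) (ρ lam : ℕ) (hE : Expd G H ρ)
    (hl : 15000 ≤ lam) (hU : U.card ≤ 2 ^ (lam ^ 2)) (𝒳 : Finset (Finset V))
    (hb : ∀ X ∈ 𝒳, BadIn G H U X lam) (hd : ∀ X ∈ 𝒳, ∀ X' ∈ 𝒳, X ≠ X' → Disjoint X X') :
    𝒳.card ≤ 2 ^ (lam ^ 94) := by
  have : ∀ X : Finset V, ∃ c : ℕ × Finset V × ℕ, X ∈ 𝒳 → Bad G H U X c.1 c.2.1 c.2.2 ∧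
      c.1 ≤ 5 * lam ^ 2 ∧ c.2.2 ≤ 2 ^ (lam ^ 2 + lam) ∧ (c.2.1.card ≤ lam ^ 91 ∨ c.2.1 = U) := by
    intro X
    by_cases h : X ∈ 𝒳
    · obtain ⟨_, _, κ, Z, y, h1⟩ := hb X h
      exact ⟨(κ, Z, y), fun _ => h1⟩
    · exact ⟨(0, ∅, 0), fun h' => (h h').elim⟩
  choose c hc using this
  obtain ⟨𝒵, hZ⟩ : ∃ 𝒵 : Finset (Finset V),
    𝒵 = insert U ((Finset.range (lam ^ 91 + 1)).biUnion fun i => U.powersetCard i) := ⟨_, rfl⟩
  have h1 := Finset.card_le_mul_card_image_of_maps_to (f := fun X : Finset V => (X.card, c X))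
    (s := 𝒳) (t := Finset.range (2 ^ (3 * lam ^ 2)) ×ˢ Finset.range (5 * lam ^ 2 + 1) ×ˢ 𝒵 ×ˢ
      Finset.range (2 ^ (lam ^ 2 + lam) + 1)) (by
      intro X hX
      obtain ⟨a1, a2, a3, a4⟩ := hc X hX
      simp only [Finset.mem_product, Finset.mem_range]
      refine ⟨(hb X hX).2.1, by omega, ?_, by omega⟩
      rw [hZ, Finset.mem_insert]
      rcases a4 with a4 | a4
      · exact Or.inr (Finset.mem_biUnion.2 ⟨_, Finset.mem_range.2 (Nat.lt_succ_of_le a4),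
          Finset.mem_powersetCard.2 ⟨a1.hZ, rfl⟩⟩)
      · exact Or.inl a4) (2 ^ (lam ^ 2 + lam)) (by
      rintro ⟨r, κ, Z, y⟩ hm
      simp only [Finset.mem_product, Finset.mem_range] at hm
      refine (class_le G H U Z ρ κ y r hE _ (fun X hX => ?_) fun X hX X' hX' =>
        hd X (Finset.mem_filter.1 hX).1 X' (Finset.mem_filter.1 hX').1).trans (by omega)
      obtain ⟨a1, a2⟩ := Finset.mem_filter.1 hX
      rw [Prod.mk.injEq] at a2
      have a3 := (hc X a1).1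
      rw [a2.2] at a3
      exact ⟨a3, a2.1⟩)
  simp only [Finset.card_product, Finset.card_range] at h1
  have e0 := step hl (show 0 < 1 by omega)
  have e1 := step hl (show 1 < 2 by omega)
  have e2 := step hl (show 2 < 91 by omega)
  have e3 := step hl (show 91 < 93 by omega)
  have e4 := step hl (show 93 < 94 by omega)
  rw [pow_zero] at e0
  rw [pow_one] at e0 e1
  obtain ⟨T, hT⟩ : ∃ T, T = 2 ^ (lam ^ 93) := ⟨_, rfl⟩
  have hT1 : 1 ≤ T := hT ▸ Nat.one_le_two_pow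
  have f1 : 2 ^ (lam ^ 2 + lam) ≤ T := hT ▸ two_pow_le (by omega)
  have f2 : 2 ^ (3 * lam ^ 2) ≤ T := hT ▸ two_pow_le (by omega)
  have f3 : 5 * lam ^ 2 + 1 ≤ T := hT ▸ le_two_pow (by omega)
  have f4 : 2 ^ (lam ^ 2 + lam) + 1 ≤ T := by
    have a1 : 2 ^ (lam ^ 2 + lam + 1) ≤ T := hT ▸ two_pow_le (by omega)
    have a2 : 1 ≤ 2 ^ (lam ^ 2 + lam) := Nat.one_le_two_pow
    rw [pow_succ] at a1
    omega
  have f5 : 𝒵.card ≤ T * T := by
    have a1 := card_small U (lam ^ 91) (2 ^ (lam ^ 2)) Nat.one_le_two_pow hU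
    rw [← pow_mul, show lam ^ 2 * lam ^ 91 = lam ^ 93 by ring, ← hT] at a1
    have a2 : lam ^ 91 + 2 ≤ T := hT ▸ le_two_pow (by omega)
    have a3 := Nat.mul_le_mul_right T a2
    have a4 : 𝒵.card ≤ (lam ^ 91 + 1) * T + 1 := by
      rw [hZ]
      exact (Finset.card_insert_le _ _).trans (by omega)
    have a5 : (lam ^ 91 + 2) * T = (lam ^ 91 + 1) * T + T := by ring
    omega
  calc 𝒳.card ≤ T * (T * (T * (T * T * T))) :=
        h1.trans (Nat.mul_le_mul f1 (Nat.mul_le_mul f2 (Nat.mul_le_mul f3 (Nat.mul_le_mul f5 f4))))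
    _ = T ^ 6 := by ring
    _ = 2 ^ (lam ^ 93 * 6) := by rw [hT, ← pow_mul]
    _ ≤ 2 ^ (lam ^ 94) := two_pow_le (by omega)

theorem robust_adj (G : SimpleGraph V)
    (hshort : ∀ (B : Finset V) (L : ℕ), B.Nonempty → (∀ v ∈ B, 3 ≤ dg G B v) → B.card ≤ 2 ^ L →
      ∃ n ≤ 2 * L + 4, Cyc G ↑B n)
    (H U : Finset V) (s j0 ρ L lam : ℕ) (hE : Expd G H ρ) (hK : KFree G s)
    (hP : Par H.card s j0 ρ L lam) (hU : U.card ≤ 2 ^ (lam ^ 2))
    (hin : ∀ W0 C : Finset V, (∀ v, s ≤ dg G U v → v ∈ W0) → TCyc G C → C.card ≤ 2 * L + 4 →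
      Disjoint C U → (∀ v ∈ C, ∀ w ∈ W0,
        ¬ WkLe G {x | dg G Finset.univ x < 2 ^ (3 * lam ^ 2 + 2)} v w (lam ^ 15)) →
      Adjuster G U (2 ^ (lam ^ 2)) (lam ^ 8) (2 * L + 4) ∨
        ∃ X, BadIn G H U X lam ∧ Disjoint X W0) :
    Adjuster G U (2 ^ (lam ^ 2)) (lam ^ 8) (2 * L + 4) := by
  classical
  have hl := hP.lam0
  obtain ⟨𝒳, hX, hmax⟩ := Finset.exists_max_image
    (Finset.univ.filter fun 𝒳 : Finset (Finset V) => (∀ X ∈ 𝒳, BadIn G H U X lam) ∧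
      ∀ X ∈ 𝒳, ∀ X' ∈ 𝒳, X ≠ X' → Disjoint X X') Finset.card ⟨∅, by simp⟩
  obtain ⟨_, hb, hd⟩ := Finset.mem_filter.1 hX
  have h1 := few_bad G H U ρ lam hE hl hU 𝒳 hb hd
  have h2 := u0_card G s hK U
  obtain ⟨W0, hW0⟩ : ∃ W0, W0 = (Finset.univ.filter fun v => s ≤ dg G U v) ∪ 𝒳.biUnion id :=
    ⟨_, rfl⟩
  have h3 : ∀ v, s ≤ dg G U v → v ∈ W0 := fun v hv =>
    hW0 ▸ Finset.mem_union_left _ (Finset.mem_filter.2 ⟨Finset.mem_univ _, hv⟩)
  have h4 : W0.card ≤ 2 ^ (lam ^ 96) := by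
    have e0 := step hl (show 0 < 1 by omega)
    have e1 := step hl (show 1 < 2 by omega)
    have e2 := step hl (show 2 < 3 by omega)
    have e3 := step hl (show 3 < 94 by omega)
    have e4 := step hl (show 94 < 95 by omega)
    have e5 := step hl (show 95 < 96 by omega)
    rw [pow_zero] at e0
    rw [pow_one] at e0 e1
    have a1 : (𝒳.biUnion id).card ≤ 𝒳.card * 2 ^ (3 * lam ^ 2) :=
      Finset.card_biUnion_le_card_mul _ _ _ fun X hX => (hb X hX).2.1.le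
    have a2 : 𝒳.card * 2 ^ (3 * lam ^ 2) ≤ 2 ^ (lam ^ 95) := by
      refine (Nat.mul_le_mul_right _ h1).trans ?_
      rw [← pow_add]
      exact two_pow_le (by omega)
    have a3 : s * U.card ^ s ≤ 2 ^ (lam ^ 95) := by
      have b1 : U.card ^ s ≤ 2 ^ (lam ^ 3) := by
        refine (Nat.pow_le_pow_left hU _).trans ?_
        rw [← pow_mul]
        refine two_pow_le ?_
        rw [pow_succ lam 2]
        exact Nat.mul_le_mul_left _ hP.sl
      refine (Nat.mul_le_mul (le_two_pow hP.sl) b1).trans ?_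
      rw [← pow_add]
      exact two_pow_le (by omega)
    have a4 : 2 ^ (lam ^ 95 + 1) ≤ 2 ^ (lam ^ 96) := two_pow_le (by omega)
    rw [pow_succ] at a4
    have a5 := Finset.card_union_le (Finset.univ.filter fun v => s ≤ dg G U v) (𝒳.biUnion id)
    rw [← hW0] at a5
    omega
  obtain ⟨C, c1, c2, c3, c4⟩ := far_cycle G hshort H U W0 s j0 ρ L lam hE hP hU h3 h4
  rcases hin W0 C h3 c1 c2 c3 c4 with h | ⟨X, x1, x2⟩
  · exact h
  have x3 : ∀ X' ∈ 𝒳, Disjoint X X' := fun X' hX' => x2.mono_right (by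
    intro v hv
    rw [hW0]
    exact Finset.mem_union_right _ (Finset.mem_biUnion.2 ⟨X', hX', hv⟩))
  have x4 : X ∉ 𝒳 := fun h => by
    obtain ⟨v, hv⟩ := x1.1
    exact Finset.disjoint_left.1 (x3 X h) hv hv
  have x5 := hmax (insert X 𝒳) (Finset.mem_filter.2 ⟨Finset.mem_univ _, ?_, ?_⟩)
  · rw [Finset.card_insert_of_notMem x4] at x5
    omega
  · intro Y hY
    rcases Finset.mem_insert.1 hY with rfl | hY
    · exact x1
    · exact hb Y hY
  · intro Y hY Y' hY' hne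
    rcases Finset.mem_insert.1 hY with e | e <;> rcases Finset.mem_insert.1 hY' with e' | e'
    · exact (hne (e.trans e'.symm)).elim
    · exact e ▸ x3 Y' e'
    · exact e' ▸ (x3 Y e).symm
    · exact hd Y e Y' e' hne

end Pool.Agent.P.MP_0cc987_co
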