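import Pool.Agent.P.MP_0cc987_co.Num

/-! Reduction to three-connected sets, paths of exact length, and colouring of layers. -/

namespace Pool.Agent.P.MP_0cc987_co

open Set

variable {V : Type*}

namespace ThreeC

/-- A colouring of the template `Z` extends to `A` avoiding the lists `Φ`. -/
def Ext (G : SimpleGraph V) (n : ℕ) (A Z : Finset V) (c : V → ℕ) (Φ : V → Finset ℕ) : Prop :=
  ∃ c' : V → ℕ, (∀ v ∈ A, c' v < n) ∧ (∀ u ∈ A, ∀ v ∈ A, G.Adj u v → c' u ≠ c' v) ∧
    (∀ v ∈ Z, c' v = c v) ∧ ∀ v ∈ A, v ∉ Z → c' v ∉ Φ v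

/-- The induction hypothesis. -/
def Hyp [DecidableEq V] (G : SimpleGraph V) (n : ℕ) (A : Finset V) : Prop :=
  ∀ (Z : Finset V) (c : V → ℕ) (Φ : V → Finset ℕ), Z ⊆ A → (∀ v ∈ Z, c v < n) →
    (∀ u ∈ Z, ∀ v ∈ Z, G.Adj u v → c u ≠ c v) → 2 * Z.card + ∑ v ∈ A \ Z, (Φ v).card ≤ 8 →
    Ext G n A Z c Φ

variable [DecidableEq V] {G : SimpleGraph V} {n q : ℕ} {A Z : Finset V} {c : V → ℕ}
  {Φ : V → Finset ℕ}

theorem low_deg (hZ : Z ⊆ A) (hc : ∀ v ∈ Z, c v < n)
    (hp : ∀ u ∈ Z, ∀ v ∈ Z, G.Adj u v → c u ≠ c v)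
    (hw : 2 * Z.card + ∑ v ∈ A \ Z, (Φ v).card ≤ 8) {z : V} (hz : z ∈ Z)
    (hd : dg G (A \ Z) z ≤ 2) (ih : Hyp G n (A.erase z)) : Ext G n A Z c Φ := by
  classical
  have e : A.erase z \ Z.erase z = A \ Z := by
    ext x
    simp only [Finset.mem_sdiff, Finset.mem_erase]
    constructor
    · rintro ⟨⟨h1, h2⟩, h3⟩
      exact ⟨h2, fun h => h3 ⟨h1, h⟩⟩
    · rintro ⟨h1, h2⟩
      exact ⟨⟨fun e => h2 (e ▸ hz), h1⟩, fun h => h2 h.2⟩
  obtain ⟨c', h1, h2, h3, h4⟩ := ih (Z.erase z) c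
    (fun v => if G.Adj z v then insert (c z) (Φ v) else Φ v) (Finset.erase_subset_erase _ hZ)
    (fun v hv => hc v (Finset.mem_of_mem_erase hv))
    (fun u hu v hv => hp u (Finset.mem_of_mem_erase hu) v (Finset.mem_of_mem_erase hv)) (by
      rw [e]
      have a1 := Finset.card_erase_add_one hz
      have a2 : ∑ v ∈ A \ Z, (if G.Adj z v then insert (c z) (Φ v) else Φ v).card ≤
          ∑ v ∈ A \ Z, ((Φ v).card + if G.Adj z v then 1 else 0) := by
        refine Finset.sum_le_sum fun v _ => ?_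
        by_cases h : G.Adj z v
        · simp only [h, if_true]
          exact Finset.card_insert_le _ _
        · simp [h]
      rw [Finset.sum_add_distrib] at a2
      have a3 : ∑ v ∈ A \ Z, (if G.Adj z v then 1 else 0) = dg G (A \ Z) z := by
        rw [dg, Finset.card_filter]
      omega)
  have key : ∀ v ∈ A, v ≠ z → G.Adj z v → c' v ≠ c z := by
    intro v hv hvz ha
    by_cases hvZ : v ∈ Z
    · rw [h3 v (Finset.mem_erase.2 ⟨hvz, hvZ⟩)]
      exact (hp z hz v hvZ ha).symm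
    · have := h4 v (Finset.mem_erase.2 ⟨hvz, hv⟩) fun h => hvZ (Finset.mem_of_mem_erase h)
      simp only [ha, if_true, Finset.mem_insert, not_or] at this
      exact this.1
  refine ⟨fun v => if v = z then c z else c' v, fun v hv => ?_, fun u hu v hv ha => ?_,
    fun v hv => ?_, fun v hv hvZ => ?_⟩
  · by_cases h : v = z
    · simpa [h] using hc z hz
    · simpa [h] using h1 v (Finset.mem_erase.2 ⟨h, hv⟩)
  · by_cases e1 : u = z <;> by_cases e2 : v = z <;> simp only [e1, e2, if_true, if_false]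
    · exact (ha.ne (e1.trans e2.symm)).elim
    · exact (key v hv e2 (e1 ▸ ha)).symm
    · exact key u hu e1 (e2 ▸ ha.symm)
    · exact h2 u (Finset.mem_erase.2 ⟨e1, hu⟩) v (Finset.mem_erase.2 ⟨e2, hv⟩) ha
  · by_cases h : v = z
    · simp [h]
    · simpa [h] using h3 v (Finset.mem_erase.2 ⟨h, hv⟩)
  · have h : v ≠ z := fun e => hvZ (e ▸ hz)
    have := h4 v (Finset.mem_erase.2 ⟨h, hv⟩) fun h => hvZ (Finset.mem_of_mem_erase h)
    simp only [h, if_false]
    intro h'
    apply this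
    by_cases ha : G.Adj z v
    · simp [ha, h']
    · simpa [ha] using h'

theorem of_col (hc : ∀ v ∈ Z, c v < q + 8)
    (hp : ∀ u ∈ Z, ∀ v ∈ Z, G.Adj u v → c u ≠ c v)
    (hw : 2 * Z.card + ∑ v ∈ A \ Z, (Φ v).card ≤ 8) (h : Col G ↑(A \ Z) q) :
    Ext G (q + 8) A Z c Φ := by
  classical
  obtain ⟨d, h1, h2⟩ := h
  let F : Finset ℕ := Z.image c ∪ (A \ Z).biUnion Φ
  have hF : F.card ≤ 8 := by
    have a1 : (Z.image c).card ≤ Z.card := Finset.card_image_le
    have a2 : ((A \ Z).biUnion Φ).card ≤ ∑ v ∈ A \ Z, (Φ v).card := Finset.card_biUnion_le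
    have a3 : F.card ≤ _ := Finset.card_union_le _ _
    omega
  have hq : q ≤ (Finset.range (q + 8) \ F).card := by
    have := Finset.le_card_sdiff F (Finset.range (q + 8))
    rw [Finset.card_range] at this
    omega
  let g : ℕ → ℕ := fun i =>
    if h : i < q then (Finset.range (q + 8) \ F).orderEmbOfCardLe hq ⟨i, h⟩ else 0
  have g1 : ∀ i < q, g i < q + 8 ∧ g i ∉ F := by
    intro i hi
    have := Finset.orderEmbOfCardLe_mem (Finset.range (q + 8) \ F) hq ⟨i, hi⟩
    simp only [g, hi, dif_pos]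
    simpa using this
  have g2 : ∀ i < q, ∀ j < q, g i = g j → i = j := by
    intro i hi j hj e
    simp only [g, hi, hj, dif_pos] at e
    have := ((Finset.range (q + 8) \ F).orderEmbOfCardLe hq).injective e
    exact congrArg Fin.val this
  have hm : ∀ v ∈ A, v ∉ Z → v ∈ (↑(A \ Z) : Set V) := fun v hv h =>
    Finset.mem_coe.2 (Finset.mem_sdiff.2 ⟨hv, h⟩)
  have key : ∀ u ∈ Z, ∀ v ∈ A, v ∉ Z → c u ≠ g (d v) := fun u hu v hv h e =>
    (g1 _ (h1 v (hm v hv h))).2 (Finset.mem_union_left _ (Finset.mem_image.2 ⟨u, hu, e⟩))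
  refine ⟨fun v => if v ∈ Z then c v else g (d v), fun v hv => ?_, fun u hu v hv ha => ?_,
    fun v hv => by simp [hv], fun v hv hvZ => ?_⟩
  · by_cases h : v ∈ Z
    · simpa [h] using hc v h
    · simpa [h] using (g1 _ (h1 v (hm v hv h))).1
  · by_cases e1 : u ∈ Z <;> by_cases e2 : v ∈ Z <;> simp only [e1, e2, if_true, if_false]
    · exact hp u e1 v e2 ha
    · exact key u e1 v hv e2
    · exact (key v e2 u hu e1).symm
    · exact fun e => h2 u (hm u hu e1) v (hm v hv e2) ha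
        (g2 _ (h1 u (hm u hu e1)) _ (h1 v (hm v hv e2)) e)
  · simp only [hvZ, if_false]
    exact fun h => (g1 _ (h1 v (hm v hv hvZ))).2 (Finset.mem_union_right _
      (Finset.mem_biUnion.2 ⟨v, Finset.mem_sdiff.2 ⟨hv, hvZ⟩, h⟩))

theorem sep {U1 U2 X : Finset V} (hZ : Z ⊆ A) (hc : ∀ v ∈ Z, c v < n)
    (hp : ∀ u ∈ Z, ∀ v ∈ Z, G.Adj u v → c u ≠ c v)
    (hw : 2 * Z.card + ∑ v ∈ A \ Z, (Φ v).card ≤ 8) (hd : ∀ z ∈ Z, 2 < dg G (A \ Z) z)
    (hA : ∀ x, x ∈ A ↔ x ∈ U1 ∨ x ∈ U2 ∨ x ∈ X) (h12 : ∀ x ∈ U1, x ∉ U2) (h1X : ∀ x ∈ U1, x ∉ X)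
    (h2X : ∀ x ∈ U2, x ∉ X) (hX : X.card ≤ 2) (hn : ∀ a ∈ U1, ∀ b ∈ U2, ¬ G.Adj a b)
    (n1 : U1.Nonempty) (n2 : U2.Nonempty)
    (hw1 : 2 * (Z ∩ U1).card + ∑ v ∈ U1 \ Z, (Φ v).card ≤ 4)
    (ih : ∀ B ⊆ A, B.card < A.card → Hyp G n B) : Ext G n A Z c Φ := by
  obtain ⟨y, hy, hyZ⟩ : ∃ y ∈ U1, y ∉ Z := by
    by_contra h
    push Not at h
    obtain ⟨z, hz⟩ := n1
    have a1 := hd z (h z hz)
    have a2 : nbr G (A \ Z) z ⊆ X := by
      intro x hx
      rw [mem_nbr, Finset.mem_sdiff] at hx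
      rcases (hA x).1 hx.1.1 with e | e | e
      · exact (hx.1.2 (h x e)).elim
      · exact (hn z hz x e hx.2).elim
      · exact e
    have a3 := Finset.card_le_card a2
    rw [card_nbr] at a3
    omega
  have s1 : U2 ∪ X ∪ Z ⊆ A := by
    intro x hx
    simp only [Finset.mem_union] at hx
    rcases hx with (e | e) | e
    · exact (hA x).2 (Or.inr (Or.inl e))
    · exact (hA x).2 (Or.inr (Or.inr e))
    · exact hZ e
  obtain ⟨c1, a1, a2, a3, a4⟩ := ih _ s1 (Finset.card_lt_card ⟨s1, fun h => by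
      have := h ((hA y).2 (Or.inl hy))
      simp only [Finset.mem_union] at this
      rcases this with (e | e) | e
      · exact h12 y hy e
      · exact h1X y hy e
      · exact hyZ e⟩) Z c Φ Finset.subset_union_right hc hp (by
      have : ∑ v ∈ (U2 ∪ X ∪ Z) \ Z, (Φ v).card ≤ ∑ v ∈ A \ Z, (Φ v).card :=
        Finset.sum_le_sum_of_subset (Finset.sdiff_subset_sdiff s1 Finset.Subset.rfl)
      omega)
  have s2 : U1 ∪ X ⊆ A := by
    intro x hx
    simp only [Finset.mem_union] at hx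
    rcases hx with e | e
    · exact (hA x).2 (Or.inl e)
    · exact (hA x).2 (Or.inr (Or.inr e))
  have s3 : ∀ x ∈ Z ∩ U1 ∪ X, x ∈ U2 ∪ X ∪ Z := by
    intro x hx
    simp only [Finset.mem_union, Finset.mem_inter] at hx ⊢
    tauto
  obtain ⟨c2, b1, b2, b3, b4⟩ := ih _ s2 (Finset.card_lt_card ⟨s2, fun h => by
      obtain ⟨y', hy'⟩ := n2
      have := h ((hA y').2 (Or.inr (Or.inl hy')))
      simp only [Finset.mem_union] at this
      rcases this with e | e
      · exact h12 y' e hy'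
      · exact h2X y' hy' e⟩) (Z ∩ U1 ∪ X) c1 Φ
      (Finset.union_subset_union Finset.inter_subset_right Finset.Subset.rfl)
      (fun v hv => a1 v (s3 v hv)) (fun u hu v hv => a2 u (s3 u hu) v (s3 v hv)) (by
      have e1 : ∑ v ∈ (U1 ∪ X) \ (Z ∩ U1 ∪ X), (Φ v).card ≤ ∑ v ∈ U1 \ Z, (Φ v).card := by
        refine Finset.sum_le_sum_of_subset fun x hx => ?_
        simp only [Finset.mem_union, Finset.mem_inter, Finset.mem_sdiff] at hx ⊢
        tauto
      have e2 := Finset.card_union_le (Z ∩ U1) X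
      omega)
  have m1 : ∀ v ∈ A, v ∉ U1 → v ∈ U2 ∪ X ∪ Z := by
    intro v hv h
    have := (hA v).1 hv
    simp only [Finset.mem_union]
    tauto
  have key : ∀ u ∈ U1, ∀ v ∈ A, v ∉ U1 → G.Adj u v → c2 u ≠ c1 v := by
    intro u hu v hv h ha
    have hvX : v ∈ X := by
      rcases (hA v).1 hv with e | e | e
      · exact (h e).elim
      · exact (hn u hu v e ha).elim
      · exact e
    rw [← b3 v (Finset.mem_union_right _ hvX)]
    exact b2 u (Finset.mem_union_left _ hu) v (Finset.mem_union_right _ hvX) ha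
  refine ⟨fun v => if v ∈ U1 then c2 v else c1 v, fun v hv => ?_, fun u hu v hv ha => ?_,
    fun v hv => ?_, fun v hv hvZ => ?_⟩
  · by_cases h : v ∈ U1
    · simpa [h] using b1 v (Finset.mem_union_left _ h)
    · simpa [h] using a1 v (m1 v hv h)
  · by_cases e1 : u ∈ U1 <;> by_cases e2 : v ∈ U1 <;> simp only [e1, e2, if_true, if_false]
    · exact b2 u (Finset.mem_union_left _ e1) v (Finset.mem_union_left _ e2) ha
    · exact key u e1 v hv e2 ha
    · exact (key v e2 u hu e1 ha.symm).symm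
    · exact a2 u (m1 u hu e1) v (m1 v hv e2) ha
  · by_cases h : v ∈ U1
    · simp only [h, if_true]
      rw [b3 v (Finset.mem_union_left _ (Finset.mem_inter.2 ⟨hv, h⟩)), a3 v hv]
    · simpa [h] using a3 v hv
  · by_cases h : v ∈ U1
    · simp only [h, if_true]
      refine b4 v (Finset.mem_union_left _ h) fun h' => ?_
      rcases Finset.mem_union.1 h' with e | e
      · exact hvZ (Finset.mem_inter.1 e).1
      · exact h1X v h e
    · simpa [h] using a4 v (m1 v hv h) hvZ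

theorem hyp (A0 : Finset V) (hq : 3 ≤ q)
    (h : ∀ A ⊆ A0, 4 ≤ A.card → Conn3 G ↑A → Col G ↑A q) (A : Finset V) (hA : A ⊆ A0) :
    Hyp G (q + 8) A := by
  classical
  induction hn : A.card using Nat.strong_induction_on generalizing A with
  | _ k ih =>
  subst hn
  intro Z c Φ hZ hc hp hw
  by_cases h2 : ∃ z ∈ Z, dg G (A \ Z) z ≤ 2
  · obtain ⟨z, hz, hd⟩ := h2
    exact low_deg hZ hc hp hw hz hd (ih _ (Finset.card_erase_lt_of_mem (hZ hz)) _
      ((Finset.erase_subset _ _).trans hA) rfl)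
  push Not at h2
  by_cases h3 : A.card ≤ 3
  · refine of_col hc hp hw ((Col.of_card G (A \ Z)).le ?_)
    have := Finset.card_le_card (Finset.sdiff_subset (s := A) (t := Z))
    omega
  by_cases h4 : Conn3 G ↑A
  · exact of_col hc hp hw ((h A hA (by omega) h4).mono (by exact_mod_cast Finset.sdiff_subset))
  simp only [Conn3, not_forall] at h4
  obtain ⟨u, u', a, b, ha, hb, hab⟩ := h4
  let X : Finset V := A ∩ {u, u'}
  let U1 : Finset V := A.filter fun x => Rch G (↑A \ {u, u'}) a x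
  let U2 : Finset V := A.filter fun x => x ∉ X ∧ ¬ Rch G (↑A \ {u, u'}) a x
  have mX : ∀ x, x ∈ X ↔ x ∈ A ∧ x ∈ ({u, u'} : Set V) := by
    intro x
    simp [X]
  have m1 : ∀ x, x ∈ U1 ↔ x ∈ A ∧ Rch G (↑A \ {u, u'}) a x := fun x => Finset.mem_filter
  have m2 : ∀ x, x ∈ U2 ↔ x ∈ A ∧ x ∉ X ∧ ¬ Rch G (↑A \ {u, u'}) a x := fun x => Finset.mem_filter
  have hX : X.card ≤ 2 := (Finset.card_le_card Finset.inter_subset_right).trans Finset.card_le_two
  have h12 : ∀ x ∈ U1, x ∉ U2 := fun x h1 h2 => ((m2 x).1 h2).2.2 ((m1 x).1 h1).2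
  have h1X : ∀ x ∈ U1, x ∉ X := fun x h1 h2 => ((m1 x).1 h1).2.right.2 ((mX x).1 h2).2
  have h2X : ∀ x ∈ U2, x ∉ X := fun x h => ((m2 x).1 h).2.1
  have hn : ∀ x ∈ U1, ∀ y ∈ U2, ¬ G.Adj x y := by
    intro x hx y hy hxy
    obtain ⟨y1, y2, y3⟩ := (m2 y).1 hy
    exact y3 (((m1 x).1 hx).2.snoc hxy ⟨y1, fun e => y2 ((mX y).2 ⟨y1, e⟩)⟩)
  have n1 : U1.Nonempty := ⟨a, (m1 a).2 ⟨ha.1, Rch.refl ha⟩⟩
  have n2 : U2.Nonempty := ⟨b, (m2 b).2 ⟨hb.1, fun e => hb.2 ((mX b).1 e).2, hab⟩⟩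
  have hAU : ∀ x, x ∈ A ↔ x ∈ U1 ∨ x ∈ U2 ∨ x ∈ X := by
    intro x
    refine ⟨fun hx => ?_, ?_⟩
    · by_cases e1 : x ∈ X
      · exact Or.inr (Or.inr e1)
      · by_cases e2 : Rch G (↑A \ {u, u'}) a x
        · exact Or.inl ((m1 x).2 ⟨hx, e2⟩)
        · exact Or.inr (Or.inl ((m2 x).2 ⟨hx, e1, e2⟩))
    · rintro (e | e | e)
      · exact ((m1 x).1 e).1
      · exact ((m2 x).1 e).1
      · exact ((mX x).1 e).1
  have ih' : ∀ B ⊆ A, B.card < A.card → Hyp G (q + 8) B := fun B hB hlt =>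
    ih _ hlt B (hB.trans hA) rfl
  have w1 : (Z ∩ U1).card + (Z ∩ U2).card ≤ Z.card := by
    rw [← Finset.card_union_of_disjoint (Finset.disjoint_left.2 fun x h1 h2 =>
      h12 x (Finset.mem_inter.1 h1).2 (Finset.mem_inter.1 h2).2)]
    exact Finset.card_le_card (Finset.union_subset Finset.inter_subset_left
      Finset.inter_subset_left)
  have w2 : ∑ v ∈ U1 \ Z, (Φ v).card + ∑ v ∈ U2 \ Z, (Φ v).card ≤ ∑ v ∈ A \ Z, (Φ v).card := by
    rw [← Finset.sum_union (Finset.disjoint_left.2 fun x h1 h2 =>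
      h12 x (Finset.mem_sdiff.1 h1).1 (Finset.mem_sdiff.1 h2).1)]
    exact Finset.sum_le_sum_of_subset (Finset.union_subset
      (Finset.sdiff_subset_sdiff (Finset.filter_subset _ _) Finset.Subset.rfl)
      (Finset.sdiff_subset_sdiff (Finset.filter_subset _ _) Finset.Subset.rfl))
  by_cases hw1 : 2 * (Z ∩ U1).card + ∑ v ∈ U1 \ Z, (Φ v).card ≤ 4
  · exact sep hZ hc hp hw h2 hAU h12 h1X h2X hX hn n1 n2 hw1 ih'
  · exact sep (U1 := U2) (U2 := U1) hZ hc hp hw h2 (fun x => by rw [hAU]; tauto)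
      (fun x a b => h12 x b a) h2X h1X hX (fun x hx y hy e => hn y hy x hx e.symm) n2 n1
      (by omega) ih'

end ThreeC

theorem three_col [DecidableEq V] (G : SimpleGraph V) (A0 : Finset V) (q : ℕ) (hq : 3 ≤ q)
    (h : ∀ A ⊆ A0, 4 ≤ A.card → Conn3 G ↑A → Col G ↑A q) : Col G ↑A0 (q + 8) := by
  obtain ⟨c, h1, h2, _⟩ := ThreeC.hyp A0 hq h A0 Finset.Subset.rfl ∅ (fun _ => 0) (fun _ => ∅)
    (Finset.empty_subset _) (by simp) (by simp) (by simp)
  exact ⟨c, h1, h2⟩

namespace ThreeC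

theorem long_from {G : SimpleGraph V} {A : Set V} (hA : Conn3 G A) {m : ℕ} (hm : 1 ≤ m)
    {p : ℕ → V} (hp : PathF G p (6 * m)) (hpA : ∀ i ≤ 6 * m, p i ∈ A) {y w w' : V}
    (hy : y ∈ A \ {w, w'}) {k : ℕ} (hk : k ≤ m) : ∃ x, Pth G (A \ {w, w'}) y x k := by
  obtain ⟨s, hs, hD⟩ : ∃ s, s + 2 * m ≤ 6 * m ∧
      ∀ x ∈ seg p s (s + 2 * m - 1), x ∉ ({w, w'} : Set V) := by
    by_contra h
    push Not at h
    obtain ⟨_, ⟨i, i1, i2, rfl⟩, hi⟩ := h 0 (by omega)
    obtain ⟨_, ⟨j, j1, j2, rfl⟩, hj⟩ := h (2 * m) (by omega)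
    obtain ⟨_, ⟨l, l1, l2, rfl⟩, hl⟩ := h (4 * m) (by omega)
    have a1 := hp.ne (i := i) (j := j) (by omega) (by omega) (by omega)
    have a2 := hp.ne (i := i) (j := l) (by omega) (by omega) (by omega)
    have a3 := hp.ne (i := j) (j := l) (by omega) (by omega) (by omega)
    simp only [mem_insert_iff, mem_singleton_iff] at hi hj hl
    rcases hi with hi | hi <;> rcases hj with hj | hj <;> rcases hl with hl | hl <;> simp_all
  have hDA : seg p s (s + 2 * m - 1) ⊆ A \ {w, w'} := by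
    rintro x hx
    refine ⟨?_, hD x hx⟩
    obtain ⟨i, _, i2, rfl⟩ := hx
    exact hpA i (by omega)
  have h0 : p s ∈ seg p s (s + 2 * m - 1) := mem_seg le_rfl (by omega)
  obtain ⟨n, hn⟩ := (hA w w' y (p s) hy (hDA h0)).pth
  obtain ⟨_, ⟨j, j1, j2, rfl⟩, a, _, S1, _, _, b1, _, b2, b3, _⟩ := hn.first_hit h0
  have key : ∀ {S x r}, S ⊆ seg p s (s + 2 * m - 1) → Pth G S (p j) x r → m ≤ r →
      ∃ x, Pth G (A \ {w, w'}) y x k := by
    intro S x r h1 h2 h3
    have := (b3.trans h2 fun x hx hx' => b2 x hx (h1 hx')).mono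
      (union_subset b1 (h1.trans hDA))
    exact this.take (by omega)
  by_cases hj : s + m ≤ j
  · refine key ?_ (hp.pth (i := s) (j := j) j1 (by omega)).symm (by omega)
    rintro _ ⟨i, i1, i2, rfl⟩
    exact mem_seg i1 (by omega)
  · refine key ?_ (hp.pth (i := j) (j := s + 2 * m - 1) j2 (by omega)) (by omega)
    rintro _ ⟨i, i1, i2, rfl⟩
    exact mem_seg (by omega) i2

end ThreeC

theorem vc_path (G : SimpleGraph V) (A : Set V) (hA : Conn3 G A) (m l : ℕ) (hl : Odd l) (hlm : l ≤ m)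
    (u v : V) (hp : Pth G A u v (6 * m)) (f : V → Prop) (a b : V) (ha : a ∈ A) (hb : b ∈ A)
    (hfa : f a) (hfb : ¬ f b) : ∃ y y', Pth G A y y' l ∧ f y ∧ ¬ f y' := by
  by_contra hne
  have hiff : ∀ y y', Pth G A y y' l → (f y ↔ f y') := by
    intro y y' h
    by_contra h'
    by_cases e : f y
    · exact hne ⟨y, y', h, e, fun e' => h' (iff_of_true e e')⟩
    · exact hne ⟨y', y, h.symm, by tauto, e⟩
  obtain ⟨p, hp, -, -, hpA⟩ := hp
  have hl1 : 1 ≤ l := hl.pos
  have step1 : ∀ y ∈ A, ∀ w ∈ A, ∀ w' ∈ A, G.Adj y w → G.Adj y w' → (f w ↔ f w') := by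
    intro y hy w hw w' hw' h1 h2
    obtain ⟨x, hx⟩ := ThreeC.long_from hA (by omega) hp hpA (y := y) (w := w) (w' := w')
      ⟨hy, by
        rintro (e | e)
        · exact h1.ne e
        · exact h2.ne e⟩ (k := l - 1) (by omega)
    have a1 := (hx.cons h1.symm (by simp)).mono (insert_subset hw sdiff_subset)
    have a2 := (hx.cons h2.symm (by simp)).mono (insert_subset hw' sdiff_subset)
    rw [show l - 1 + 1 = l by omega] at a1 a2
    exact (hiff _ _ a1).trans (hiff _ _ a2).symm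
  have conn : ∀ x ∈ A, ∀ y ∈ A, Rch G A x y := by
    intro x hx y hy
    obtain ⟨z, h1, h2⟩ : ∃ z, x ≠ z ∧ y ≠ z := by
      by_contra h
      push Not at h
      have a1 := hp.ne (i := 0) (j := 1) (by omega) (by omega) (by omega)
      have a2 := hp.ne (i := 0) (j := 2) (by omega) (by omega) (by omega)
      have a3 := hp.ne (i := 1) (j := 2) (by omega) (by omega) (by omega)
      by_cases e0 : x = p 0
      · exact a3 ((h _ (e0 ▸ a1)).symm.trans (h _ (e0 ▸ a2)))
      · by_cases e1 : x = p 1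
        · exact a2 ((h _ e0).symm.trans (h _ (e1 ▸ a3)))
        · exact a1 ((h _ e0).symm.trans (h _ e1))
    exact (hA z z x y ⟨hx, by simpa using h1⟩ ⟨hy, by simpa using h2⟩).mono sdiff_subset
  obtain ⟨a', ha', b', hb', h1, h2, h3⟩ : ∃ a' ∈ A, ∃ b' ∈ A, G.Adj a' b' ∧ f a' ∧ ¬ f b' := by
    by_contra h
    push Not at h
    exact hfb ((conn a ha b hb).closed (B := {x | f x}) hfa
      fun x hx y hy hxA hxy => h x hxA y hy hxy hx)
  have good : ∀ y ∈ A, ∀ w ∈ A, G.Adj y w → (f w ↔ ¬ f y) := by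
    intro y hy
    refine (conn a' ha' y hy).closed (B := {y | ∀ w ∈ A, G.Adj y w → (f w ↔ ¬ f y)}) ?_ ?_
    · intro w hw hadj
      have := step1 a' ha' w hw b' hb' hadj h1
      tauto
    · intro x hx z hz hxA hxz w hw hzw
      have a1 := hx z hz hxz
      have a2 := step1 z hz w hw x hxA hzw hxz.symm
      tauto
  have alt : ∀ i ≤ 6 * m, (f (p i) ↔ (f (p 0) ↔ Even i)) := by
    intro i
    induction i with
    | zero => simp
    | succ i ih =>
      intro hi
      have a1 := good (p i) (hpA i (by omega)) (p (i + 1)) (hpA _ hi) (hp.adj i (by omega))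
      have a2 := ih (by omega)
      rw [Nat.even_add_one]
      tauto
  have a1 := alt l (by omega)
  have a2 := hiff (p 0) (p l) ⟨p, hp.take (by omega), rfl, rfl, fun i hi => hpA i (by omega)⟩
  have a3 := Nat.not_even_iff_odd.2 hl
  tauto

theorem layer_col [Fintype V] [DecidableEq V] (G : SimpleGraph V) (A : Set V) (root : V) (R m q : ℕ)
    (hR : ∀ v ∈ A, WkLe G univ root v R) (hm : Odd m) (hRm : 2 * R + 1 ≤ m) (hc : ¬ Cyc G univ m)
    (hq : 3 ≤ q)
    (h : ∀ A' : Finset V, ↑A' ⊆ A → (∀ u v, ¬ Pth G ↑A' u v (6 * m)) → Col G ↑A' q) :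
    Col G A (2 * (q + 8)) := by
  classical
  obtain ⟨dep, par, own, b1, b2⟩ := bfs G univ {root}
  have hr : ∀ v ∈ A, ∃ c ∈ ({root} : Set V), Rch G univ c v := fun v hv =>
    ⟨root, rfl, (hR v hv).rch⟩
  have hdep : ∀ v ∈ A, dep v ≤ R := by
    intro v hv
    obtain ⟨k, hk, hw⟩ := hR v hv
    exact (b1 root rfl v k hw).trans hk
  have hadj : ∀ u ∈ A, ∀ v, G.Adj u v → dep v ≤ dep u + 1 := by
    intro u hu v ha
    obtain ⟨c1, c2, _⟩ := b2 u (hr u hu)
    exact b1 _ c1 v _ (c2.snoc ha trivial)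
  have chain : ∀ y ∈ A, ∀ i ≤ dep y, (∃ c ∈ ({root} : Set V), Rch G univ c (par^[i] y)) ∧
      dep (par^[i] y) + i = dep y := by
    intro y hy i
    induction i with
    | zero => exact fun _ => ⟨hr y hy, rfl⟩
    | succ i ih =>
      intro hi
      obtain ⟨c1, c2⟩ := ih (by omega)
      obtain ⟨_, _, c3, c4, _⟩ := (b2 _ c1).2.2.2.1 (by omega)
      rw [Function.iterate_succ_apply']
      exact ⟨c3, by omega⟩
  have hroot : ∀ y ∈ A, par^[dep y] y = root := by
    intro y hy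
    obtain ⟨c1, c2⟩ := chain y hy (dep y) le_rfl
    obtain ⟨c3, _, c4, _⟩ := b2 _ c1
    rw [← c4 (by omega)]
    exact c3
  have cpath : ∀ y ∈ A, PathF G (fun i => par^[i] y) (dep y) := by
    intro y hy
    refine ⟨fun i hi => ?_, fun i hi j hj e => ?_⟩
    · obtain ⟨c1, c2⟩ := chain y hy i hi.le
      have := ((b2 _ c1).2.2.2.1 (by omega)).1
      rw [Function.iterate_succ_apply']
      exact this.symm
    · have c1 := (chain y hy i hi).2
      have c2 := (chain y hy j hj).2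
      rw [e] at c1
      omega
  have layer : ∀ d, Col G {v | v ∈ A ∧ dep v = d} (q + 8) := by
    intro d
    have := three_col G (Finset.univ.filter fun v => v ∈ A ∧ dep v = d) q hq (by
      intro A' hA' h4 h3
      have hm' : ∀ y ∈ A', y ∈ A ∧ dep y = d := fun y hy => (Finset.mem_filter.1 (hA' hy)).2
      refine h A' (fun y hy => (hm' y hy).1) fun u v hp => hc ?_
      have hex : ∃ i, ∀ y ∈ A', ∀ y' ∈ A', par^[i] y = par^[i] y' := by
        refine ⟨d, fun y hy y' hy' => ?_⟩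
        have c1 := hroot y (hm' y hy).1
        have c2 := hroot y' (hm' y' hy').1
        rw [(hm' y hy).2] at c1
        rw [(hm' y' hy').2] at c2
        rw [c1, c2]
      have hle : Nat.find hex ≤ d := by
        refine Nat.find_min' hex fun y hy y' hy' => ?_
        have c1 := hroot y (hm' y hy).1
        have c2 := hroot y' (hm' y' hy').1
        rw [(hm' y hy).2] at c1
        rw [(hm' y' hy').2] at c2
        rw [c1, c2]
      have hspec := Nat.find_spec hex
      have hpos : Nat.find hex ≠ 0 := by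
        intro e
        rw [e] at hspec
        have := Finset.card_le_one.2 hspec
        omega
      obtain ⟨i, hi⟩ := Nat.exists_eq_succ_of_ne_zero hpos
      have hmin := Nat.find_min hex (m := i) (by omega)
      rw [hi] at hspec hle
      push Not at hmin
      obtain ⟨y0, hy0, y1, hy1, hne⟩ := hmin
      have hdR : d ≤ R := (hm' y0 hy0).2 ▸ hdep y0 (hm' y0 hy0).1
      obtain ⟨y, y', hp', f1, f2⟩ := vc_path G ↑A' h3 m (m - 2 * (i + 1))
        (by
          rw [Nat.odd_iff] at hm ⊢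
          omega) (by omega) u v hp (fun y => par^[i] y = par^[i] y0) y0 y1 hy0 hy1 rfl hne.symm
      have hy := hm' y hp'.left
      have hy' := hm' y' hp'.right
      have hne' : par^[i] y ≠ par^[i] y' := fun e => f2 (e ▸ f1)
      have p1 := (cpath y hy.1).pth (i := 0) (j := i + 1) (by omega) (by omega)
      have p2 := ((cpath y' hy'.1).pth (i := 0) (j := i + 1) (by omega) (by omega)).symm
      simp only [Function.iterate_zero, id_eq, Nat.sub_zero] at p1 p2
      rw [← hspec y hp'.left y' hp'.right] at p2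
      have p3 := p1.trans p2 (by
        rintro _ ⟨a, _, a2, rfl⟩ ⟨b, _, b2, e⟩
        have c1 := (chain y hy.1 a (by omega)).2
        have c2 := (chain y' hy'.1 b (by omega)).2
        simp only at e
        rw [e] at c2
        obtain rfl : a = b := by omega
        rcases a2.eq_or_lt with rfl | hlt
        · rfl
        · refine (hne' ?_).elim
          obtain ⟨k, rfl⟩ : ∃ k, i = k + a := ⟨i - a, by omega⟩
          rw [Function.iterate_add_apply, Function.iterate_add_apply, e])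
      have p4 := hp'.close p3 (fun e => hne' (by rw [e])) (by omega) (by
        rintro x hx (⟨a, _, a2, rfl⟩ | ⟨a, _, a2, rfl⟩)
        · have c1 := (chain y hy.1 a (by omega)).2
          have c2 := (hm' _ hx).2
          obtain rfl : a = 0 := by
            simp only at c2
            omega
          exact Or.inl rfl
        · have c1 := (chain y' hy'.1 a (by omega)).2
          have c2 := (hm' _ hx).2
          obtain rfl : a = 0 := by
            simp only at c2
            omega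
          exact Or.inr rfl)
      rw [show m - 2 * (i + 1) + (i + 1 + (i + 1)) = m by omega] at p4
      exact p4.univ)
    exact this.mono fun v hv => by simpa using hv
  have half : ∀ r, Col G {v | v ∈ A ∧ dep v % 2 = r} (q + 8) := by
    intro r
    refine Col.glue dep (fun i => (layer i).mono fun v hv => ⟨hv.1.1, hv.2⟩) ?_
    intro u hu v hv ha
    have c1 := hadj u hu.1 v ha
    have c2 := hadj v hv.1 u ha.symm
    have c3 := hu.2
    have c4 := hv.2
    omega
  rw [two_mul]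
  refine ((half 0).union (half 1)).mono fun v hv => ?_
  rcases Nat.mod_two_eq_zero_or_one (dep v) with e | e
  · exact Or.inl ⟨hv, e⟩
  · exact Or.inr ⟨hv, e⟩

end Pool.Agent.P.MP_0cc987_co
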