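import Pool.Agent.P.MP_0cc987_co.Num

/-! Iteration of the expansion stage. -/

namespace Pool.Agent.P.MP_0cc987_co

open Set

namespace Two

variable {V : Type*} [Fintype V] [DecidableEq V] {G : SimpleGraph V} {Y : Finset V} {v1 v2 : V}

theorem star {A : Finset V} {v : V} (h : A ⊆ nb G {v}) : Rt G (insert v A) v 1 := by
  refine ⟨by simp, fun y hy => ?_⟩
  rcases Finset.mem_insert.1 hy with rfl | hy'
  · exact WkLe.refl (by simp) _
  · obtain ⟨-, x, hx, ha⟩ := mem_nb.1 (h hy')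
    rw [Finset.mem_singleton.1 hx] at ha
    exact WkLe.single (by simp) hy ha

omit [Fintype V] [DecidableEq V] in
theorem weaken {ρ ρ' D D' : ℕ} (h : TwoExp G Y v1 v2 ρ D) (h1 : ρ ≤ ρ') (h2 : D' ≤ D) :
    TwoExp G Y v1 v2 ρ' D' := by
  obtain ⟨F1, F2, a, b, c, d, e, f, g⟩ := h
  exact ⟨F1, F2, a.le h1, b.le h1, c, d, e, h2.trans f, h2.trans g⟩

theorem start {a : ℕ} (hv : v1 ≠ v2) (h1 : v1 ∉ Y) (h2 : v2 ∉ Y)
    (n1 : 2 * a + 2 ≤ (nb G {v1} \ Y).card) (n2 : 2 * a + 2 ≤ (nb G {v2} \ Y).card) :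
    TwoExp G Y v1 v2 1 a := by
  obtain ⟨A, hA, hc⟩ := Finset.exists_subset_card_eq (s := (nb G {v1} \ Y).erase v2) (n := a)
    (by have := Finset.pred_card_le_card_erase (s := nb G {v1} \ Y) (a := v2); omega)
  have m : ∀ x ∈ A, x ≠ v2 ∧ x ∈ nb G {v1} ∧ x ∉ Y := fun x hx => by
    simpa only [Finset.mem_erase, Finset.mem_sdiff] using hA hx
  refine ⟨insert v1 A, insert v2 ((nb G {v2} \ Y) \ insert v1 A), star fun x hx => (m x hx).2.1,
    star (Finset.sdiff_subset.trans Finset.sdiff_subset), ?_, ?_, ?_, ?_, ?_⟩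
  · rw [Finset.disjoint_insert_right]
    refine ⟨fun h => ?_, Finset.disjoint_sdiff⟩
    rcases Finset.mem_insert.1 h with e | e
    · exact hv e.symm
    · exact (m _ e).1 rfl
  · rw [Finset.disjoint_insert_left]
    exact ⟨h1, Finset.disjoint_left.2 fun x hx => (m x hx).2.2⟩
  · rw [Finset.disjoint_insert_left]
    exact ⟨h2, Finset.disjoint_left.2 fun x hx =>
      (Finset.mem_sdiff.1 (Finset.mem_sdiff.1 hx).1).2⟩
  · exact hc ▸ Finset.card_le_card (Finset.subset_insert _ _)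
  · refine le_trans ?_ (Finset.card_le_card (Finset.subset_insert _ _))
    have a1 := Finset.le_card_sdiff (insert v1 A) (nb G {v2} \ Y)
    have a2 := Finset.card_insert_le v1 A
    omega

theorem key {j : ℕ} (h : 80 ≤ j) : 3 * 10 ^ 12 * j ^ 5 ≤ 2 ^ j := by
  induction j, h using Nat.le_induction with
  | base => norm_num
  | succ j h ih =>
    have a : (80 * (j + 1)) ^ 5 ≤ (81 * j) ^ 5 := Nat.pow_le_pow_left (by omega) 5
    rw [mul_pow, mul_pow] at a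
    rw [pow_succ 2]
    omega

theorem key' {j : ℕ} (h : 80 ≤ j) : 240000 * j ^ 2 * (2 * (4800000 * j ^ 3) + 3) ≤ 2 ^ j := by
  have a : j ^ 2 ≤ j ^ 5 := Nat.pow_le_pow_right (by omega) (by omega)
  have b := key h
  have c : 240000 * j ^ 2 * (2 * (4800000 * j ^ 3) + 3) =
    2304000000000 * j ^ 5 + 720000 * j ^ 2 := by ring
  omega

theorem cube {lam j c : ℕ} (hl : 15000 ≤ lam) (hj : j ≤ 18 * lam) (hc : c ≤ 4800000) :
    c * j ^ 3 ≤ lam ^ 7 := by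
  have a : j ^ 3 ≤ (18 * lam) ^ 3 := Nat.pow_le_pow_left hj 3
  have b : 15000 ^ 4 ≤ lam ^ 4 := Nat.pow_le_pow_left hl 4
  calc c * j ^ 3 ≤ 4800000 * (18 * lam) ^ 3 := Nat.mul_le_mul hc a
    _ = (4800000 * 18 ^ 3) * lam ^ 3 := by ring
    _ ≤ lam ^ 4 * lam ^ 3 := Nat.mul_le_mul_right _ (le_trans (by norm_num) b)
    _ = lam ^ 7 := by ring

theorem small {lam j : ℕ} (h : 2 ^ (2 * j) < lam ^ 18) : j < 9 * lam := by
  have := (Nat.pow_lt_pow_iff_right (by norm_num)).1 (h.trans_le (pow_le_two_pow_mul lam 18))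
  omega

theorem noStall1 {j0 lam j : ℕ} {v v' : V} (hs : ¬ Stall G Y v v' j0 lam) (h0 : 80 ≤ j0)
    (hl : 15000 ≤ lam) (hj : j0 ≤ j) (h : 2 ^ (2 * j) < lam ^ 18) :
    NoStall G Y v v' (4800000 * j ^ 3) (240000 * j ^ 2) (2 ^ j) (2 ^ (10 * j)) := by
  intro X a b c d e
  by_contra f
  have g := small h
  refine hs ⟨X, _, _, a, b, c, ?_, (key' (h0.trans hj)).trans d, not_le.1 f, e.trans_le ?_,
    Or.inr ⟨j, hj, rfl, d, e, h⟩⟩
  · have := cube (j := j) hl (by omega) le_rfl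
    omega
  · exact Nat.pow_le_pow_right (by norm_num) (by nlinarith)

theorem stage1 (hS : StageSt V) {j0 lam j : ℕ} (s1 : ¬ Stall G Y v1 v2 j0 lam)
    (s2 : ¬ Stall G Y v2 v1 j0 lam) (h0 : 80 ≤ j0) (hl : 15000 ≤ lam) (hj : j0 ≤ j)
    (h : 2 ^ (2 * j) < lam ^ 18) (t : TwoExp G Y v1 v2 (2400000 * j ^ 3) (2 ^ (2 * j))) :
    TwoExp G Y v1 v2 (2400000 * (2 * j) ^ 3) (2 ^ (2 * (2 * j))) := by
  have e : 2400000 * j ^ 3 + 240000 * j ^ 2 * (10 * j) = 4800000 * j ^ 3 := by ring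
  have k := key' (h0.trans hj)
  have j1 : 1 ≤ j ^ 2 := Nat.one_le_pow _ _ (by omega)
  have j2 : 1 ≤ j ^ 3 := Nat.one_le_pow _ _ (by omega)
  have k1 : 240000 * j ^ 2 ≤ 2 ^ j := le_trans (Nat.le_mul_of_pos_right _ (by omega)) k
  have k2 : 240000 * j ^ 2 * (4800000 * j ^ 3 + 1) ≤ 2 ^ j :=
    le_trans (Nat.mul_le_mul_left _ (by omega)) k
  have k3 : 4800000 * j ^ 3 + 1 ≤ 2 ^ j := le_trans (Nat.le_mul_of_pos_left _ (by omega)) k2
  have := hS G Y v1 v2 _ (240000 * j ^ 2) (10 * j) (2 ^ j) _ (2 ^ (2 * (2 * j))) (2 ^ (10 * j)) t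
    (by omega) Nat.one_le_two_pow
    (by rw [two_mul j, pow_add]; exact Nat.mul_le_mul_right _ k1) (by rw [e]; exact k2)
    (by
      rw [e]
      have a : 1 ≤ 2 ^ (2 * (2 * j)) := Nat.one_le_two_pow
      have b : 2 ^ (2 * (2 * j)) ≤ (2 ^ (2 * (2 * j))) ^ 2 := Nat.le_self_pow (by norm_num) _
      calc _ ≤ 2 ^ j * (2 ^ j * (2 ^ (2 * (2 * j))) ^ 2) :=
            Nat.mul_le_mul k3 (le_trans (by omega)
              (Nat.mul_le_mul_right _ (show 3 ≤ 2 ^ j by omega)))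
        _ = 2 ^ (10 * j) := by rw [← pow_mul, ← pow_add, ← pow_add]; congr 1; ring)
    le_rfl (by rw [e]; exact noStall1 s1 h0 hl hj h) (by rw [e]; exact noStall1 s2 h0 hl hj h)
  rw [e] at this
  refine weaken this ?_ le_rfl
  rw [mul_pow]
  omega

theorem iter (hS : StageSt V) {j0 lam : ℕ} (s1 : ¬ Stall G Y v1 v2 j0 lam)
    (s2 : ¬ Stall G Y v2 v1 j0 lam) (h0 : 80 ≤ j0) (hl : 15000 ≤ lam) (n : ℕ) :
    ∀ j, j0 ≤ j → j ≤ 18 * lam → 18 * lam ≤ j + n →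
      TwoExp G Y v1 v2 (2400000 * j ^ 3) (2 ^ (2 * j)) → TwoExp G Y v1 v2 (lam ^ 7) (lam ^ 18) := by
  induction n with
  | zero =>
    intro j h1 h2 h3 t
    refine weaken t (cube hl h2 (by norm_num)) (not_lt.1 fun h => ?_)
    have := small h
    omega
  | succ n ih =>
    intro j h1 h2 h3 t
    rcases Nat.lt_or_ge (2 ^ (2 * j)) (lam ^ 18) with h | h
    · have := small h
      exact ih (2 * j) (by omega) (by omega) (by omega) (stage1 hS s1 s2 h0 hl h1 h t)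
    · exact weaken t (cube hl h2 (by norm_num)) h

theorem noStall2 {j0 lam : ℕ} {v v' : V} (hs : ¬ Stall G Y v v' j0 lam) (hl : 15000 ≤ lam) :
    NoStall G Y v v' (4 * lam ^ 7) (lam ^ 5) (lam ^ 13) (2 ^ (3 * lam ^ 2)) := by
  intro X a b c d e
  by_contra f
  refine hs ⟨X, _, _, a, b, c, le_rfl, le_trans ?_ d, not_le.1 f, e, Or.inl rfl⟩
  have l1 : 1 ≤ lam ^ 7 := Nat.one_le_pow _ _ (by omega)
  calc lam ^ 5 * (2 * (4 * lam ^ 7) + 3) ≤ lam ^ 5 * (11 * lam ^ 7) :=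
        Nat.mul_le_mul_left _ (by omega)
    _ = 11 * lam ^ 12 := by ring
    _ ≤ lam ^ 13 := mul_pow_le_pow (by omega) (by omega) (by omega)

end Two

open Two in
theorem two_exp (V : Type*) [Fintype V] [DecidableEq V] (hS : StageSt V) : TwoSt V := by
  intro G Y v1 v2 j0 lam hv h1 h2 h0 hl hj n1 n2
  by_contra hc
  have s1 : ¬ Stall G Y v1 v2 j0 lam := fun h => hc (Or.inr (Or.inl h))
  have s2 : ¬ Stall G Y v2 v1 j0 lam := fun h => hc (Or.inr (Or.inr h))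
  rw [pow_succ'] at n1 n2
  have j1 : 1 ≤ j0 ^ 3 := Nat.one_le_pow _ _ (by omega)
  have t := iter hS s1 s2 h0 hl (18 * lam) j0 le_rfl (by omega) (by omega)
    (weaken (start hv h1 h2 n1 n2) (by omega) le_rfl)
  have e : lam ^ 7 + lam ^ 5 * (3 * lam ^ 2) = 4 * lam ^ 7 := by ring
  have l1 : 1 ≤ lam ^ 7 := Nat.one_le_pow _ _ (by omega)
  have l2 : 15 * lam ^ 7 ≤ lam ^ 8 := mul_pow_le_pow (by omega) (by omega) (by omega)
  have := hS G Y v1 v2 _ (lam ^ 5) (3 * lam ^ 2) (lam ^ 13) _ (2 ^ (lam ^ 2)) (2 ^ (3 * lam ^ 2)) t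
    (Nat.one_le_pow _ _ (by omega)) Nat.one_le_two_pow (le_of_eq (by ring))
    (by
      rw [e]
      calc lam ^ 5 * (4 * lam ^ 7 + 1) ≤ lam ^ 5 * (5 * lam ^ 7) := Nat.mul_le_mul_left _ (by omega)
        _ = 5 * lam ^ 12 := by ring
        _ ≤ lam ^ 13 := mul_pow_le_pow (by omega) (by omega) (by omega))
    (by
      rw [e]
      have a : 1 ≤ 2 ^ lam ^ 2 := Nat.one_le_two_pow
      have b : 2 ^ lam ^ 2 ≤ (2 ^ lam ^ 2) ^ 2 := Nat.le_self_pow (by norm_num) _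
      have c : lam ^ 8 ≤ 2 ^ lam ^ 2 := (pow_le_two_pow_mul lam 8).trans
        (Nat.pow_le_pow_right (by norm_num) (by nlinarith))
      calc _ ≤ (5 * lam ^ 7) * (3 * (2 ^ lam ^ 2) ^ 2) := Nat.mul_le_mul (by omega) (by omega)
        _ = (15 * lam ^ 7) * (2 ^ lam ^ 2) ^ 2 := by ring
        _ ≤ 2 ^ lam ^ 2 * (2 ^ lam ^ 2) ^ 2 := Nat.mul_le_mul_right _ (l2.trans c)
        _ = 2 ^ (3 * lam ^ 2) := by rw [← pow_mul, ← pow_add]; congr 1; ring)
    le_rfl (by rw [e]; exact noStall2 s1 hl) (by rw [e]; exact noStall2 s2 hl)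
  rw [e] at this
  exact hc (Or.inl (weaken this (by omega) le_rfl))

end Pool.Agent.P.MP_0cc987_co
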