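import Pool.Agent.P.MP_0cc987_co.Menger
import Pool.Agent.P.MP_0cc987_co.ThreeC
import Pool.Agent.P.MP_0cc987_co.Good
import Pool.Agent.P.MP_0cc987_co.Dec
import Pool.Agent.P.MP_0cc987_co.Hub
import Pool.Agent.P.MP_0cc987_co.KS
import Pool.Agent.P.MP_0cc987_co.Grow
import Pool.Agent.P.MP_0cc987_co.Two
import Pool.Agent.P.MP_0cc987_co.RAin
import Pool.Agent.P.MP_0cc987_co.RAout
import Pool.Agent.P.MP_0cc987_co.Chain
import Pool.Agent.P.MP_0cc987_co.LemW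
import Pool.Agent.P.MP_0cc987_co.Blob
import Pool.Agent.P.MP_0cc987_co.Peel
import Pool.Agent.P.MP_0cc987_co.Arms
import Pool.Agent.P.MP_0cc987_co.ArcSys
import Pool.Agent.P.MP_0cc987_co.Greedy

/-! Assembly of the finite theorem. -/

namespace Pool.Agent.P.MP_0cc987_co

open Set

universe u

section
variable {V : Type*} [Fintype V] [DecidableEq V]

/-- Large odd girth and polynomially bounded circumference give bounded chromatic number. -/
theorem lemma_S (k θ : ℕ) (hθ : 120000 ≤ θ) (hk : 2 * k + 1 ≤ θ) (j : ℕ) (hj : j + 3 ≤ k)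
    (G : SimpleGraph V) (ho : OddFree G (θ ^ 3)) (hc : ∀ n, θ ^ (j + 3) ≤ n → ¬ Cyc G univ n) :
    Col G univ (2 + j * (2 * k + 3)) := by
  induction j generalizing G with
  | zero =>
    refine (Col.of_oddFree fun g => oddFree_of_cyc fun n _ hn h => ?_).le (by omega)
    by_cases h1 : n ≤ θ ^ 3
    · obtain ⟨v, hv⟩ := h.wk
      exact ho v n hn h1 hv
    · exact hc n (by simpa using (not_le.1 h1).le) h
  | succ j ih =>
    have h1 : 300 * (9 * (2 * θ) + 1 + 1) ^ 2 ≤ θ ^ 3 := by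
      have : (9 * (2 * θ) + 1 + 1) ^ 2 ≤ (20 * θ) ^ 2 := Nat.pow_le_pow_left (by omega) 2
      calc _ ≤ 300 * (20 * θ) ^ 2 := Nat.mul_le_mul_left _ this
        _ = 120000 * θ ^ 2 := by ring
        _ ≤ θ ^ 3 := mul_pow_le_pow hθ (by omega) (by omega)
    obtain ⟨Gd, hGd⟩ := good_sys G (9 * (2 * θ) + 1) (ho.le h1)
    have h2 := dec_col G (2 * θ) (2 + j * (2 * k + 3) + 2 * k) (by omega) Gd hGd (by
      intro R hR
      have h3 : 4 * θ + 10 ≤ θ ^ (j + 3) := by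
        calc 4 * θ + 10 ≤ 5 * θ ^ 1 := by rw [pow_one]; omega
          _ ≤ θ ^ (j + 3) := mul_pow_le_pow (by omega) (by omega) (by omega)
      obtain ⟨Z, hZ, hZ'⟩ := hub (menger V) G θ (θ ^ (j + 3)) R (by omega) h3 hR (by
        intro n hn
        exact hc n (by rw [show j + 1 + 3 = j + 3 + 1 by omega, pow_succ']; exact hn))
      have h4 : Col G (R \ ↑Z) (2 + j * (2 * k + 3)) :=
        ((ih (by omega) (res G (R \ ↑Z)) (ho.monoG (res_le _ _)) fun n hn h =>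
          hZ' n hn (h.of_res.mono inter_subset_right)).mono (subset_univ _)).of_res Subset.rfl
      have h5 : Col G ↑Z (2 * k) := kst G θ k hk ho k le_rfl Z (by
        rw [← pow_succ'] at hZ
        exact hZ.trans_le (Nat.pow_le_pow_right (by omega) (by omega)))
      refine (h4.union h5).mono fun x hx => ?_
      by_cases h : x ∈ (↑Z : Set V)
      · exact Or.inr h
      · exact Or.inl ⟨hx, h⟩)
    exact h2.le (by ring_nf; omega)

theorem stuck_cycle (G : SimpleGraph V) (𝓑 : Set (Set V)) (S : Set V) (𝒰 : Set (Set V × V))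
    (t T θ : ℕ) (hF : Fam G 𝓑 t) (hU : Stuck G 𝓑 S T 𝒰) (hS : Sparse G S (θ ^ 4)) (hT : T ≤ θ)
    (hθ : 12 ≤ θ) (ht : θ ^ 4 ≤ t) (root : V) (R M : ℕ)
    (hR : ∀ b v, (b, v) ∈ 𝒰 → ∀ w, Rch G univ v w → WkLe G univ root w R)
    (hM : 100 * t * (5 * t + R + 1) ≤ M) (hD : 200 * (R + 1) * (M + 2) * (t + 1) ≤ 2 ^ θ) :
    Cyc G univ M := by
  have a1 : 12 * θ ^ 3 ≤ θ ^ 4 := mul_pow_le_pow hθ (by omega) (by omega)
  have a2 : 12 * θ ^ 2 ≤ θ ^ 3 := mul_pow_le_pow hθ (by omega) (by omega)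
  have a3 : 12 * θ ^ 1 ≤ θ ^ 2 := mul_pow_le_pow hθ (by omega) (by omega)
  rw [pow_one] at a3
  have a4 : (θ + 1) * (θ + 2) = θ ^ 2 + 3 * θ + 2 := by ring
  obtain ⟨C, E, cell, tl, hd, z, al, h1, h2, h3, h4⟩ := arc_sys G 𝓑 S 𝒰 t T θ hF hU hT hθ ht
    (safe_near G 𝓑 S 𝒰 t T (θ ^ 4) _ hF hU hS (by omega) (by omega))
    (arms G 𝓑 S 𝒰 t T hF hU θ _ _ _ (Nat.mul_le_mul_left _ (by omega)) (by omega) (by omega))
    (escape G 𝓑 S 𝒰 t T hF hU _ _ (by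
      calc 3 * θ ^ 2 * (T + 2) ≤ 3 * θ ^ 2 * (θ + 2) := Nat.mul_le_mul_left _ (by omega)
        _ = 3 * θ ^ 3 + 6 * θ ^ 2 := by ring
        _ ≤ 4 * θ ^ 3 := by omega) (by omega))
  refine greedy_cycle G C E cell tl hd z al (5 * t) h2 h1 root R M (fun e he w hw => ?_) (by omega)
    (by rw [show 20 * (5 * t) = 100 * t by ring]; exact hM)
    (le_trans (Nat.mul_le_mul_right _ (le_trans ?_ hD)) h3)
  · obtain ⟨b, v, h5, h6⟩ := h4 e he w hw
    exact hR b v h5 w h6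
  · calc 40 * (R + 1) * (M + 2) * (5 * t + 1) ≤ 40 * (R + 1) * (M + 2) * (5 * (t + 1)) :=
          Nat.mul_le_mul_left _ (by omega)
      _ = _ := by ring

end

/-- Graphs of large minimum degree contain a piece. -/
theorem piece_exists (A δ0 : ℕ) (hA : 1 ≤ A) (hδ : 4 ≤ δ0) : ∃ D, ∀ (V : Type u) [Fintype V]
    [DecidableEq V] (G : SimpleGraph V) (B : Finset V), B.Nonempty → (∀ v ∈ B, D ≤ dg G B v) →
    ∃ H σ δ, δ0 ≤ δ ∧ Piece G A H σ δ := by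
  obtain ⟨θ0, hθ0⟩ := exists_pow_le_two_pow 4
  obtain ⟨s, hs, hs1⟩ : ∃ s, 2 * δ0 ^ A + 10 = s ∧ 1 ≤ s := ⟨_, rfl, by omega⟩
  obtain ⟨j0, hj1, hj2, hj3⟩ : ∃ j0, 80 ≤ j0 ∧ θ0 ≤ j0 ∧ 80000 * s + 1 ≤ j0 :=
    ⟨80 + θ0 + (80000 * s + 1), by omega, by omega, by omega⟩
  obtain ⟨lam0, hl1, hl2, hl3, hl4, hl5⟩ : ∃ lam0, 15000 ≤ lam0 ∧ j0 ≤ lam0 ∧ s ≤ lam0 ∧
      9 * A + 10 ≤ lam0 ∧ δ0 ≤ lam0 :=
    ⟨15000 + j0 + s + (9 * A + 10) + δ0, by omega, by omega, by omega, by omega, by omega⟩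
  obtain ⟨ρ, hρ1, hρ2, hρ3⟩ : ∃ ρ, s + 2 ^ (2 * j0 + 1) + 12 ≤ ρ ∧ 2 ^ 2 ^ lam0 ≤ ρ ∧ 1 ≤ ρ :=
    ⟨s + 2 ^ (2 * j0 + 1) + 12 + 2 ^ 2 ^ lam0, Nat.le_add_right _ _, Nat.le_add_left _ _,
      le_trans (le_trans hs1 (Nat.le_add_right _ _)) (le_trans (Nat.le_add_right _ _)
        (Nat.le_add_right (s + 2 ^ (2 * j0 + 1) + 12) _))⟩
  refine ⟨8 * ρ, fun V _ _ G B hB hd => ?_⟩
  obtain ⟨σ, H, hH, hE⟩ := exists_expander G B ρ hB hρ3 hd
  set G' := res (bic G σ) ↑H with hG'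
  have hle : G' ≤ G := (res_le _ _).trans (bic_le _ _)
  by_cases hK : KFree G' s
  swap
  · unfold KFree at hK
    push Not at hK
    obtain ⟨P, Q, h1, h2, h3⟩ := hK
    obtain ⟨H', σ', h4⟩ := piece_of_kss G' A δ0 hδ P Q (by omega) (by omega) h3
    exact ⟨H', σ', δ0, le_rfl, h4.monoG hle⟩
  have hσ : ∀ a b, G'.Adj a b → σ a ≠ σ b := fun a b h => h.1.2
  obtain ⟨v, hv⟩ := hH
  have hn : 2 ^ 2 ^ lam0 ≤ H.card := hρ2.trans ((hE.deg v hv).trans (dg_le_card _ _))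
  set L := Nat.clog 2 H.card with hL
  set lam := Nat.clog 2 L with hlam
  have hL0 : 2 ^ lam0 ≤ L := by
    rw [hL, ← Nat.clog_pow 2 (2 ^ lam0) (by omega)]
    exact Nat.clog_mono_right _ hn
  have hlam1 : lam0 ≤ lam := by
    rw [hlam, ← Nat.clog_pow 2 lam0 (by omega)]
    exact Nat.clog_mono_right _ hL0
  have b1 : lam0 < 2 ^ lam0 := Nat.lt_two_pow_self
  have b2 : 2 ^ lam0 < 2 ^ 2 ^ lam0 := Nat.lt_two_pow_self
  have key : ∀ x, 2 ≤ x → 2 ^ Nat.clog 2 x ≤ 2 * x := by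
    intro x hx
    have h1 := Nat.pow_pred_clog_lt_self (b := 2) (by omega) (x := x) (by omega)
    have h2 := Nat.clog_pos (b := 2) (n := x) (by omega) (by omega)
    obtain ⟨c, hc⟩ : ∃ c, Nat.clog 2 x = c + 1 := ⟨Nat.clog 2 x - 1, by omega⟩
    rw [hc] at h1 ⊢
    simp only [Nat.pred_succ] at h1
    rw [pow_succ]
    omega
  have hP : Par H.card s j0 ρ L lam := by
    refine ⟨hs1, hj1, fun j hj => ?_, hρ1, by omega, by omega, by omega,
      Nat.le_pow_clog (by omega) _, key _ (by omega), Nat.le_pow_clog (by omega) _,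
      key _ (by omega)⟩
    have h1 := hθ0 j (by omega)
    have h2 : (80000 * s + 1) * j ^ 2 ≤ j ^ 4 := mul_pow_le_pow (by omega) (by omega) (by omega)
    have h3 : 0 < j ^ 2 := Nat.pow_pos (by omega)
    nlinarith
  refine ⟨↑H, σ, L ^ 9, ?_, (piece_of_expander (two_exp V (stage V)) (connect V) G' σ hσ H s j0 ρ L
    lam A hE hP hA (by omega) fun U hU => robust_adj G' (short_cycle G') H U s j0 ρ L lam hE hK hP
      hU fun W0 C h1 h2 h3 h4 h5 => adj_or_bad (two_exp V (stage V)) G' σ hσ H U W0 C s j0 ρ L lam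
        hE hP hU h1 h2 h3 h4 h5).monoG hle⟩
  exact le_trans (by omega) (Nat.le_self_pow (by omega) L)

section
variable {V : Type*} [Fintype V] [DecidableEq V]

omit [Fintype V] [DecidableEq V] in
theorem Col.monoG' {G G' : SimpleGraph V} {A : Set V} {q : ℕ} (h : Col G A q)
    (hG : ∀ u ∈ A, ∀ v ∈ A, G'.Adj u v → G.Adj u v) : Col G' A q :=
  let ⟨c, h1, h2⟩ := h; ⟨c, h1, fun u hu v hv ha => h2 u hu v hv (hG u hu v hv ha)⟩

/-- The robust colouring property for all blobs of a level. -/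
def Level (G : SimpleGraph V) (m T F : ℕ) : Prop :=
  ∀ b, IsBlob G (m / 100) b → ∀ S, Sparse (res G b) S T → QP G b S F

omit [Fintype V] [DecidableEq V] in
theorem blob_mono (G : SimpleGraph V) {t t' : ℕ} (h : t ≤ t') (C : Finset V) :
    blob G t C ⊆ blob G t' C := fun _ ⟨U, h1, h2⟩ => ⟨U, h1, h2.trans h⟩

omit [Fintype V] [DecidableEq V] in
theorem sub_blob (G : SimpleGraph V) (t : ℕ) (C : Finset V) : ↑C ⊆ blob G t C :=
  fun z hz => ⟨∅, fun _ hx => ⟨z, hz, Rch.refl ⟨Or.inr hz, hx.symm⟩⟩, by simp⟩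

omit [Fintype V] [DecidableEq V] in
theorem Fam.root {G : SimpleGraph V} {t : ℕ} {b : Set V} (hF : Fam G {b | IsBlob G t b} t)
    (hb : IsBlob G t b) : ∃ root ∈ b, ∀ v ∈ b, WkLe G b root v (4 * t) := by
  obtain ⟨C, h1, h2, h3, h4⟩ := id hb
  obtain ⟨r, hr⟩ : C.Nonempty := Finset.card_pos.1 (by have := h1.three; omega)
  have hr' : r ∈ b := h4 ▸ sub_blob G t C hr
  refine ⟨r, hr', fun v hv => ?_⟩
  by_cases e : r = v
  · subst e; exact WkLe.refl hv _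
  · obtain ⟨x, x', _, a2, _, _, _, a6⟩ := hF.gad b hb r hr' v hv e
    exact a6.wkLe a2

theorem level_base (G : SimpleGraph V) (m F : ℕ) (hF : Fam G {b | IsBlob G (m / 100) b} (m / 100))
    (ho : Odd m) (hmiss : ¬ Cyc G univ m) (hm : 1 ≤ m) (hFm : 2 * (6 * m + 8) ≤ F) :
    Level G m 2 F := by
  intro b hb S hS
  obtain ⟨root, _, hR⟩ := hF.root hb
  exact qp_base G b S F ((layer_col G b root (4 * (m / 100)) m (6 * m) (fun v hv => (hR v hv).univ)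
    ho (by omega) hmiss (by omega) fun A' _ h => Col.of_no_pth h).le hFm) hS

omit [Fintype V] [DecidableEq V] in
theorem res_res (G : SimpleGraph V) {b β : Set V} (h : b ⊆ β) : res (res G β) b = res G b := by
  ext u v
  simp only [res_adj]
  exact ⟨fun h => ⟨h.1.1, h.2⟩, fun h' => ⟨⟨h'.1, h h'.2.1, h h'.2.2⟩, h'.2⟩⟩

theorem level_step (G : SimpleGraph V) (K m m' θ T F : ℕ) (hK : 1 ≤ K) (hM : Miss G K)
    (hF : Fam G {b | IsBlob G (m / 100) b} (m / 100))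
    (hF' : Fam G {b | IsBlob G (m' / 100) b} (m' / 100)) (ho' : Odd m') (hmiss' : ¬ Cyc G univ m')
    (hθ1 : θ ^ 5 ≤ m) (hθ2 : m < (θ + 1) ^ 5) (hθ3 : 120000 ≤ θ) (hθ4 : 80 * K + 7 ≤ θ)
    (hθ5 : θ ^ (80 * K ^ 2 + 40 * K + 11) ≤ 2 ^ θ) (hT : 2 ≤ T) (hTm : T ^ 5 ≤ m)
    (hm1 : m ^ 4 ≤ m') (hm2 : m' ≤ m ^ (4 * K))
    (hFK : 2 * (2 + 40 * K * (2 * (40 * K + 3) + 3) + 8) ≤ F) (hL : Level G m T F) :
    Level G m' (θ ^ 4) F := by
  intro β hβ S hS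
  have a1 : 120000 * θ ^ 4 ≤ θ ^ 5 := mul_pow_le_pow hθ3 (by omega) (by omega)
  have a2 : 120000 * θ ^ 3 ≤ θ ^ 4 := mul_pow_le_pow hθ3 (by omega) (by omega)
  have a3 : θ ≤ θ ^ 3 := Nat.le_self_pow (by omega) θ
  have a4 : T ≤ θ := by
    have := lt_of_pow_lt_pow_left₀ 5 (Nat.zero_le _) (hTm.trans_lt hθ2)
    omega
  have a5 : m ≤ m ^ 4 := Nat.le_self_pow (by omega) m
  have a6 : m ≤ θ ^ 10 := by
    have h1 : θ + 1 ≤ θ ^ 2 := by nlinarith
    calc m ≤ (θ + 1) ^ 5 := hθ2.le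
      _ ≤ (θ ^ 2) ^ 5 := Nat.pow_le_pow_left h1 5
      _ = θ ^ 10 := by ring
  have a7 : m' ≤ θ ^ (40 * K) := by
    calc m' ≤ m ^ (4 * K) := hm2
      _ ≤ (θ ^ 10) ^ (4 * K) := Nat.pow_le_pow_left a6 _
      _ = θ ^ (40 * K) := by rw [← pow_mul]; congr 1; ring
  obtain ⟨root, hroot, hR⟩ := hF'.root hβ
  have hFam : Fam (res G β) {b | IsBlob G (m / 100) b ∧ b ⊆ β} (m / 100) := by
    refine ⟨fun b hb v hv w hw h => hF.sep b hb.1 v hv w hw (h.monoG (cut_mono (res_le _ _) b)),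
      fun b hb b' hb' => hF.lin b hb.1 b' hb'.1, fun b hb v hv w hw hvw => ?_⟩
    obtain ⟨x, x', b1, b2, b3, b4, b5, b6⟩ := hF.gad b hb.1 v hv w hw hvw
    exact ⟨x, x', b1, b2, b3, b4.to_res hb.2, b5.to_res hb.2, b6.to_res hb.2⟩
  rcases peel (res G β) {b | IsBlob G (m / 100) b ∧ b ⊆ β} S (m / 100) T (θ ^ 4) F hFam (by omega)
    hT (by omega) hS (fun b hb Sb hSb => by
      rw [res_res G hb.2] at hSb
      obtain ⟨c, κ, h1, h2, h3⟩ := hL b hb.1 Sb hSb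
      exact ⟨c, κ, h1, h2, fun v hv w hw ha => h3 v hv w hw ha.1⟩)
    (fun C hC hCo hCt => by
      have hC' : TCyc G C := hC.monoG (res_le _ _)
      have hCβ : ↑C ⊆ β := by
        obtain ⟨C', h1, h2, _⟩ := (Cyc.of_res hC).tight
        have : C' = C := Finset.eq_of_subset_of_card_le (fun x hx => (h1 hx).1) h2.ge
        subst this
        exact fun x hx => (h1 hx).2
      refine ⟨blob G (m / 100) C, ⟨⟨C, hC', hCo, hCt, rfl⟩, ?_⟩, sub_blob G _ C⟩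
      obtain ⟨v, hv, w, hw, hvw⟩ := Finset.one_lt_card.1 (show 1 < C.card by
        have := hC.three; omega)
      have := hF'.lin (blob G (m' / 100) C) ⟨C, hC', hCo, by omega, rfl⟩ β hβ v w hvw
        (sub_blob G _ C hv) (sub_blob G _ C hw) (hCβ hv) (hCβ hw)
      rw [← this]
      exact blob_mono G (by omega) C)
    (fun A hA => by
      have h1 : Col G (A ∩ β) F := by
        refine (layer_col G (A ∩ β) root (4 * (m' / 100)) m' _ (fun v hv => (hR v hv.2).univ) ho'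
          (by omega) hmiss' (show 3 ≤ 2 + 40 * K * (2 * (40 * K + 3) + 3) by nlinarith)
          fun A' hA' h => ?_).le hFK
        refine ((lemma_S (40 * K + 3) θ hθ3 (by omega) (40 * K) le_rfl (res G ↑A')
          ((hA.monoG (G' := res G ↑A') fun u v ha => ⟨⟨ha.1, (hA' ha.2.1).2, (hA' ha.2.2).2⟩, (hA' ha.2.1).1,
            (hA' ha.2.2).1⟩).le (by omega)) fun n hn hc => ?_).mono
              (subset_univ _)).of_res Subset.rfl
        obtain ⟨u, v, h2, _⟩ := hc.of_res.pth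
        have h3 : 7 * θ ^ (40 * K) ≤ θ ^ (40 * K + 3) :=
          mul_pow_le_pow (by omega) (by omega) (by omega)
        obtain ⟨w, h4⟩ := h2.take (k := 6 * m') (by omega)
        exact h u w (h4.mono inter_subset_right)
      exact ((h1.res_univ (by omega)).mono (subset_univ A)).monoG' fun u hu v hv ha =>
        ⟨ha.1, ⟨hu, ha.2.1⟩, hv, ha.2.2⟩) with hq | ⟨𝒰, hU⟩
  · obtain ⟨c, κ, h1, h2, h3⟩ := hq
    exact ⟨c, κ, h1, fun v _ => h2 v trivial,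
      fun v hv w hw ha => h3 v trivial w trivial ⟨ha, hv, hw⟩⟩
  · exfalso
    have b0 : 2 ≤ m' ^ 2 := le_trans (by omega) (Nat.le_self_pow (by omega) m')
    obtain ⟨M, _, h2, h3, h4⟩ := hM (m' ^ 2) b0
    refine h4 ((stuck_cycle (res G β) _ S 𝒰 (m / 100) T θ hFam hU hS a4 (by omega) (by omega) root
      (4 * (m' / 100)) M (fun b v hv w hw => ?_) ?_ ?_).monoG (res_le _ _))
    · obtain ⟨k, hk⟩ := hw
      have := (hk.of_res ((hU.mem b v hv).1.2 (hU.mem b v hv).2)).right.2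
      exact ((hR w this).to_res Subset.rfl).univ
    · calc 100 * (m / 100) * (5 * (m / 100) + 4 * (m' / 100) + 1) ≤ m' * m' :=
            Nat.mul_le_mul (by omega) (by omega)
        _ = m' ^ 2 := by ring
        _ ≤ M := h2
    · have c1 : M ≤ θ ^ (80 * K ^ 2) := by
        calc M ≤ (m' ^ 2) ^ K := h3
          _ ≤ ((θ ^ (40 * K)) ^ 2) ^ K := Nat.pow_le_pow_left (Nat.pow_le_pow_left a7 _) _
          _ = θ ^ (80 * K ^ 2) := by rw [← pow_mul, ← pow_mul]; congr 1; ring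
      calc 200 * (4 * (m' / 100) + 1) * (M + 2) * (m / 100 + 1)
          ≤ 200 * θ ^ (40 * K) * (2 * θ ^ (80 * K ^ 2)) * θ ^ 10 :=
            Nat.mul_le_mul (Nat.mul_le_mul (Nat.mul_le_mul_left _ (by omega)) (by omega)) (by omega)
        _ = 400 * θ ^ (80 * K ^ 2 + 40 * K + 10) := by ring
        _ ≤ θ ^ (80 * K ^ 2 + 40 * K + 11) := mul_pow_le_pow (by omega) (by omega) (by omega)
        _ ≤ 2 ^ θ := hθ5

end

/-- The covered case of the finite theorem. -/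
theorem covered_col (K : ℕ) (hK : 1 ≤ K) : ∃ k, ∀ (V : Type u) [Fintype V] [DecidableEq V]
    (G : SimpleGraph V), Miss G K → Covered G (4 * K) 1000 → Col G univ k := by
  obtain ⟨θ1, hθ1⟩ := exists_pow_le_two_pow (80 * K ^ 2 + 40 * K + 11)
  obtain ⟨θ0, t1, t2, t3⟩ : ∃ θ0, 120000 ≤ θ0 ∧ 80 * K + 7 ≤ θ0 ∧ θ1 ≤ θ0 :=
    ⟨120000 + (80 * K + 7) + θ1, by omega, by omega, by omega⟩
  obtain ⟨m0, m1, m2⟩ : ∃ m0, 10 ^ 17 ≤ m0 ∧ θ0 ^ 5 ≤ m0 :=
    ⟨10 ^ 17 + θ0 ^ 5, Nat.le_add_right _ _, Nat.le_add_left _ _⟩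
  obtain ⟨F, F1, F2⟩ : ∃ F, 2 * (6 * m0 ^ K + 8) ≤ F ∧
      2 * (2 + 40 * K * (2 * (40 * K + 3) + 3) + 8) ≤ F :=
    ⟨_, Nat.le_add_right _ _, Nat.le_add_left _ _⟩
  refine ⟨F * 7 + 8, fun V _ _ G hM hcov => ?_⟩
  have hfam : ∀ m, m0 ≤ m → Odd m → ¬ Cyc G univ m →
      Fam G {b | IsBlob G (m / 100) b} (m / 100) := fun m h1 h2 h3 =>
    blob_fam (menger V) G (4 * K) _ (by omega) hcov hM.dbound
      (lemma_W (menger V) G (4 * K) m (by omega) hcov hM.dbound (m1.trans h1) h2 h3)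
  have m3 : 32 ≤ m0 := le_trans (by norm_num) m1
  have key : ∀ N, ∃ m T, N ≤ m ∧ m0 ≤ m ∧ Odd m ∧ ¬ Cyc G univ m ∧ 2 ≤ T ∧ T ^ 5 ≤ m ∧
      Level G m T F := by
    intro N
    induction N with
    | zero =>
      obtain ⟨m, h1, h2, h3, h4⟩ := hM m0 (by omega)
      exact ⟨m, 2, Nat.zero_le _, h2, h1, h4, le_rfl, by omega,
        level_base G m F (hfam m h2 h1 h4) h1 h4 (by omega) (by omega)⟩
    | succ N ih =>
      obtain ⟨m, T, h1, h2, h3, h4, h5, h6, h7⟩ := ih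
      have b1 : 2 * m ^ 1 ≤ m ^ 4 := mul_pow_le_pow (by omega) (by omega) (by omega)
      rw [pow_one] at b1
      obtain ⟨m', g1, g2, g3, g4⟩ := hM (m ^ 4) (by omega)
      obtain ⟨θ, c1, c2⟩ : ∃ θ, θ ^ 5 ≤ m ∧ m < (θ + 1) ^ 5 :=
        ⟨Nat.nthRoot 5 m, Nat.pow_nthRoot_le (Or.inl (by omega)),
          Nat.lt_pow_nthRoot_add_one (by omega) m⟩
      have c3 : θ0 ≤ θ := by
        have := lt_of_pow_lt_pow_left₀ 5 (Nat.zero_le _) ((m2.trans h2).trans_lt c2)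
        omega
      refine ⟨m', θ ^ 4, by omega, by omega, g1, g4,
        le_trans (by omega) (Nat.le_self_pow (by omega) θ), ?_,
        level_step G K m m' θ T F hK hM (hfam m h2 h3 h4) (hfam m' (by omega) g1 g4) g1 g4 c1 c2
          (by omega) (by omega) (hθ1 θ (by omega)) h5 h6 g2 (by rw [pow_mul]; exact g3) F2 h7⟩
      calc (θ ^ 4) ^ 5 = (θ ^ 5) ^ 4 := by ring
        _ ≤ m ^ 4 := Nat.pow_le_pow_left c1 4
        _ ≤ m' := g2
  obtain ⟨m, T, h1, _, _, _, _, _, h7⟩ := key (100 * Fintype.card V)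
  have := three_col G Finset.univ (F * 7) (by omega) (by
    intro A _ hA4 hA
    by_cases ho : ∀ g, OddFree (res G ↑A) g
    · exact (((Col.of_oddFree ho).mono (subset_univ _)).of_res Subset.rfl).le (by omega)
    · obtain ⟨n, hn, hc⟩ : ∃ n, Odd n ∧ Cyc (res G ↑A) univ n := by
        by_contra h'
        push Not at h'
        exact ho fun g => oddFree_of_cyc fun k _ hk => h' k hk
      obtain ⟨C, c1, c2, c3⟩ := hc.of_res.tight
      have c4 : ∀ T : Finset V, T.card ≤ m / 100 := fun T => (Finset.card_le_univ T).trans (by omega)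
      refine (col_of_qp G (blob G (m / 100) C) F (h7 _ ⟨C, c3, c2 ▸ hn, c4 C, rfl⟩ ∅
        fun a ha => ha.elim)).mono fun z hz => ⟨A, fun x hx => ?_, c4 A⟩
      obtain ⟨y, hy, hyx⟩ : ∃ y ∈ C, y ≠ x := Finset.exists_mem_ne (by have := c3.three; omega) x
      refine ⟨y, hy, (hA x x z y ⟨hz, by simpa using hx.symm⟩ ⟨(c1 hy).2, by simpa using hyx⟩).mono ?_⟩
      rintro w ⟨h1, h2⟩
      exact ⟨Or.inl h1, by simpa using h2⟩)
  simpa using this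

/-- The finite theorem. -/
theorem finite_col (K : ℕ) (hK : 1 ≤ K) : ∃ k, ∀ (V : Type u) [Fintype V] [DecidableEq V]
    (G : SimpleGraph V), Miss G K → Col G univ k := by
  obtain ⟨k, hk⟩ := covered_col.{u} K hK
  obtain ⟨D, hD⟩ := piece_exists.{u} (4 * K) 1000 (by omega) (by omega)
  refine ⟨k * D, fun V _ _ G hM => ?_⟩
  let cov : V → V → Prop := fun u v =>
    ∃ H σ δ, 1000 ≤ δ ∧ Piece G (4 * K) H σ δ ∧ u ∈ H ∧ v ∈ H ∧ σ u ≠ σ v
  have hsymm : ∀ u v, cov u v → cov v u := fun u v ⟨H, σ, δ, h1, h2, h3, h4, h5⟩ =>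
    ⟨H, σ, δ, h1, h2, h4, h3, h5.symm⟩
  let Gp : SimpleGraph V :=
    { Adj := fun u v => G.Adj u v ∧ cov u v
      symm := ⟨fun u v h => ⟨h.1.symm, hsymm u v h.2⟩⟩
      loopless := ⟨fun _ h => h.1.ne rfl⟩ }
  let Gr : SimpleGraph V :=
    { Adj := fun u v => G.Adj u v ∧ ¬ cov u v
      symm := ⟨fun u v h => ⟨h.1.symm, fun h' => h.2 (hsymm v u h')⟩⟩
      loopless := ⟨fun _ h => h.1.ne rfl⟩ }
  have h1 : Col Gp univ k := hk V Gp (hM.monoG fun _ _ h => h.1) (by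
    rintro u v ⟨_, H, σ, δ, h1, h2, h3, h4, h5⟩
    refine ⟨H, σ, δ, h1, ⟨h2.three, fun a ha a' ha' b hb b' hb' e1 e2 e3 => ?_⟩, h3, h4, h5⟩
    obtain ⟨c, hc, h6⟩ := h2.two a ha a' ha' b hb b' hb' e1 e2 e3
    exact ⟨c, hc, fun j hj => (h6 j hj).transfer Subset.rfl fun x hx y hy hxy =>
      ⟨⟨hxy.1, H, σ, δ, h1, h2, hx, hy, hxy.2⟩, hxy.2⟩⟩)
  have h2 : Col Gr (↑(Finset.univ : Finset V)) D := Col.of_degenerate fun B _ hB => by
    by_contra h'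
    push Not at h'
    obtain ⟨H, σ, δ, h3, h4⟩ := hD V Gr B hB h'
    obtain ⟨a, ha, b, hb, _, _, hab, _⟩ := h4.three
    obtain ⟨c, _, h5⟩ := h4.pth ha hb hab
    have h6 := h5 0 (Nat.zero_le _)
    obtain ⟨l, hl⟩ : ∃ l, c + 2 * 0 = l + 1 := ⟨c - 1, by have := h6.pos hab; omega⟩
    rw [hl] at h6
    obtain ⟨w, h7, h8⟩ := h6.uncons
    exact h7.1.2 ⟨H, σ, δ, h3, h4.monoG fun _ _ h => h.1, ha, h8.left.1, h7.2⟩
  rw [Finset.coe_univ] at h2
  refine h1.prod h2 fun u _ v _ ha => ?_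
  by_cases h : cov u v
  · exact Or.inl ⟨ha, h⟩
  · exact Or.inr ⟨ha, h⟩

end Pool.Agent.P.MP_0cc987_co
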