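import Pool.Agent.P.MP_0cc987_co.Num

/-! Menger's theorem, by induction on the number of edges. -/

namespace Pool.Agent.P.MP_0cc987_co

open Set

namespace Menger

variable {V : Type*}

/-- The hypothesis of the theorem. -/
def Hyp (G : SimpleGraph V) (S A B : Set V) (k : ℕ) : Prop :=
  ∀ X : Finset V, X.card < k → ∃ a ∈ A, ∃ b ∈ B, Rch G (S \ ↑X) a b

/-- The conclusion of the theorem. -/
def Con (G : SimpleGraph V) (S A B : Set V) (k : ℕ) : Prop :=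
  ∃ (P : Fin k → Set V) (a b : Fin k → V) (n : Fin k → ℕ),
    (∀ i, P i ⊆ S ∧ a i ∈ A ∧ b i ∈ B ∧ Pth G (P i) (a i) (b i) (n i) ∧
      (∀ x ∈ P i, x ∈ A → x = a i) ∧ (∀ x ∈ P i, x ∈ B → x = b i)) ∧
    ∀ i j x, x ∈ P i → x ∈ P j → i = j

theorem clean {G : SimpleGraph V} {S A B : Set V} {k : ℕ} (P : Fin k → Set V) (a b : Fin k → V)
    (h : ∀ i, P i ⊆ S ∧ a i ∈ A ∧ b i ∈ B ∧ Rch G (P i) (a i) (b i))
    (hd : ∀ i j x, x ∈ P i → x ∈ P j → i = j) : Con G S A B k := by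
  have key : ∀ i, ∃ (Q : Set V) (a' b' : V) (n : ℕ), Q ⊆ P i ∧ a' ∈ A ∧ b' ∈ B ∧ Pth G Q a' b' n ∧
      (∀ x ∈ Q, x ∈ A → x = a') ∧ ∀ x ∈ Q, x ∈ B → x = b' := by
    intro i
    obtain ⟨-, h1, h2, h3⟩ := h i
    obtain ⟨n, h3⟩ := h3.pth
    obtain ⟨w, hw, n1, -, S1, -, -, s1, -, s2, h4, -, -⟩ := h3.first_hit h2
    obtain ⟨v, hv, -, n2, -, S2, -, -, s3, s4, -, h5, -⟩ := h4.last_hit h1
    exact ⟨S2, v, w, n2, s3.trans s1, hv, hw, h5, s4, fun x hx => s2 x (s3 hx)⟩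
  choose Q a' b' n h1 h2 h3 h4 h5 h6 using key
  exact ⟨Q, a', b', n, fun i => ⟨(h1 i).trans (h i).1, h2 i, h3 i, h4 i, h5 i, h6 i⟩,
    fun i j x hi hj => hd i j x (h1 i hi) (h1 j hj)⟩

theorem side [DecidableEq V] {G G' : SimpleGraph V} {S A B : Set V} {k : ℕ} {x y : V}
    (hG : ∀ u v, G.Adj u v → G'.Adj u v ∨ (u = x ∧ v = y) ∨ (u = y ∧ v = x))
    (ih : ∀ S A B, Hyp G' S A B k → Con G' S A B k) (h : Hyp G S A B k) {X : Finset V}
    (hX : X.card < k) (hs : ∀ a ∈ A, ∀ b ∈ B, ¬ Rch G' (S \ ↑X) a b) {As : Set V}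
    (hA : ∀ v, v ∈ As ↔ ∃ a ∈ A, Rch G' (S \ ↑X) a v) (hx : x ∈ As) (hy : y ∉ As) :
    (insert x X).card = k ∧ ∃ (Q : V → Set V) (a : V → V), (∀ w ∈ insert x X,
      Q w ⊆ S ∩ (As ∪ ↑X) ∧ a w ∈ A ∧ Rch G' (Q w) (a w) w ∧
        ∀ z ∈ Q w, z ∈ insert x X → z = w) ∧
      ∀ w ∈ insert x X, ∀ w' ∈ insert x X, ∀ z, z ∈ Q w → z ∈ Q w' → w = w' := by
  have step : ∀ u ∈ As, ∀ v ∈ S, v ∉ X → G'.Adj u v → v ∈ As := by
    intro u hu v h1 h2 h3
    obtain ⟨a, ha, h4⟩ := (hA u).1 hu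
    exact (hA v).2 ⟨a, ha, h4.snoc h3 ⟨h1, h2⟩⟩
  have edge : ∀ u ∈ As, u ≠ x → ∀ v, G.Adj u v → G'.Adj u v := by
    intro u hu h1 v h2
    rcases hG u v h2 with h3 | h3 | h3
    · exact h3
    · exact absurd h3.1 h1
    · exact absurd (h3.1 ▸ hu) hy
  have sep : ∀ a ∈ A, ∀ b ∈ B, ¬ Rch G (S \ ↑(insert x X)) a b := by
    intro a ha b hb h1
    have h2 : ∀ v ∈ S \ ↑(insert x X), v ∈ S ∧ v ≠ x ∧ v ∉ X := fun v hv => by
      simpa [not_or] using hv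
    have h3 : b ∈ As := h1.closed ((hA a).2 ⟨a, ha, Rch.refl ⟨h1.left.1, (h2 a h1.left).2.2⟩⟩)
      fun u hu v hv hu' huv => step u hu v hv.1 (h2 v hv).2.2 (edge u hu (h2 u hu').2.1 v huv)
    obtain ⟨a', ha', h4⟩ := (hA b).1 h3
    exact hs a' ha' b hb h4
  have hk : (insert x X).card = k := by
    have := Finset.card_insert_le x X
    by_contra h1
    obtain ⟨a, ha, b, hb, h2⟩ := h (insert x X) (by omega)
    exact sep a ha b hb h2
  refine ⟨hk, ?_⟩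
  obtain ⟨P, a, b, n, h1, h2⟩ := ih (S ∩ (As ∪ ↑X)) A ↑(insert x X) (by
    intro T hT
    obtain ⟨a, ha, b, hb, h1⟩ := h T hT
    rcases h1.avoid_or_hit ↑(insert x X) with h2 | ⟨w, hw, ⟨n, h2⟩, h3⟩
    · exact absurd (h2.mono (sdiff_subset_sdiff_left sdiff_subset)) (sep a ha b hb)
    refine ⟨a, ha, w, hw, ?_⟩
    have h4 : w ∈ (S ∩ (As ∪ ↑X)) \ ↑T := by
      refine ⟨⟨h3.left.1, ?_⟩, h3.left.2⟩
      rcases Finset.mem_insert.1 hw with rfl | hw
      · exact Or.inl hx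
      · exact Or.inr hw
    have h5 : ∀ v ∈ ((S \ ↑T) \ ↑(insert x X)) ∪ {w}, v ≠ w → v ∈ S ∧ v ∉ T ∧ v ≠ x ∧ v ∉ X := by
      rintro v (hv | hv) h6
      · simpa [not_or, and_assoc] using hv
      · exact absurd hv h6
    have key : ∀ u v n, Wk G (((S \ ↑T) \ ↑(insert x X)) ∪ {w}) u v n → v = w →
        (u ≠ w → u ∈ As) → Rch G' ((S ∩ (As ∪ ↑X)) \ ↑T) u w := by
      intro u v n h6
      induction h6 with
      | nil _ => rintro rfl _; exact Rch.refl h4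
      | @cons u v t n h6 h7 h8 ih' =>
        intro h9 h10
        by_cases hu : u = w
        · rw [hu]; exact Rch.refl h4
        · obtain ⟨u1, u2, u3, -⟩ := h5 u h6 hu
          have u5 := edge u (h10 hu) u3 v h7
          exact (ih' h9 fun hv => step u (h10 hu) v (h5 v h8.left hv).1 (h5 v h8.left hv).2.2.2
            u5).cons ⟨⟨u1, Or.inl (h10 hu)⟩, u2⟩ u5
    exact key a w n h2 rfl fun hne =>
      (hA a).2 ⟨a, ha, Rch.refl ⟨(h5 a h2.left hne).1, (h5 a h2.left hne).2.2.2⟩⟩)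
  have hb : Function.Injective b := fun i j e =>
    h2 i j (b i) (h1 i).2.2.2.1.right (e ▸ (h1 j).2.2.2.1.right)
  have hsur : ∀ w ∈ insert x X, ∃ i, b i = w := by
    have : Finset.univ.image b = insert x X := Finset.eq_of_subset_of_card_le
      (fun w hw => by
        obtain ⟨i, -, rfl⟩ := Finset.mem_image.1 hw
        exact (h1 i).2.2.1)
      (by rw [Finset.card_image_of_injective _ hb, hk]; simp)
    intro w hw
    rw [← this] at hw
    simpa using hw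
  have : Nonempty (Fin k) := ⟨⟨0, by omega⟩⟩
  choose! ι hι using hsur
  refine ⟨fun w => P (ι w), fun w => a (ι w), fun w hw => ⟨(h1 _).1, (h1 _).2.1, ?_,
    fun z h3 h4 => ((h1 _).2.2.2.2.2 z h3 h4).trans (hι w hw)⟩, fun w hw w' hw' z h3 h4 => ?_⟩
  · simpa only [hι w hw] using (h1 (ι w)).2.2.2.1.rch
  · rw [← hι w hw, ← hι w' hw', h2 _ _ z h3 h4]

theorem join [DecidableEq V] {G G' : SimpleGraph V} {S A B : Set V} {k : ℕ} {x y : V}
    (hle : G' ≤ G) (hxy : G.Adj x y)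
    (hG : ∀ u v, G.Adj u v → G'.Adj u v ∨ (u = x ∧ v = y) ∨ (u = y ∧ v = x))
    (ih : ∀ S A B, Hyp G' S A B k → Con G' S A B k) (h : Hyp G S A B k) {X : Finset V}
    (hX : X.card < k) (hs : ∀ a ∈ A, ∀ b ∈ B, ¬ Rch G' (S \ ↑X) a b)
    (hx : ∃ a ∈ A, Rch G' (S \ ↑X) a x) (hy : ∃ b ∈ B, Rch G' (S \ ↑X) b y) :
    Con G S A B k := by
  have dis : ∀ v, (∃ a ∈ A, Rch G' (S \ ↑X) a v) → ¬ ∃ b ∈ B, Rch G' (S \ ↑X) b v := by
    rintro v ⟨a, ha, h1⟩ ⟨b, hb, h2⟩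
    exact hs a ha b hb (h1.trans h2.symm)
  obtain ⟨hk, Q, a, q1, q2⟩ := side hG ih h hX hs
    (As := {v | ∃ a ∈ A, Rch G' (S \ ↑X) a v}) (fun _ => Iff.rfl) hx fun h' => dis y h' hy
  obtain ⟨-, R, b, r1, r2⟩ := side (A := B) (B := A) (x := y) (y := x)
    (fun u v h' => (hG u v h').imp_right Or.symm) ih
    (fun T hT => let ⟨a, ha, b, hb, h'⟩ := h T hT; ⟨b, hb, a, ha, h'.symm⟩) hX
    (fun b hb a ha h' => hs a ha b hb h'.symm)
    (As := {v | ∃ b ∈ B, Rch G' (S \ ↑X) b v}) (fun _ => Iff.rfl) hy (dis x hx)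
  have hyX : y ∉ X := hy.choose_spec.2.right.2
  let σ : V → V := fun w => if w = x then y else w
  have s1 : ∀ w ∈ insert x X, σ w ∈ insert y X := by
    intro w hw
    by_cases h1 : w = x
    · simp [σ, h1]
    · simp only [σ, if_neg h1]
      exact Finset.mem_insert_of_mem ((Finset.mem_insert.1 hw).resolve_left h1)
  have s2 : ∀ w, σ w ∈ X → σ w = w := by
    intro w h1
    by_cases h2 : w = x
    · exact absurd (by simpa [σ, h2] using h1) hyX
    · exact if_neg h2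
  have s3 : ∀ w ∈ insert x X, ∀ w' ∈ insert x X, σ w = σ w' → w = w' := by
    intro w hw w' hw' e
    by_cases h1 : w = x <;> by_cases h2 : w' = x
    · rw [h1, h2]
    · simp only [σ, if_pos h1, if_neg h2] at e
      exact absurd (e ▸ (Finset.mem_insert.1 hw').resolve_left h2) hyX
    · simp only [σ, if_pos h2, if_neg h1] at e
      exact absurd (e ▸ (Finset.mem_insert.1 hw).resolve_left h1) hyX
    · simpa only [σ, if_neg h1, if_neg h2] using e
  have mix : ∀ w ∈ insert x X, ∀ w' ∈ insert x X, ∀ z, z ∈ Q w → z ∈ R (σ w') → w = w' := by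
    intro w hw w' hw' z h1 h2
    have h3 : z ∈ X := by
      rcases ((q1 w hw).1 h1).2 with h3 | h3
      · rcases ((r1 _ (s1 w' hw')).1 h2).2 with h4 | h4
        · exact absurd h4 (dis z h3)
        · exact h4
      · exact h3
    have h4 := (q1 w hw).2.2.2 z h1 (Finset.mem_insert_of_mem h3)
    have h5 := (r1 _ (s1 w' hw')).2.2.2 z h2 (Finset.mem_insert_of_mem h3)
    rw [← h4, h5, s2 w' (h5 ▸ h3)]
  let e : Fin k ≃ (insert x X : Finset V) := (Finset.equivFinOfCardEq hk).symm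
  refine clean (fun i => Q (e i) ∪ R (σ (e i))) (fun i => a (e i)) (fun i => b (σ (e i)))
    (fun i => ?_) fun i j z hi hj => e.injective (Subtype.ext ?_)
  · obtain ⟨a1, a2, a3, -⟩ := q1 _ (e i).2
    obtain ⟨b1, b2, b3, -⟩ := r1 _ (s1 _ (e i).2)
    refine ⟨union_subset (a1.trans inter_subset_left) (b1.trans inter_subset_left), a2, b2, ?_⟩
    have a4 := (a3.monoG hle).mono (subset_union_left (t := R (σ (e i))))
    have b4 := (b3.monoG hle).symm.mono (subset_union_right (s := Q (e i)))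
    by_cases h1 : (e i : V) = x
    · have h2 : σ (e i) = y := if_pos h1
      exact a4.trans (b4.cons a4.right (by rw [h2, h1]; exact hxy))
    · have h2 : σ (e i) = e i := if_neg h1
      exact a4.trans (by simpa only [h2] using b4)
  · rcases hi with hi | hi <;> rcases hj with hj | hj
    · exact q2 _ (e i).2 _ (e j).2 z hi hj
    · exact mix _ (e i).2 _ (e j).2 z hi hj
    · exact (mix _ (e j).2 _ (e i).2 z hj hi).symm
    · exact s3 _ (e i).2 _ (e j).2 (r2 _ (s1 _ (e i).2) _ (s1 _ (e j).2) z hi hj)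

theorem main [Finite V] (k n : ℕ) : ∀ (G : SimpleGraph V), G.edgeSet.ncard = n →
    ∀ S A B, Hyp G S A B k → Con G S A B k := by
  classical
  induction n using Nat.strong_induction_on with
  | _ n ih =>
  intro G hn S A B h
  by_cases he : ∃ x y, G.Adj x y
  swap
  · let X : Finset V := (toFinite (S ∩ A ∩ B)).toFinset
    have hk : k ≤ X.card := by
      by_contra h1
      obtain ⟨a, ha, b, hb, m, h2⟩ := h X (by omega)
      cases h2 with
      | nil h3 => exact h3.2 (by simp [X, h3.1, ha, hb])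
      | cons _ h3 _ => exact he ⟨_, _, h3⟩
    obtain ⟨Y, hY, hc⟩ := Finset.exists_subset_card_eq hk
    let e : Fin k ≃ Y := (Finset.equivFinOfCardEq hc).symm
    refine clean (fun i => {(e i : V)}) (fun i => e i) (fun i => e i) (fun i => ?_)
      fun i j z hi hj => e.injective (Subtype.ext (hi.symm.trans hj))
    have h1 : (e i : V) ∈ S ∩ A ∩ B := by simpa [X] using hY (e i).2
    exact ⟨singleton_subset_iff.2 h1.1.1, h1.1.2, h1.2, Rch.refl rfl⟩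
  obtain ⟨x, y, hxy⟩ := he
  have hle : G.deleteEdges {s(x, y)} ≤ G := G.deleteEdges_le _
  have hG : ∀ u v, G.Adj u v →
      (G.deleteEdges {s(x, y)}).Adj u v ∨ (u = x ∧ v = y) ∨ (u = y ∧ v = x) := by
    intro u v h1
    by_cases h2 : s(u, v) = s(x, y)
    · exact Or.inr (Sym2.eq_iff.1 h2)
    · exact Or.inl (by simpa [h1] using h2)
  have ih' := ih (G.deleteEdges {s(x, y)}).edgeSet.ncard (by
    rw [← hn, SimpleGraph.edgeSet_deleteEdges]
    exact ncard_lt_ncard ⟨sdiff_subset, fun h1 => (h1 hxy).2 rfl⟩ (toFinite _)) _ rfl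
  generalize G.deleteEdges {s(x, y)} = G' at hle hG ih'
  by_cases h1 : Hyp G' S A B k
  · obtain ⟨P, a, b, m, h2, h3⟩ := ih' S A B h1
    exact ⟨P, a, b, m, fun i => ⟨(h2 i).1, (h2 i).2.1, (h2 i).2.2.1, (h2 i).2.2.2.1.monoG hle,
      (h2 i).2.2.2.2⟩, h3⟩
  simp only [Hyp, not_forall, not_exists, not_and] at h1
  obtain ⟨X, hX, hs⟩ := h1
  obtain ⟨a, ha, b, hb, h2⟩ := h X hX
  have out : ∀ {A B : Set V} {a b : V}, a ∈ A → b ∈ B → Rch G (S \ ↑X) a b →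
      (∀ a ∈ A, ∀ b ∈ B, ¬ Rch G' (S \ ↑X) a b) →
      ((∃ a ∈ A, Rch G' (S \ ↑X) a x) ∧ ¬ ∃ a ∈ A, Rch G' (S \ ↑X) a y) ∨
      ((∃ a ∈ A, Rch G' (S \ ↑X) a y) ∧ ¬ ∃ a ∈ A, Rch G' (S \ ↑X) a x) := by
    intro A B a b ha hb h2 hs
    by_contra h3
    have h4 : b ∈ {v | ∃ a ∈ A, Rch G' (S \ ↑X) a v} := by
      refine h2.closed ⟨a, ha, Rch.refl h2.left⟩ ?_
      rintro u ⟨a', ha', hu⟩ v hv - huv
      rcases hG u v huv with h5 | ⟨rfl, rfl⟩ | ⟨rfl, rfl⟩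
      · exact ⟨a', ha', hu.snoc h5 hv⟩
      · by_contra h6; exact h3 (Or.inl ⟨⟨a', ha', hu⟩, h6⟩)
      · by_contra h6; exact h3 (Or.inr ⟨⟨a', ha', hu⟩, h6⟩)
    obtain ⟨a', ha', h5⟩ := h4
    exact hs a' ha' b hb h5
  have dis : ∀ v, (∃ a ∈ A, Rch G' (S \ ↑X) a v) → ¬ ∃ b ∈ B, Rch G' (S \ ↑X) b v := by
    rintro v ⟨a, ha, h1⟩ ⟨b, hb, h2⟩
    exact hs a ha b hb (h1.trans h2.symm)
  rcases out ha hb h2 hs with ⟨h3, -⟩ | ⟨h3, -⟩ <;>
    rcases out hb ha h2.symm (fun b hb a ha h' => hs a ha b hb h'.symm) with ⟨h4, -⟩ | ⟨h4, -⟩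
  · exact absurd h4 (dis x h3)
  · exact join hle hxy hG ih' h hX hs h3 h4
  · exact join hle hxy.symm (fun u v h' => (hG u v h').imp_right Or.symm) ih' h hX hs h3 h4
  · exact absurd h4 (dis y h3)

end Menger

theorem menger (V : Type*) [Finite V] : MengerSt V :=
  fun G S A B k h => Menger.main k _ G rfl S A B h

end Pool.Agent.P.MP_0cc987_co
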