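import Pool.Agent.P.MP_0cc987_co.Defs

/-! Numerical facts. -/

namespace Pool.Agent.P.MP_0cc987_co

theorem exists_pow_le_two_pow (p : ℕ) : ∃ θ0, ∀ θ, θ0 ≤ θ → θ ^ p ≤ 2 ^ θ := by
  have h := tendsto_pow_const_div_const_pow_of_one_lt p (r := 2) (by norm_num)
  have h1 := h.eventually (gt_mem_nhds (show (0 : ℝ) < 1 by norm_num))
  obtain ⟨θ0, h2⟩ := Filter.eventually_atTop.1 h1
  refine ⟨θ0, fun θ hθ => ?_⟩
  have h3 := h2 θ hθ
  rw [div_lt_one (by positivity)] at h3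
  exact_mod_cast h3.le

theorem two_mul_pow98 {lam : ℕ} (h : 15000 ≤ lam) : 2 * lam ^ 98 ≤ 2 ^ lam := by
  have key : ∀ m, 11 ≤ m → 128 * (m + 1) ≤ 2 ^ m := by
    intro m hm
    induction m, hm using Nat.le_induction with
    | base => norm_num
    | succ m _ ih => rw [pow_succ]; omega
  have h1 : lam ≤ 2 ^ (lam / 128) := (by omega : lam ≤ 128 * (lam / 128 + 1)).trans
    (key _ (by omega))
  calc 2 * lam ^ 98 ≤ 2 * (2 ^ (lam / 128)) ^ 98 :=
        Nat.mul_le_mul_left _ (Nat.pow_le_pow_left h1 _)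
    _ = 2 ^ (lam / 128 * 98 + 1) := by rw [← pow_mul, pow_succ]; ring
    _ ≤ 2 ^ lam := Nat.pow_le_pow_right (by omega) (by omega)

theorem Par.big {n s j0 ρ L lam : ℕ} (h : Par n s j0 ρ L lam) : lam ^ 98 ≤ L := by
  have := two_mul_pow98 h.lam0
  have := h.lL
  omega

theorem Par.nbig {n s j0 ρ L lam : ℕ} (h : Par n s j0 ρ L lam) : 2 ^ (lam ^ 98) ≤ 2 * n :=
  (Nat.pow_le_pow_right (by omega) h.big).trans h.Ln

/-- Comparison of monomials. -/
theorem mul_pow_le_pow {c x a b : ℕ} (hc : c ≤ x) (hx : 1 ≤ x) (hab : a < b) :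
    c * x ^ a ≤ x ^ b :=
  calc c * x ^ a ≤ x * x ^ a := Nat.mul_le_mul_right _ hc
    _ = x ^ (a + 1) := by ring
    _ ≤ x ^ b := Nat.pow_le_pow_right hx hab

theorem pow_le_two_pow_mul (x a : ℕ) : x ^ a ≤ 2 ^ (a * x) := by
  rw [Nat.mul_comm, pow_mul]
  exact Nat.pow_le_pow_left Nat.lt_two_pow_self.le _

end Pool.Agent.P.MP_0cc987_co
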