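import Pool.Agent.P.MP_0cc987_co.Walk

/-! Paths and cycles as functions on the naturals, with a set-level interface. -/

namespace Pool.Agent.P.MP_0cc987_co

open Set

variable {V : Type*} {G G' : SimpleGraph V} {S S' B : Set V} {u v w : V} {n m k : ℕ} {f c : ℕ → V}

/-- `f 0, …, f n` is a path of length `n`. -/
structure PathF (G : SimpleGraph V) (f : ℕ → V) (n : ℕ) : Prop where
  adj : ∀ i < n, G.Adj (f i) (f (i + 1))
  inj : ∀ i ≤ n, ∀ j ≤ n, f i = f j → i = j

/-- There is a path of length exactly `n` from `u` to `v` inside `S`. -/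
def Pth (G : SimpleGraph V) (S : Set V) (u v : V) (n : ℕ) : Prop :=
  ∃ f, PathF G f n ∧ f 0 = u ∧ f n = v ∧ ∀ i ≤ n, f i ∈ S

/-- `c 0, …, c (n-1)` is a cycle of length `n`. -/
structure CycF (G : SimpleGraph V) (c : ℕ → V) (n : ℕ) : Prop where
  three : 3 ≤ n
  path : PathF G c (n - 1)
  close : G.Adj (c (n - 1)) (c 0)

/-- There is a cycle of length exactly `n` inside `S`. -/
def Cyc (G : SimpleGraph V) (S : Set V) (n : ℕ) : Prop := ∃ c, CycF G c n ∧ ∀ i < n, c i ∈ S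

/-- `C` is exactly the vertex set of a cycle. -/
def TCyc (G : SimpleGraph V) (C : Finset V) : Prop := Cyc G ↑C C.card

/-- The vertices `f i, …, f j`. -/
def seg (f : ℕ → V) (i j : ℕ) : Set V := {x | ∃ k, i ≤ k ∧ k ≤ j ∧ f k = x}

theorem mem_seg {i j : ℕ} (h1 : i ≤ k) (h2 : k ≤ j) : f k ∈ seg f i j := ⟨k, h1, h2, rfl⟩

namespace PathF

theorem monoG (h : PathF G f n) (hG : G ≤ G') : PathF G' f n :=
  ⟨fun i hi => hG (h.adj i hi), h.inj⟩

theorem take (h : PathF G f n) (hm : m ≤ n) : PathF G f m :=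
  ⟨fun i hi => h.adj i (by omega), fun i hi j hj => h.inj i (by omega) j (by omega)⟩

theorem ne {i j : ℕ} (h : PathF G f n) (hi : i ≤ n) (hj : j ≤ n) (hij : i ≠ j) : f i ≠ f j :=
  fun e => hij (h.inj i hi j hj e)

theorem rev (h : PathF G f n) : PathF G (fun i => f (n - i)) n := by
  refine ⟨fun i hi => ?_, fun i hi j hj e => ?_⟩
  · have := (h.adj (n - (i + 1)) (by omega)).symm
    rwa [show n - (i + 1) + 1 = n - i by omega] at this
  · have := h.inj _ (by omega) _ (by omega) e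
    omega

/-- A segment of a path is a path. -/
theorem pth {i j : ℕ} (h : PathF G f n) (hij : i ≤ j) (hj : j ≤ n) :
    Pth G (seg f i j) (f i) (f j) (j - i) := by
  refine ⟨fun k => f (i + k), ⟨fun k hk => h.adj (i + k) (by omega), fun a ha b hb e => ?_⟩, rfl,
    by simp only; rw [show i + (j - i) = j by omega], fun k hk => mem_seg (by omega) (by omega)⟩
  have := h.inj _ (by omega) _ (by omega) e
  omega

theorem mem_seg_iff {i j : ℕ} (h : PathF G f n) (hj : j ≤ n) (hk : k ≤ n) :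
    f k ∈ seg f i j ↔ i ≤ k ∧ k ≤ j := by
  refine ⟨?_, fun h => mem_seg h.1 h.2⟩
  rintro ⟨l, h1, h2, e⟩
  have := h.inj _ (by omega) _ hk e
  omega

theorem card_image [DecidableEq V] (h : PathF G f n) {I : Finset ℕ} (hI : ∀ i ∈ I, i ≤ n) :
    (I.image f).card = I.card :=
  Finset.card_image_of_injOn fun i hi j hj e => h.inj i (hI i hi) j (hI j hj) e

end PathF

namespace Pth

theorem left (h : Pth G S u v n) : u ∈ S := let ⟨_, _, h1, _, h2⟩ := h; h1 ▸ h2 0 (Nat.zero_le _)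
theorem right (h : Pth G S u v n) : v ∈ S := let ⟨_, _, _, h1, h2⟩ := h; h1 ▸ h2 n le_rfl

theorem refl (hu : u ∈ S) : Pth G S u u 0 :=
  ⟨fun _ => u, ⟨by simp, by omega⟩, rfl, rfl, fun _ _ => hu⟩

theorem transfer (h : Pth G S u v n) (hS : S ⊆ S')
    (hG : ∀ a ∈ S, ∀ b ∈ S, G.Adj a b → G'.Adj a b) : Pth G' S' u v n := by
  obtain ⟨f, hf, h1, h2, h3⟩ := h
  exact ⟨f, ⟨fun i hi => hG _ (h3 _ (by omega)) _ (h3 _ (by omega)) (hf.adj i hi), hf.inj⟩, h1, h2,
    fun i hi => hS (h3 i hi)⟩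

theorem mono (h : Pth G S u v n) (hS : S ⊆ S') : Pth G S' u v n := h.transfer hS fun _ _ _ _ h => h

theorem monoG (h : Pth G S u v n) (hG : G ≤ G') : Pth G' S u v n :=
  h.transfer Subset.rfl fun _ _ _ _ h => hG h

theorem univ (h : Pth G S u v n) : Pth G univ u v n := h.mono (subset_univ _)

theorem to_res (h : Pth G S u v n) (hS : S ⊆ S') : Pth (res G S') S u v n :=
  h.transfer Subset.rfl fun _ ha _ hb hab => ⟨hab, hS ha, hS hb⟩

theorem symm (h : Pth G S u v n) : Pth G S v u n := by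
  obtain ⟨f, hf, h1, h2, h3⟩ := h
  exact ⟨_, hf.rev, by simpa using h2, by simpa using h1, fun i _ => h3 _ (by omega)⟩

theorem wk (h : Pth G S u v n) : Wk G S u v n := by
  obtain ⟨f, hf, rfl, rfl, h3⟩ := h
  exact Wk.of_fun f hf.adj h3

theorem wkLe (h : Pth G S u v n) (hn : n ≤ m) : WkLe G S u v m := h.wk.le hn
theorem rch (h : Pth G S u v n) : Rch G S u v := h.wk.rch

theorem eq_iff (h : Pth G S u v n) : u = v ↔ n = 0 := by
  obtain ⟨f, hf, rfl, rfl, _⟩ := h
  exact ⟨fun e => (hf.inj 0 (by omega) n le_rfl e).symm, fun e => by rw [e]⟩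

theorem pos (h : Pth G S u v n) (huv : u ≠ v) : 1 ≤ n := by
  have := h.eq_iff
  by_contra h'
  exact huv (this.2 (by omega))

theorem ne (h : Pth G S u v n) (hn : 1 ≤ n) : u ≠ v := fun e => by
  have := h.eq_iff.1 e
  omega

/-- Concatenation of two paths that share only the common end. -/
theorem trans (h : Pth G S u v n) (h' : Pth G S' v w m) (hS : ∀ x ∈ S, x ∈ S' → x = v) :
    Pth G (S ∪ S') u w (n + m) := by
  obtain ⟨f, hf, h1, h2, h3⟩ := h
  obtain ⟨g, hg, h4, h5, h6⟩ := h'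
  have e : f n = g 0 := h2.trans h4.symm
  refine ⟨fun i => if i ≤ n then f i else g (i - n), ⟨fun i hi => ?_, fun i hi j hj e' => ?_⟩,
    by simpa using h1, ?_, fun i hi => ?_⟩
  · rcases lt_trichotomy i n with h | h | h
    · rw [if_pos (by omega), if_pos (by omega)]; exact hf.adj i h
    · rw [if_pos (by omega), if_neg (by omega), h, e, show n + 1 - n = 0 + 1 by omega]
      exact hg.adj 0 (by omega)
    · rw [if_neg (by omega), if_neg (by omega), show i + 1 - n = i - n + 1 by omega]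
      exact hg.adj _ (by omega)
  · have key : ∀ a ≤ n, ∀ b, n < b → b ≤ n + m → f a ≠ g (b - n) := by
      intro a ha b hb hb' e''
      have := hS _ (h3 a ha) (e'' ▸ h6 _ (by omega))
      have := hg.inj (b - n) (by omega) 0 (by omega) (by rw [← e'', this, h4])
      omega
    by_cases h7 : i ≤ n <;> by_cases h8 : j ≤ n <;> simp only [h7, h8, if_true, if_false] at e'
    · exact hf.inj i h7 j h8 e'
    · exact (key i h7 j (by omega) hj e').elim
    · exact (key j h8 i (by omega) hi e'.symm).elim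
    · have := hg.inj _ (by omega) _ (by omega) e'
      omega
  · rcases Nat.eq_zero_or_pos m with rfl | hm
    · simp only [Nat.add_zero, le_refl, if_true]; rw [e, h5]
    · simp only; rw [if_neg (by omega), show n + m - n = m by omega, h5]
  · by_cases h7 : i ≤ n
    · simp only [h7, if_true]; exact Or.inl (h3 i h7)
    · simp only [h7, if_false]; exact Or.inr (h6 _ (by omega))

theorem single (hu : u ∈ S) (hv : v ∈ S) (h : G.Adj u v) : Pth G S u v 1 := by
  refine ⟨fun i => if i = 0 then u else v, ⟨fun i hi => ?_, fun i hi j hj e => ?_⟩, by simp,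
    by simp, fun i _ => ?_⟩
  · obtain rfl : i = 0 := by omega
    simpa using h
  · have := h.ne
    by_cases h1 : i = 0 <;> by_cases h2 : j = 0 <;> simp only [h1, h2, if_true, if_false] at e
    · omega
    · exact (this e).elim
    · exact (this e.symm).elim
    · omega
  · by_cases h1 : i = 0 <;> simp [h1, hu, hv]

theorem snoc (h : Pth G S u v n) (ha : G.Adj v w) (hw : w ∉ S) :
    Pth G (insert w S) u w (n + 1) := by
  have := h.trans (single (S := {v, w}) (by simp) (by simp) ha) (by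
    rintro x hx (rfl | rfl)
    · rfl
    · exact (hw hx).elim)
  refine this.mono ?_
  rintro x (hx | rfl | rfl)
  · exact Or.inr hx
  · exact Or.inr h.right
  · exact Or.inl rfl

theorem cons (h : Pth G S w v n) (ha : G.Adj u w) (hu : u ∉ S) :
    Pth G (insert u S) u v (n + 1) := (h.symm.snoc ha.symm hu).symm

/-- The exact vertex set of a path. -/
theorem tight [DecidableEq V] (h : Pth G S u v n) :
    ∃ T : Finset V, ↑T ⊆ S ∧ T.card = n + 1 ∧ Pth G ↑T u v n := by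
  obtain ⟨f, hf, h1, h2, h3⟩ := h
  refine ⟨(Finset.range (n + 1)).image f, ?_, ?_, f, hf, h1, h2, fun i hi => ?_⟩
  · intro x hx
    simp only [Finset.coe_image, Finset.coe_range, mem_image, mem_Iio] at hx
    obtain ⟨i, hi, rfl⟩ := hx
    exact h3 i (by omega)
  · rw [hf.card_image (by simp), Finset.card_range]
  · simp only [Finset.coe_image, Finset.coe_range, mem_image, mem_Iio]
    exact ⟨i, by omega, rfl⟩

theorem card_le {T : Finset V} (h : Pth G ↑T u v n) : n + 1 ≤ T.card := by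
  classical
  obtain ⟨T', h1, h2, _⟩ := h.tight
  rw [← h2]
  exact Finset.card_le_card (by exact_mod_cast h1)

/-- Cut a path at a given position. -/
theorem split (h : Pth G S u v (n + m)) : ∃ w S1 S2, S1 ⊆ S ∧ S2 ⊆ S ∧ Pth G S1 u w n ∧
    Pth G S2 w v m ∧ ∀ x ∈ S1, x ∈ S2 → x = w := by
  obtain ⟨f, hf, rfl, rfl, h3⟩ := h
  refine ⟨f n, seg f 0 n, seg f n (n + m), ?_, ?_, hf.pth (Nat.zero_le _) (by omega), ?_, ?_⟩
  · rintro _ ⟨k, _, h, rfl⟩; exact h3 k (by omega)
  · rintro _ ⟨k, _, h, rfl⟩; exact h3 k h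
  · simpa using hf.pth (i := n) (j := n + m) (by omega) le_rfl
  · rintro _ ⟨k, _, h, rfl⟩ h'
    rw [hf.mem_seg_iff le_rfl (by omega)] at h'
    rw [show k = n by omega]

theorem take (h : Pth G S u v n) (hk : k ≤ n) : ∃ w, Pth G S u w k := by
  obtain ⟨m, rfl⟩ := Nat.exists_eq_add_of_le hk
  obtain ⟨w, S1, _, h1, _, h2, _⟩ := h.split
  exact ⟨w, h2.mono h1⟩

/-- First edge of a path. -/
theorem uncons (h : Pth G S u v (n + 1)) : ∃ w, G.Adj u w ∧ Pth G (S \ {u}) w v n := by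
  rw [Nat.add_comm] at h
  obtain ⟨w, S1, S2, _, h2, h3, h4, h5⟩ := h.split
  have ha := h3.wk.adj_of_one
  exact ⟨w, ha, h4.mono fun x hx => ⟨h2 hx, fun e => ha.ne (h5 u h3.left (e ▸ hx))⟩⟩

/-- Cut a path at its first vertex in `B`. -/
theorem first_hit (h : Pth G S u v n) (hv : v ∈ B) : ∃ w ∈ B, ∃ k l S1 S2, k + l = n ∧
    S1 ⊆ S ∧ S2 ⊆ S ∧ (∀ x ∈ S1, x ∈ B → x = w) ∧ Pth G S1 u w k ∧ Pth G S2 w v l ∧
    ∀ x ∈ S1, x ∈ S2 → x = w := by
  classical
  obtain ⟨f, hf, rfl, rfl, h3⟩ := h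
  have hex : ∃ i, f i ∈ B := ⟨n, hv⟩
  have h4 : Nat.find hex ≤ n := Nat.find_min' hex hv
  refine ⟨f (Nat.find hex), Nat.find_spec hex, Nat.find hex, n - Nat.find hex,
    seg f 0 (Nat.find hex), seg f (Nat.find hex) n, by omega, ?_, ?_, ?_,
    hf.pth (Nat.zero_le _) h4, hf.pth h4 le_rfl, ?_⟩
  · rintro _ ⟨k, _, h, rfl⟩; exact h3 k (by omega)
  · rintro _ ⟨k, _, h, rfl⟩; exact h3 k h
  · rintro _ ⟨k, _, h, rfl⟩ hB
    have := Nat.find_min' hex hB
    rw [show k = Nat.find hex by omega]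
  · rintro _ ⟨k, _, h, rfl⟩ h'
    rw [hf.mem_seg_iff le_rfl (by omega)] at h'
    rw [show k = Nat.find hex by omega]

/-- Cut a path at its last vertex in `B`. -/
theorem last_hit (h : Pth G S u v n) (hu : u ∈ B) : ∃ w ∈ B, ∃ k l S1 S2, k + l = n ∧
    S1 ⊆ S ∧ S2 ⊆ S ∧ (∀ x ∈ S2, x ∈ B → x = w) ∧ Pth G S1 u w k ∧ Pth G S2 w v l ∧
    ∀ x ∈ S1, x ∈ S2 → x = w := by
  obtain ⟨w, hw, k, l, S1, S2, h1, h2, h3, h4, h5, h6, h7⟩ := h.symm.first_hit hu
  exact ⟨w, hw, l, k, S2, S1, by omega, h3, h2, h4, h6.symm, h5.symm, fun x a b => h7 x b a⟩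

/-- Cut a path at a vertex of its exact vertex set. -/
theorem split_at {T : Finset V} (h : Pth G ↑T u v n) (hT : T.card ≤ n + 1) (hw : w ∈ T) :
    ∃ k l S1 S2, k + l = n ∧ S1 ⊆ ↑T ∧ S2 ⊆ ↑T ∧ Pth G S1 u w k ∧ Pth G S2 w v l ∧
      ∀ x ∈ S1, x ∈ S2 → x = w := by
  classical
  obtain ⟨f, hf, rfl, rfl, h3⟩ := h
  have h4 : (Finset.range (n + 1)).image f = T := by
    apply Finset.eq_of_subset_of_card_le
    · intro x hx
      simp only [Finset.mem_image, Finset.mem_range] at hx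
      obtain ⟨i, hi, rfl⟩ := hx
      exact h3 i (by omega)
    · rwa [hf.card_image (by simp), Finset.card_range]
  rw [← h4] at hw
  simp only [Finset.mem_image, Finset.mem_range] at hw
  obtain ⟨i, hi, rfl⟩ := hw
  refine ⟨i, n - i, seg f 0 i, seg f i n, by omega, ?_, ?_, hf.pth (Nat.zero_le _) (by omega),
    hf.pth (by omega) le_rfl, ?_⟩
  · rintro _ ⟨k, _, h, rfl⟩; exact h3 k (by omega)
  · rintro _ ⟨k, _, h, rfl⟩; exact h3 k h
  · rintro _ ⟨k, _, h, rfl⟩ h'
    rw [hf.mem_seg_iff le_rfl (by omega)] at h'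
    rw [show k = i by omega]

theorem parity {σ : V → Bool} (h : Pth G S u v n) (hσ : ∀ a b, G.Adj a b → σ a ≠ σ b) :
    σ u = σ v ↔ Even n := h.wk.parity hσ

end Pth

/-- Every walk contains a path. -/
theorem Wk.pth (h : Wk G S u v n) : ∃ k ≤ n, Pth G S u v k := by
  classical
  induction h with
  | nil h => exact ⟨0, le_rfl, Pth.refl h⟩
  | @cons a b c n h1 h2 _ ih =>
    obtain ⟨k, hk, hp⟩ := ih
    obtain ⟨T, h3, h4, h5⟩ := hp.tight
    by_cases ha : a ∈ T
    · obtain ⟨k', l, S1, S2, h6, _, h7, _, h8, _⟩ := h5.split_at h4.le ha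
      exact ⟨l, by omega, h8.mono (h7.trans h3)⟩
    · exact ⟨k + 1, by omega, (h5.cons h2 (by simpa using ha)).mono (insert_subset h1 h3)⟩

theorem WkLe.pth (h : WkLe G S u v n) : ∃ k ≤ n, Pth G S u v k := by
  obtain ⟨k, hk, h⟩ := h
  obtain ⟨l, hl, h⟩ := h.pth
  exact ⟨l, by omega, h⟩

theorem Rch.pth (h : Rch G S u v) : ∃ k, Pth G S u v k := by
  obtain ⟨k, h⟩ := h
  obtain ⟨l, _, h⟩ := h.pth
  exact ⟨l, h⟩

namespace CycF

theorem monoG (h : CycF G c n) (hG : G ≤ G') : CycF G' c n := ⟨h.three, h.path.monoG hG, hG h.close⟩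

theorem inj (h : CycF G c n) {i j : ℕ} (hi : i < n) (hj : j < n) (e : c i = c j) : i = j :=
  h.path.inj i (by omega) j (by omega) e

theorem adj (h : CycF G c n) {i : ℕ} (hi : i + 1 < n) : G.Adj (c i) (c (i + 1)) :=
  h.path.adj i (by omega)

/-- The direct arc between two positions of a cycle. -/
theorem arc (h : CycF G c n) {i j : ℕ} (hij : i ≤ j) (hj : j < n) :
    Pth G (seg c i j) (c i) (c j) (j - i) := h.path.pth hij (by omega)

/-- The arc between two positions of a cycle that passes through position `0`. -/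
theorem arc' (h : CycF G c n) {i j : ℕ} (hij : i < j) (hj : j < n) :
    Pth G (seg c 0 i ∪ seg c j (n - 1)) (c i) (c j) (n - (j - i)) := by
  have h1 := (h.arc (Nat.zero_le i) (by omega)).symm
  have h2 := (h.arc (i := j) (j := n - 1) (by omega) (by omega)).symm
  have h3 : c 0 ∉ seg c j (n - 1) := by
    rw [h.path.mem_seg_iff le_rfl (by omega)]; omega
  have h4 := h1.trans (h2.cons h.close.symm h3) (by
    rintro _ ⟨k, _, hk, rfl⟩ (e | e)
    · exact e
    · rw [h.path.mem_seg_iff le_rfl (by omega)] at e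
      omega)
  rw [show i - 0 + (n - 1 - j + 1) = n - (j - i) by omega] at h4
  refine h4.mono ?_
  rintro x (hx | rfl | hx)
  · exact Or.inl hx
  · exact Or.inl (mem_seg le_rfl (Nat.zero_le _))
  · exact Or.inr hx

end CycF

/-- Close a path with an edge. -/
theorem Pth.close_edge (h : Pth G S u v n) (hn : 2 ≤ n) (ha : G.Adj v u) : Cyc G S (n + 1) := by
  obtain ⟨f, hf, rfl, rfl, h3⟩ := h
  exact ⟨f, ⟨by omega, hf, ha⟩, fun i hi => h3 i (by omega)⟩

/-- Two internally disjoint paths with the same distinct ends form a cycle. -/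
theorem Pth.close (h : Pth G S u v n) (h' : Pth G S' u v m) (huv : u ≠ v) (h3 : 3 ≤ n + m)
    (hS : ∀ x ∈ S, x ∈ S' → x = u ∨ x = v) : Cyc G (S ∪ S') (n + m) := by
  have hm := h'.pos huv
  obtain ⟨m, rfl⟩ : ∃ l, m = l + 1 := ⟨m - 1, by omega⟩
  obtain ⟨w, ha, hp⟩ := h'.uncons
  have := (h.trans hp.symm (by
    intro x hx hx'
    rcases hS x hx hx'.1 with e | e
    · exact (hx'.2 e).elim
    · exact e)).close_edge (by omega) ha.symm
  obtain ⟨c, hc, h4⟩ := this
  exact ⟨c, hc, fun i hi => (h4 i hi).imp id fun h => h.1⟩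

namespace Cyc

theorem three (h : Cyc G S n) : 3 ≤ n := h.choose_spec.1.three

theorem transfer (h : Cyc G S n) (hS : S ⊆ S')
    (hG : ∀ a ∈ S, ∀ b ∈ S, G.Adj a b → G'.Adj a b) : Cyc G' S' n := by
  obtain ⟨c, hc, h1⟩ := h
  have := hc.three
  exact ⟨c, ⟨hc.three, ⟨fun i hi => hG _ (h1 _ (by omega)) _ (h1 _ (by omega)) (hc.path.adj i hi),
    hc.path.inj⟩, hG _ (h1 _ (by omega)) _ (h1 _ (by omega)) hc.close⟩, fun i hi => hS (h1 i hi)⟩

theorem mono (h : Cyc G S n) (hS : S ⊆ S') : Cyc G S' n := h.transfer hS fun _ _ _ _ h => h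

theorem monoG (h : Cyc G S n) (hG : G ≤ G') : Cyc G' S n :=
  h.transfer Subset.rfl fun _ _ _ _ h => hG h

theorem univ (h : Cyc G S n) : Cyc G univ n := h.mono (subset_univ _)

theorem to_res (h : Cyc G S n) (hS : S ⊆ S') : Cyc (res G S') S n :=
  h.transfer Subset.rfl fun _ ha _ hb hab => ⟨hab, hS ha, hS hb⟩

theorem of_res {A : Set V} (h : Cyc (res G A) S n) : Cyc G (S ∩ A) n := by
  obtain ⟨c, hc, h1⟩ := h
  refine ⟨c, hc.monoG (res_le _ _), fun i hi => ⟨h1 i hi, ?_⟩⟩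
  by_cases h2 : i + 1 < n
  · exact (hc.adj h2).2.1
  · rw [show i = n - 1 by omega]; exact hc.close.2.1

/-- A cycle is a path plus an edge. -/
theorem pth (h : Cyc G S n) : ∃ u v, Pth G S u v (n - 1) ∧ G.Adj v u := by
  obtain ⟨c, hc, h1⟩ := h
  have := hc.three
  exact ⟨c 0, c (n - 1), ⟨c, hc.path, rfl, rfl, fun i hi => h1 i (by omega)⟩, hc.close⟩

theorem wk (h : Cyc G S n) : ∃ u, Wk G S u u n := by
  obtain ⟨u, v, h1, h2⟩ := h.pth
  have := h.three
  have h3 := h1.wk.snoc h2 h1.left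
  rw [show n - 1 + 1 = n by omega] at h3
  exact ⟨u, h3⟩

theorem tight [DecidableEq V] (h : Cyc G S n) :
    ∃ C : Finset V, ↑C ⊆ S ∧ C.card = n ∧ TCyc G C := by
  obtain ⟨u, v, h1, h2⟩ := h.pth
  have := h.three
  obtain ⟨T, h3, h4, h5⟩ := h1.tight
  refine ⟨T, h3, by omega, ?_⟩
  unfold TCyc
  rw [h4]
  exact h5.close_edge (by omega) h2

theorem card_le {T : Finset V} (h : Cyc G ↑T n) : n ≤ T.card := by
  obtain ⟨u, v, h1, _⟩ := h.pth
  have := h1.card_le
  have := h.three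
  omega

end Cyc

namespace TCyc

variable {C : Finset V}

theorem three (h : TCyc G C) : 3 ≤ C.card := Cyc.three h

theorem monoG (h : TCyc G C) (hG : G ≤ G') : TCyc G' C := Cyc.monoG h hG

theorem exists_fun (h : TCyc G C) :
    ∃ c, CycF G c C.card ∧ ∀ x, x ∈ C ↔ ∃ i < C.card, c i = x := by
  classical
  obtain ⟨c, hc, h1⟩ := h
  have h3 := hc.three
  have h4 : (Finset.range C.card).image c = C := by
    apply Finset.eq_of_subset_of_card_le
    · intro x hx
      simp only [Finset.mem_image, Finset.mem_range] at hx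
      obtain ⟨i, hi, rfl⟩ := hx
      exact h1 i hi
    · rw [hc.path.card_image (by simp; omega), Finset.card_range]
  refine ⟨c, hc, fun x => ?_⟩
  conv_lhs => rw [← h4]
  simp

/-- A parametrisation of a cycle starting at a given vertex. -/
theorem exists_fun_at (h : TCyc G C) (hv : v ∈ C) :
    ∃ c, CycF G c C.card ∧ c 0 = v ∧ ∀ x, x ∈ C ↔ ∃ i < C.card, c i = x := by
  classical
  obtain ⟨c, hc, h1⟩ := h.exists_fun
  obtain ⟨i, hi, rfl⟩ := (h1 v).1 hv
  rcases Nat.eq_zero_or_pos i with rfl | hi0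
  · exact ⟨c, hc, rfl, h1⟩
  have h3 := hc.three
  have h2 := (hc.arc' (i := i - 1) (j := i) (by omega) hi).symm
  rw [show C.card - (i - (i - 1)) = C.card - 1 by omega] at h2
  obtain ⟨f, hf, e0, e1, h4⟩ := h2
  have h5 : ∀ k ≤ C.card - 1, f k ∈ C := by
    intro k hk
    rcases h4 k hk with ⟨l, _, h, e⟩ | ⟨l, _, h, e⟩ <;> exact (h1 _).2 ⟨l, by omega, e⟩
  have h6 : (Finset.range C.card).image f = C := by
    apply Finset.eq_of_subset_of_card_le
    · intro x hx
      simp only [Finset.mem_image, Finset.mem_range] at hx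
      obtain ⟨k, hk, rfl⟩ := hx
      exact h5 k (by omega)
    · rw [hf.card_image (by simp; omega), Finset.card_range]
  refine ⟨f, ⟨h3, hf, ?_⟩, e0, fun x => ?_⟩
  · rw [e0, e1]
    have := hc.adj (i := i - 1) (by omega)
    rwa [show i - 1 + 1 = i by omega] at this
  · conv_lhs => rw [← h6]
    simp

/-- The two arcs between two distinct vertices of a cycle. -/
theorem arcs (h : TCyc G C) (hu : u ∈ C) (hv : v ∈ C) (huv : u ≠ v) :
    ∃ S1 S2 d e, S1 ⊆ ↑C ∧ S2 ⊆ ↑C ∧ d + e = C.card ∧ 1 ≤ d ∧ 1 ≤ e ∧ Pth G S1 u v d ∧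
      Pth G S2 u v e ∧ ∀ x ∈ S1, x ∈ S2 → x = u ∨ x = v := by
  obtain ⟨c, hc, h1⟩ := h.exists_fun
  have key : ∀ i j, i < j → j < C.card → ∃ S1 S2 d e, S1 ⊆ ↑C ∧ S2 ⊆ ↑C ∧ d + e = C.card ∧
      1 ≤ d ∧ 1 ≤ e ∧ Pth G S1 (c i) (c j) d ∧ Pth G S2 (c i) (c j) e ∧
      ∀ x ∈ S1, x ∈ S2 → x = c i ∨ x = c j := by
    intro i j hij hj
    refine ⟨_, _, _, _, ?_, ?_, by omega, by omega, by omega, hc.arc hij.le hj, hc.arc' hij hj, ?_⟩
    · rintro _ ⟨k, _, h, rfl⟩; exact (h1 _).2 ⟨k, by omega, rfl⟩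
    · rintro _ (⟨k, _, h, rfl⟩ | ⟨k, _, h, rfl⟩) <;> exact (h1 _).2 ⟨k, by omega, rfl⟩
    · rintro _ ⟨k, h2, h3, rfl⟩ (h | h)
      · rw [hc.path.mem_seg_iff (by omega) (by omega)] at h
        left; rw [show k = i by omega]
      · rw [hc.path.mem_seg_iff (by omega) (by omega)] at h
        right; rw [show k = j by omega]
  obtain ⟨i, hi, rfl⟩ := (h1 u).1 hu
  obtain ⟨j, hj, rfl⟩ := (h1 v).1 hv
  rcases lt_trichotomy i j with hij | rfl | hij
  · exact key i j hij hj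
  · exact (huv rfl).elim
  · obtain ⟨S1, S2, d, e, a1, a2, a3, a4, a5, a6, a7, a8⟩ := key j i hij hi
    exact ⟨S1, S2, d, e, a1, a2, a3, a4, a5, a6.symm, a7.symm, fun x p q => (a8 x p q).symm⟩

/-- A cycle stays connected when one vertex is deleted. -/
theorem wkLe_diff (h : TCyc G C) (hu : u ∈ C) (hv : v ∈ C) (huw : u ≠ w) (hvw : v ≠ w) :
    WkLe G (↑C \ {w}) u v C.card := by
  classical
  by_cases huv : u = v
  · subst huv; exact WkLe.refl (S := ↑C \ {w}) ⟨hu, huw⟩ _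
  obtain ⟨S1, S2, d, e, a1, a2, a3, _, _, a6, a7, a8⟩ := h.arcs hu hv huv
  by_cases hw : w ∈ S1
  · refine (a7.wkLe (by omega)).mono fun x hx => ⟨a2 hx, fun e' => ?_⟩
    rw [mem_singleton_iff] at e'
    subst e'
    rcases a8 x hw hx with e | e
    · exact huw e.symm
    · exact hvw e.symm
  · exact (a6.wkLe (by omega)).mono fun x hx => ⟨a1 hx, fun e' => hw (e' ▸ hx)⟩

end TCyc

/-- An odd closed walk contains an odd cycle. -/
theorem Wk.odd_cyc (h : Wk G S u u n) (hn : Odd n) : ∃ k ≤ n, Odd k ∧ Cyc G S k := by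
  classical
  induction n using Nat.strong_induction_on generalizing u with
  | _ n ih =>
  obtain ⟨f, h0, h1, h2, h3⟩ := h.exists_fun
  have hseg : ∀ i j, i ≤ j → j ≤ n → Wk G S (f i) (f j) (j - i) := by
    intro i j hij hj
    have := Wk.of_fun (G := G) (S := S) (n := j - i) (fun k => f (i + k))
      (fun k hk => h2 (i + k) (by omega)) (fun k hk => h3 _ (by omega))
    simp only [Nat.add_zero] at this
    rwa [show i + (j - i) = j by omega] at this
  obtain ⟨r, hr⟩ := hn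
  by_cases hinj : ∀ i ≤ n - 1, ∀ j ≤ n - 1, f i = f j → i = j
  · have hn1 : n ≠ 1 := by
      rintro rfl
      exact h.adj_of_one.ne rfl
    refine ⟨n, le_rfl, ⟨r, hr⟩, f, ⟨by omega, ⟨fun i hi => h2 i (by omega), hinj⟩, ?_⟩,
      fun i hi => h3 i hi.le⟩
    have := h2 (n - 1) (by omega)
    rwa [show n - 1 + 1 = n by omega, h1, ← h0] at this
  · have : ∃ i j, i < j ∧ j ≤ n - 1 ∧ f i = f j := by
      push Not at hinj
      obtain ⟨i, hi, j, hj, e, hij⟩ := hinj
      rcases lt_or_gt_of_ne hij with h | h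
      · exact ⟨i, j, h, hj, e⟩
      · exact ⟨j, i, h, hi, e.symm⟩
    obtain ⟨i, j, hij, hj, e⟩ := this
    have w1 := hseg i j hij.le (by omega)
    rw [← e] at w1
    have w2 := hseg 0 i (by omega) (by omega)
    have w3 := hseg j n (by omega) le_rfl
    rw [← e, h1, ← h0] at w3
    have w4 := w2.trans w3
    rcases Nat.even_or_odd (j - i) with ⟨a, ha⟩ | ho
    · obtain ⟨k, hk, h5, h6⟩ := ih _ (by omega) w4 ⟨r - a, by omega⟩
      exact ⟨k, by omega, h5, h6⟩
    · obtain ⟨k, hk, h5, h6⟩ := ih _ (by omega) w1 ho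
      exact ⟨k, by omega, h5, h6⟩

end Pool.Agent.P.MP_0cc987_co
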