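import Mathlib

/-! Walks inside a vertex set, with exact or bounded length. -/

namespace Pool.Agent.P.MP_0cc987_co

open Set

variable {V : Type*} {G G' : SimpleGraph V} {S S' B : Set V} {u v w : V} {n m k : ℕ}

/-- A walk of length exactly `n` from `u` to `v` all of whose vertices lie in `S`. -/
inductive Wk (G : SimpleGraph V) (S : Set V) : V → V → ℕ → Prop
  | nil {u : V} : u ∈ S → Wk G S u u 0
  | cons {u w v : V} {n : ℕ} : u ∈ S → G.Adj u w → Wk G S w v n → Wk G S u v (n + 1)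

/-- A walk of length at most `n`. -/
def WkLe (G : SimpleGraph V) (S : Set V) (u v : V) (n : ℕ) : Prop := ∃ k ≤ n, Wk G S u v k

/-- A walk of any length. -/
def Rch (G : SimpleGraph V) (S : Set V) (u v : V) : Prop := ∃ k, Wk G S u v k

/-- The graph `G` restricted to the edges inside `A` (same vertex type). -/
def res (G : SimpleGraph V) (A : Set V) : SimpleGraph V where
  Adj u v := G.Adj u v ∧ u ∈ A ∧ v ∈ A
  symm := ⟨fun _ _ h => ⟨h.1.symm, h.2.2, h.2.1⟩⟩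
  loopless := ⟨fun _ h => h.1.ne rfl⟩

/-- The graph `G` with all edges inside `b` removed. -/
def cut (G : SimpleGraph V) (b : Set V) : SimpleGraph V where
  Adj u v := G.Adj u v ∧ ¬ (u ∈ b ∧ v ∈ b)
  symm := ⟨fun _ _ h => ⟨h.1.symm, fun h' => h.2 ⟨h'.2, h'.1⟩⟩⟩
  loopless := ⟨fun _ h => h.1.ne rfl⟩

@[simp] theorem res_adj {A : Set V} : (res G A).Adj u v ↔ G.Adj u v ∧ u ∈ A ∧ v ∈ A := Iff.rfl
@[simp] theorem cut_adj {b : Set V} : (cut G b).Adj u v ↔ G.Adj u v ∧ ¬ (u ∈ b ∧ v ∈ b) := Iff.rfl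
theorem res_le (G : SimpleGraph V) (A : Set V) : res G A ≤ G := fun _ _ h => h.1
theorem cut_le (G : SimpleGraph V) (b : Set V) : cut G b ≤ G := fun _ _ h => h.1
theorem res_mono (h : G ≤ G') (hS : S ⊆ S') : res G S ≤ res G' S' :=
  fun _ _ ha => ⟨h ha.1, hS ha.2.1, hS ha.2.2⟩
theorem cut_mono (h : G ≤ G') (b : Set V) : cut G b ≤ cut G' b := fun _ _ ha => ⟨h ha.1, ha.2⟩

namespace Wk

theorem left (h : Wk G S u v n) : u ∈ S := by cases h <;> assumption

theorem right (h : Wk G S u v n) : v ∈ S := by induction h <;> assumption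

theorem eq_of_zero (h : Wk G S u v 0) : u = v := by cases h; rfl

theorem succ_iff : Wk G S u v (n + 1) ↔ u ∈ S ∧ ∃ w, G.Adj u w ∧ Wk G S w v n :=
  ⟨fun h => by cases h with | cons h1 h2 h3 => exact ⟨h1, _, h2, h3⟩,
    fun ⟨h1, _, h2, h3⟩ => cons h1 h2 h3⟩

theorem single (hu : u ∈ S) (hv : v ∈ S) (h : G.Adj u v) : Wk G S u v 1 := cons hu h (nil hv)

theorem adj_of_one (h : Wk G S u v 1) : G.Adj u v := by
  obtain ⟨_, w, h1, h2⟩ := succ_iff.1 h
  rwa [h2.eq_of_zero] at h1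

/-- General transfer of a walk to another graph and set. -/
theorem transfer (h : Wk G S u v n) (hS : S ⊆ S')
    (hG : ∀ a ∈ S, ∀ b ∈ S, G.Adj a b → G'.Adj a b) : Wk G' S' u v n := by
  induction h with
  | nil h => exact nil (hS h)
  | cons h1 h2 h3 ih => exact cons (hS h1) (hG _ h1 _ h3.left h2) ih

theorem mono (h : Wk G S u v n) (hS : S ⊆ S') : Wk G S' u v n := h.transfer hS fun _ _ _ _ h => h

theorem monoG (h : Wk G S u v n) (hG : G ≤ G') : Wk G' S u v n :=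
  h.transfer Subset.rfl fun _ _ _ _ h => hG h

theorem univ (h : Wk G S u v n) : Wk G univ u v n := h.mono (subset_univ _)

theorem trans (h : Wk G S u v n) (h' : Wk G S v w m) : Wk G S u w (n + m) := by
  induction h with
  | nil _ => simpa using h'
  | @cons a b c n h1 h2 _ ih =>
    have := cons h1 h2 (ih h')
    rwa [show n + 1 + m = n + m + 1 by omega]

theorem snoc (h : Wk G S u v n) (ha : G.Adj v w) (hw : w ∈ S) : Wk G S u w (n + 1) :=
  h.trans (single h.right hw ha)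

theorem symm (h : Wk G S u v n) : Wk G S v u n := by
  induction h with
  | nil h => exact nil h
  | cons h1 h2 _ ih => exact ih.snoc h2.symm h1

theorem trans' (h : Wk G S u v n) (h' : Wk G S' v w m) : Wk G (S ∪ S') u w (n + m) :=
  (h.mono subset_union_left).trans (h'.mono subset_union_right)

theorem succ_iff' : Wk G S u v (n + 1) ↔ v ∈ S ∧ ∃ w, Wk G S u w n ∧ G.Adj w v :=
  ⟨fun h => by
    obtain ⟨h1, w, h2, h3⟩ := succ_iff.1 h.symm
    exact ⟨h1, w, h3.symm, h2.symm⟩, fun ⟨h1, _, h2, h3⟩ => h2.snoc h3 h1⟩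

theorem split (h : Wk G S u v (n + m)) : ∃ w, Wk G S u w n ∧ Wk G S w v m := by
  induction n generalizing u with
  | zero => exact ⟨u, nil h.left, by simpa using h⟩
  | succ n ih =>
    rw [show n + 1 + m = n + m + 1 by omega] at h
    obtain ⟨h1, a, h2, h3⟩ := succ_iff.1 h
    obtain ⟨w, h4, h5⟩ := ih h3
    exact ⟨w, cons h1 h2 h4, h5⟩

theorem le (h : Wk G S u v n) (hn : n ≤ m) : WkLe G S u v m := ⟨n, hn, h⟩

theorem rch (h : Wk G S u v n) : Rch G S u v := ⟨n, h⟩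

/-- Split a walk at its first vertex in `B`. -/
theorem first_hit (h : Wk G S u v n) (hv : v ∈ B) :
    ∃ w ∈ B, ∃ k l, k + l = n ∧ Wk G ((S \ B) ∪ {w}) u w k ∧ Wk G S w v l := by
  classical
  induction h with
  | @nil a h => exact ⟨a, hv, 0, 0, rfl, nil (Or.inr rfl), nil h⟩
  | @cons a b c n h1 h2 h3 ih =>
    by_cases ha : a ∈ B
    · exact ⟨a, ha, 0, n + 1, by omega, nil (Or.inr rfl), cons h1 h2 h3⟩
    · obtain ⟨w, hw, k, l, hkl, h4, h5⟩ := ih hv
      exact ⟨w, hw, k + 1, l, by omega, cons (Or.inl ⟨h1, ha⟩) h2 h4, h5⟩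

/-- Split a walk at its last vertex in `B`. -/
theorem last_hit (h : Wk G S u v n) (hu : u ∈ B) :
    ∃ w ∈ B, ∃ k l, k + l = n ∧ Wk G S u w k ∧ Wk G ((S \ B) ∪ {w}) w v l := by
  obtain ⟨w, hw, k, l, hkl, h1, h2⟩ := h.symm.first_hit hu
  exact ⟨w, hw, l, k, by omega, h2.symm, h1.symm⟩

/-- A walk avoids `B` or has a first vertex in `B`. -/
theorem avoid_or_hit (h : Wk G S u v n) (B : Set V) : Wk G (S \ B) u v n ∨
    ∃ w ∈ B, ∃ k l, k + l = n ∧ Wk G ((S \ B) ∪ {w}) u w k ∧ Wk G S w v l := by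
  classical
  induction h with
  | @nil a h =>
    by_cases ha : a ∈ B
    · exact Or.inr ⟨a, ha, 0, 0, rfl, nil (Or.inr rfl), nil h⟩
    · exact Or.inl (nil ⟨h, ha⟩)
  | @cons a b c n h1 h2 h3 ih =>
    by_cases ha : a ∈ B
    · exact Or.inr ⟨a, ha, 0, n + 1, by omega, nil (Or.inr rfl), cons h1 h2 h3⟩
    · rcases ih with ih | ⟨w, hw, k, l, hkl, h4, h5⟩
      · exact Or.inl (cons ⟨h1, ha⟩ h2 ih)
      · exact Or.inr ⟨w, hw, k + 1, l, by omega, cons (Or.inl ⟨h1, ha⟩) h2 h4, h5⟩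

/-- A walk avoids `B` or has a last vertex in `B`. -/
theorem avoid_or_last (h : Wk G S u v n) (B : Set V) : Wk G (S \ B) u v n ∨
    ∃ w ∈ B, ∃ k l, k + l = n ∧ Wk G S u w k ∧ Wk G ((S \ B) ∪ {w}) w v l := by
  rcases h.symm.avoid_or_hit B with h1 | ⟨w, hw, k, l, hkl, h1, h2⟩
  · exact Or.inl h1.symm
  · exact Or.inr ⟨w, hw, l, k, by omega, h2.symm, h1.symm⟩

/-- Every vertex of a walk is reached from the start and reaches the end within the walk. -/
theorem self_ball (h : Wk G S u v n) :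
    Wk G {w | ∃ k l, k + l = n ∧ Wk G S u w k ∧ Wk G S w v l} u v n := by
  induction h with
  | @nil a h => exact nil ⟨0, 0, rfl, nil h, nil h⟩
  | @cons a b c n h1 h2 h3 ih =>
    refine cons ⟨0, n + 1, by omega, nil h1, cons h1 h2 h3⟩ h2 (ih.mono ?_)
    rintro w ⟨k, l, hkl, h4, h5⟩
    exact ⟨k + 1, l, by omega, cons h1 h2 h4, h5⟩

/-- A set closed under adjacency inside `S` contains the end of a walk that starts in it. -/
theorem closed (h : Wk G S u v n) (hu : u ∈ B)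
    (hB : ∀ a ∈ B, ∀ b ∈ S, a ∈ S → G.Adj a b → b ∈ B) : v ∈ B := by
  induction h with
  | nil _ => exact hu
  | cons h1 h2 h3 ih => exact ih (hB _ hu _ h3.left h1 h2)

theorem to_res (h : Wk G S u v n) (hS : S ⊆ S') : Wk (res G S') S u v n :=
  h.transfer Subset.rfl fun _ ha _ hb hab => ⟨hab, hS ha, hS hb⟩

/-- A walk in `res G A` that starts in `A` stays in `A`. -/
theorem of_res {A : Set V} (h : Wk (res G A) S u v n) (hu : u ∈ A) : Wk G (S ∩ A) u v n := by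
  induction h with
  | nil h => exact nil ⟨h, hu⟩
  | cons h1 h2 _ ih => exact cons ⟨h1, hu⟩ h2.1 (ih h2.2.2)

theorem to_cut {b : Set V} (h : Wk G S u v n) (hb : (S ∩ b).Subsingleton) : Wk (cut G b) S u v n :=
  h.transfer Subset.rfl fun _ ha _ hc hac => ⟨hac, fun h' => hac.ne (hb ⟨ha, h'.1⟩ ⟨hc, h'.2⟩)⟩

theorem exists_fun (h : Wk G S u v n) : ∃ f : ℕ → V, f 0 = u ∧ f n = v ∧
    (∀ i < n, G.Adj (f i) (f (i + 1))) ∧ ∀ i ≤ n, f i ∈ S := by
  induction h with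
  | @nil a h => exact ⟨fun _ => a, rfl, rfl, by simp, fun _ _ => h⟩
  | @cons a b c n h1 h2 _ ih =>
    obtain ⟨f, h3, h4, h5, h6⟩ := ih
    refine ⟨fun i => if i = 0 then a else f (i - 1), by simp, by simpa using h4, ?_, ?_⟩
    · intro i hi
      rcases i with _ | i
      · simpa [h3] using h2
      · simpa using h5 i (by omega)
    · intro i hi
      rcases i with _ | i
      · simpa using h1
      · simpa using h6 i (by omega)

theorem of_fun (f : ℕ → V) (hadj : ∀ i < n, G.Adj (f i) (f (i + 1))) (hS : ∀ i ≤ n, f i ∈ S) :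
    Wk G S (f 0) (f n) n := by
  induction n with
  | zero => exact nil (hS 0 le_rfl)
  | succ n ih =>
    exact (ih (fun i hi => hadj i (by omega)) (fun i hi => hS i (by omega))).snoc
      (hadj n (by omega)) (hS _ le_rfl)

/-- Parity of a walk in a properly two-coloured graph. -/
theorem parity {σ : V → Bool} (h : Wk G S u v n) (hσ : ∀ a b, G.Adj a b → σ a ≠ σ b) :
    σ u = σ v ↔ Even n := by
  induction h with
  | nil _ => simp
  | @cons a b c n _ h2 _ ih =>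
    have := hσ _ _ h2
    rw [Nat.even_add_one, ← ih]
    revert this
    cases σ a <;> cases σ b <;> cases σ c <;> simp

/-- The vertices of a walk can be enclosed in a finite set with at most `n + 1` elements. -/
theorem tight [DecidableEq V] (h : Wk G S u v n) :
    ∃ T : Finset V, ↑T ⊆ S ∧ T.card ≤ n + 1 ∧ Wk G ↑T u v n := by
  induction h with
  | @nil a h => exact ⟨{a}, by simpa using h, by simp, nil (by simp)⟩
  | @cons a b c n h1 h2 _ ih =>
    obtain ⟨T, h3, h4, h5⟩ := ih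
    refine ⟨insert a T, ?_, (Finset.card_insert_le _ _).trans (by omega),
      cons (by simp) h2 (h5.mono (by simp [subset_insert]))⟩
    rw [Finset.coe_insert]
    exact insert_subset h1 h3

end Wk

namespace WkLe

theorem left (h : WkLe G S u v n) : u ∈ S := h.choose_spec.2.left
theorem right (h : WkLe G S u v n) : v ∈ S := h.choose_spec.2.right
theorem refl (hu : u ∈ S) (n : ℕ) : WkLe G S u u n := (Wk.nil hu).le (Nat.zero_le _)
theorem single (hu : u ∈ S) (hv : v ∈ S) (h : G.Adj u v) : WkLe G S u v 1 :=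
  (Wk.single hu hv h).le le_rfl
theorem eq_of_zero (h : WkLe G S u v 0) : u = v := by
  obtain ⟨k, hk, h⟩ := h
  obtain rfl : k = 0 := by omega
  exact h.eq_of_zero
theorem le (h : WkLe G S u v n) (hn : n ≤ m) : WkLe G S u v m :=
  let ⟨k, hk, h⟩ := h; ⟨k, hk.trans hn, h⟩
theorem transfer (h : WkLe G S u v n) (hS : S ⊆ S')
    (hG : ∀ a ∈ S, ∀ b ∈ S, G.Adj a b → G'.Adj a b) : WkLe G' S' u v n :=
  let ⟨k, hk, h⟩ := h; ⟨k, hk, h.transfer hS hG⟩
theorem mono (h : WkLe G S u v n) (hS : S ⊆ S') : WkLe G S' u v n :=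
  let ⟨k, hk, h⟩ := h; ⟨k, hk, h.mono hS⟩
theorem monoG (h : WkLe G S u v n) (hG : G ≤ G') : WkLe G' S u v n :=
  let ⟨k, hk, h⟩ := h; ⟨k, hk, h.monoG hG⟩
theorem univ (h : WkLe G S u v n) : WkLe G univ u v n := h.mono (subset_univ _)
theorem symm (h : WkLe G S u v n) : WkLe G S v u n := let ⟨k, hk, h⟩ := h; ⟨k, hk, h.symm⟩
theorem trans (h : WkLe G S u v n) (h' : WkLe G S v w m) : WkLe G S u w (n + m) :=
  let ⟨k, hk, h⟩ := h; let ⟨l, hl, h'⟩ := h'; ⟨k + l, by omega, h.trans h'⟩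
theorem trans' (h : WkLe G S u v n) (h' : WkLe G S' v w m) : WkLe G (S ∪ S') u w (n + m) :=
  (h.mono subset_union_left).trans (h'.mono subset_union_right)
theorem cons (hu : u ∈ S) (ha : G.Adj u w) (h : WkLe G S w v n) : WkLe G S u v (n + 1) :=
  let ⟨k, hk, h⟩ := h; ⟨k + 1, by omega, Wk.cons hu ha h⟩
theorem snoc (h : WkLe G S u v n) (ha : G.Adj v w) (hw : w ∈ S) : WkLe G S u w (n + 1) :=
  let ⟨k, hk, h⟩ := h; ⟨k + 1, by omega, h.snoc ha hw⟩
theorem rch (h : WkLe G S u v n) : Rch G S u v := let ⟨k, _, h⟩ := h; ⟨k, h⟩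

theorem first_hit (h : WkLe G S u v n) (hv : v ∈ B) :
    ∃ w ∈ B, WkLe G ((S \ B) ∪ {w}) u w n ∧ WkLe G S w v n := by
  obtain ⟨k, hk, h⟩ := h
  obtain ⟨w, hw, a, b, hab, h1, h2⟩ := h.first_hit hv
  exact ⟨w, hw, h1.le (by omega), h2.le (by omega)⟩

theorem last_hit (h : WkLe G S u v n) (hu : u ∈ B) :
    ∃ w ∈ B, WkLe G S u w n ∧ WkLe G ((S \ B) ∪ {w}) w v n := by
  obtain ⟨w, hw, h1, h2⟩ := h.symm.first_hit hu
  exact ⟨w, hw, h2.symm, h1.symm⟩

theorem avoid_or_hit (h : WkLe G S u v n) (B : Set V) : WkLe G (S \ B) u v n ∨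
    ∃ w ∈ B, WkLe G ((S \ B) ∪ {w}) u w n ∧ WkLe G S w v n := by
  obtain ⟨k, hk, h⟩ := h
  rcases h.avoid_or_hit B with h1 | ⟨w, hw, a, b, hab, h1, h2⟩
  · exact Or.inl (h1.le hk)
  · exact Or.inr ⟨w, hw, h1.le (by omega), h2.le (by omega)⟩

theorem avoid_or_last (h : WkLe G S u v n) (B : Set V) : WkLe G (S \ B) u v n ∨
    ∃ w ∈ B, WkLe G S u w n ∧ WkLe G ((S \ B) ∪ {w}) w v n := by
  rcases h.symm.avoid_or_hit B with h1 | ⟨w, hw, h1, h2⟩
  · exact Or.inl h1.symm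
  · exact Or.inr ⟨w, hw, h2.symm, h1.symm⟩

/-- All vertices of a walk of length at most `n` lie in the ball of radius `n` around its start. -/
theorem self_ball (h : WkLe G S u v n) : WkLe G {w | WkLe G S u w n} u v n := by
  obtain ⟨k, hk, h⟩ := h
  refine ⟨k, hk, h.self_ball.mono ?_⟩
  rintro w ⟨a, b, hab, h1, _⟩
  exact h1.le (by omega)

theorem to_res (h : WkLe G S u v n) (hS : S ⊆ S') : WkLe (res G S') S u v n :=
  let ⟨k, hk, h⟩ := h; ⟨k, hk, h.to_res hS⟩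
theorem of_res {A : Set V} (h : WkLe (res G A) S u v n) (hu : u ∈ A) : WkLe G (S ∩ A) u v n :=
  let ⟨k, hk, h⟩ := h; ⟨k, hk, h.of_res hu⟩
theorem to_cut {b : Set V} (h : WkLe G S u v n) (hb : (S ∩ b).Subsingleton) :
    WkLe (cut G b) S u v n :=
  let ⟨k, hk, h⟩ := h; ⟨k, hk, h.to_cut hb⟩
theorem tight [DecidableEq V] (h : WkLe G S u v n) :
    ∃ T : Finset V, ↑T ⊆ S ∧ T.card ≤ n + 1 ∧ WkLe G ↑T u v n := by
  obtain ⟨k, hk, h⟩ := h
  obtain ⟨T, h1, h2, h3⟩ := h.tight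
  exact ⟨T, h1, by omega, h3.le hk⟩

theorem succ_cases (h : WkLe G S u v (n + 1)) :
    u = v ∨ ∃ w, G.Adj u w ∧ WkLe G S w v n := by
  obtain ⟨k, hk, h⟩ := h
  rcases k with _ | k
  · exact Or.inl h.eq_of_zero
  · obtain ⟨_, w, h1, h2⟩ := Wk.succ_iff.1 h
    exact Or.inr ⟨w, h1, h2.le (by omega)⟩

theorem succ_cases' (h : WkLe G S u v (n + 1)) :
    u = v ∨ ∃ w, WkLe G S u w n ∧ G.Adj w v := by
  rcases h.symm.succ_cases with h1 | ⟨w, h1, h2⟩
  · exact Or.inl h1.symm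
  · exact Or.inr ⟨w, h2.symm, h1.symm⟩

end WkLe

namespace Rch

theorem left (h : Rch G S u v) : u ∈ S := h.choose_spec.left
theorem right (h : Rch G S u v) : v ∈ S := h.choose_spec.right
theorem refl (hu : u ∈ S) : Rch G S u u := (Wk.nil hu).rch
theorem single (hu : u ∈ S) (hv : v ∈ S) (h : G.Adj u v) : Rch G S u v := (Wk.single hu hv h).rch
theorem transfer (h : Rch G S u v) (hS : S ⊆ S')
    (hG : ∀ a ∈ S, ∀ b ∈ S, G.Adj a b → G'.Adj a b) : Rch G' S' u v :=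
  let ⟨k, h⟩ := h; ⟨k, h.transfer hS hG⟩
theorem mono (h : Rch G S u v) (hS : S ⊆ S') : Rch G S' u v := let ⟨k, h⟩ := h; ⟨k, h.mono hS⟩
theorem monoG (h : Rch G S u v) (hG : G ≤ G') : Rch G' S u v := let ⟨k, h⟩ := h; ⟨k, h.monoG hG⟩
theorem symm (h : Rch G S u v) : Rch G S v u := let ⟨k, h⟩ := h; ⟨k, h.symm⟩
theorem trans (h : Rch G S u v) (h' : Rch G S v w) : Rch G S u w :=
  let ⟨_, h⟩ := h; let ⟨_, h'⟩ := h'; ⟨_, h.trans h'⟩
theorem trans' (h : Rch G S u v) (h' : Rch G S' v w) : Rch G (S ∪ S') u w :=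
  (h.mono subset_union_left).trans (h'.mono subset_union_right)
theorem cons (hu : u ∈ S) (ha : G.Adj u w) (h : Rch G S w v) : Rch G S u v :=
  let ⟨_, h⟩ := h; ⟨_, Wk.cons hu ha h⟩
theorem snoc (h : Rch G S u v) (ha : G.Adj v w) (hw : w ∈ S) : Rch G S u w :=
  let ⟨_, h⟩ := h; ⟨_, h.snoc ha hw⟩

theorem first_hit (h : Rch G S u v) (hv : v ∈ B) :
    ∃ w ∈ B, Rch G ((S \ B) ∪ {w}) u w ∧ Rch G S w v := by
  obtain ⟨k, h⟩ := h
  obtain ⟨w, hw, a, b, _, h1, h2⟩ := h.first_hit hv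
  exact ⟨w, hw, h1.rch, h2.rch⟩

theorem last_hit (h : Rch G S u v) (hu : u ∈ B) :
    ∃ w ∈ B, Rch G S u w ∧ Rch G ((S \ B) ∪ {w}) w v := by
  obtain ⟨w, hw, h1, h2⟩ := h.symm.first_hit hu
  exact ⟨w, hw, h2.symm, h1.symm⟩

theorem avoid_or_hit (h : Rch G S u v) (B : Set V) : Rch G (S \ B) u v ∨
    ∃ w ∈ B, Rch G ((S \ B) ∪ {w}) u w ∧ Rch G S w v := by
  obtain ⟨k, h⟩ := h
  rcases h.avoid_or_hit B with h1 | ⟨w, hw, a, b, _, h1, h2⟩
  · exact Or.inl h1.rch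
  · exact Or.inr ⟨w, hw, h1.rch, h2.rch⟩

theorem avoid_or_last (h : Rch G S u v) (B : Set V) : Rch G (S \ B) u v ∨
    ∃ w ∈ B, Rch G S u w ∧ Rch G ((S \ B) ∪ {w}) w v := by
  rcases h.symm.avoid_or_hit B with h1 | ⟨w, hw, h1, h2⟩
  · exact Or.inl h1.symm
  · exact Or.inr ⟨w, hw, h2.symm, h1.symm⟩

theorem self_ball (h : Rch G S u v) : Rch G {w | Rch G S u w ∧ Rch G S w v} u v := by
  obtain ⟨k, h⟩ := h
  refine ⟨k, h.self_ball.mono ?_⟩
  rintro w ⟨a, b, _, h1, h2⟩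
  exact ⟨h1.rch, h2.rch⟩

theorem closed (h : Rch G S u v) (hu : u ∈ B)
    (hB : ∀ a ∈ B, ∀ b ∈ S, a ∈ S → G.Adj a b → b ∈ B) : v ∈ B :=
  let ⟨_, h⟩ := h; h.closed hu hB

theorem to_res (h : Rch G S u v) (hS : S ⊆ S') : Rch (res G S') S u v :=
  let ⟨k, h⟩ := h; ⟨k, h.to_res hS⟩
theorem of_res {A : Set V} (h : Rch (res G A) S u v) (hu : u ∈ A) : Rch G (S ∩ A) u v :=
  let ⟨k, h⟩ := h; ⟨k, h.of_res hu⟩

end Rch

/-- Breadth first search from a set `C` of centres inside `S`: depth, parent and owner functions.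
The reached vertices are those with `∃ c ∈ C, Rch G S c y`. -/
theorem bfs (G : SimpleGraph V) (S C : Set V) : ∃ (dep : V → ℕ) (par own : V → V),
    (∀ c ∈ C, ∀ y n, Wk G S c y n → dep y ≤ n) ∧
    ∀ y, (∃ c ∈ C, Rch G S c y) →
      own y ∈ C ∧ Wk G S (own y) y (dep y) ∧ (dep y = 0 → own y = y) ∧
      (dep y ≠ 0 → G.Adj (par y) y ∧ par y ∈ S ∧ (∃ c ∈ C, Rch G S c (par y)) ∧
        dep (par y) + 1 = dep y ∧ own (par y) = own y) ∧
      Wk G {z | (∃ c ∈ C, Rch G S c z) ∧ own z = own y ∧ (dep z < dep y ∨ z = y)}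
        (own y) y (dep y) := by
  classical
  let dep : V → ℕ := fun y => sInf {n | ∃ c ∈ C, Wk G S c y n}
  have hle : ∀ c ∈ C, ∀ y n, Wk G S c y n → dep y ≤ n := fun c hc y n h => Nat.sInf_le ⟨c, hc, h⟩
  have hmem : ∀ y, (∃ c ∈ C, Rch G S c y) → ∃ c ∈ C, Wk G S c y (dep y) := by
    rintro y ⟨c, hc, n, h⟩
    exact Nat.sInf_mem (s := {n | ∃ c ∈ C, Wk G S c y n}) ⟨n, c, hc, h⟩
  have hpar : ∀ y, ∃ p, (∃ c ∈ C, Rch G S c y) → dep y ≠ 0 →
      G.Adj p y ∧ p ∈ S ∧ (∃ c ∈ C, Rch G S c p) ∧ dep p + 1 = dep y := by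
    intro y
    by_cases h : (∃ c ∈ C, Rch G S c y) ∧ dep y ≠ 0
    · obtain ⟨c, hc, hw⟩ := hmem y h.1
      obtain ⟨d, hd⟩ := Nat.exists_eq_succ_of_ne_zero h.2
      rw [hd] at hw
      obtain ⟨hy, p, h1, h2⟩ := Wk.succ_iff'.1 hw
      refine ⟨p, fun _ _ => ⟨h2, h1.right, ⟨c, hc, h1.rch⟩, ?_⟩⟩
      have h3 := hle c hc p d h1
      obtain ⟨c', hc', h4⟩ := hmem p ⟨c, hc, h1.rch⟩
      have h5 := hle c' hc' y _ (h4.snoc h2 hy)
      omega
    · exact ⟨y, fun h1 h2 => (h ⟨h1, h2⟩).elim⟩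
  choose par hpar using hpar
  let own : V → V := fun y => par^[dep y] y
  have hown : ∀ y, (∃ c ∈ C, Rch G S c y) → dep y ≠ 0 → own (par y) = own y := by
    intro y h1 h2
    have := (hpar y h1 h2).2.2.2
    show par^[dep (par y)] (par y) = par^[dep y] y
    rw [← this, Function.iterate_succ_apply]
  have hown0 : ∀ y, dep y = 0 → own y = y := by
    intro y h
    show par^[dep y] y = y
    rw [h]; rfl
  have key : ∀ d y, dep y = d → (∃ c ∈ C, Rch G S c y) → own y ∈ C ∧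
      Wk G {z | (∃ c ∈ C, Rch G S c z) ∧ own z = own y ∧ (dep z < dep y ∨ z = y)}
        (own y) y (dep y) := by
    intro d
    induction d with
    | zero =>
      intro y hy hr
      obtain ⟨c, hc, hw⟩ := hmem y hr
      rw [hy] at hw
      rw [hown0 y hy, hy]
      exact ⟨hw.eq_of_zero ▸ hc, Wk.nil ⟨hr, hown0 y hy, Or.inr rfl⟩⟩
    | succ d ih =>
      intro y hy hr
      obtain ⟨h1, h2, h3, h4⟩ := hpar y hr (by omega)
      have h5 := hown y hr (by omega)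
      obtain ⟨h6, h7⟩ := ih (par y) (by omega) h3
      rw [h5] at h6 h7
      refine ⟨h6, ?_⟩
      rw [← h4]
      refine (h7.mono ?_).snoc h1 ⟨hr, rfl, Or.inr rfl⟩
      rintro z ⟨h8, h9, h10⟩
      refine ⟨h8, h9, Or.inl ?_⟩
      rcases h10 with h10 | rfl <;> omega
  refine ⟨dep, par, own, hle, fun y hr => ⟨(key _ y rfl hr).1, (key _ y rfl hr).2.mono ?_,
    hown0 y, fun h => ?_, (key _ y rfl hr).2⟩⟩
  · rintro z ⟨⟨c, _, h⟩, _⟩
    exact h.right
  · obtain ⟨h1, h2, h3, h4⟩ := hpar y hr h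
    exact ⟨h1, h2, h3, h4, hown y hr h⟩

end Pool.Agent.P.MP_0cc987_co
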